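import Pool.Agent.LGC.Defs

/-!
# Finite covers: moves which preserve the classes modulo `N`, and the bound `4 r K ≤ h + 1`

Helper35, for MP_0707f5_ag (Theorem C of helper21, with one handle less).

The moves used for `St_Cnj` and `St_Slo` do not change the classes of the other items modulo `N`.  So
a killed handle in the context remains killed, and the growth of `cyc R w (E P)` can be done with this
handle in the context.  At the end `E B` alone generates the cyclic module, the killed handle of the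
context gets a first component `γ` of weight zero, and `T' = T ∘ R γ` is used for the handles `B` only.
-/

set_option autoImplicit false

namespace Pool.Agent.LGC

open Matrix Module Helper12.Sc
open SpQ (Hd WStep WReach WExt Good bare bd cj1 IsSpinStructure)
open LGP (F ga gb gx x0 MC NS MR stdL stdM dstd wty prj cyc)

/-- the letters of an item, without the weights -/
def nwt {Γ : Type} {k : ℕ} : It Γ k → (Γ × Γ) ⊕ Γ
  | Sum.inl h => Sum.inl h.1
  | Sum.inr y => Sum.inr y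

/-- the classes of the letters of an item modulo `N` -/
def cls {Γ : Type} [Group Γ] {k : ℕ} (N : Subgroup Γ) : It Γ k → ((Γ ⧸ N) × (Γ ⧸ N)) ⊕ (Γ ⧸ N)
  | Sum.inl h => Sum.inl ((h.1.1 : Γ ⧸ N), (h.1.2 : Γ ⧸ N))
  | Sum.inr y => Sum.inr (y : Γ ⧸ N)

/-- **CNK**.  `St_Cnj` with moves which do not change the classes of the other items modulo `N`.
PROOF. The proof of `St_Cnj`; in every state `(X₁, p', X₂)` the classes of `X₁ ++ X₂` are those of `X`,
because the letters are multiplied with, or conjugated by, elements of the groups of conjugates of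
`p`, which are in `N`.  (With `N = ⊤` this gives `St_Cnj`.) -/
def St_Cnk : Prop := ∀ (Γ : Type) [Group Γ] (k : ℕ) (N : Subgroup Γ) [N.Normal]
    (X : List (It Γ k)) (p : Hd Γ k) (H : Subgroup Γ), Kl N p →
    (∀ (X' : List (It Γ k)) (v : Γ), IReach (X ++ [Sum.inl p]) (X' ++ [Sum.inl (cj1 v p)]) →
      X'.map (cls N) = X.map (cls N) → SpQ.E [cj1 v p] ≤ H) →
    ∀ v ∈ GI X, SpQ.E [cj1 v p] ≤ H

/-- **SLK**.  `St_Slo`; the other items do not change, except for their weights.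
PROOF. The proof of `St_Slo`. -/
def St_Slk : Prop := ∀ (Γ : Type) [Group Γ] (k : ℕ) (X : List (It Γ k)) (b : Γ)
    (o : ZMod k × ZMod k) (u : Γ), u ∈ GI X → ∃ (X' : List (It Γ k)) (t : ZMod k),
    IReach (X ++ [Sum.inl ((1, b), o)]) (X' ++ [Sum.inl ((1, u * b), (o.1, t))]) ∧
      X'.map nwt = X.map nwt

/-- **GNK**.  `St_Gno` with moves which do not change the classes of `X` modulo `N`. -/
def St_Gnk : Prop := ∀ (Γ : Type) [Group Γ] (k : ℕ) (N : Subgroup Γ) [N.Normal]
    (X : List (It Γ k)) (B : List (Hd Γ k)), B ≠ [] → (∀ h ∈ B, Good h) → (∀ h ∈ B, Kl N h) →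
    GI (X ++ hl B) = ⊤ → ∀ H : Subgroup Γ,
    (∀ (X' : List (It Γ k)) (B' : List (Hd Γ k)), IReach (X ++ hl B) (X' ++ hl B') →
      X'.map (cls N) = X.map (cls N) →
      B'.length = B.length → (∀ h ∈ B', Good h) → (∀ h ∈ B', Kl N h) → SpQ.E B' ≤ H) → N ≤ H

/-- **GEK**.  `St_Gen` with moves which do not change the classes of `X` modulo `N`. -/
def St_Gek : Prop := ∀ (Γ : Type) [Group Γ] (k : ℕ) (N : Subgroup Γ) [N.Normal]
    (X : List (It Γ k)) (B : List (Hd Γ k)), B ≠ [] → (∀ h ∈ B, Good h) → (∀ h ∈ B, Kl N h) →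
    ∀ H : Subgroup Γ,
    (∀ (X' : List (It Γ k)) (B' : List (Hd Γ k)), IReach (X ++ hl B) (X' ++ hl B') →
      X'.map (cls N) = X.map (cls N) →
      B'.length = B.length → (∀ h ∈ B', Good h) → (∀ h ∈ B', Kl N h) → SpQ.E B' ≤ H) →
    N ⊓ GI (X ++ hl B) ≤ H

/-- **GRW**.  In a suitable system the killed good handles generate the cyclic module. -/
def St_Grw : Prop := ∀ (K U Γ : Type) [Field K] [AddCommGroup U] [Module K U] [Group Γ]
    [FiniteDimensional K U] (k : ℕ) (N : Subgroup Γ) [N.Normal] (R : N →* Module.End K U) (w : U)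
    (X : List (It Γ k)) (B : List (Hd Γ k)), (∀ h ∈ B, Good h) → (∀ h ∈ B, Kl N h) →
    cyc R w ((GI (X ++ hl B)).subgroupOf N) = cyc R w ⊤ →
    2 * finrank K (cyc R w ⊤) ≤ B.length + 2 →
    ∃ (X' : List (It Γ k)) (B' : List (Hd Γ k)), IReach (X ++ hl B) (X' ++ hl B') ∧
      X'.map (cls N) = X.map (cls N) ∧ B'.length = B.length ∧ (∀ h ∈ B', Good h) ∧
      (∀ h ∈ B', Kl N h) ∧ cyc R w ((SpQ.E B').subgroupOf N) = cyc R w ⊤

/-- **VEK**.  `St_Vez` with one handle less.
PROOF. `B₀ = h₀ :: G₀`; `SpQ.exists_good`: `h₁ :: B`, `B` good; `St_Grw` for `X = X₀ ++ [inl h₁]` and `B`,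
`B.length + 2 = B₀.length + 1`: `X' = X₀' ++ [inl h₁']`, where `h₁'` is killed because its classes are
trivial, and `cyc R w (E B') = cyc R w ⊤`.  `SpQ.exists_zero`: `h₁'` becomes `((γ, δ), (0, q))`.
`LGP.St_Wvec` for the group `N`, the handles `B'` and `T' = T ∘ R γ`: for `x ∈ fc B' (-1)`,
`γ * x ∈ fc (((γ, δ), (0, q)) :: B') 0` (`SpQ.fc_mul`).  So `T'` vanishes on `cyc R w ⊤`. -/
def St_Vek : Prop := ∀ (K U Γ : Type) [Field K] [AddCommGroup U] [Module K U] [Group Γ]
    [FiniteDimensional K U] (k : ℕ) (N : Subgroup Γ) [N.Normal] (R : N →* Module.End K U) (w : U)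
    (X₀ : List (It Γ k)) (B₀ : List (Hd Γ k)), (∀ h ∈ B₀, Kl N h) → GI (X₀ ++ hl B₀) = ⊤ →
    2 * finrank K (cyc R w ⊤) ≤ B₀.length + 1 →
    ∀ T : U →ₗ[K] K,
    (∀ (X' : List (It Γ k)) (P : List (Hd Γ k)), IReach (X₀ ++ hl B₀) (X' ++ hl P) →
      (∀ h ∈ P, Kl N h) → ∀ (x : Γ) (hx : x ∈ N), x ∈ SpQ.fc P 0 → T (R ⟨x, hx⟩ w) = 0) →
    ∀ x : N, T (R x w) = 0

end Pool.Agent.LGC
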