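import Pool.Agent.LGC.Bas
import Pool.Agent.LGC.Cls
import Pool.Agent.LGP.WVec

/-!
# The vector theorem for loops of weight zero, with one handle less

Helper35, for MP_0707f5_ag (Theorem C).
-/

set_option autoImplicit false

namespace Pool.Agent.LGC

open Module Helper12.Sc
open SpQ (Hd WStep WReach WExt Good bare bd cj1)
open LGP (cyc)

section
variable {Γ : Type} [Group Γ] {k : ℕ}

/-- the group of the image of a list -/
theorem E_mapH {Δ : Type} [Group Δ] (f : Γ →* Δ) (L : List (Hd Γ k)) :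
    SpQ.E (SpQ.mapH f L) = (SpQ.E L).map f := by
  apply le_antisymm
  · rw [SpQ.E_le]
    intro h hh
    obtain ⟨h', hh', rfl⟩ := List.mem_map.1 hh
    exact ⟨⟨_, SpQ.fst_mem_E hh', rfl⟩, ⟨_, SpQ.snd_mem_E hh', rfl⟩⟩
  · rw [Subgroup.map_le_iff_le_comap, SpQ.E_le]
    intro h hh
    have h1 : ((f h.1.1, f h.1.2), h.2) ∈ SpQ.mapH f L := List.mem_map.2 ⟨h, hh, rfl⟩
    exact ⟨SpQ.fst_mem_E h1, SpQ.snd_mem_E h1⟩

/-- killed handles are handles of `N` -/
theorem exists_mapH (N : Subgroup Γ) : ∀ B : List (Hd Γ k), (∀ h ∈ B, Kl N h) →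
    ∃ C : List (Hd N k), SpQ.mapH N.subtype C = B := by
  intro B
  induction B with
  | nil => exact fun _ => ⟨[], rfl⟩
  | cons h B ih =>
    intro hB
    obtain ⟨C, hC⟩ := ih fun x hx => hB x (List.mem_cons_of_mem _ hx)
    have hh := hB h List.mem_cons_self
    refine ⟨((⟨h.1.1, hh.1⟩, ⟨h.1.2, hh.2⟩), h.2) :: C, ?_⟩
    rw [← hC]
    rfl

/-- items with the classes of a killed handle -/
theorem cls_killed {N : Subgroup Γ} {i : It Γ k} {h : Hd Γ k} (hh : Kl N h)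
    (hi : cls N i = cls N (Sum.inl h)) : ∃ h' : Hd Γ k, i = Sum.inl h' ∧ Kl N h' := by
  rcases i with h' | y
  · refine ⟨h', rfl, ?_⟩
    have h1 : (((h'.1.1 : Γ ⧸ N), (h'.1.2 : Γ ⧸ N)) : (Γ ⧸ N) × (Γ ⧸ N)) =
        ((h.1.1 : Γ ⧸ N), (h.1.2 : Γ ⧸ N)) := Sum.inl.inj hi
    rw [Prod.mk.injEq] at h1
    obtain ⟨h2, h3⟩ := h1
    have h4 := QuotientGroup.eq.1 h2
    have h5 := QuotientGroup.eq.1 h3
    refine ⟨?_, ?_⟩
    · have := N.mul_mem hh.1 (N.inv_mem h4)
      exact LGP.mem_word (by group) this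
    · have := N.mul_mem hh.2 (N.inv_mem h5)
      exact LGP.mem_word (by group) this
  · exact absurd hi Sum.inr_ne_inl

/-- the vector theorem for killed handles -/
theorem wvec_killed {K U : Type} [Field K] [AddCommGroup U] [Module K U] [FiniteDimensional K U]
    {N : Subgroup Γ} (R : N →* Module.End K U) (w : U) (B : List (Hd Γ k))
    (hg : ∀ h ∈ B, Good h) (hk : ∀ h ∈ B, Kl N h)
    (hlen : 2 * finrank K (cyc R w ((SpQ.E B).subgroupOf N)) ≤ B.length + 2)
    (T : U →ₗ[K] K) (h0 : T w = 0)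
    (hT : ∀ (x : Γ) (hx : x ∈ N), x ∈ SpQ.fc B (-1) → T (R ⟨x, hx⟩ w) = 0) :
    ∀ x : N, (x : Γ) ∈ SpQ.E B → T (R x w) = 0 := by
  obtain ⟨C, rfl⟩ := exists_mapH N B hk
  have hE : (SpQ.E (SpQ.mapH N.subtype C)).subgroupOf N = SpQ.E C := by
    rw [E_mapH]
    exact Subgroup.comap_map_eq_self_of_injective N.subtype_injective _
  have hl : (SpQ.mapH N.subtype C).length = C.length := by
    unfold SpQ.mapH
    exact List.length_map _
  rw [hE, hl] at hlen
  have h1 := LGP.wvec R w C (by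
    intro h hh
    have h2 : (((h.1.1 : Γ), (h.1.2 : Γ)), h.2) ∈ SpQ.mapH N.subtype C :=
      List.mem_map.2 ⟨h, hh, rfl⟩
    exact hg _ h2) hlen T h0 (by
    intro x hx
    have h2 := SpQ.fc_map N.subtype hx
    exact hT x x.2 h2)
  intro x hx
  refine h1 x ?_
  rw [← hE]
  exact hx

end

theorem thm_Vek (hG : St_Grw) : St_Vek := by
  intro K U Γ _ _ _ _ _ k N _ R w X₀ B₀ hB htop hlen T hT
  by_cases hw : w = 0
  · intro x
    rw [hw, map_zero, map_zero]
  -- the dimension is positive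
  have hpos : 1 ≤ finrank K (cyc R w ⊤) := by
    have h1 : cyc R w ⊤ ≠ ⊥ := by
      intro h
      have := LGP.self_mem_cyc R w (⊤ : Subgroup N)
      rw [h, Submodule.mem_bot] at this
      exact hw this
    exact Submodule.one_le_finrank_iff.2 h1
  have htop' : cyc R w ((GI (X₀ ++ hl B₀)).subgroupOf N) = cyc R w ⊤ := by
    rw [htop, Subgroup.top_subgroupOf]
  -- good handles
  obtain ⟨h₀, G₀, rfl⟩ : ∃ h₀ G₀, B₀ = h₀ :: G₀ := by
    cases B₀ with
    | nil =>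
      rw [List.length_nil] at hlen
      omega
    | cons a b => exact ⟨a, b, rfl⟩
  obtain ⟨h₁, B, hr, hg⟩ := SpQ.exists_good h₀ G₀
  have hE : SpQ.E (h₁ :: B) = SpQ.E (h₀ :: G₀) := hr.E_eq
  have hkB : ∀ h ∈ h₁ :: B, Kl N h := by
    rw [Kl_list, hE, ← Kl_list]
    exact hB
  have hlen2 : B.length = G₀.length := by
    have h1 := hr.length_eq
    rw [List.length_cons, List.length_cons] at h1
    omega
  have e3 : (X₀ ++ [Sum.inl h₁]) ++ hl B = X₀ ++ hl (h₁ :: B) := by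
    rw [hl_cons, List.append_assoc]
    rfl
  have hreach : IReach (X₀ ++ hl (h₀ :: G₀)) ((X₀ ++ [Sum.inl h₁]) ++ hl B) := by
    rw [e3]
    exact (IReach.of_wreach hr).left X₀
  have hGI : GI ((X₀ ++ [Sum.inl h₁]) ++ hl B) = GI (X₀ ++ hl (h₀ :: G₀)) := by
    rw [e3, GI_append_hl, GI_append_hl, hE]
  rw [List.length_cons] at hlen
  obtain ⟨X', B', hr', hcl, hBlen, hBg, hBk, hcy⟩ := hG K U Γ k N R w (X₀ ++ [Sum.inl h₁]) B hg
    (fun h hh => hkB h (List.mem_cons_of_mem _ hh)) (by rw [hGI, htop']) (by omega)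
  -- the killed handle of the context
  rw [List.map_append] at hcl
  obtain ⟨X₁, s, rfl, -, hs⟩ := List.map_eq_append_iff.1 hcl
  obtain ⟨i, s', rfl, hi, hs'⟩ := List.map_eq_cons_iff.1 hs
  obtain rfl : s' = [] := List.map_eq_nil_iff.1 hs'
  obtain ⟨h', rfl, hk'⟩ := cls_killed (hkB h₁ List.mem_cons_self) hi
  obtain ⟨p, hp, hz⟩ := SpQ.exists_zero h'
  have hkp : Kl N p := by
    rw [Kl_iff, hp.E_eq, ← Kl_iff]
    exact hk'
  have hreach2 : IReach (X₀ ++ hl (h₀ :: G₀)) (X₁ ++ hl (p :: B')) := by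
    refine (hreach.trans hr').trans ?_
    have h1 := IReach.of_wreach' hp X₁ (hl B')
    have e1 : ∀ x : Hd Γ k, X₁ ++ (hl [x] ++ hl B') = X₁ ++ hl (x :: B') := by
      intro x
      rw [← hl_append]
      rfl
    rw [e1, e1] at h1
    have e2 : X₁ ++ [Sum.inl h'] ++ hl B' = X₁ ++ hl (h' :: B') := by
      rw [hl_cons, List.append_assoc]
      rfl
    rw [e2]
    exact h1
  have hkP : ∀ h ∈ p :: B', Kl N h := by
    intro h hh
    rcases List.mem_cons.1 hh with rfl | hh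
    · exact hkp
    · exact hBk h hh
  obtain ⟨⟨γ, δ⟩, ⟨z, q⟩⟩ := p
  dsimp only at hz
  subst hz
  have hγN : γ ∈ N := hkp.1
  have hγ : γ ∈ SpQ.fc [((γ, δ), ((0 : ZMod k), q))] 0 := ⟨δ, q, WExt.refl _⟩
  have hmul : ∀ x : N, T (R ⟨γ, hγN⟩ (R x w)) = T (R (⟨γ, hγN⟩ * x) w) := by
    intro x
    rw [map_mul, Module.End.mul_apply]
  have key := wvec_killed R w B' hBg hBk (by rw [hcy, hBlen]; omega)
    (T.comp (R ⟨γ, hγN⟩)) ?_ ?_
  · -- the functional vanishes on the whole module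
    have h1 : ∀ u ∈ cyc R w ((SpQ.E B').subgroupOf N), T (R ⟨γ, hγN⟩ u) = 0 := by
      intro u hu
      unfold LGP.cyc at hu
      refine Submodule.span_induction (p := fun u _ => T (R ⟨γ, hγN⟩ u) = 0) ?_ ?_ ?_ ?_ hu
      · rintro _ ⟨y, hy, rfl⟩
        exact key y hy
      · rw [map_zero, map_zero]
      · intro a b _ _ ha hb
        rw [map_add, map_add, ha, hb, add_zero]
      · intro c a _ ha
        rw [map_smul, map_smul, ha, smul_zero]
    intro x
    have h2 := h1 (R (⟨γ, hγN⟩⁻¹ * x) w) (by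
      rw [hcy]
      exact Submodule.subset_span ⟨_, Subgroup.mem_top _, rfl⟩)
    rw [hmul, mul_inv_cancel_left] at h2
    exact h2
  · rw [LinearMap.comp_apply]
    have h1 : γ ∈ SpQ.fc (((γ, δ), ((0 : ZMod k), q)) :: B') 0 :=
      SpQ.fc_mono (WExt.drop_right [((γ, δ), ((0 : ZMod k), q))] B') _ hγ
    exact hT X₁ _ hreach2 hkP γ hγN h1
  · intro x hx hxP
    rw [LinearMap.comp_apply, hmul]
    have h1 := SpQ.fc_mul hγ hxP
    have e5 : (0 : ZMod k) + -1 + 1 = 0 := by ring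
    rw [e5] at h1
    exact hT X₁ _ hreach2 hkP (γ * x) (N.mul_mem hγN hx) h1

end Pool.Agent.LGC
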