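import Pool.Agent.LGC.Bas

/-!
# LGC, Cnj: conjugates of a handle (helper30)
-/

set_option autoImplicit false

namespace Pool.Agent.LGC

open Module
open SpQ (Hd WStep WReach WExt Good bare bd cj1)

section cnj

variable {Γ : Type} [Group Γ] {k : ℕ}

/-- the letters of a list of items, their inverses, and `1` -/
private def Cnj_LS (L : List (It Γ k)) : Set Γ := {t | t = 1 ∨ ∃ i ∈ L, t ∈ lt i ∨ t⁻¹ ∈ lt i}

/-- products of `m` elements -/
private def Cnj_V (T : Set Γ) : ℕ → Set Γ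
  | 0 => {1}
  | m + 1 => {w | ∃ u ∈ Cnj_V T m, ∃ t ∈ T, w = u * t}

/-- the conjugate of the handle is in `H` -/
private def Cnj_CH (H : Subgroup Γ) (q : Hd Γ k) (u : Γ) : Prop :=
  ∀ z ∈ SpQ.E [q], u * z * u⁻¹ ∈ H

private theorem Cnj_V_succ {T : Set Γ} (h1 : (1 : Γ) ∈ T) (m : ℕ) :
    Cnj_V T m ⊆ Cnj_V T (m + 1) := fun u hu => ⟨u, hu, 1, h1, (mul_one u).symm⟩

private theorem Cnj_V_mono {T : Set Γ} (h1 : (1 : Γ) ∈ T) {j m : ℕ} (hjm : j ≤ m) :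
    Cnj_V T j ⊆ Cnj_V T m := by
  induction m, hjm using Nat.le_induction with
  | base => exact subset_rfl
  | succ m _ ih => exact ih.trans (Cnj_V_succ h1 m)

private theorem Cnj_one_LS (L : List (It Γ k)) : (1 : Γ) ∈ Cnj_LS L := Or.inl rfl

private theorem Cnj_CH_left {H : Subgroup Γ} {q : Hd Γ k} {h u : Γ} (hh : h ∈ H)
    (hc : Cnj_CH H q (h * u)) : Cnj_CH H q u := by
  intro z hz
  have h1 := H.mul_mem (H.mul_mem (H.inv_mem hh) (hc z hz)) hh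
  exact LGP.mem_word (by group) h1

private theorem Cnj_CH_right {H : Subgroup Γ} {q : Hd Γ k} {c u : Γ} (hh : c ∈ SpQ.E [q])
    (hc : Cnj_CH H q (u * c)) : Cnj_CH H q u := by
  intro z hz
  have h1 := hc (c⁻¹ * z * c)
    (Subgroup.mul_mem _ (Subgroup.mul_mem _ (Subgroup.inv_mem _ hh) hz) hh)
  exact LGP.mem_word (by group) h1

private theorem Cnj_CH_conj {H : Subgroup Γ} {q : Hd Γ k} {t u : Γ}
    (hc : Cnj_CH H (cj1 t⁻¹ q) u) : Cnj_CH H q (u * t) := by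
  have h1 : SpQ.E [q] ≤ (SpQ.E [cj1 t⁻¹ q]).comap (MulAut.conj t).toMonoidHom := by
    rw [SpQ.E_singleton_le]
    have h2 := (SpQ.E_singleton_le (h := cj1 t⁻¹ q) (H := SpQ.E [cj1 t⁻¹ q])).1 le_rfl
    unfold cj1 at h2 ⊢
    simp only [inv_inv] at h2 ⊢
    exact h2
  intro z hz
  have h2 := hc _ (h1 hz)
  have h3 : (MulAut.conj t).toMonoidHom z = t * z * t⁻¹ := rfl
  rw [h3] at h2
  exact LGP.mem_word (by group) h2

/-- comparison of products for two sets of letters -/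
private theorem Cnj_ins {T T' : Set Γ} {K H : Subgroup Γ} {C : Set Γ} (hC1 : (1 : Γ) ∈ C)
    (hCK : ∀ c ∈ C, c ∈ K)
    (hT : ∀ t ∈ T, ∃ t' ∈ T', ∃ c ∈ C, ∃ d ∈ C, t' = c * t * d) :
    ∀ m, (∀ j < m, ∀ u ∈ Cnj_V T j, ∀ z ∈ K, u * z * u⁻¹ ∈ H) →
      ∀ u ∈ Cnj_V T m, ∃ u' ∈ Cnj_V T' m, ∃ h ∈ H, ∃ c ∈ C, u' = h * u * c := by
  intro m
  induction m with
  | zero =>
    intro _ u hu
    obtain rfl : u = 1 := hu
    exact ⟨1, rfl, 1, H.one_mem, 1, hC1, by group⟩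
  | succ m ih =>
    intro hK u hu
    obtain ⟨u₀, hu₀, t, ht, rfl⟩ := hu
    obtain ⟨u', hu', h, hh, c, hc, e1⟩ := ih (fun j hj => hK j (by omega)) u₀ hu₀
    obtain ⟨t', ht', c₀, hc₀, c₁, hc₁, e2⟩ := hT t ht
    have h1 := hK m (by omega) u₀ hu₀ (c * c₀) (K.mul_mem (hCK c hc) (hCK c₀ hc₀))
    refine ⟨u' * t', ⟨u', hu', t', ht', rfl⟩, h * (u₀ * (c * c₀) * u₀⁻¹), H.mul_mem hh h1,
      c₁, hc₁, ?_⟩
    rw [e1, e2]
    group

private theorem Cnj_tr {L L' : List (It Γ k)} {C : Set Γ} (h1 : (1 : Γ) ∈ C)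
    (hinv : ∀ c ∈ C, c⁻¹ ∈ C)
    (hL : ∀ i ∈ L, ∃ i' ∈ L', ∀ s ∈ lt i, ∃ s' ∈ lt i', ∃ c ∈ C, ∃ d ∈ C, s' = c * s * d) :
    ∀ t ∈ Cnj_LS L, ∃ t' ∈ Cnj_LS L', ∃ c ∈ C, ∃ d ∈ C, t' = c * t * d := by
  rintro t (rfl | ⟨i, hi, ht | ht⟩)
  · exact ⟨1, Or.inl rfl, 1, h1, 1, h1, by group⟩
  · obtain ⟨i', hi', h2⟩ := hL i hi
    obtain ⟨s', hs', c, hc, d, hd, e⟩ := h2 t ht
    exact ⟨s', Or.inr ⟨i', hi', Or.inl hs'⟩, c, hc, d, hd, e⟩
  · obtain ⟨i', hi', h2⟩ := hL i hi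
    obtain ⟨s', hs', c, hc, d, hd, e⟩ := h2 t⁻¹ ht
    refine ⟨s'⁻¹, Or.inr ⟨i', hi', Or.inr (by rw [inv_inv]; exact hs')⟩, d⁻¹, hinv d hd, c⁻¹,
      hinv c hc, ?_⟩
    rw [e]
    group

/-- one item is changed -/
private theorem Cnj_hL {A B : List (It Γ k)} {i i' : It Γ k} {C : Set Γ} (h1 : (1 : Γ) ∈ C)
    (h : ∀ s ∈ lt i, ∃ s' ∈ lt i', ∃ c ∈ C, ∃ d ∈ C, s' = c * s * d) :
    ∀ i₀ ∈ A ++ i :: B, ∃ i₁ ∈ A ++ i' :: B, ∀ s ∈ lt i₀, ∃ s' ∈ lt i₁, ∃ c ∈ C, ∃ d ∈ C,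
      s' = c * s * d := by
  intro i₀ hi₀
  rw [List.mem_append, List.mem_cons] at hi₀
  rcases hi₀ with hi₀ | rfl | hi₀
  · exact ⟨i₀, by simp [hi₀], fun s hs => ⟨s, hs, 1, h1, 1, h1, by group⟩⟩
  · exact ⟨i', by simp, h⟩
  · exact ⟨i₀, by simp [hi₀], fun s hs => ⟨s, hs, 1, h1, 1, h1, by group⟩⟩

variable {Z : List (It Γ k)} {p : Hd Γ k} {H : Subgroup Γ} {m : ℕ}

/-- the claim for products of `m` letters -/
private def Cnj_P (Z : List (It Γ k)) (p : Hd Γ k) (H : Subgroup Γ) (m : ℕ) : Prop :=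
  ∀ (A B : List (It Γ k)) (v : Γ), IReach Z (A ++ Sum.inl (cj1 v p) :: B) →
    ∀ u ∈ Cnj_V (Cnj_LS (A ++ B)) m, Cnj_CH H (cj1 v p) u

private theorem Cnj_zp (q : Hd Γ k) : Subgroup.zpowers (bd q) ≤ SpQ.E [q] := by
  rw [Subgroup.zpowers_le]
  exact SpQ.bd_mem_E (by simp)

private theorem Cnj_move (hP : Cnj_P Z p H m) {A B L' : List (It Γ k)} {v : Γ}
    (hs : IReach Z (A ++ Sum.inl (cj1 v p) :: B))
    (hL : ∀ i ∈ A ++ B, ∃ i' ∈ L', ∀ s ∈ lt i, ∃ s' ∈ lt i',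
      ∃ c ∈ (Subgroup.zpowers (bd (cj1 v p)) : Set Γ),
      ∃ d ∈ (Subgroup.zpowers (bd (cj1 v p)) : Set Γ), s' = c * s * d) :
    ∀ u ∈ Cnj_V (Cnj_LS (A ++ B)) m, ∃ u' ∈ Cnj_V (Cnj_LS L') m, ∃ h ∈ H,
      ∃ c ∈ (Subgroup.zpowers (bd (cj1 v p)) : Set Γ), u' = h * u * c := by
  refine Cnj_ins (K := Subgroup.zpowers (bd (cj1 v p))) (Subgroup.one_mem _) (fun c hc => hc)
    (Cnj_tr (Subgroup.one_mem _) (fun c hc => Subgroup.inv_mem _ hc) hL) m ?_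
  intro j hj u hu z hz
  exact hP A B v hs u (Cnj_V_mono (Cnj_one_LS _) hj.le hu) z (Cnj_zp _ hz)

private theorem Cnj_pass (hP : Cnj_P Z p H m) {A B A' B' : List (It Γ k)} {v t : Γ}
    (hs : IReach Z (A ++ Sum.inl (cj1 v p) :: B))
    (hs' : IReach Z (A' ++ Sum.inl (cj1 (v * t⁻¹) p) :: B')) (ht : t ∈ Cnj_LS (A ++ B))
    (hL : ∀ i ∈ A ++ B, ∃ i' ∈ A' ++ B', ∀ s ∈ lt i, ∃ s' ∈ lt i',
      ∃ c ∈ (Subgroup.zpowers (bd (cj1 v p)) : Set Γ) ∪
        (Subgroup.zpowers (t * bd (cj1 v p) * t⁻¹) : Set Γ),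
      ∃ d ∈ (Subgroup.zpowers (bd (cj1 v p)) : Set Γ) ∪
        (Subgroup.zpowers (t * bd (cj1 v p) * t⁻¹) : Set Γ), s' = c * s * d) :
    ∀ u ∈ Cnj_V (Cnj_LS (A ++ B)) m, Cnj_CH H (cj1 v p) (u * t) := by
  set D := bd (cj1 v p) with hD
  have hDE : D ∈ SpQ.E [cj1 v p] := SpQ.bd_mem_E (by simp)
  intro u hu
  obtain ⟨u', hu', h, hh, c, hc, e⟩ := Cnj_ins (H := H)
    (K := Subgroup.closure {D, t * D * t⁻¹}) (Or.inl (Subgroup.one_mem _))
    (by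
      rintro c (hc | hc)
      · have h1 : Subgroup.zpowers D ≤ Subgroup.closure {D, t * D * t⁻¹} := by
          rw [Subgroup.zpowers_le]
          exact Subgroup.subset_closure (Or.inl rfl)
        exact h1 hc
      · have h1 : Subgroup.zpowers (t * D * t⁻¹) ≤ Subgroup.closure {D, t * D * t⁻¹} := by
          rw [Subgroup.zpowers_le]
          exact Subgroup.subset_closure (Or.inr rfl)
        exact h1 hc)
    (Cnj_tr (Or.inl (Subgroup.one_mem _)) (by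
      rintro c (hc | hc)
      · exact Or.inl (Subgroup.inv_mem _ hc)
      · exact Or.inr (Subgroup.inv_mem _ hc)) hL) m
    (by
      intro j hj u hu z hz
      have h1 : Subgroup.closure {D, t * D * t⁻¹} ≤
          H.comap (MulAut.conj u).toMonoidHom := by
        rw [Subgroup.closure_le]
        rintro w (rfl | rfl)
        · exact hP A B v hs u (Cnj_V_mono (Cnj_one_LS _) hj.le hu) _ hDE
        · have h2 := hP A B v hs (u * t)
            (Cnj_V_mono (Cnj_one_LS _) (Nat.succ_le_of_lt hj) ⟨u, hu, t, ht, rfl⟩) _ hDE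
          show u * (t * D * t⁻¹) * u⁻¹ ∈ H
          exact LGP.mem_word (by group) h2
      exact h1 hz) u hu
  have h1 := hP A' B' (v * t⁻¹) hs' u' hu'
  rw [← cj1_cj1] at h1
  have h2 := Cnj_CH_conj h1
  rcases hc with hc | hc
  · -- a power of `D`
    have h3 : u * c * u⁻¹ ∈ H := hP A B v hs u hu c (Cnj_zp _ hc)
    have h4 : u' * t = (h * (u * c * u⁻¹)) * (u * t) := by
      rw [e]
      group
    rw [h4] at h2
    exact Cnj_CH_left (H.mul_mem hh h3) h2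
  · obtain ⟨n, hn⟩ := hc
    have h4 : c = t * D ^ n * t⁻¹ := by
      rw [← hn]
      show (t * D * t⁻¹) ^ n = _
      rw [conj_zpow]
    have h5 : u' * t = h * ((u * t) * D ^ n) := by
      rw [e, h4]
      group
    rw [h5] at h2
    exact Cnj_CH_right (Subgroup.zpow_mem _ hDE n) (Cnj_CH_left hh h2)

/-- the letters which can be used on the left -/
private def Cnj_gL : It Γ k → Set Γ
  | Sum.inl h => {h.1.1⁻¹, h.1.2}
  | Sum.inr y => {y⁻¹}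

/-- the letters which can be used on the right -/
private def Cnj_gR : It Γ k → Set Γ
  | Sum.inl h => {h.1.1, h.1.2⁻¹}
  | Sum.inr y => {y}

private theorem Cnj_cases {i : It Γ k} {t : Γ} (ht : t ∈ lt i ∨ t⁻¹ ∈ lt i) :
    t ∈ Cnj_gL i ∨ t ∈ Cnj_gR i := by
  rcases i with h | y
  · rcases ht with (ht | ht) | (ht | ht)
    · exact Or.inr (Or.inl ht)
    · exact Or.inl (Or.inr ht)
    · exact Or.inl (Or.inl (by rw [← ht, inv_inv]))
    · refine Or.inr (Or.inr ?_)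
      have h1 : t⁻¹ = h.1.2 := ht
      show t = h.1.2⁻¹
      rw [← h1, inv_inv]
  · rcases ht with ht | ht
    · exact Or.inr ht
    · refine Or.inl ?_
      have h1 : t⁻¹ = y := ht
      show t = y⁻¹
      rw [← h1, inv_inv]

private theorem Cnj_gL_lt {i : It Γ k} {t : Γ} (ht : t ∈ Cnj_gL i) : t ∈ lt i ∨ t⁻¹ ∈ lt i := by
  rcases i with h | y
  · rcases ht with ht | ht
    · exact Or.inr (Or.inl (by rw [ht, inv_inv]))
    · exact Or.inl (Or.inr ht)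
  · have h1 : t = y⁻¹ := ht
    refine Or.inr ?_
    show t⁻¹ = y
    rw [h1, inv_inv]

private theorem Cnj_gR_lt {i : It Γ k} {t : Γ} (ht : t ∈ Cnj_gR i) : t ∈ lt i ∨ t⁻¹ ∈ lt i := by
  rcases i with h | y
  · rcases ht with ht | ht
    · exact Or.inl (Or.inl ht)
    · have h1 : t = h.1.2⁻¹ := ht
      refine Or.inr (Or.inr ?_)
      show t⁻¹ = h.1.2
      rw [h1, inv_inv]
  · exact Or.inl ht

private theorem Cnj_gL_icj {i : It Γ k} {t : Γ} (u : Γ) (ht : t ∈ Cnj_gL i) :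
    u⁻¹ * t * u ∈ Cnj_gL (icj u i) := by
  rcases i with h | y
  · rcases ht with ht | ht
    · refine Or.inl ?_
      show u⁻¹ * t * u = (u⁻¹ * h.1.1 * u)⁻¹
      rw [ht]
      group
    · have h1 : t = h.1.2 := ht
      refine Or.inr ?_
      show u⁻¹ * t * u = u⁻¹ * h.1.2 * u
      rw [h1]
  · have h1 : t = y⁻¹ := ht
    show u⁻¹ * t * u = (u⁻¹ * y * u)⁻¹
    rw [h1]
    group

private theorem Cnj_gR_icj {i : It Γ k} {t : Γ} (u : Γ) (ht : t ∈ Cnj_gR i) :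
    u⁻¹ * t * u ∈ Cnj_gR (icj u i) := by
  rcases i with h | y
  · rcases ht with ht | ht
    · refine Or.inl ?_
      show u⁻¹ * t * u = u⁻¹ * h.1.1 * u
      rw [ht]
    · have h1 : t = h.1.2⁻¹ := ht
      refine Or.inr ?_
      show u⁻¹ * t * u = (u⁻¹ * h.1.2 * u)⁻¹
      rw [h1]
      group
  · have h1 : t = y := ht
    show u⁻¹ * t * u = u⁻¹ * y * u
    rw [h1]

/-- the handle passes the item on its right -/
private theorem Cnj_passL (hPas : St_Pas) (hP : Cnj_P Z p H m) {A B : List (It Γ k)}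
    {i : It Γ k} {v t : Γ} (hs : IReach Z (A ++ Sum.inl (cj1 v p) :: i :: B))
    (ht : t ∈ Cnj_gL i) :
    ∀ u ∈ Cnj_V (Cnj_LS (A ++ i :: B)) m, Cnj_CH H (cj1 v p) (u * t) := by
  have hLS : t ∈ Cnj_LS (A ++ i :: B) := Or.inr ⟨i, by simp, Cnj_gL_lt ht⟩
  -- a new item
  have key : ∀ i' : It Γ k, IReach [Sum.inl (cj1 v p), i] [i', Sum.inl (cj1 t⁻¹ (cj1 v p))] →
      (∀ s ∈ lt i, ∃ s' ∈ lt i', ∃ c ∈ (Subgroup.zpowers (bd (cj1 v p)) : Set Γ) ∪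
        (Subgroup.zpowers (t * bd (cj1 v p) * t⁻¹) : Set Γ),
      ∃ d ∈ (Subgroup.zpowers (bd (cj1 v p)) : Set Γ) ∪
        (Subgroup.zpowers (t * bd (cj1 v p) * t⁻¹) : Set Γ), s' = c * s * d) →
      ∀ u ∈ Cnj_V (Cnj_LS (A ++ i :: B)) m, Cnj_CH H (cj1 v p) (u * t) := by
    intro i' hr hi'
    refine Cnj_pass hP (A := A) (B := i :: B) (A' := A ++ [i']) (B' := B) hs ?_ hLS ?_
    · have h1 := hr.context A B
      rw [cj1_cj1] at h1
      refine hs.trans ?_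
      simpa using h1
    · have h1 := Cnj_hL (A := A) (B := B) (i := i) (i' := i') (Or.inl (Subgroup.one_mem _)) hi'
      simpa using h1
  obtain ⟨⟨⟨x, y⟩, ⟨p₁, q₁⟩⟩, hq⟩ : ∃ q : Hd Γ k, q = cj1 v p := ⟨_, rfl⟩
  rcases i with ⟨⟨a, b⟩, ⟨p₂, q₂⟩⟩ | z
  · obtain ⟨w1, w2, -, -⟩ := hPas Γ k x y a b p₁ q₁ p₂ q₂
    rw [← hq] at key ⊢
    have hbd : bd (((x, y), (p₁, q₁)) : Hd Γ k) = x * y * x⁻¹ * y⁻¹ := rfl
    rcases ht with ht | ht
    · obtain rfl : t = a⁻¹ := ht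
      refine key (Sum.inl ((a, a⁻¹ * (x * y * x⁻¹ * y⁻¹) * a * b), (p₂, q₂ + 2))) ?_ ?_
      · have h1 := IReach.of_wreach w1
        have h2 : cj1 a⁻¹⁻¹ (((x, y), (p₁, q₁)) : Hd Γ k) =
            ((a⁻¹ * x * a, a⁻¹ * y * a), (p₁, q₁)) := by
          rw [inv_inv]
          rfl
        rw [h2]
        exact h1
      · rintro s (hs' | hs')
        · exact ⟨s, Or.inl hs', 1, Or.inl (Subgroup.one_mem _), 1,
            Or.inl (Subgroup.one_mem _), by group⟩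
        · have h1 : s = b := hs'
          refine ⟨a⁻¹ * (x * y * x⁻¹ * y⁻¹) * a * b, Or.inr rfl,
            a⁻¹ * (x * y * x⁻¹ * y⁻¹) * a⁻¹⁻¹, Or.inr (Subgroup.mem_zpowers _), 1,
            Or.inl (Subgroup.one_mem _), ?_⟩
          rw [h1, inv_inv]
          group
    · obtain rfl : t = b := ht
      refine key (Sum.inl ((x * y * x⁻¹ * y⁻¹ * a, t), (p₂ + 2, q₂))) ?_ ?_
      · have h1 := IReach.of_wreach w2
        have h2 : cj1 t⁻¹ (((x, y), (p₁, q₁)) : Hd Γ k) =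
            ((t * x * t⁻¹, t * y * t⁻¹), (p₁, q₁)) := by
          unfold cj1
          rw [inv_inv]
        rw [h2]
        exact h1
      · rintro s (hs' | hs')
        · have h1 : s = a := hs'
          refine ⟨x * y * x⁻¹ * y⁻¹ * a, Or.inl rfl,
            x * y * x⁻¹ * y⁻¹, Or.inl (Subgroup.mem_zpowers _), 1,
            Or.inl (Subgroup.one_mem _), ?_⟩
          rw [h1]
          group
        · exact ⟨s, Or.inr hs', 1, Or.inl (Subgroup.one_mem _), 1,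
            Or.inl (Subgroup.one_mem _), by group⟩
  · have ht' : t = z⁻¹ := ht
    subst ht'
    refine key (Sum.inr z) ?_ ?_
    · have h1 := IReach.br' (Sum.inl (cj1 v p)) (Sum.inr z : It Γ k)
      rw [inv_inv]
      exact h1
    · intro s hs'
      exact ⟨s, hs', 1, Or.inl (Subgroup.one_mem _), 1, Or.inl (Subgroup.one_mem _), by group⟩

/-- the handle passes the item on its left -/
private theorem Cnj_passR (hPas : St_Pas) (hP : Cnj_P Z p H m) {A B : List (It Γ k)}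
    {i : It Γ k} {v t : Γ} (hs : IReach Z (A ++ i :: Sum.inl (cj1 v p) :: B))
    (ht : t ∈ Cnj_gR i) :
    ∀ u ∈ Cnj_V (Cnj_LS (A ++ i :: B)) m, Cnj_CH H (cj1 v p) (u * t) := by
  have hLS : t ∈ Cnj_LS (A ++ i :: B) := Or.inr ⟨i, by simp, Cnj_gR_lt ht⟩
  have key : ∀ i' : It Γ k, IReach [i, Sum.inl (cj1 v p)] [Sum.inl (cj1 t⁻¹ (cj1 v p)), i'] →
      (∀ s ∈ lt i, ∃ s' ∈ lt i', ∃ c ∈ (Subgroup.zpowers (bd (cj1 v p)) : Set Γ) ∪
        (Subgroup.zpowers (t * bd (cj1 v p) * t⁻¹) : Set Γ),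
      ∃ d ∈ (Subgroup.zpowers (bd (cj1 v p)) : Set Γ) ∪
        (Subgroup.zpowers (t * bd (cj1 v p) * t⁻¹) : Set Γ), s' = c * s * d) →
      ∀ u ∈ Cnj_V (Cnj_LS (A ++ i :: B)) m, Cnj_CH H (cj1 v p) (u * t) := by
    intro i' hr hi'
    have e1 : A ++ i :: B = (A ++ [i]) ++ B := by simp
    rw [e1] at hLS ⊢
    refine Cnj_pass hP (A := A ++ [i]) (B := B) (A' := A) (B' := i' :: B) (by simpa using hs) ?_
      hLS ?_
    · have h1 := hr.context A B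
      rw [cj1_cj1] at h1
      refine hs.trans ?_
      simpa using h1
    · have h1 := Cnj_hL (A := A) (B := B) (i := i) (i' := i') (Or.inl (Subgroup.one_mem _)) hi'
      simpa using h1
  obtain ⟨⟨⟨x, y⟩, ⟨p₁, q₁⟩⟩, hq⟩ : ∃ q : Hd Γ k, q = cj1 v p := ⟨_, rfl⟩
  rcases i with ⟨⟨a, b⟩, ⟨p₂, q₂⟩⟩ | z
  · obtain ⟨-, -, w3, w4⟩ := hPas Γ k x y a b p₁ q₁ p₂ q₂
    rw [← hq] at key ⊢
    rcases ht with ht | ht
    · obtain rfl : t = a := ht
      refine key (Sum.inl ((t, (x * y * x⁻¹ * y⁻¹)⁻¹ * b), (p₂, q₂ - 2))) ?_ ?_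
      · have h1 := IReach.of_wreach w3
        have h2 : cj1 t⁻¹ (((x, y), (p₁, q₁)) : Hd Γ k) =
            ((t * x * t⁻¹, t * y * t⁻¹), (p₁, q₁)) := by
          unfold cj1
          rw [inv_inv]
        rw [h2]
        exact h1
      · rintro s (hs' | hs')
        · exact ⟨s, Or.inl hs', 1, Or.inl (Subgroup.one_mem _), 1,
            Or.inl (Subgroup.one_mem _), by group⟩
        · have h1 : s = b := hs'
          refine ⟨(x * y * x⁻¹ * y⁻¹)⁻¹ * b, Or.inr rfl,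
            (x * y * x⁻¹ * y⁻¹)⁻¹, Or.inl (Subgroup.inv_mem _ (Subgroup.mem_zpowers _)), 1,
            Or.inl (Subgroup.one_mem _), ?_⟩
          rw [h1]
          group
    · obtain rfl : t = b⁻¹ := ht
      refine key (Sum.inl (((b⁻¹ * (x * y * x⁻¹ * y⁻¹) * b)⁻¹ * a, b), (p₂ - 2, q₂))) ?_ ?_
      · have h1 := IReach.of_wreach w4
        have h2 : cj1 b⁻¹⁻¹ (((x, y), (p₁, q₁)) : Hd Γ k) =
            ((b⁻¹ * x * b, b⁻¹ * y * b), (p₁, q₁)) := by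
          rw [inv_inv]
          rfl
        rw [h2]
        exact h1
      · rintro s (hs' | hs')
        · have h1 : s = a := hs'
          refine ⟨(b⁻¹ * (x * y * x⁻¹ * y⁻¹) * b)⁻¹ * a, Or.inl rfl,
            (b⁻¹ * (x * y * x⁻¹ * y⁻¹) * b⁻¹⁻¹)⁻¹,
            Or.inr (Subgroup.inv_mem _ (Subgroup.mem_zpowers _)), 1,
            Or.inl (Subgroup.one_mem _), ?_⟩
          rw [h1, inv_inv]
          group
        · exact ⟨s, Or.inr hs', 1, Or.inl (Subgroup.one_mem _), 1,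
            Or.inl (Subgroup.one_mem _), by group⟩
  · have ht' : t = z := ht
    subst ht'
    refine key (Sum.inr t) ?_ ?_
    · exact IReach.br (Sum.inr t : It Γ k) (Sum.inl (cj1 v p))
    · intro s hs'
      exact ⟨s, hs', 1, Or.inl (Subgroup.one_mem _), 1, Or.inl (Subgroup.one_mem _), by group⟩

/-- the handle moves over the item on its right -/
private theorem Cnj_moveR (hP : Cnj_P Z p H m) {A B : List (It Γ k)} {j : It Γ k} {v : Γ}
    (hs : IReach Z (A ++ Sum.inl (cj1 v p) :: j :: B)) :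
    IReach Z (A ++ icj (bd (cj1 v p))⁻¹ j :: Sum.inl (cj1 v p) :: B) ∧
    ∀ u ∈ Cnj_V (Cnj_LS (A ++ j :: B)) m,
      ∃ u' ∈ Cnj_V (Cnj_LS (A ++ icj (bd (cj1 v p))⁻¹ j :: B)) m,
      ∃ h ∈ H, ∃ c ∈ (Subgroup.zpowers (bd (cj1 v p)) : Set Γ), u' = h * u * c := by
  refine ⟨hs.trans (IReach.of_step (IStep.br A B (Sum.inl (cj1 v p)) j)), ?_⟩
  refine Cnj_move hP hs (Cnj_hL (Subgroup.one_mem _) fun s hs' => ?_)
  refine ⟨_, mem_lt_icj.2 ⟨s, hs', rfl⟩, bd (cj1 v p), Subgroup.mem_zpowers _,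
    (bd (cj1 v p))⁻¹, Subgroup.inv_mem _ (Subgroup.mem_zpowers _), ?_⟩
  rw [inv_inv]

/-- the handle moves over the item on its left -/
private theorem Cnj_moveL (hP : Cnj_P Z p H m) {A B : List (It Γ k)} {j : It Γ k} {v : Γ}
    (hs : IReach Z (A ++ j :: Sum.inl (cj1 v p) :: B)) :
    IReach Z (A ++ Sum.inl (cj1 v p) :: icj (bd (cj1 v p)) j :: B) ∧
    ∀ u ∈ Cnj_V (Cnj_LS (A ++ j :: B)) m,
      ∃ u' ∈ Cnj_V (Cnj_LS (A ++ icj (bd (cj1 v p)) j :: B)) m,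
      ∃ h ∈ H, ∃ c ∈ (Subgroup.zpowers (bd (cj1 v p)) : Set Γ), u' = h * u * c := by
  refine ⟨hs.trans (IReach.of_step (IStep.br' A B j (Sum.inl (cj1 v p)))), ?_⟩
  have e1 : A ++ j :: B = (A ++ [j]) ++ B := by simp
  have h1 := Cnj_hL (A := A) (B := B) (i := j) (i' := icj (bd (cj1 v p)) j)
    (C := (Subgroup.zpowers (bd (cj1 v p)) : Set Γ)) (Subgroup.one_mem _) fun s hs' =>
      ⟨_, mem_lt_icj.2 ⟨s, hs', rfl⟩, (bd (cj1 v p))⁻¹,
        Subgroup.inv_mem _ (Subgroup.mem_zpowers _), bd (cj1 v p), Subgroup.mem_zpowers _, rfl⟩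
  rw [e1] at h1 ⊢
  exact Cnj_move hP (by simpa using hs) h1

/-- transport of the claim along a move -/
private theorem Cnj_back (hP : Cnj_P Z p H m) {A B : List (It Γ k)} {v u u' h c t : Γ}
    (hs : IReach Z (A ++ Sum.inl (cj1 v p) :: B)) (hu : u ∈ Cnj_V (Cnj_LS (A ++ B)) m)
    (hh : h ∈ H) (hc : c ∈ (Subgroup.zpowers (bd (cj1 v p)) : Set Γ)) (e : u' = h * u * c)
    (hCH : Cnj_CH H (cj1 v p) (u' * t)) : Cnj_CH H (cj1 v p) (u * t) := by
  have h3 : u * c * u⁻¹ ∈ H := hP A B v hs u hu c (Cnj_zp _ hc)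
  have h4 : u' * t = (h * (u * c * u⁻¹)) * (u * t) := by
    rw [e]
    group
  rw [h4] at hCH
  exact Cnj_CH_left (H.mul_mem hh h3) hCH

/-- the neighbour on the right -/
private theorem Cnj_nR (hPas : St_Pas) (hP : Cnj_P Z p H m) {A B : List (It Γ k)}
    {i : It Γ k} {v t : Γ} (hs : IReach Z (A ++ Sum.inl (cj1 v p) :: i :: B))
    (ht : t ∈ lt i ∨ t⁻¹ ∈ lt i) :
    ∀ u ∈ Cnj_V (Cnj_LS (A ++ i :: B)) m, Cnj_CH H (cj1 v p) (u * t) := by
  rcases Cnj_cases ht with hg | hg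
  · exact Cnj_passL hPas hP hs hg
  · intro u hu
    obtain ⟨hs', hm⟩ := Cnj_moveR hP hs
    obtain ⟨u', hu', h, hh, c, hc, e⟩ := hm u hu
    have h1 := Cnj_passR hPas hP hs' (Cnj_gR_icj (bd (cj1 v p))⁻¹ hg) u' hu'
    set D := bd (cj1 v p) with hD
    have hDE : D ∈ SpQ.E [cj1 v p] := SpQ.bd_mem_E (by simp)
    have e2 : u' * (D⁻¹⁻¹ * t * D⁻¹) = ((h * u * (c * D)) * t) * D⁻¹ := by
      rw [e]
      group
    rw [e2] at h1
    have h2 := Cnj_CH_right (Subgroup.inv_mem _ hDE) h1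
    exact Cnj_back hP hs hu hh (Subgroup.mul_mem _ hc (Subgroup.mem_zpowers _)) rfl h2

/-- the neighbour on the left -/
private theorem Cnj_nL (hPas : St_Pas) (hP : Cnj_P Z p H m) {A B : List (It Γ k)}
    {i : It Γ k} {v t : Γ} (hs : IReach Z (A ++ i :: Sum.inl (cj1 v p) :: B))
    (ht : t ∈ lt i ∨ t⁻¹ ∈ lt i) :
    ∀ u ∈ Cnj_V (Cnj_LS (A ++ i :: B)) m, Cnj_CH H (cj1 v p) (u * t) := by
  rcases Cnj_cases ht with hg | hg
  · intro u hu
    obtain ⟨hs', hm⟩ := Cnj_moveL hP hs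
    obtain ⟨u', hu', h, hh, c, hc, e⟩ := hm u hu
    have h1 := Cnj_passL hPas hP hs' (Cnj_gL_icj (bd (cj1 v p)) hg) u' hu'
    set D := bd (cj1 v p) with hD
    have hDE : D ∈ SpQ.E [cj1 v p] := SpQ.bd_mem_E (by simp)
    have e2 : u' * (D⁻¹ * t * D) = ((h * u * (c * D⁻¹)) * t) * D := by
      rw [e]
      group
    rw [e2] at h1
    have h2 := Cnj_CH_right hDE h1
    have e1 : A ++ i :: B = (A ++ [i]) ++ B := by simp
    rw [e1] at hu
    exact Cnj_back hP (A := A ++ [i]) (by simpa using hs) hu hh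
      (Subgroup.mul_mem _ hc (Subgroup.inv_mem _ (Subgroup.mem_zpowers _))) rfl h2
  · exact Cnj_passR hPas hP hs hg

/-- all items on the right -/
private theorem Cnj_dR (hPas : St_Pas) (hP : Cnj_P Z p H m) {B₂ : List (It Γ k)} {i : It Γ k}
    {v t : Γ} (ht : t ∈ lt i ∨ t⁻¹ ∈ lt i) : ∀ (B₁ A : List (It Γ k)),
    IReach Z (A ++ Sum.inl (cj1 v p) :: (B₁ ++ i :: B₂)) →
    ∀ u ∈ Cnj_V (Cnj_LS (A ++ (B₁ ++ i :: B₂))) m, Cnj_CH H (cj1 v p) (u * t) := by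
  intro B₁
  induction B₁ with
  | nil =>
    intro A hs u hu
    exact Cnj_nR hPas hP hs ht u hu
  | cons j B₁ ih =>
    intro A hs u hu
    obtain ⟨hs', hm⟩ := Cnj_moveR hP hs
    obtain ⟨u', hu', h, hh, c, hc, e⟩ := hm u hu
    have h1 := ih (A ++ [icj (bd (cj1 v p))⁻¹ j]) (by simpa using hs') u' (by simpa using hu')
    exact Cnj_back hP hs hu hh hc e h1

/-- all items on the left -/
private theorem Cnj_dL (hPas : St_Pas) (hP : Cnj_P Z p H m) {A₁ : List (It Γ k)} {i : It Γ k}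
    {v t : Γ} (ht : t ∈ lt i ∨ t⁻¹ ∈ lt i) : ∀ (A₂ B : List (It Γ k)),
    IReach Z ((A₁ ++ i :: A₂) ++ Sum.inl (cj1 v p) :: B) →
    ∀ u ∈ Cnj_V (Cnj_LS ((A₁ ++ i :: A₂) ++ B)) m, Cnj_CH H (cj1 v p) (u * t) := by
  intro A₂
  induction A₂ using List.reverseRecOn with
  | nil =>
    intro B hs u hu
    exact Cnj_nL hPas hP (A := A₁) (B := B) (by simpa using hs) ht u (by simpa using hu)
  | append_singleton A₂ j ih =>
    intro B hs u hu
    have hs0 : IReach Z ((A₁ ++ i :: A₂) ++ j :: Sum.inl (cj1 v p) :: B) := by simpa using hs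
    have hu0 : u ∈ Cnj_V (Cnj_LS ((A₁ ++ i :: A₂) ++ j :: B)) m := by simpa using hu
    obtain ⟨hs', hm⟩ := Cnj_moveL hP hs0
    obtain ⟨u', hu', h, hh, c, hc, e⟩ := hm u hu0
    have h1 := ih (icj (bd (cj1 v p)) j :: B) (by simpa using hs') u' (by simpa using hu')
    exact Cnj_back hP hs hu hh hc e h1

end cnj

/-- **CNJ.** -/
theorem thm_Cnj (h : St_Pas) : St_Cnj := by
  intro Γ _ k X p H hyp v hv
  have hP : ∀ m, Cnj_P (X ++ [Sum.inl p]) p H m := by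
    intro m
    induction m with
    | zero =>
      intro A B v hs u hu z hz
      obtain rfl : u = 1 := hu
      have h1 := (IReach.move_right (Sum.inl (cj1 v p)) B).left A
      have h2 := hyp (A ++ B.map (icj (ib (Sum.inl (cj1 v p)))⁻¹)) v (by
        refine hs.trans ?_
        simpa using h1)
      have h3 := h2 hz
      rw [one_mul, inv_one, mul_one]
      exact h3
    | succ m ih =>
      rintro A B v hs w ⟨u, hu, t, ht, rfl⟩
      rcases ht with rfl | ⟨i, hi, ht⟩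
      · rw [mul_one]
        exact ih A B v hs u hu
      · rcases List.mem_append.1 hi with hi | hi
        · obtain ⟨A₁, A₂, rfl⟩ := List.append_of_mem hi
          exact Cnj_dL h ih ht A₂ B hs u hu
        · obtain ⟨B₁, B₂, rfl⟩ := List.append_of_mem hi
          exact Cnj_dR h ih ht B₁ A hs u hu
  -- words
  have hw : ∀ w ∈ GI X, ∃ m, w ∈ Cnj_V (Cnj_LS X) m := by
    intro w hw
    unfold GI at hw
    induction hw using Subgroup.closure_induction_right with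
    | one => exact ⟨0, rfl⟩
    | mul_right x _ y hy ih =>
      obtain ⟨m, hm⟩ := ih
      obtain ⟨i, hi, hyi⟩ := hy
      exact ⟨m + 1, x, hm, y, Or.inr ⟨i, hi, Or.inl hyi⟩, rfl⟩
    | mul_inv_cancel x _ y hy ih =>
      obtain ⟨m, hm⟩ := ih
      obtain ⟨i, hi, hyi⟩ := hy
      exact ⟨m + 1, x, hm, y⁻¹, Or.inr ⟨i, hi, Or.inr (by rw [inv_inv]; exact hyi)⟩, rfl⟩
  obtain ⟨m, hm⟩ := hw v⁻¹ (Subgroup.inv_mem _ hv)
  have h1 := hP m X [] 1 (by rw [cj1_one]; exact IReach.refl _) v⁻¹ (by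
    rw [List.append_nil]
    exact hm)
  rw [cj1_one] at h1
  rw [SpQ.E_singleton_le]
  have h2 := h1 p.1.1 (SpQ.fst_mem_E (by simp))
  have h3 := h1 p.1.2 (SpQ.snd_mem_E (by simp))
  rw [inv_inv] at h2 h3
  exact ⟨h2, h3⟩

end Pool.Agent.LGC
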