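import Pool.Agent.LGC.Defs
import Pool.Agent.LGP.WAll

/-!
# Calculus of lists of items

Helper21, for MP_0707f5_ag (Theorem C).
-/

set_option autoImplicit false
set_option linter.unusedSectionVars false

namespace Pool.Agent.LGC

open Module Helper12.Sc
open SpQ (Hd WStep WReach WExt Good bare bd cj1)

section items
variable {Γ : Type} [Group Γ] {k : ℕ}

/-! ### lists -/

theorem hl_nil : hl ([] : List (Hd Γ k)) = [] := rfl

theorem hl_cons (h : Hd Γ k) (L : List (Hd Γ k)) : hl (h :: L) = Sum.inl h :: hl L := rfl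

theorem hl_append (L L' : List (Hd Γ k)) : hl (L ++ L') = hl L ++ hl L' := by
  unfold hl
  exact List.map_append

theorem hl_length (L : List (Hd Γ k)) : (hl L).length = L.length := by
  unfold hl
  exact List.length_map _

theorem mem_hl {L : List (Hd Γ k)} {i : It Γ k} : i ∈ hl L ↔ ∃ h ∈ L, Sum.inl h = i := by
  unfold hl
  exact List.mem_map

/-! ### reachability -/

theorem IReach.refl (X : List (It Γ k)) : IReach X X := Relation.ReflTransGen.refl

theorem IReach.trans {X Y Z : List (It Γ k)} (h : IReach X Y) (h' : IReach Y Z) : IReach X Z :=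
  Relation.ReflTransGen.trans h h'

theorem IReach.of_step {X Y : List (It Γ k)} (h : IStep X Y) : IReach X Y :=
  Relation.ReflTransGen.single h

theorem IReach.of_eq {X Y : List (It Γ k)} (h : X = Y) : IReach X Y := h ▸ IReach.refl X

theorem IStep.context {X Y : List (It Γ k)} (h : IStep X Y) (P Q : List (It Γ k)) :
    IStep (P ++ X ++ Q) (P ++ Y ++ Q) := by
  cases h with
  | st A B L L' h => simpa using IStep.st (P ++ A) (B ++ Q) L L' h
  | br A B i j => simpa using IStep.br (P ++ A) (B ++ Q) i j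
  | br' A B i j => simpa using IStep.br' (P ++ A) (B ++ Q) i j
  | ab A B a b y o => simpa using IStep.ab (P ++ A) (B ++ Q) a b y o
  | ab' A B a b y o => simpa using IStep.ab' (P ++ A) (B ++ Q) a b y o

theorem IReach.context {X Y : List (It Γ k)} (h : IReach X Y) (P Q : List (It Γ k)) :
    IReach (P ++ X ++ Q) (P ++ Y ++ Q) := by
  induction h with
  | refl => exact IReach.refl _
  | tail _ hs ih => exact Relation.ReflTransGen.tail ih (hs.context P Q)

theorem IReach.left {X Y : List (It Γ k)} (h : IReach X Y) (P : List (It Γ k)) :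
    IReach (P ++ X) (P ++ Y) := by
  simpa using h.context P []

theorem IReach.right {X Y : List (It Γ k)} (h : IReach X Y) (Q : List (It Γ k)) :
    IReach (X ++ Q) (Y ++ Q) := by
  simpa using h.context [] Q

theorem IReach.cons {X Y : List (It Γ k)} (h : IReach X Y) (i : It Γ k) :
    IReach (i :: X) (i :: Y) := h.left [i]

theorem IReach.of_wreach {L L' : List (Hd Γ k)} (h : WReach L L') : IReach (hl L) (hl L') := by
  induction h with
  | refl => exact IReach.refl _
  | tail _ hs ih =>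
    refine Relation.ReflTransGen.tail ih ?_
    simpa using IStep.st [] [] _ _ hs

theorem IReach.of_wreach' {L L' : List (Hd Γ k)} (h : WReach L L') (X Y : List (It Γ k)) :
    IReach (X ++ (hl L ++ Y)) (X ++ (hl L' ++ Y)) :=
  ((IReach.of_wreach h).right Y).left X

theorem IReach.br (i j : It Γ k) : IReach [i, j] [icj (ib i)⁻¹ j, i] :=
  IReach.of_step (by simpa using IStep.br [] [] i j)

theorem IReach.br' (i j : It Γ k) : IReach [i, j] [j, icj (ib j) i] :=
  IReach.of_step (by simpa using IStep.br' [] [] i j)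

theorem IStep.length_eq {X Y : List (It Γ k)} (h : IStep X Y) : Y.length = X.length := by
  cases h with
  | st A B L L' h =>
    have := h.length_eq
    simp [hl_length, this]
  | br A B i j => simp
  | br' A B i j => simp
  | ab A B a b y o => simp
  | ab' A B a b y o => simp

theorem IReach.length_eq {X Y : List (It Γ k)} (h : IReach X Y) : Y.length = X.length := by
  induction h with
  | refl => rfl
  | tail _ hs ih => rw [hs.length_eq, ih]

/-! ### conjugation -/

theorem icj_one (i : It Γ k) : icj 1 i = i := by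
  rcases i with ⟨⟨a, b⟩, o⟩ | y
  · simp [icj, cj1]
  · simp [icj]

theorem icj_icj (u v : Γ) (i : It Γ k) : icj v (icj u i) = icj (u * v) i := by
  rcases i with ⟨⟨a, b⟩, o⟩ | y
  · simp [icj, cj1, mul_assoc]
  · simp [icj, mul_assoc]

theorem cj1_cj1 (u v : Γ) (h : Hd Γ k) : cj1 v (cj1 u h) = cj1 (u * v) h := by
  obtain ⟨⟨a, b⟩, o⟩ := h
  simp [cj1, mul_assoc]

theorem cj1_one (h : Hd Γ k) : cj1 1 h = h := by
  obtain ⟨⟨a, b⟩, o⟩ := h
  simp [cj1]

theorem ib_icj (u : Γ) (i : It Γ k) : ib (icj u i) = u⁻¹ * ib i * u := by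
  rcases i with ⟨⟨a, b⟩, o⟩ | y
  · simp only [icj, ib, cj1, bd]
    group
  · rfl

theorem bd_cj1 (u : Γ) (h : Hd Γ k) : bd (cj1 u h) = u⁻¹ * bd h * u := by
  obtain ⟨⟨a, b⟩, o⟩ := h
  simp only [cj1, bd]
  group

theorem Kl.cj1 {N : Subgroup Γ} [N.Normal] {h : Hd Γ k} (hh : Kl N h) (u : Γ) :
    Kl N (cj1 u h) := by
  have h1 : ∀ x ∈ N, u⁻¹ * x * u ∈ N := by
    intro x hx
    have := Subgroup.Normal.conj_mem ‹N.Normal› x hx u⁻¹
    rwa [inv_inv] at this
  exact ⟨h1 _ hh.1, h1 _ hh.2⟩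

theorem Kl_iff {N : Subgroup Γ} {h : Hd Γ k} : Kl N h ↔ SpQ.E [h] ≤ N :=
  SpQ.E_singleton_le.symm

theorem Kl_list {N : Subgroup Γ} {B : List (Hd Γ k)} : (∀ h ∈ B, Kl N h) ↔ SpQ.E B ≤ N :=
  SpQ.E_le.symm

/-! ### the group -/

theorem GI_le {X : List (It Γ k)} {H : Subgroup Γ} : GI X ≤ H ↔ ∀ i ∈ X, ∀ z ∈ lt i, z ∈ H := by
  unfold GI
  rw [Subgroup.closure_le]
  constructor
  · intro h i hi z hz
    exact h ⟨i, hi, hz⟩
  · rintro h z ⟨i, hi, hz⟩
    exact h i hi z hz

theorem mem_GI {X : List (It Γ k)} {i : It Γ k} (hi : i ∈ X) {z : Γ} (hz : z ∈ lt i) : z ∈ GI X :=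
  GI_le.1 le_rfl i hi z hz

theorem GI_append (X Y : List (It Γ k)) : GI (X ++ Y) = GI X ⊔ GI Y := by
  apply le_antisymm
  · rw [GI_le]
    intro i hi z hz
    rcases List.mem_append.1 hi with hi | hi
    · exact (le_sup_left : GI X ≤ _) (mem_GI hi hz)
    · exact (le_sup_right : GI Y ≤ _) (mem_GI hi hz)
  · refine sup_le ?_ ?_
    · rw [GI_le]
      exact fun i hi z hz => mem_GI (List.mem_append_left _ hi) hz
    · rw [GI_le]
      exact fun i hi z hz => mem_GI (List.mem_append_right _ hi) hz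

theorem GI_nil : GI ([] : List (It Γ k)) = ⊥ := by
  rw [eq_bot_iff, GI_le]
  intro i hi
  simp at hi

theorem GI_cons (i : It Γ k) (X : List (It Γ k)) : GI (i :: X) = GI [i] ⊔ GI X := by
  rw [← GI_append]
  rfl

theorem GI_singleton_le {i : It Γ k} {H : Subgroup Γ} : GI [i] ≤ H ↔ ∀ z ∈ lt i, z ∈ H := by
  rw [GI_le]
  constructor
  · intro h
    exact h i (by simp)
  · intro h j hj
    rw [List.mem_singleton] at hj
    subst hj
    exact h

theorem GI_mono {X Y : List (It Γ k)} (h : ∀ i ∈ X, i ∈ Y) : GI X ≤ GI Y :=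
  GI_le.2 fun i hi _ hz => mem_GI (h i hi) hz

theorem GI_hl (L : List (Hd Γ k)) : GI (hl L) = SpQ.E L := by
  apply le_antisymm
  · rw [GI_le]
    intro i hi z hz
    obtain ⟨h, hh, rfl⟩ := mem_hl.1 hi
    rcases hz with rfl | hz
    · exact SpQ.fst_mem_E hh
    · rw [Set.mem_singleton_iff] at hz
      subst hz
      exact SpQ.snd_mem_E hh
  · rw [SpQ.E_le]
    intro h hh
    exact ⟨mem_GI (mem_hl.2 ⟨h, hh, rfl⟩) (Or.inl rfl), mem_GI (mem_hl.2 ⟨h, hh, rfl⟩) (Or.inr rfl)⟩

theorem GI_inl (h : Hd Γ k) : GI [Sum.inl h] = SpQ.E [h] := GI_hl [h]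

theorem GI_append_hl (X : List (It Γ k)) (L : List (Hd Γ k)) :
    GI (X ++ hl L) = GI X ⊔ SpQ.E L := by
  rw [GI_append, GI_hl]

theorem ib_mem {i : It Γ k} {H : Subgroup Γ} (h : ∀ z ∈ lt i, z ∈ H) : ib i ∈ H := by
  rcases i with ⟨⟨a, b⟩, o⟩ | y
  · exact SpQ.bd_mem (h _ (Or.inl rfl)) (h _ (Or.inr rfl))
  · exact h _ rfl

theorem ib_mem_GI {X : List (It Γ k)} {i : It Γ k} (hi : i ∈ X) : ib i ∈ GI X :=
  ib_mem fun _ hz => mem_GI hi hz

/-- the letters of a conjugated item -/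
theorem mem_lt_icj {u : Γ} {i : It Γ k} {z : Γ} :
    z ∈ lt (icj u i) ↔ ∃ t ∈ lt i, z = u⁻¹ * t * u := by
  rcases i with ⟨⟨a, b⟩, o⟩ | y
  · simp only [icj, cj1, lt, Set.mem_insert_iff, Set.mem_singleton_iff]
    constructor
    · rintro (rfl | rfl)
      · exact ⟨a, Or.inl rfl, rfl⟩
      · exact ⟨b, Or.inr rfl, rfl⟩
    · rintro ⟨t, rfl | rfl, rfl⟩
      · exact Or.inl rfl
      · exact Or.inr rfl
  · simp only [icj, lt, Set.mem_singleton_iff]
    constructor
    · rintro rfl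
      exact ⟨y, rfl, rfl⟩
    · rintro ⟨t, rfl, rfl⟩
      rfl

theorem lt_icj_le {H : Subgroup Γ} {u : Γ} (hu : u ∈ H) {i : It Γ k}
    (h : ∀ z ∈ lt i, z ∈ H) : ∀ z ∈ lt (icj u i), z ∈ H := by
  intro z hz
  obtain ⟨t, ht, rfl⟩ := mem_lt_icj.1 hz
  exact H.mul_mem (H.mul_mem (H.inv_mem hu) (h t ht)) hu

theorem lt_icj_le' {H : Subgroup Γ} {u : Γ} (hu : u ∈ H) {i : It Γ k}
    (h : ∀ z ∈ lt (icj u i), z ∈ H) : ∀ z ∈ lt i, z ∈ H := by
  intro z hz
  have h1 := h _ (mem_lt_icj.2 ⟨z, hz, rfl⟩)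
  have h2 := H.mul_mem (H.mul_mem hu h1) (H.inv_mem hu)
  exact LGP.mem_word (by group) h2

private theorem GI_two (X Y : List (It Γ k)) (i j i' j' : It Γ k)
    (h : ∀ H : Subgroup Γ, ((∀ z ∈ lt i, z ∈ H) ∧ ∀ z ∈ lt j, z ∈ H) ↔
      ((∀ z ∈ lt i', z ∈ H) ∧ ∀ z ∈ lt j', z ∈ H)) :
    GI (X ++ i' :: j' :: Y) = GI (X ++ i :: j :: Y) := by
  have key : ∀ (u v : It Γ k) (H : Subgroup Γ), GI (X ++ u :: v :: Y) ≤ H ↔
      GI X ≤ H ∧ ((∀ z ∈ lt u, z ∈ H) ∧ ∀ z ∈ lt v, z ∈ H) ∧ GI Y ≤ H := by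
    intro u v H
    rw [GI_append, GI_cons, GI_cons v, sup_le_iff, sup_le_iff, sup_le_iff, GI_singleton_le,
      GI_singleton_le, and_assoc]
  apply le_antisymm
  · rw [key, ← h]
    exact (key i j _).1 le_rfl
  · rw [key, h]
    exact (key i' j' _).1 le_rfl

theorem IStep.GI_eq {X Y : List (It Γ k)} (h : IStep X Y) : GI Y = GI X := by
  cases h with
  | st A B L L' h => rw [GI_append, GI_append, GI_append, GI_append, GI_hl, GI_hl, h.E_eq]
  | br A B i j =>
    refine GI_two A B i j _ _ fun H => ⟨?_, ?_⟩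
    · rintro ⟨h1, h2⟩
      exact ⟨lt_icj_le (H.inv_mem (ib_mem h1)) h2, h1⟩
    · rintro ⟨h1, h2⟩
      exact ⟨h2, lt_icj_le' (H.inv_mem (ib_mem h2)) h1⟩
  | br' A B i j =>
    refine GI_two A B i j _ _ fun H => ⟨?_, ?_⟩
    · rintro ⟨h1, h2⟩
      exact ⟨h2, lt_icj_le (ib_mem h2) h1⟩
    · rintro ⟨h1, h2⟩
      exact ⟨lt_icj_le' (ib_mem h1) h2, h1⟩
  | ab A B a b y o =>
    refine GI_two A B _ _ _ _ fun H => ?_
    simp only [lt, Set.mem_insert_iff, Set.mem_singleton_iff, forall_eq_or_imp, forall_eq]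
    constructor
    · rintro ⟨⟨ha, hb⟩, hy⟩
      have hb' : y⁻¹ * b ∈ H := H.mul_mem (H.inv_mem hy) hb
      have hD : a * (y⁻¹ * b) * a⁻¹ * (y⁻¹ * b)⁻¹ ∈ H :=
        H.mul_mem (H.mul_mem (H.mul_mem ha hb') (H.inv_mem ha)) (H.inv_mem hb')
      exact ⟨⟨ha, hb'⟩, H.mul_mem (H.mul_mem (H.inv_mem hD)
        (H.mul_mem (H.mul_mem ha hy) (H.inv_mem ha))) hD⟩
    · rintro ⟨⟨ha, hb'⟩, hy'⟩
      have hD : a * (y⁻¹ * b) * a⁻¹ * (y⁻¹ * b)⁻¹ ∈ H :=
        H.mul_mem (H.mul_mem (H.mul_mem ha hb') (H.inv_mem ha)) (H.inv_mem hb')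
      have hy : y ∈ H := by
        have h3 := H.mul_mem (H.mul_mem (H.inv_mem ha) (H.mul_mem (H.mul_mem hD hy')
          (H.inv_mem hD))) ha
        exact LGP.mem_word (by group) h3
      have hb : b ∈ H := by
        have h3 := H.mul_mem hy hb'
        exact LGP.mem_word (by group) h3
      exact ⟨⟨ha, hb⟩, hy⟩
  | ab' A B a b y o =>
    refine GI_two A B _ _ _ _ fun H => ?_
    simp only [lt, Set.mem_insert_iff, Set.mem_singleton_iff, forall_eq_or_imp, forall_eq]
    constructor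
    · rintro ⟨⟨ha, hb⟩, hy⟩
      have hD : a * b * a⁻¹ * b⁻¹ ∈ H :=
        H.mul_mem (H.mul_mem (H.mul_mem ha hb) (H.inv_mem ha)) (H.inv_mem hb)
      have hz : a⁻¹ * ((a * b * a⁻¹ * b⁻¹) * y * (a * b * a⁻¹ * b⁻¹)⁻¹) * a ∈ H :=
        H.mul_mem (H.mul_mem (H.inv_mem ha) (H.mul_mem (H.mul_mem hD hy) (H.inv_mem hD))) ha
      exact ⟨⟨ha, H.mul_mem hz hb⟩, hz⟩
    · rintro ⟨⟨ha, hb'⟩, hz⟩
      have hb : b ∈ H := by
        have h3 := H.mul_mem (H.inv_mem hz) hb'
        exact LGP.mem_word (by group) h3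
      have hD : a * b * a⁻¹ * b⁻¹ ∈ H :=
        H.mul_mem (H.mul_mem (H.mul_mem ha hb) (H.inv_mem ha)) (H.inv_mem hb)
      have hy : y ∈ H := by
        have h3 := H.mul_mem (H.mul_mem (H.mul_mem (H.mul_mem (H.inv_mem hD) ha) hz)
          (H.inv_mem ha)) hD
        exact LGP.mem_word (by group) h3
      exact ⟨⟨ha, hb⟩, hy⟩

theorem IReach.GI_eq {X Y : List (It Γ k)} (h : IReach X Y) : GI Y = GI X := by
  induction h with
  | refl => rfl
  | tail _ hs ih => rw [hs.GI_eq, ih]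

/-! ### moving items -/

/-- an item moves to the right end unchanged, the others are conjugated -/
theorem IReach.move_right (i : It Γ k) (X : List (It Γ k)) :
    IReach (i :: X) (X.map (icj (ib i)⁻¹) ++ [i]) := by
  induction X with
  | nil => exact IReach.refl _
  | cons j X ih =>
    have h1 := IReach.of_step (IStep.br [] X i j)
    have h2 := ih.cons (icj (ib i)⁻¹ j)
    simp only [List.nil_append] at h1
    exact h1.trans h2

/-- an item moves to the left end unchanged, the others are conjugated -/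
theorem IReach.move_left' (X : List (It Γ k)) (i : It Γ k) :
    IReach (X ++ [i]) (i :: X.map (icj (ib i))) := by
  induction X using List.reverseRecOn with
  | nil => exact IReach.refl _
  | append_singleton X j ih =>
    have h1 := IReach.of_step (IStep.br' X [] j i)
    have h2 := ih.right [icj (ib i) j]
    have e : X ++ [i, icj (ib i) j] = X ++ [i] ++ [icj (ib i) j] := by simp
    have e2 : i :: List.map (icj (ib i)) (X ++ [j]) =
        i :: List.map (icj (ib i)) X ++ [icj (ib i) j] := by simp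
    rw [e2]
    refine IReach.trans ?_ h2
    simpa using h1

/-- an item moves to the left end, conjugated, the others are unchanged -/
theorem IReach.move_left (X : List (It Γ k)) (i : It Γ k) :
    ∃ u ∈ GI X, IReach (X ++ [i]) (icj u i :: X) := by
  induction X using List.reverseRecOn generalizing i with
  | nil =>
    refine ⟨1, Subgroup.one_mem _, ?_⟩
    rw [icj_one]
    exact IReach.refl _
  | append_singleton X j ih =>
    obtain ⟨u, hu, hr⟩ := ih (icj (ib j)⁻¹ i)
    rw [icj_icj] at hr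
    refine ⟨(ib j)⁻¹ * u, ?_, ?_⟩
    · refine Subgroup.mul_mem _ (Subgroup.inv_mem _ (ib_mem_GI (by simp))) ?_
      exact GI_mono (fun a ha => List.mem_append_left _ ha) hu
    · have h1 := IReach.of_step (IStep.br X [] j i)
      have h2 := hr.right [j]
      have e : X ++ [icj (ib j)⁻¹ i, j] = X ++ [icj (ib j)⁻¹ i] ++ [j] := by simp
      rw [e] at h1
      have e2 : X ++ [j] ++ [i] = X ++ [j, i] := by simp
      rw [e2]
      exact h1.trans h2

/-- an item moves to the right end, conjugated, the others are unchanged -/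
theorem IReach.move_right' (X : List (It Γ k)) (i : It Γ k) :
    ∃ u ∈ GI X, IReach (i :: X) (X ++ [icj u i]) := by
  induction X generalizing i with
  | nil =>
    refine ⟨1, Subgroup.one_mem _, ?_⟩
    rw [icj_one]
    exact IReach.refl _
  | cons j X ih =>
    obtain ⟨u, hu, hr⟩ := ih (icj (ib j) i)
    rw [icj_icj] at hr
    refine ⟨ib j * u, ?_, ?_⟩
    · refine Subgroup.mul_mem _ (ib_mem_GI (by simp)) ?_
      exact GI_mono (fun a ha => List.mem_cons_of_mem _ ha) hu
    · have h1 := IReach.of_step (IStep.br' [] X i j)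
      have h2 := hr.cons j
      simp only [List.nil_append] at h1
      exact h1.trans h2

/-- a block moves to the right end unchanged, the others are conjugated -/
theorem IReach.move_block (P X : List (It Γ k)) : ∃ u ∈ GI P,
    IReach (P ++ X) (X.map (icj u) ++ P) := by
  induction P generalizing X with
  | nil =>
    refine ⟨1, Subgroup.one_mem _, ?_⟩
    have e : X.map (icj 1) = X := by
      have : (icj (1 : Γ) : It Γ k → It Γ k) = id := funext icj_one
      rw [this, List.map_id]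
    rw [e]
    simpa using IReach.refl X
  | cons i P ih =>
    obtain ⟨u, hu, hr⟩ := ih X
    refine ⟨u * (ib i)⁻¹, ?_, ?_⟩
    · refine Subgroup.mul_mem _ ?_ (Subgroup.inv_mem _ (ib_mem_GI (by simp)))
      exact GI_mono (fun a ha => List.mem_cons_of_mem _ ha) hu
    · have h1 := hr.cons i
      have h2 := (IReach.move_right i (X.map (icj u))).right P
      rw [List.map_map] at h2
      have e : (icj (ib i)⁻¹ ∘ icj u : It Γ k → It Γ k) = icj (u * (ib i)⁻¹) :=
        funext fun j => icj_icj u _ j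
      rw [e] at h2
      have h3 := h1.trans (by simpa using h2)
      simpa using h3

/-! ### `N` is generated by the part in `GI X` and the conjugates of the killed handles -/

theorem grp {N : Subgroup Γ} [N.Normal] (X : List (It Γ k)) (B : List (Hd Γ k))
    (hB : ∀ h ∈ B, Kl N h) (S : Subgroup Γ) (h1 : N ⊓ GI X ≤ S)
    (h2 : ∀ v ∈ GI X, ∀ q ∈ B, SpQ.E [cj1 v q] ≤ S) : N ⊓ GI (X ++ hl B) ≤ S := by
  -- the group of the conjugates
  set J : Subgroup Γ := Subgroup.closure {z | ∃ v ∈ GI X, ∃ q ∈ B,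
    z = v⁻¹ * q.1.1 * v ∨ z = v⁻¹ * q.1.2 * v} with hJ
  have hJS : J ≤ S := by
    rw [hJ, Subgroup.closure_le]
    rintro z ⟨v, hv, q, hq, hz⟩
    have h3 := SpQ.E_singleton_le.1 (h2 v hv q hq)
    rcases hz with rfl | rfl
    · exact h3.1
    · exact h3.2
  have hJN : J ≤ N := by
    rw [hJ, Subgroup.closure_le]
    rintro z ⟨v, -, q, hq, hz⟩
    have h3 := (hB q hq).cj1 v
    rcases hz with rfl | rfl
    · exact h3.1
    · exact h3.2
  have hconj : ∀ v ∈ GI X, ∀ j ∈ J, v⁻¹ * j * v ∈ J := by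
    intro v hv j hj
    have h3 : J ≤ J.comap (MulAut.conj v⁻¹).toMonoidHom := by
      conv_lhs => rw [hJ]
      rw [Subgroup.closure_le]
      rintro z ⟨v', hv', q, hq, hz⟩
      show MulAut.conj v⁻¹ z ∈ J
      rw [MulAut.conj_apply]
      apply Subgroup.subset_closure
      refine ⟨v' * v, Subgroup.mul_mem _ hv' hv, q, hq, ?_⟩
      rcases hz with rfl | rfl
      · left
        group
      · right
        group
    have h4 := h3 hj
    change MulAut.conj v⁻¹ j ∈ J at h4
    rwa [MulAut.conj_apply, inv_inv] at h4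
  -- products
  let T : Subgroup Γ :=
    { carrier := {g | ∃ x ∈ GI X, ∃ j ∈ J, g = x * j}
      one_mem' := ⟨1, Subgroup.one_mem _, 1, Subgroup.one_mem _, by group⟩
      mul_mem' := by
        rintro _ _ ⟨x, hx, j, hj, rfl⟩ ⟨x', hx', j', hj', rfl⟩
        exact ⟨x * x', Subgroup.mul_mem _ hx hx', (x'⁻¹ * j * x') * j',
          Subgroup.mul_mem _ (hconj x' hx' j hj) hj', by group⟩
      inv_mem' := by
        rintro _ ⟨x, hx, j, hj, rfl⟩
        refine ⟨x⁻¹, Subgroup.inv_mem _ hx, x * j⁻¹ * x⁻¹, ?_, by group⟩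
        have := hconj x⁻¹ (Subgroup.inv_mem _ hx) j⁻¹ (Subgroup.inv_mem _ hj)
        rwa [inv_inv] at this }
  have hT : GI (X ++ hl B) ≤ T := by
    rw [GI_append_hl]
    refine sup_le ?_ ?_
    · intro x hx
      exact ⟨x, hx, 1, Subgroup.one_mem _, by group⟩
    · rw [SpQ.E_le]
      intro q hq
      refine ⟨⟨1, Subgroup.one_mem _, q.1.1, ?_, by group⟩,
        ⟨1, Subgroup.one_mem _, q.1.2, ?_, by group⟩⟩
      · exact Subgroup.subset_closure ⟨1, Subgroup.one_mem _, q, hq, Or.inl (by group)⟩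
      · exact Subgroup.subset_closure ⟨1, Subgroup.one_mem _, q, hq, Or.inr (by group)⟩
  intro z hz
  obtain ⟨hzN, hzG⟩ := Subgroup.mem_inf.1 hz
  obtain ⟨x, hx, j, hj, rfl⟩ := hT hzG
  have hxN : x ∈ N := by
    have := N.mul_mem hzN (N.inv_mem (hJN hj))
    exact LGP.mem_word (by group) this
  exact S.mul_mem (h1 (Subgroup.mem_inf.2 ⟨hxN, hx⟩)) (hJS hj)

end items

end Pool.Agent.LGC
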