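import Pool.Agent.LGC.Lif
import Pool.Agent.LGC.Bas
import Pool.Agent.SpQ.Norm
import Pool.Agent.SpQ.Greedy

/-!
# Killed good handles generate `N`

Helper2, for MP_0707f5_ag (statement of helper21, `LGC.St_Gno`).
-/

set_option autoImplicit false

namespace Pool.Agent.LGC

open Matrix Module Helper12.Sc
open SpQ (Hd WStep WReach WExt Good bare bd cj1 IsSpinStructure)
open LGP (F ga gb gx x0 MC NS MR stdL stdM dstd wty prj cyc)

section

variable {Γ : Type} [Group Γ] {k : ℕ}

/-- letters of the image of an item -/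
theorem Gno_lt_imap {Δ : Type} [Group Δ] (f : Γ →* Δ) (i : It Γ k) {z : Γ} (hz : z ∈ lt i) :
    f z ∈ lt (imap f i) := by
  rcases i with ⟨⟨a, b⟩, o⟩ | y
  · rcases hz with rfl | hz
    · exact Or.inl rfl
    · rw [Set.mem_singleton_iff] at hz
      subst hz
      exact Or.inr rfl
  · rw [show lt (Sum.inr y : It Γ k) = {y} from rfl, Set.mem_singleton_iff] at hz
    subst hz
    exact rfl

/-- images of elements of the group of the letters -/
theorem Gno_map {Δ : Type} [Group Δ] (f : Γ →* Δ) (X : List (It Γ k)) {u : Γ}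
    (hu : u ∈ GI X) : f u ∈ GI (X.map (imap f)) := by
  have h : GI X ≤ (GI (X.map (imap f))).comap f := by
    rw [GI_le]
    intro i hi z hz
    exact mem_GI (List.mem_map_of_mem hi) (Gno_lt_imap f i hz)
  exact h hu

/-- step (1): the conjugates of the handles -/
theorem Gno_cj (hC : St_Cnj) (N : Subgroup Γ) [N.Normal] (X : List (It Γ k))
    (B : List (Hd Γ k)) (hg : ∀ h ∈ B, Good h) (hk : ∀ h ∈ B, Kl N h) (H : Subgroup Γ)
    (hH : ∀ (X' : List (It Γ k)) (B' : List (Hd Γ k)), IReach (X ++ hl B) (X' ++ hl B') →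
      B'.length = B.length → (∀ h ∈ B', Good h) → (∀ h ∈ B', Kl N h) → SpQ.E B' ≤ H) :
    ∀ (m : ℕ) (B₁ B₂ : List (Hd Γ k)) (q : Hd Γ k), B₁.length = m → B = B₁ ++ q :: B₂ →
      ∀ v ∈ GI X, SpQ.E [cj1 v q] ≤ H := by
  intro m
  induction m using Nat.strong_induction_on with
  | _ m ih =>
  intro B₁ B₂ q hm hB v hv
  have h1 : ∀ p ∈ B₁, ∀ w ∈ GI X, SpQ.E [cj1 w p] ≤ H := by
    intro p hp w hw
    obtain ⟨C₁, C₂, rfl⟩ := List.append_of_mem hp
    refine ih C₁.length ?_ C₁ (C₂ ++ q :: B₂) p rfl ?_ w hw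
    · rw [← hm]
      simp
    · rw [hB]
      simp
  obtain ⟨c, hc, hr⟩ := SpQ.move_front B₁ q
  have hr2 : WReach B (cj1 c q :: (B₁ ++ B₂)) := by
    have := hr.right B₂
    rw [hB]
    simpa using this
  have hqB : q ∈ B := by
    rw [hB]
    simp
  have hgB : ∀ h ∈ B₁ ++ B₂, Good h := by
    intro h hh
    refine hg h ?_
    rw [hB]
    rcases List.mem_append.1 hh with hh | hh
    · exact List.mem_append_left _ hh
    · exact List.mem_append_right _ (List.mem_cons_of_mem _ hh)
  have hkB : ∀ h ∈ B₁ ++ B₂, Kl N h := by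
    intro h hh
    refine hk h ?_
    rw [hB]
    rcases List.mem_append.1 hh with hh | hh
    · exact List.mem_append_left _ hh
    · exact List.mem_append_right _ (List.mem_cons_of_mem _ hh)
  have hlen : (B₁ ++ B₂).length + 1 = B.length := by
    rw [hB]
    simp only [List.length_append, List.length_cons]
    omega
  have h2 : ∀ w ∈ GI X, SpQ.E [cj1 w (cj1 c q)] ≤ H := by
    refine hC Γ k X (cj1 c q) H ?_
    intro X' w hw
    have h3 : IReach (X ++ hl B) (X' ++ hl (cj1 w (cj1 c q) :: (B₁ ++ B₂))) := by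
      have e1 : IReach (X ++ hl B) (X ++ hl (cj1 c q :: (B₁ ++ B₂))) :=
        (IReach.of_wreach hr2).left X
      have e2 := hw.right (hl (B₁ ++ B₂))
      refine e1.trans ?_
      rw [hl_cons, hl_cons]
      simpa using e2
    have h4 := hH X' (cj1 w (cj1 c q) :: (B₁ ++ B₂)) h3 (by
      rw [List.length_cons, hlen]) (by
      intro h hh
      rcases List.mem_cons.1 hh with rfl | hh
      · exact ((hg q hqB).cj1 c).cj1 w
      · exact hgB h hh) (by
      intro h hh
      rcases List.mem_cons.1 hh with rfl | hh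
      · exact ((hk q hqB).cj1 c).cj1 w
      · exact hkB h hh)
    rw [SpQ.E_cons] at h4
    exact le_trans le_sup_left h4
  have h5 : v⁻¹ * c * v ∈ H := by
    have h6 : SpQ.E B₁ ≤ H.comap (MulAut.conj v⁻¹).toMonoidHom := by
      rw [SpQ.E_le]
      intro p hp
      have h7 := SpQ.E_singleton_le.1 (h1 p hp v hv)
      constructor
      · show MulAut.conj v⁻¹ p.1.1 ∈ H
        rw [MulAut.conj_apply, inv_inv]
        exact h7.1
      · show MulAut.conj v⁻¹ p.1.2 ∈ H
        rw [MulAut.conj_apply, inv_inv]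
        exact h7.2
    have h8 := h6 hc
    change MulAut.conj v⁻¹ c ∈ H at h8
    rwa [MulAut.conj_apply, inv_inv] at h8
  have h9 := SpQ.E_singleton_le.1 (h2 v hv)
  rw [SpQ.E_singleton_le]
  constructor
  · have := H.mul_mem (H.mul_mem h5 h9.1) (H.inv_mem h5)
    refine LGP.mem_word ?_ this
    simp only [cj1]
    group
  · have := H.mul_mem (H.mul_mem h5 h9.2) (H.inv_mem h5)
    refine LGP.mem_word ?_ this
    simp only [cj1]
    group

/-- the group of the conjugates is normal -/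
theorem Gno_normal (X : List (It Γ k)) (B : List (Hd Γ k)) (hgen : GI (X ++ hl B) = ⊤) :
    (Subgroup.closure {z : Γ | ∃ v ∈ GI X, ∃ q ∈ B,
      z = v⁻¹ * q.1.1 * v ∨ z = v⁻¹ * q.1.2 * v}).Normal := by
  set J : Subgroup Γ := Subgroup.closure {z | ∃ v ∈ GI X, ∃ q ∈ B,
    z = v⁻¹ * q.1.1 * v ∨ z = v⁻¹ * q.1.2 * v} with hJ
  have hconj : ∀ v ∈ GI X, ∀ j ∈ J, v⁻¹ * j * v ∈ J := by
    intro v hv j hj
    have h3 : J ≤ J.comap (MulAut.conj v⁻¹).toMonoidHom := by
      conv_lhs => rw [hJ]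
      rw [Subgroup.closure_le]
      rintro z ⟨v', hv', q, hq, hz⟩
      show MulAut.conj v⁻¹ z ∈ J
      rw [MulAut.conj_apply]
      apply Subgroup.subset_closure
      refine ⟨v' * v, Subgroup.mul_mem _ hv' hv, q, hq, ?_⟩
      rcases hz with rfl | rfl
      · left
        group
      · right
        group
    have h4 := h3 hj
    change MulAut.conj v⁻¹ j ∈ J at h4
    rwa [MulAut.conj_apply, inv_inv] at h4
  have hEJ : SpQ.E B ≤ J := by
    rw [SpQ.E_le]
    intro q hq
    constructor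
    · exact Subgroup.subset_closure ⟨1, Subgroup.one_mem _, q, hq, Or.inl (by group)⟩
    · exact Subgroup.subset_closure ⟨1, Subgroup.one_mem _, q, hq, Or.inr (by group)⟩
  let T : Subgroup Γ :=
    { carrier := {g | ∀ j : Γ, j ∈ J ↔ g * j * g⁻¹ ∈ J}
      one_mem' := by
        intro j
        simp
      mul_mem' := by
        intro a b ha hb j
        rw [hb j, ha (b * j * b⁻¹)]
        have e : a * (b * j * b⁻¹) * a⁻¹ = a * b * j * (a * b)⁻¹ := by group
        rw [e]
      inv_mem' := by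
        intro a ha j
        rw [ha (a⁻¹ * j * a⁻¹⁻¹)]
        have e : a * (a⁻¹ * j * a⁻¹⁻¹) * a⁻¹ = j := by group
        rw [e] }
  have hT : (⊤ : Subgroup Γ) ≤ T := by
    rw [← hgen, GI_append_hl]
    refine sup_le ?_ ?_
    · intro x hx j
      constructor
      · intro hj
        have := hconj x⁻¹ (Subgroup.inv_mem _ hx) j hj
        rwa [inv_inv] at this
      · intro hj
        have := hconj x hx _ hj
        exact LGP.mem_word (by group) this
    · intro x hx j
      have hx' := hEJ hx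
      constructor
      · intro hj
        exact J.mul_mem (J.mul_mem hx' hj) (J.inv_mem hx')
      · intro hj
        have := J.mul_mem (J.mul_mem (J.inv_mem hx') hj) hx'
        exact LGP.mem_word (by group) this
  exact ⟨fun j hj g => (hT (Subgroup.mem_top g) j).1 hj⟩

end

/-- **GNO** -/
theorem thm_Gno (hC : St_Cnj) (hS : St_Slo) (hL : St_Lif) : St_Gno := by
  intro Γ _ k N _ X B hne hg hk hgen H hH
  have hcj : ∀ v ∈ GI X, ∀ q ∈ B, SpQ.E [cj1 v q] ≤ H := by
    intro v hv q hq
    obtain ⟨B₁, B₂, hB⟩ := List.append_of_mem hq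
    exact Gno_cj hC N X B hg hk H hH B₁.length B₁ B₂ q rfl hB v hv
  -- the group of the conjugates
  obtain ⟨J, hJn, hJH, hJN, hJE⟩ : ∃ J : Subgroup Γ, J.Normal ∧ J ≤ H ∧ J ≤ N ∧
      SpQ.E B ≤ J := by
    refine ⟨_, Gno_normal X B hgen, ?_, ?_, ?_⟩
    · rw [Subgroup.closure_le]
      rintro z ⟨v, hv, q, hq, hz⟩
      have h3 := SpQ.E_singleton_le.1 (hcj v hv q hq)
      rcases hz with rfl | rfl
      · exact h3.1
      · exact h3.2
    · rw [Subgroup.closure_le]
      rintro z ⟨v, -, q, hq, hz⟩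
      have h3 := (hk q hq).cj1 v
      rcases hz with rfl | rfl
      · exact h3.1
      · exact h3.2
    · rw [SpQ.E_le]
      intro q hq
      constructor
      · exact Subgroup.subset_closure ⟨1, Subgroup.one_mem _, q, hq, Or.inl (by group)⟩
      · exact Subgroup.subset_closure ⟨1, Subgroup.one_mem _, q, hq, Or.inr (by group)⟩
  have h1 : N ⊓ GI X ≤ H := by
    intro u hu
    obtain ⟨huN, huX⟩ := Subgroup.mem_inf.1 hu
    obtain ⟨p, B₂, rfl⟩ := List.exists_cons_of_ne_nil hne
    obtain ⟨⟨a, b⟩, o⟩ := p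
    have ho : o = (-1, 1) := hg ((a, b), o) (List.mem_cons_self)
    subst ho
    have ha : a ∈ J := hJE (SpQ.fst_mem_E (h := ((a, b), (-1, 1))) (List.mem_cons_self))
    have hb : b ∈ J := hJE (SpQ.snd_mem_E (h := ((a, b), (-1, 1))) (List.mem_cons_self))
    have hfa : QuotientGroup.mk' J a = 1 := (QuotientGroup.eq_one_iff a).2 ha
    have hfb : QuotientGroup.mk' J b = 1 := (QuotientGroup.eq_one_iff b).2 hb
    obtain ⟨X', t, hX'⟩ := hS (Γ ⧸ J) k (X.map (imap (QuotientGroup.mk' J))) 1 (-1, 1)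
      (QuotientGroup.mk' J u) (Gno_map _ X huX)
    have e1 : (X ++ [Sum.inl ((a, b), ((-1 : ZMod k), (1 : ZMod k)))]).map
        (imap (QuotientGroup.mk' J)) = X.map (imap (QuotientGroup.mk' J)) ++
          [Sum.inl (((1 : Γ ⧸ J), (1 : Γ ⧸ J)), ((-1 : ZMod k), (1 : ZMod k)))] := by
      rw [List.map_append]
      simp only [List.map_cons, List.map_nil, imap]
      rw [hfa, hfb]
    rw [← e1] at hX'
    obtain ⟨X'', hr, hX''⟩ := hL Γ (Γ ⧸ J) k _ _ _ hX'
    obtain ⟨X₁, s, rfl, -, hs⟩ := List.map_eq_append_iff.1 hX''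
    obtain ⟨i, s', rfl, hi, hs'⟩ := List.map_eq_cons_iff.1 hs
    rw [List.map_eq_nil_iff] at hs'
    subst hs'
    obtain ⟨a', y, rfl, ha', hy⟩ := Lif_inl _ i _ _ _ hi
    have ha'J : a' ∈ J := (QuotientGroup.eq_one_iff a').1 ha'
    have hyJ : u⁻¹ * y ∈ J := by
      rw [mul_one] at hy
      exact (QuotientGroup.eq (s := J)).1 hy.symm
    have hyN : y ∈ N := by
      have := N.mul_mem huN (hJN hyJ)
      exact LGP.mem_word (by group) this
    obtain ⟨y', hy'⟩ := SpQ.good_of_neg_one a' y t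
    have hE := hy'.E_eq
    have hkl : Kl N (((a', y'), ((-1 : ZMod k), (1 : ZMod k))) : Hd Γ k) := by
      rw [Kl_iff, hE, ← Kl_iff]
      exact ⟨hJN ha'J, hyN⟩
    have h3 : IReach (X ++ hl (((a, b), ((-1 : ZMod k), (1 : ZMod k))) :: B₂))
        (X₁ ++ hl (((a', y'), ((-1 : ZMod k), (1 : ZMod k))) :: B₂)) := by
      have r1 := hr.right (hl B₂)
      have r2 := IReach.of_wreach' hy' X₁ (hl B₂)
      rw [hl_cons, hl_cons]
      refine IReach.trans ?_ r2
      simpa [hl] using r1
    have h4 := hH X₁ (((a', y'), ((-1 : ZMod k), (1 : ZMod k))) :: B₂) h3 (by simp) (by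
      intro h hh
      rcases List.mem_cons.1 hh with rfl | hh
      · exact rfl
      · exact hg h (List.mem_cons_of_mem _ hh)) (by
      intro h hh
      rcases List.mem_cons.1 hh with rfl | hh
      · exact hkl
      · exact hk h (List.mem_cons_of_mem _ hh))
    rw [SpQ.E_cons, hE] at h4
    have hyH : y ∈ H := (SpQ.E_singleton_le.1 (le_trans le_sup_left h4)).2
    have := H.mul_mem hyH (H.inv_mem (hJH hyJ))
    exact LGP.mem_word (by group) this
  have h5 := grp X B hk H h1 hcj
  rwa [hgen, inf_top_eq] at h5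

end Pool.Agent.LGC
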