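import Pool.Agent.LGC.Defs

/-!
# LGC, module Pas: a handle moves around the loops of its neighbour (helper76)
-/

set_option autoImplicit false

namespace Pool.Agent.LGC

open SpQ (Hd WStep WReach)

private lemma Pas_cast {Γ : Type} [Group Γ] {k : ℕ} {L : List (Hd Γ k)}
    {a b c d a1 b1 c1 d1 : Γ} {p q r s p1 q1 r1 s1 : ZMod k}
    (h : WStep L [((a, b), (p, q)), ((c, d), (r, s))])
    (ha : a = a1) (hb : b = b1) (hc : c = c1) (hd : d = d1)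
    (hp : p = p1) (hq : q = q1) (hr : r = r1) (hs : s = s1) :
    WReach L [((a1, b1), (p1, q1)), ((c1, d1), (r1, s1))] := by
  subst ha hb hc hd hp hq hr hs
  exact WReach.of_step h

private lemma Pas_one {Γ : Type} [Group Γ] {k : ℕ} (x y a b : Γ) (p q p' q' : ZMod k) :
    WReach (Γ := Γ) [((x, y), (p, q)),
      ((a, b), (p', q'))]
      [((a, a⁻¹ * x * y * x⁻¹ * y⁻¹ * a * b), (p', q' + 2)),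
      ((a⁻¹ * x * a, a⁻¹ * y * a), (p, q))] := by
  have s1 : WReach (Γ := Γ) [((x, y), (p, q)),
      ((a, b), (p', q'))]
      [((x, y * x), (p, p + q)),
      ((a, b), (p', q'))] :=
    Pas_cast (WStep.tw [] [((a, b), (p', q'))] x y p q)
      rfl (by group) rfl rfl rfl (by ring) rfl rfl
  have s2 : WReach (Γ := Γ) [((x, y * x), (p, p + q)),
      ((a, b), (p', q'))]
      [((x, y * x), (p, p + q)),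
      ((a, b * a), (p', p' + q'))] :=
    Pas_cast (WStep.tw [((x, y * x), (p, p + q))] [] a b p' q')
      rfl rfl rfl (by group) rfl rfl rfl (by ring)
  have s3 : WReach (Γ := Γ) [((x, y * x), (p, p + q)),
      ((a, b * a), (p', p' + q'))]
      [((x, y * x), (p, p + q)),
      ((a * b, a⁻¹), (p' + q', -p'))] :=
    Pas_cast (WStep.rot' [((x, y * x), (p, p + q))] [] a (b * a) p' (p' + q'))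
      rfl rfl (by group) (by group) rfl rfl rfl (by ring)
  have s4 : WReach (Γ := Γ) [((x, y * x), (p, p + q)),
      ((a * b, a⁻¹), (p' + q', -p'))]
      [((x, y * x⁻¹ * y⁻¹ * a * b * a⁻¹ * b⁻¹ * a⁻¹ * y * x), (p, q - p' + 1)),
      ((y * x⁻¹ * y⁻¹ * a * b, a⁻¹), (-p + p' + q' + 1, -p'))] :=
    Pas_cast (WStep.sl [] [] x (y * x) (a * b) a⁻¹ p (p + q) (p' + q') (-p'))
      rfl (by group) (by group) rfl rfl (by ring) (by ring) rfl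
  have s5 : WReach (Γ := Γ) [((x, y * x⁻¹ * y⁻¹ * a * b * a⁻¹ * b⁻¹ * a⁻¹ * y * x), (p, q - p' + 1)),
      ((y * x⁻¹ * y⁻¹ * a * b, a⁻¹), (-p + p' + q' + 1, -p'))]
      [((x⁻¹ * y⁻¹ * a * b * a * b⁻¹ * a⁻¹ * y * x * y⁻¹, y * x⁻¹ * y⁻¹ * a * b * a⁻¹ * b⁻¹ * a⁻¹ * y * x * y⁻¹ * a * b * a * b⁻¹ * a⁻¹ * y * x * y⁻¹), (-q + p' - 1, p)),
      ((y * x⁻¹ * y⁻¹ * a * b, a⁻¹), (-p + p' + q' + 1, -p'))] :=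
    Pas_cast (WStep.rot [] [((y * x⁻¹ * y⁻¹ * a * b, a⁻¹), (-p + p' + q' + 1, -p'))] x (y * x⁻¹ * y⁻¹ * a * b * a⁻¹ * b⁻¹ * a⁻¹ * y * x) p (q - p' + 1))
      (by group) (by group) rfl rfl (by ring) rfl rfl rfl
  have s6 : WReach (Γ := Γ) [((x⁻¹ * y⁻¹ * a * b * a * b⁻¹ * a⁻¹ * y * x * y⁻¹, y * x⁻¹ * y⁻¹ * a * b * a⁻¹ * b⁻¹ * a⁻¹ * y * x * y⁻¹ * a * b * a * b⁻¹ * a⁻¹ * y * x * y⁻¹), (-q + p' - 1, p)),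
      ((y * x⁻¹ * y⁻¹ * a * b, a⁻¹), (-p + p' + q' + 1, -p'))]
      [((y * x⁻¹ * y⁻¹ * a * b, a⁻¹), (-p + p' + q' + 1, -p')),
      ((a⁻¹ * y * x⁻¹ * y⁻¹ * a * b * a * b⁻¹ * a⁻¹ * y * x * y⁻¹ * y⁻¹ * a, a⁻¹ * y * x * y⁻¹ * a), (-q + p' - 1, p))] :=
    Pas_cast (WStep.br' [] [] (x⁻¹ * y⁻¹ * a * b * a * b⁻¹ * a⁻¹ * y * x * y⁻¹) (y * x⁻¹ * y⁻¹ * a * b * a⁻¹ * b⁻¹ * a⁻¹ * y * x * y⁻¹ * a * b * a * b⁻¹ * a⁻¹ * y * x * y⁻¹) (y * x⁻¹ * y⁻¹ * a * b) a⁻¹ (-q + p' - 1) p (-p + p' + q' + 1) (-p'))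
      rfl rfl (by group) (by group) rfl rfl rfl rfl
  have s7 : WReach (Γ := Γ) [((y * x⁻¹ * y⁻¹ * a * b, a⁻¹), (-p + p' + q' + 1, -p')),
      ((a⁻¹ * y * x⁻¹ * y⁻¹ * a * b * a * b⁻¹ * a⁻¹ * y * x * y⁻¹ * y⁻¹ * a, a⁻¹ * y * x * y⁻¹ * a), (-q + p' - 1, p))]
      [((a, a⁻¹ * y * x⁻¹ * y⁻¹ * a * b * a), (p', -p + p' + q' + 1)),
      ((a⁻¹ * y * x⁻¹ * y⁻¹ * a * b * a * b⁻¹ * a⁻¹ * y * x * y⁻¹ * y⁻¹ * a, a⁻¹ * y * x * y⁻¹ * a), (-q + p' - 1, p))] :=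
    Pas_cast (WStep.rot [] [((a⁻¹ * y * x⁻¹ * y⁻¹ * a * b * a * b⁻¹ * a⁻¹ * y * x * y⁻¹ * y⁻¹ * a, a⁻¹ * y * x * y⁻¹ * a), (-q + p' - 1, p))] (y * x⁻¹ * y⁻¹ * a * b) a⁻¹ (-p + p' + q' + 1) (-p'))
      (by group) (by group) rfl rfl (by ring) rfl rfl rfl
  have s8 : WReach (Γ := Γ) [((a, a⁻¹ * y * x⁻¹ * y⁻¹ * a * b * a), (p', -p + p' + q' + 1)),
      ((a⁻¹ * y * x⁻¹ * y⁻¹ * a * b * a * b⁻¹ * a⁻¹ * y * x * y⁻¹ * y⁻¹ * a, a⁻¹ * y * x * y⁻¹ * a), (-q + p' - 1, p))]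
      [((a, a⁻¹ * x * y * x⁻¹ * y⁻¹ * a * b), (p', q' + 2)),
      ((a⁻¹ * y⁻¹ * a, a⁻¹ * y * x * y⁻¹ * a), (-q, p))] :=
    Pas_cast (WStep.sl [] [] a (a⁻¹ * y * x⁻¹ * y⁻¹ * a * b * a) (a⁻¹ * y * x⁻¹ * y⁻¹ * a * b * a * b⁻¹ * a⁻¹ * y * x * y⁻¹ * y⁻¹ * a) (a⁻¹ * y * x * y⁻¹ * a) p' (-p + p' + q' + 1) (-q + p' - 1) p)
      rfl (by group) (by group) rfl rfl (by ring) (by ring) rfl
  have s9 : WReach (Γ := Γ) [((a, a⁻¹ * x * y * x⁻¹ * y⁻¹ * a * b), (p', q' + 2)),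
      ((a⁻¹ * y⁻¹ * a, a⁻¹ * y * x * y⁻¹ * a), (-q, p))]
      [((a, a⁻¹ * x * y * x⁻¹ * y⁻¹ * a * b), (p', q' + 2)),
      ((a⁻¹ * x * a, a⁻¹ * y * a), (p, q))] :=
    Pas_cast (WStep.rot' [((a, a⁻¹ * x * y * x⁻¹ * y⁻¹ * a * b), (p', q' + 2))] [] (a⁻¹ * y⁻¹ * a) (a⁻¹ * y * x * y⁻¹ * a) (-q) p)
      rfl rfl (by group) (by group) rfl rfl rfl (by ring)
  exact ((((((((s1).trans s2).trans s3).trans s4).trans s5).trans s6).trans s7).trans s8).trans s9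

private lemma Pas_two {Γ : Type} [Group Γ] {k : ℕ} (x y a b : Γ) (p q p' q' : ZMod k) :
    WReach (Γ := Γ) [((x, y), (p, q)),
      ((a, b), (p', q'))]
      [((x * y * x⁻¹ * y⁻¹ * a, b), (p' + 2, q')),
      ((b * x * b⁻¹, b * y * b⁻¹), (p, q))] := by
  have s1 : WReach (Γ := Γ) [((x, y), (p, q)),
      ((a, b), (p', q'))]
      [((x, y * x), (p, p + q)),
      ((a, b), (p', q'))] :=
    Pas_cast (WStep.tw [] [((a, b), (p', q'))] x y p q)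
      rfl (by group) rfl rfl rfl (by ring) rfl rfl
  have s2 : WReach (Γ := Γ) [((x, y * x), (p, p + q)),
      ((a, b), (p', q'))]
      [((x, y * x⁻¹ * y⁻¹ * a * b * a⁻¹ * y * x), (p, q + q' + 1)),
      ((y * x⁻¹ * y⁻¹ * a, b), (-p + p' + 1, q'))] :=
    Pas_cast (WStep.sl [] [] x (y * x) a b p (p + q) p' q')
      rfl (by group) (by group) rfl rfl (by ring) (by ring) rfl
  have s3 : WReach (Γ := Γ) [((x, y * x⁻¹ * y⁻¹ * a * b * a⁻¹ * y * x), (p, q + q' + 1)),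
      ((y * x⁻¹ * y⁻¹ * a, b), (-p + p' + 1, q'))]
      [((x⁻¹ * y⁻¹ * a * b⁻¹ * a⁻¹ * y * x * y⁻¹, y * x⁻¹ * y⁻¹ * a * b * a⁻¹ * y * x * y⁻¹ * a * b⁻¹ * a⁻¹ * y * x * y⁻¹), (-q - q' - 1, p)),
      ((y * x⁻¹ * y⁻¹ * a, b), (-p + p' + 1, q'))] :=
    Pas_cast (WStep.rot [] [((y * x⁻¹ * y⁻¹ * a, b), (-p + p' + 1, q'))] x (y * x⁻¹ * y⁻¹ * a * b * a⁻¹ * y * x) p (q + q' + 1))
      (by group) (by group) rfl rfl (by ring) rfl rfl rfl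
  have s4 : WReach (Γ := Γ) [((x⁻¹ * y⁻¹ * a * b⁻¹ * a⁻¹ * y * x * y⁻¹, y * x⁻¹ * y⁻¹ * a * b * a⁻¹ * y * x * y⁻¹ * a * b⁻¹ * a⁻¹ * y * x * y⁻¹), (-q - q' - 1, p)),
      ((y * x⁻¹ * y⁻¹ * a, b), (-p + p' + 1, q'))]
      [((x⁻¹ * y⁻¹ * a * b⁻¹ * a⁻¹ * y * x * y⁻¹, y * x⁻¹ * y⁻¹ * a * b * a⁻¹ * y * x * y⁻¹ * a * b⁻¹ * a⁻¹ * y * x * y⁻¹), (-q - q' - 1, p)),
      ((b⁻¹, b * y * x⁻¹ * y⁻¹ * a * b⁻¹), (-q', -p + p' + 1))] :=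
    Pas_cast (WStep.rot [((x⁻¹ * y⁻¹ * a * b⁻¹ * a⁻¹ * y * x * y⁻¹, y * x⁻¹ * y⁻¹ * a * b * a⁻¹ * y * x * y⁻¹ * a * b⁻¹ * a⁻¹ * y * x * y⁻¹), (-q - q' - 1, p))] [] (y * x⁻¹ * y⁻¹ * a) b (-p + p' + 1) q')
      rfl rfl (by group) (by group) rfl rfl (by ring) rfl
  have s5 : WReach (Γ := Γ) [((x⁻¹ * y⁻¹ * a * b⁻¹ * a⁻¹ * y * x * y⁻¹, y * x⁻¹ * y⁻¹ * a * b * a⁻¹ * y * x * y⁻¹ * a * b⁻¹ * a⁻¹ * y * x * y⁻¹), (-q - q' - 1, p)),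
      ((b⁻¹, b * y * x⁻¹ * y⁻¹ * a * b⁻¹), (-q', -p + p' + 1))]
      [((x⁻¹ * y⁻¹ * a * b⁻¹ * a⁻¹ * y * x * y⁻¹, y * x⁻¹ * y⁻¹ * a * b * a⁻¹ * y * x * y⁻¹ * a * b⁻¹ * a⁻¹ * y * x * y⁻¹), (-q - q' - 1, p)),
      ((b⁻¹, b * y * x⁻¹ * y⁻¹ * a * b⁻¹ * b⁻¹), (-q', -p + p' - q' + 1))] :=
    Pas_cast (WStep.tw [((x⁻¹ * y⁻¹ * a * b⁻¹ * a⁻¹ * y * x * y⁻¹, y * x⁻¹ * y⁻¹ * a * b * a⁻¹ * y * x * y⁻¹ * a * b⁻¹ * a⁻¹ * y * x * y⁻¹), (-q - q' - 1, p))] [] b⁻¹ (b * y * x⁻¹ * y⁻¹ * a * b⁻¹) (-q') (-p + p' + 1))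
      rfl rfl rfl (by group) rfl rfl rfl (by ring)
  have s6 : WReach (Γ := Γ) [((x⁻¹ * y⁻¹ * a * b⁻¹ * a⁻¹ * y * x * y⁻¹, y * x⁻¹ * y⁻¹ * a * b * a⁻¹ * y * x * y⁻¹ * a * b⁻¹ * a⁻¹ * y * x * y⁻¹), (-q - q' - 1, p)),
      ((b⁻¹, b * y * x⁻¹ * y⁻¹ * a * b⁻¹ * b⁻¹), (-q', -p + p' - q' + 1))]
      [((b⁻¹, b * y * x⁻¹ * y⁻¹ * a * b⁻¹ * b⁻¹), (-q', -p + p' - q' + 1)),
      ((b * y * x⁻¹ * y⁻¹ * a * b⁻¹ * a⁻¹ * y * x * y⁻¹ * y⁻¹ * b⁻¹, b * y * x * y⁻¹ * b⁻¹), (-q - q' - 1, p))] :=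
    Pas_cast (WStep.br' [] [] (x⁻¹ * y⁻¹ * a * b⁻¹ * a⁻¹ * y * x * y⁻¹) (y * x⁻¹ * y⁻¹ * a * b * a⁻¹ * y * x * y⁻¹ * a * b⁻¹ * a⁻¹ * y * x * y⁻¹) b⁻¹ (b * y * x⁻¹ * y⁻¹ * a * b⁻¹ * b⁻¹) (-q - q' - 1) p (-q') (-p + p' - q' + 1))
      rfl rfl (by group) (by group) rfl rfl rfl rfl
  have s7 : WReach (Γ := Γ) [((b⁻¹, b * y * x⁻¹ * y⁻¹ * a * b⁻¹ * b⁻¹), (-q', -p + p' - q' + 1)),
      ((b * y * x⁻¹ * y⁻¹ * a * b⁻¹ * a⁻¹ * y * x * y⁻¹ * y⁻¹ * b⁻¹, b * y * x * y⁻¹ * b⁻¹), (-q - q' - 1, p))]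
      [((b⁻¹, b * x * y * x⁻¹ * y⁻¹ * a * b⁻¹), (-q', p' + 2)),
      ((b * y⁻¹ * b⁻¹, b * y * x * y⁻¹ * b⁻¹), (-q, p))] :=
    Pas_cast (WStep.sl [] [] b⁻¹ (b * y * x⁻¹ * y⁻¹ * a * b⁻¹ * b⁻¹) (b * y * x⁻¹ * y⁻¹ * a * b⁻¹ * a⁻¹ * y * x * y⁻¹ * y⁻¹ * b⁻¹) (b * y * x * y⁻¹ * b⁻¹) (-q') (-p + p' - q' + 1) (-q - q' - 1) p)
      rfl (by group) (by group) rfl rfl (by ring) (by ring) rfl
  have s8 : WReach (Γ := Γ) [((b⁻¹, b * x * y * x⁻¹ * y⁻¹ * a * b⁻¹), (-q', p' + 2)),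
      ((b * y⁻¹ * b⁻¹, b * y * x * y⁻¹ * b⁻¹), (-q, p))]
      [((b⁻¹, b * x * y * x⁻¹ * y⁻¹ * a * b⁻¹), (-q', p' + 2)),
      ((b * x * b⁻¹, b * y * b⁻¹), (p, q))] :=
    Pas_cast (WStep.rot' [((b⁻¹, b * x * y * x⁻¹ * y⁻¹ * a * b⁻¹), (-q', p' + 2))] [] (b * y⁻¹ * b⁻¹) (b * y * x * y⁻¹ * b⁻¹) (-q) p)
      rfl rfl (by group) (by group) rfl rfl rfl (by ring)
  have s9 : WReach (Γ := Γ) [((b⁻¹, b * x * y * x⁻¹ * y⁻¹ * a * b⁻¹), (-q', p' + 2)),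
      ((b * x * b⁻¹, b * y * b⁻¹), (p, q))]
      [((x * y * x⁻¹ * y⁻¹ * a, b), (p' + 2, q')),
      ((b * x * b⁻¹, b * y * b⁻¹), (p, q))] :=
    Pas_cast (WStep.rot' [] [((b * x * b⁻¹, b * y * b⁻¹), (p, q))] b⁻¹ (b * x * y * x⁻¹ * y⁻¹ * a * b⁻¹) (-q') (p' + 2))
      (by group) (by group) rfl rfl rfl (by ring) rfl rfl
  exact ((((((((s1).trans s2).trans s3).trans s4).trans s5).trans s6).trans s7).trans s8).trans s9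

private lemma Pas_three {Γ : Type} [Group Γ] {k : ℕ} (x y a b : Γ) (p q p' q' : ZMod k) :
    WReach (Γ := Γ) [((a, b), (p', q')),
      ((x, y), (p, q))]
      [((a * x * a⁻¹, a * y * a⁻¹), (p, q)),
      ((a, y * x * y⁻¹ * x⁻¹ * b), (p', q' - 2))] := by
  have s1 : WReach (Γ := Γ) [((a, b), (p', q')),
      ((x, y), (p, q))]
      [((a, b), (p', q')),
      ((y⁻¹, y * x * y⁻¹), (-q, p))] :=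
    Pas_cast (WStep.rot [((a, b), (p', q'))] [] x y p q)
      rfl rfl (by group) (by group) rfl rfl (by ring) rfl
  have s2 : WReach (Γ := Γ) [((a, b), (p', q')),
      ((y⁻¹, y * x * y⁻¹), (-q, p))]
      [((a, x⁻¹ * b * a), (p', -p + p' + q' - 1)),
      ((x⁻¹ * b * a * b⁻¹ * x * y⁻¹, y * x * y⁻¹), (-q + p' - 1, p))] :=
    Pas_cast (WStep.sl' [] [] a b y⁻¹ (y * x * y⁻¹) p' q' (-q) p)
      rfl (by group) (by group) rfl rfl (by ring) (by ring) rfl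
  have s3 : WReach (Γ := Γ) [((a, x⁻¹ * b * a), (p', -p + p' + q' - 1)),
      ((x⁻¹ * b * a * b⁻¹ * x * y⁻¹, y * x * y⁻¹), (-q + p' - 1, p))]
      [((a * x⁻¹ * b, a⁻¹), (-p + p' + q' - 1, -p')),
      ((x⁻¹ * b * a * b⁻¹ * x * y⁻¹, y * x * y⁻¹), (-q + p' - 1, p))] :=
    Pas_cast (WStep.rot' [] [((x⁻¹ * b * a * b⁻¹ * x * y⁻¹, y * x * y⁻¹), (-q + p' - 1, p))] a (x⁻¹ * b * a) p' (-p + p' + q' - 1))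
      (by group) (by group) rfl rfl rfl (by ring) rfl rfl
  have s4 : WReach (Γ := Γ) [((a * x⁻¹ * b, a⁻¹), (-p + p' + q' - 1, -p')),
      ((x⁻¹ * b * a * b⁻¹ * x * y⁻¹, y * x * y⁻¹), (-q + p' - 1, p))]
      [((a * y⁻¹ * x⁻¹ * b * a * b⁻¹ * x * a⁻¹, a * x⁻¹ * b * a⁻¹ * b⁻¹ * x * y * x * y⁻¹ * x⁻¹ * b * a * b⁻¹ * x * a⁻¹), (-q + p' - 1, p)),
      ((a * x⁻¹ * b, a⁻¹), (-p + p' + q' - 1, -p'))] :=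
    Pas_cast (WStep.br [] [] (a * x⁻¹ * b) a⁻¹ (x⁻¹ * b * a * b⁻¹ * x * y⁻¹) (y * x * y⁻¹) (-p + p' + q' - 1) (-p') (-q + p' - 1) p)
      (by group) (by group) rfl rfl rfl rfl rfl rfl
  have s5 : WReach (Γ := Γ) [((a * y⁻¹ * x⁻¹ * b * a * b⁻¹ * x * a⁻¹, a * x⁻¹ * b * a⁻¹ * b⁻¹ * x * y * x * y⁻¹ * x⁻¹ * b * a * b⁻¹ * x * a⁻¹), (-q + p' - 1, p)),
      ((a * x⁻¹ * b, a⁻¹), (-p + p' + q' - 1, -p'))]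
      [((a * x * a⁻¹, a * x⁻¹ * b * a⁻¹ * b⁻¹ * x * y * a⁻¹), (p, q - p' + 1)),
      ((a * x⁻¹ * b, a⁻¹), (-p + p' + q' - 1, -p'))] :=
    Pas_cast (WStep.rot' [] [((a * x⁻¹ * b, a⁻¹), (-p + p' + q' - 1, -p'))] (a * y⁻¹ * x⁻¹ * b * a * b⁻¹ * x * a⁻¹) (a * x⁻¹ * b * a⁻¹ * b⁻¹ * x * y * x * y⁻¹ * x⁻¹ * b * a * b⁻¹ * x * a⁻¹) (-q + p' - 1) p)
      (by group) (by group) rfl rfl rfl (by ring) rfl rfl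
  have s6 : WReach (Γ := Γ) [((a * x * a⁻¹, a * x⁻¹ * b * a⁻¹ * b⁻¹ * x * y * a⁻¹), (p, q - p' + 1)),
      ((a * x⁻¹ * b, a⁻¹), (-p + p' + q' - 1, -p'))]
      [((a * x * a⁻¹, a * y * x * a⁻¹), (p, p + q)),
      ((a * y * x * y⁻¹ * x⁻¹ * b, a⁻¹), (p' + q' - 2, -p'))] :=
    Pas_cast (WStep.sl' [] [] (a * x * a⁻¹) (a * x⁻¹ * b * a⁻¹ * b⁻¹ * x * y * a⁻¹) (a * x⁻¹ * b) a⁻¹ p (q - p' + 1) (-p + p' + q' - 1) (-p'))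
      rfl (by group) (by group) rfl rfl (by ring) (by ring) rfl
  have s7 : WReach (Γ := Γ) [((a * x * a⁻¹, a * y * x * a⁻¹), (p, p + q)),
      ((a * y * x * y⁻¹ * x⁻¹ * b, a⁻¹), (p' + q' - 2, -p'))]
      [((a * x * a⁻¹, a * y * x * a⁻¹), (p, p + q)),
      ((a, y * x * y⁻¹ * x⁻¹ * b * a), (p', p' + q' - 2))] :=
    Pas_cast (WStep.rot [((a * x * a⁻¹, a * y * x * a⁻¹), (p, p + q))] [] (a * y * x * y⁻¹ * x⁻¹ * b) a⁻¹ (p' + q' - 2) (-p'))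
      rfl rfl (by group) (by group) rfl rfl (by ring) rfl
  have s8 : WReach (Γ := Γ) [((a * x * a⁻¹, a * y * x * a⁻¹), (p, p + q)),
      ((a, y * x * y⁻¹ * x⁻¹ * b * a), (p', p' + q' - 2))]
      [((a * x * a⁻¹, a * y * x * a⁻¹), (p, p + q)),
      ((a, y * x * y⁻¹ * x⁻¹ * b), (p', q' - 2))] :=
    Pas_cast (WStep.tw' [((a * x * a⁻¹, a * y * x * a⁻¹), (p, p + q))] [] a (y * x * y⁻¹ * x⁻¹ * b * a) p' (p' + q' - 2))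
      rfl rfl rfl (by group) rfl rfl rfl (by ring)
  have s9 : WReach (Γ := Γ) [((a * x * a⁻¹, a * y * x * a⁻¹), (p, p + q)),
      ((a, y * x * y⁻¹ * x⁻¹ * b), (p', q' - 2))]
      [((a * x * a⁻¹, a * y * a⁻¹), (p, q)),
      ((a, y * x * y⁻¹ * x⁻¹ * b), (p', q' - 2))] :=
    Pas_cast (WStep.tw' [] [((a, y * x * y⁻¹ * x⁻¹ * b), (p', q' - 2))] (a * x * a⁻¹) (a * y * x * a⁻¹) p (p + q))
      rfl (by group) rfl rfl rfl (by ring) rfl rfl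
  exact ((((((((s1).trans s2).trans s3).trans s4).trans s5).trans s6).trans s7).trans s8).trans s9

private lemma Pas_four {Γ : Type} [Group Γ] {k : ℕ} (x y a b : Γ) (p q p' q' : ZMod k) :
    WReach (Γ := Γ) [((a, b), (p', q')),
      ((x, y), (p, q))]
      [((b⁻¹ * x * b, b⁻¹ * y * b), (p, q)),
      ((b⁻¹ * y * x * y⁻¹ * x⁻¹ * b * a, b), (p' - 2, q'))] := by
  have s1 : WReach (Γ := Γ) [((a, b), (p', q')),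
      ((x, y), (p, q))]
      [((b⁻¹, b * a * b⁻¹), (-q', p')),
      ((x, y), (p, q))] :=
    Pas_cast (WStep.rot [] [((x, y), (p, q))] a b p' q')
      (by group) (by group) rfl rfl (by ring) rfl rfl rfl
  have s2 : WReach (Γ := Γ) [((b⁻¹, b * a * b⁻¹), (-q', p')),
      ((x, y), (p, q))]
      [((b⁻¹, b * a * b⁻¹), (-q', p')),
      ((y⁻¹, y * x * y⁻¹), (-q, p))] :=
    Pas_cast (WStep.rot [((b⁻¹, b * a * b⁻¹), (-q', p'))] [] x y p q)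
      rfl rfl (by group) (by group) rfl rfl (by ring) rfl
  have s3 : WReach (Γ := Γ) [((b⁻¹, b * a * b⁻¹), (-q', p')),
      ((y⁻¹, y * x * y⁻¹), (-q, p))]
      [((b⁻¹, x⁻¹ * b * a * b⁻¹ * b⁻¹), (-q', -p + p' - q' - 1)),
      ((x⁻¹ * b * a * b⁻¹ * a⁻¹ * b⁻¹ * x * y⁻¹, y * x * y⁻¹), (-q - q' - 1, p))] :=
    Pas_cast (WStep.sl' [] [] b⁻¹ (b * a * b⁻¹) y⁻¹ (y * x * y⁻¹) (-q') p' (-q) p)
      rfl (by group) (by group) rfl rfl (by ring) (by ring) rfl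
  have s4 : WReach (Γ := Γ) [((b⁻¹, x⁻¹ * b * a * b⁻¹ * b⁻¹), (-q', -p + p' - q' - 1)),
      ((x⁻¹ * b * a * b⁻¹ * a⁻¹ * b⁻¹ * x * y⁻¹, y * x * y⁻¹), (-q - q' - 1, p))]
      [((b⁻¹ * y⁻¹ * x⁻¹ * b * a * b⁻¹ * a⁻¹ * b⁻¹ * x * b, b⁻¹ * x⁻¹ * b * a * b * a⁻¹ * b⁻¹ * x * y * x * y⁻¹ * x⁻¹ * b * a * b⁻¹ * a⁻¹ * b⁻¹ * x * b), (-q - q' - 1, p)),
      ((b⁻¹, x⁻¹ * b * a * b⁻¹ * b⁻¹), (-q', -p + p' - q' - 1))] :=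
    Pas_cast (WStep.br [] [] b⁻¹ (x⁻¹ * b * a * b⁻¹ * b⁻¹) (x⁻¹ * b * a * b⁻¹ * a⁻¹ * b⁻¹ * x * y⁻¹) (y * x * y⁻¹) (-q') (-p + p' - q' - 1) (-q - q' - 1) p)
      (by group) (by group) rfl rfl rfl rfl rfl rfl
  have s5 : WReach (Γ := Γ) [((b⁻¹ * y⁻¹ * x⁻¹ * b * a * b⁻¹ * a⁻¹ * b⁻¹ * x * b, b⁻¹ * x⁻¹ * b * a * b * a⁻¹ * b⁻¹ * x * y * x * y⁻¹ * x⁻¹ * b * a * b⁻¹ * a⁻¹ * b⁻¹ * x * b), (-q - q' - 1, p)),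
      ((b⁻¹, x⁻¹ * b * a * b⁻¹ * b⁻¹), (-q', -p + p' - q' - 1))]
      [((b⁻¹ * y⁻¹ * x⁻¹ * b * a * b⁻¹ * a⁻¹ * b⁻¹ * x * b, b⁻¹ * x⁻¹ * b * a * b * a⁻¹ * b⁻¹ * x * y * x * y⁻¹ * x⁻¹ * b * a * b⁻¹ * a⁻¹ * b⁻¹ * x * b), (-q - q' - 1, p)),
      ((b⁻¹, x⁻¹ * b * a * b⁻¹), (-q', -p + p' - 1))] :=
    Pas_cast (WStep.tw' [((b⁻¹ * y⁻¹ * x⁻¹ * b * a * b⁻¹ * a⁻¹ * b⁻¹ * x * b, b⁻¹ * x⁻¹ * b * a * b * a⁻¹ * b⁻¹ * x * y * x * y⁻¹ * x⁻¹ * b * a * b⁻¹ * a⁻¹ * b⁻¹ * x * b), (-q - q' - 1, p))] [] b⁻¹ (x⁻¹ * b * a * b⁻¹ * b⁻¹) (-q') (-p + p' - q' - 1))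
      rfl rfl rfl (by group) rfl rfl rfl (by ring)
  have s6 : WReach (Γ := Γ) [((b⁻¹ * y⁻¹ * x⁻¹ * b * a * b⁻¹ * a⁻¹ * b⁻¹ * x * b, b⁻¹ * x⁻¹ * b * a * b * a⁻¹ * b⁻¹ * x * y * x * y⁻¹ * x⁻¹ * b * a * b⁻¹ * a⁻¹ * b⁻¹ * x * b), (-q - q' - 1, p)),
      ((b⁻¹, x⁻¹ * b * a * b⁻¹), (-q', -p + p' - 1))]
      [((b⁻¹ * y⁻¹ * x⁻¹ * b * a * b⁻¹ * a⁻¹ * b⁻¹ * x * b, b⁻¹ * x⁻¹ * b * a * b * a⁻¹ * b⁻¹ * x * y * x * y⁻¹ * x⁻¹ * b * a * b⁻¹ * a⁻¹ * b⁻¹ * x * b), (-q - q' - 1, p)),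
      ((b⁻¹ * x⁻¹ * b * a, b), (-p + p' - 1, q'))] :=
    Pas_cast (WStep.rot' [((b⁻¹ * y⁻¹ * x⁻¹ * b * a * b⁻¹ * a⁻¹ * b⁻¹ * x * b, b⁻¹ * x⁻¹ * b * a * b * a⁻¹ * b⁻¹ * x * y * x * y⁻¹ * x⁻¹ * b * a * b⁻¹ * a⁻¹ * b⁻¹ * x * b), (-q - q' - 1, p))] [] b⁻¹ (x⁻¹ * b * a * b⁻¹) (-q') (-p + p' - 1))
      rfl rfl (by group) (by group) rfl rfl rfl (by ring)
  have s7 : WReach (Γ := Γ) [((b⁻¹ * y⁻¹ * x⁻¹ * b * a * b⁻¹ * a⁻¹ * b⁻¹ * x * b, b⁻¹ * x⁻¹ * b * a * b * a⁻¹ * b⁻¹ * x * y * x * y⁻¹ * x⁻¹ * b * a * b⁻¹ * a⁻¹ * b⁻¹ * x * b), (-q - q' - 1, p)),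
      ((b⁻¹ * x⁻¹ * b * a, b), (-p + p' - 1, q'))]
      [((b⁻¹ * x * b, b⁻¹ * x⁻¹ * b * a * b * a⁻¹ * b⁻¹ * x * y * b), (p, q + q' + 1)),
      ((b⁻¹ * x⁻¹ * b * a, b), (-p + p' - 1, q'))] :=
    Pas_cast (WStep.rot' [] [((b⁻¹ * x⁻¹ * b * a, b), (-p + p' - 1, q'))] (b⁻¹ * y⁻¹ * x⁻¹ * b * a * b⁻¹ * a⁻¹ * b⁻¹ * x * b) (b⁻¹ * x⁻¹ * b * a * b * a⁻¹ * b⁻¹ * x * y * x * y⁻¹ * x⁻¹ * b * a * b⁻¹ * a⁻¹ * b⁻¹ * x * b) (-q - q' - 1) p)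
      (by group) (by group) rfl rfl rfl (by ring) rfl rfl
  have s8 : WReach (Γ := Γ) [((b⁻¹ * x * b, b⁻¹ * x⁻¹ * b * a * b * a⁻¹ * b⁻¹ * x * y * b), (p, q + q' + 1)),
      ((b⁻¹ * x⁻¹ * b * a, b), (-p + p' - 1, q'))]
      [((b⁻¹ * x * b, b⁻¹ * y * x * b), (p, p + q)),
      ((b⁻¹ * y * x * y⁻¹ * x⁻¹ * b * a, b), (p' - 2, q'))] :=
    Pas_cast (WStep.sl' [] [] (b⁻¹ * x * b) (b⁻¹ * x⁻¹ * b * a * b * a⁻¹ * b⁻¹ * x * y * b) (b⁻¹ * x⁻¹ * b * a) b p (q + q' + 1) (-p + p' - 1) q')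
      rfl (by group) (by group) rfl rfl (by ring) (by ring) rfl
  have s9 : WReach (Γ := Γ) [((b⁻¹ * x * b, b⁻¹ * y * x * b), (p, p + q)),
      ((b⁻¹ * y * x * y⁻¹ * x⁻¹ * b * a, b), (p' - 2, q'))]
      [((b⁻¹ * x * b, b⁻¹ * y * b), (p, q)),
      ((b⁻¹ * y * x * y⁻¹ * x⁻¹ * b * a, b), (p' - 2, q'))] :=
    Pas_cast (WStep.tw' [] [((b⁻¹ * y * x * y⁻¹ * x⁻¹ * b * a, b), (p' - 2, q'))] (b⁻¹ * x * b) (b⁻¹ * y * x * b) p (p + q))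
      rfl (by group) rfl rfl rfl (by ring) rfl rfl
  exact ((((((((s1).trans s2).trans s3).trans s4).trans s5).trans s6).trans s7).trans s8).trans s9

/-- a handle moves around the loops of its neighbour -/
theorem thm_Pas : St_Pas := by
  intro Γ _ k x y a b p q p' q'
  refine ⟨?_, ?_, ?_, ?_⟩
  · have e : a⁻¹ * (x * y * x⁻¹ * y⁻¹) * a * b = a⁻¹ * x * y * x⁻¹ * y⁻¹ * a * b := by group
    rw [e]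
    exact Pas_one x y a b p q p' q'
  · exact Pas_two x y a b p q p' q'
  · have e : (x * y * x⁻¹ * y⁻¹)⁻¹ * b = y * x * y⁻¹ * x⁻¹ * b := by group
    rw [e]
    exact Pas_three x y a b p q p' q'
  · have e : (b⁻¹ * (x * y * x⁻¹ * y⁻¹) * b)⁻¹ * a = b⁻¹ * y * x * y⁻¹ * x⁻¹ * b * a := by group
    rw [e]
    exact Pas_four x y a b p q p' q'

end Pool.Agent.LGC
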