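import Pool.Agent.LGC.Defs
import Pool.Agent.LGP.WAll

/-!
# LGC, All: all handles lie in a subgroup if the spare ones do, abstract predicate

Copy of `LGP/WAll.lean` (helper35) with an arbitrary predicate on subgroups (helper30).
-/

set_option autoImplicit false

namespace Pool.Agent.LGC

open Module
open SpQ (Hd WStep WReach WExt Good bare bd cj1)
open LGP (mem_word move_end E_cj1)

variable {Γ : Type} [Group Γ] {k : ℕ}

section es

variable (full : Subgroup Γ → Prop)

open scoped Classical in
/-- `0` if the handles are full -/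
noncomputable def All_st (C : List (Hd Γ k)) : ℕ := if full (SpQ.E C) then 0 else 1

/-- the number of essential handles of the middle part of a list -/
noncomputable def All_es (pre : List (Hd Γ k)) : List (Hd Γ k) → List (Hd Γ k) → ℕ
  | [], _ => 0
  | h :: t, post => All_st full (pre ++ (t ++ post)) + All_es (pre ++ [h]) t post

variable {full}

theorem All_st_zero {C : List (Hd Γ k)} : All_st full C = 0 ↔ full (SpQ.E C) := by
  unfold All_st
  split
  · simp_all
  · simp_all

theorem All_st_one {C : List (Hd Γ k)} (h : ¬ full (SpQ.E C)) : All_st full C = 1 := by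
  unfold All_st
  rw [if_neg h]

theorem All_st_le {C : List (Hd Γ k)} : All_st full C ≤ 1 := by
  unfold All_st
  split <;> omega

theorem All_st_congr {C D : List (Hd Γ k)} (h : SpQ.E C = SpQ.E D) :
    All_st full C = All_st full D := by
  unfold All_st
  rw [h]

theorem All_es_append (pre s t post : List (Hd Γ k)) :
    All_es full pre (s ++ t) post =
      All_es full pre s (t ++ post) + All_es full (pre ++ s) t post := by
  induction s generalizing pre with
  | nil => simp [All_es]
  | cons h s ih =>
    rw [List.cons_append, All_es, All_es, ih, List.append_assoc, add_assoc]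
    congr 2
    rw [List.append_assoc]
    rfl

theorem All_es_congr {pre pre' : List (Hd Γ k)} (s : List (Hd Γ k)) {post post' : List (Hd Γ k)}
    (h1 : SpQ.E pre = SpQ.E pre') (h2 : SpQ.E post = SpQ.E post') :
    All_es full pre s post = All_es full pre' s post' := by
  induction s generalizing pre pre' with
  | nil => rfl
  | cons h s ih =>
    rw [All_es, All_es]
    congr 1
    · apply All_st_congr
      rw [SpQ.E_append, SpQ.E_append, SpQ.E_append, SpQ.E_append, h1, h2]
    · apply ih
      rw [SpQ.E_append, SpQ.E_append, h1]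

/-- the count of a list with two marked neighbours -/
theorem All_es_two (s t : List (Hd Γ k)) (p q : Hd Γ k) :
    All_es full [] (s ++ p :: q :: t) [] = All_es full [] s (p :: q :: t) +
      (All_st full (s ++ q :: t) + All_st full (s ++ p :: t)) +
        All_es full (s ++ [p, q]) t [] := by
  rw [All_es_append]
  simp only [List.append_nil, List.nil_append]
  rw [All_es, All_es]
  simp only [List.append_nil, List.append_assoc, List.cons_append, List.nil_append]
  ring

/-- comparison of the counts of two lists which differ in two neighbours -/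
theorem All_es_two_congr (s t : List (Hd Γ k)) {p q p' q' : Hd Γ k}
    (h : SpQ.E [p, q] = SpQ.E [p', q']) :
    All_es full [] s (p :: q :: t) + All_es full (s ++ [p, q]) t [] =
      All_es full [] s (p' :: q' :: t) + All_es full (s ++ [p', q']) t [] := by
  have e1 : SpQ.E (p :: q :: t) = SpQ.E (p' :: q' :: t) := by
    have a1 : SpQ.E (p :: q :: t) = SpQ.E [p, q] ⊔ SpQ.E t := by rw [← SpQ.E_append]; rfl
    have a2 : SpQ.E (p' :: q' :: t) = SpQ.E [p', q'] ⊔ SpQ.E t := by rw [← SpQ.E_append]; rfl
    rw [a1, a2, h]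
  have e2 : SpQ.E (s ++ [p, q]) = SpQ.E (s ++ [p', q']) := by
    rw [SpQ.E_append, SpQ.E_append, h]
  rw [All_es_congr s rfl e1, All_es_congr t e2 rfl]

theorem All_es_le : ∀ (s pre post : List (Hd Γ k)), All_es full pre s post ≤ s.length := by
  intro s
  induction s with
  | nil => intro pre post; exact le_rfl
  | cons h s ih =>
    intro pre post
    rw [All_es, List.length_cons]
    have h1 : All_st full (pre ++ (s ++ post)) ≤ 1 := All_st_le
    have h2 := ih (pre ++ [h]) post
    omega

end es

/-- the handle `p` is not essential in `s ++ p :: t`, which is reachable from `B`, consists of good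
handles and has the maximal number of essential handles -/
structure All_G (full : Subgroup Γ → Prop) (B s : List (Hd Γ k)) (p : Hd Γ k)
    (t : List (Hd Γ k)) : Prop where
  rch : WReach B (s ++ p :: t)
  good : ∀ h ∈ s ++ p :: t, Good h
  non : full (SpQ.E (s ++ t))
  mx : ∀ B', WReach B B' → (∀ h ∈ B', Good h) →
    All_es full [] B' [] ≤ All_es full [] (s ++ p :: t) []

variable {full : Subgroup Γ → Prop} {B s t : List (Hd Γ k)} {p h : Hd Γ k}

/-- a handle which is not essential moves to the right -/
theorem All_G.right (hg : All_G full B s p (h :: t)) :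
    All_G full B (s ++ [cj1 (bd p)⁻¹ h]) p t := by
  obtain ⟨⟨a, b⟩, o1, o2⟩ := p
  obtain ⟨⟨c, d⟩, o3, o4⟩ := h
  set p : Hd Γ k := ((a, b), (o1, o2)) with hp
  set h : Hd Γ k := ((c, d), (o3, o4)) with hh
  set h' : Hd Γ k := cj1 (bd p)⁻¹ h with hh'
  have hstep : WStep (s ++ p :: h :: t) (s ++ h' :: p :: t) := by
    have := WStep.br s t a b c d o1 o2 o3 o4
    simpa [hh', hp, hh, cj1, bd] using this
  have hstep2 : WStep [p, h] [h', p] := by
    have := WStep.br [] [] a b c d o1 o2 o3 o4
    simpa [hh', hp, hh, cj1, bd] using this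
  have hE : SpQ.E [p, h] = SpQ.E [h', p] := hstep2.E_eq.symm
  have hr : WReach B (s ++ h' :: p :: t) := hg.rch.trans (WReach.of_step hstep)
  have hgood : ∀ x ∈ s ++ h' :: p :: t, Good x := by
    intro x hx
    simp only [List.mem_append, List.mem_cons] at hx
    rcases hx with hx | rfl | rfl | hx
    · exact hg.good x (by simp [hx])
    · exact (hg.good h (by simp)).cj1 _
    · exact hg.good _ (by simp)
    · exact hg.good x (by simp [hx])
  have h1 := All_es_two (full := full) s t p h
  have h2 := All_es_two (full := full) s t h' p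
  have h3 := All_es_two_congr (full := full) s t hE
  have h4 : All_st full (s ++ h :: t) = 0 := All_st_zero.2 hg.non
  have h5 := hg.mx _ hr hgood
  have h6 : All_st full (s ++ h' :: t) = 0 := by omega
  have e : s ++ [h'] ++ p :: t = s ++ h' :: p :: t := by simp
  refine ⟨by rw [e]; exact hr, by rw [e]; exact hgood, ?_, fun B' hB' hB'' => ?_⟩
  · have := All_st_zero.1 h6
    simpa using this
  · have h7 := hg.mx B' hB' hB''
    rw [e]
    omega

/-- a handle which is not essential moves to the left -/
theorem All_G.left (hg : All_G full B (s ++ [h]) p t) : All_G full B s p (cj1 (bd p) h :: t) := by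
  obtain ⟨⟨c, d⟩, o1, o2⟩ := p
  obtain ⟨⟨a, b⟩, o3, o4⟩ := h
  set p : Hd Γ k := ((c, d), (o1, o2)) with hp
  set h : Hd Γ k := ((a, b), (o3, o4)) with hh
  set h' : Hd Γ k := cj1 (bd p) h with hh'
  have e : s ++ [h] ++ p :: t = s ++ h :: p :: t := by simp
  have hstep : WStep (s ++ h :: p :: t) (s ++ p :: h' :: t) := by
    have := WStep.br' s t a b c d o3 o4 o1 o2
    simpa [hh', hp, hh, cj1, bd] using this
  have hstep2 : WStep [h, p] [p, h'] := by
    have := WStep.br' [] [] a b c d o3 o4 o1 o2
    simpa [hh', hp, hh, cj1, bd] using this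
  have hE : SpQ.E [h, p] = SpQ.E [p, h'] := hstep2.E_eq.symm
  have hr0 : WReach B (s ++ h :: p :: t) := by rw [← e]; exact hg.rch
  have hr : WReach B (s ++ p :: h' :: t) := hr0.trans (WReach.of_step hstep)
  have hgood0 : ∀ x ∈ s ++ h :: p :: t, Good x := by rw [← e]; exact hg.good
  have hgood : ∀ x ∈ s ++ p :: h' :: t, Good x := by
    intro x hx
    simp only [List.mem_append, List.mem_cons] at hx
    rcases hx with hx | rfl | rfl | hx
    · exact hgood0 x (by simp [hx])
    · exact hgood0 _ (by simp)
    · exact (hgood0 h (by simp)).cj1 _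
    · exact hgood0 x (by simp [hx])
  have h1 := All_es_two (full := full) s t h p
  have h2 := All_es_two (full := full) s t p h'
  have h3 := All_es_two_congr (full := full) s t hE
  have hnon : full (SpQ.E (s ++ h :: t)) := by
    have := hg.non
    simpa using this
  have h4 : All_st full (s ++ h :: t) = 0 := All_st_zero.2 hnon
  have hmx : ∀ B', WReach B B' → (∀ h ∈ B', Good h) →
      All_es full [] B' [] ≤
      All_es full [] (s ++ h :: p :: t) [] := by
    rw [← e]
    exact hg.mx
  have h5 := hmx _ hr hgood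
  have h6 : All_st full (s ++ h' :: t) = 0 := by omega
  refine ⟨hr, hgood, All_st_zero.1 h6, fun B' hB' hB'' => ?_⟩
  have h7 := hmx B' hB' hB''
  omega

/-- replacing the two marked handles by handles with the same groups -/
theorem All_G.replace (hg : All_G full B s p (h :: t)) {p' h' : Hd Γ k}
    (hEp : SpQ.E [p] = SpQ.E [p']) (hE : SpQ.E [h] = SpQ.E [h'])
    (hr : WReach B (s ++ p' :: h' :: t)) (hgp : Good p') (hgh : Good h') :
    All_G full B s p' (h' :: t) := by
  have e1 : SpQ.E (s ++ h' :: t) = SpQ.E (s ++ h :: t) := by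
    rw [SpQ.E_append, SpQ.E_append, SpQ.E_cons h', SpQ.E_cons h, hE]
  have e2 : SpQ.E (s ++ p' :: t) = SpQ.E (s ++ p :: t) := by
    rw [SpQ.E_append, SpQ.E_append, SpQ.E_cons p', SpQ.E_cons p, hEp]
  have hE2 : SpQ.E [p, h] = SpQ.E [p', h'] := by
    rw [SpQ.E_cons, SpQ.E_cons p', hEp, hE]
  refine ⟨hr, ?_, by rw [e1]; exact hg.non, fun B' hB' hB'' => ?_⟩
  · intro x hx
    simp only [List.mem_append, List.mem_cons] at hx
    rcases hx with hx | rfl | rfl | hx
    · exact hg.good x (by simp [hx])
    · exact hgp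
    · exact hgh
    · exact hg.good x (by simp [hx])
  · have h1 := hg.mx B' hB' hB''
    have h2 := All_es_two (full := full) s t p h
    have h3 := All_es_two (full := full) s t p' h'
    have h4 := All_es_two_congr (full := full) s t hE2
    have h5 : All_st full (s ++ h' :: t) =
        All_st full (s ++ h :: t) :=
      All_st_congr (by rw [e1])
    have h6 : All_st full (s ++ p' :: t) =
        All_st full (s ++ p :: t) :=
      All_st_congr (by rw [e2])
    omega

/-- spare handles at the end lie in `H` -/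
def All_Spr (full : Subgroup Γ → Prop) (B : List (Hd Γ k)) (H : Subgroup Γ) : Prop :=
  ∀ (B' : List (Hd Γ k)) (p : Hd Γ k), WReach B (B' ++ [p]) → (∀ h ∈ B' ++ [p], Good h) →
    full (SpQ.E B') → SpQ.E [p] ≤ H

variable {H : Subgroup Γ}

theorem All_G.mem (hH : All_Spr full B H) : ∀ {s t : List (Hd Γ k)} {p : Hd Γ k}, All_G full B s p t →
    SpQ.E [p] ≤ H := by
  intro s t
  induction t generalizing s with
  | nil =>
    intro p hg
    refine hH s p hg.rch hg.good ?_
    have := hg.non
    simpa using this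
  | cons h t ih =>
    intro p hg
    exact ih hg.right

/-- a handle which is not essential and has only handles of `H` to its right lies in `H` -/
theorem All_mem_of_right (hH : All_Spr full B H) (hr : WReach B (s ++ p :: t))
    (hg : ∀ h ∈ s ++ p :: t, Good h)
    (hn : full (SpQ.E (s ++ t))) (ht : SpQ.E t ≤ H) : SpQ.E [p] ≤ H := by
  obtain ⟨v, hv, h1⟩ := move_end t p
  have h2 := h1.left s
  have h3 : WReach B ((s ++ t) ++ [cj1 v p]) := by
    refine hr.trans ?_
    simpa using h2
  refine E_cj1 (ht hv) p (hH _ _ h3 ?_ hn)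
  intro x hx
  simp only [List.mem_append, List.mem_cons, List.not_mem_nil, or_false] at hx
  rcases hx with (hx | hx) | rfl
  · exact hg x (by simp [hx])
  · exact hg x (by simp [hx])
  · exact (hg p (by simp)).cj1 v

/-- the slide -/
theorem All_G.slide (hH : All_Spr full B H) (hg : All_G full B s p (h :: t)) (ht : SpQ.E t ≤ H) :
    h.1.1 * h.1.2 * h.1.1⁻¹ ∈ H := by
  have hpH := hg.mem hH
  obtain ⟨⟨a, b⟩, op⟩ := p
  obtain ⟨⟨c, d⟩, oh⟩ := h
  obtain rfl : op = (-1, 1) := hg.good ((a, b), op) (by simp)
  obtain rfl : oh = (-1, 1) := hg.good ((c, d), oh) (by simp)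
  rw [SpQ.E_singleton_le] at hpH
  obtain ⟨hp1, hp2⟩ := hpH
  simp only at hp1 hp2 ⊢
  -- the slide and the normalisation of the new handles
  have hstep := WStep.sl s t a b c d (-1 : ZMod k) 1 (-1) 1
  have hstep2 := WStep.sl [] [] a b c d (-1 : ZMod k) 1 (-1) 1
  have e1 : (-1 : ZMod k) - -1 + 1 = 1 := by ring
  rw [e1] at hstep hstep2
  simp only [List.nil_append] at hstep2
  set Y : Γ := b * a⁻¹ * b⁻¹ * c * d * c⁻¹ * b with hY
  set z : Γ := b * a⁻¹ * b⁻¹ * c with hz
  set q₀ : ZMod k := 1 + 1 - -1 + 1 with hq₀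
  obtain ⟨y', hy'⟩ := SpQ.good_of_neg_one (k := k) a Y q₀
  obtain ⟨h', hh', hgh'⟩ := SpQ.good_of_one (k := k) z d 1
  set p' : Hd Γ k := ((a, y'), (-1, 1)) with hp'
  have hEp : SpQ.E [p'] = SpQ.E [((a, Y), ((-1 : ZMod k), q₀))] := hy'.E_eq
  have hEh : SpQ.E [h'] = SpQ.E [((z, d), ((1 : ZMod k), (1 : ZMod k)))] := hh'.E_eq
  have hr : WReach B (s ++ p' :: h' :: t) := by
    refine hg.rch.trans ((WReach.of_step hstep).trans ?_)
    have r1 := (hy'.left s).right (((z, d), ((1 : ZMod k), (1 : ZMod k))) :: t)
    have r2 := (hh'.left (s ++ [p'])).right t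
    simp only [List.append_assoc, List.cons_append, List.nil_append] at r1 r2
    exact r1.trans r2
  have hE : SpQ.E [((a, b), ((-1 : ZMod k), (1 : ZMod k))),
      ((c, d), ((-1 : ZMod k), (1 : ZMod k)))] = SpQ.E [p', h'] := by
    rw [← hstep2.E_eq, SpQ.E_cons, SpQ.E_cons p', hEp, hEh]
  have hgood : ∀ x ∈ s ++ p' :: h' :: t, Good x := by
    intro x hx
    simp only [List.mem_append, List.mem_cons] at hx
    rcases hx with hx | rfl | rfl | hx
    · exact hg.good x (by simp [hx])
    · rfl
    · exact hgh'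
    · exact hg.good x (by simp [hx])
  by_cases hn : full (SpQ.E (s ++ p' :: t))
  · -- the second handle is not essential
    have h1 : SpQ.E [h'] ≤ H := by
      refine All_mem_of_right (s := s ++ [p']) (t := t) hH ?_ ?_ ?_ ht
      · simpa using hr
      · simpa using hgood
      · simpa using hn
    rw [hEh, SpQ.E_singleton_le] at h1
    simp only at h1
    have hc : c ∈ H := by
      have := H.mul_mem (H.mul_mem (H.mul_mem hp2 hp1) (H.inv_mem hp2)) h1.1
      refine mem_word ?_ this
      rw [hz]
      group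
    exact H.mul_mem (H.mul_mem hc h1.2) (H.inv_mem hc)
  · -- the second handle is essential, so the first one is not
    have h1 := All_es_two (full := full) s t
      ((a, b), ((-1 : ZMod k), (1 : ZMod k))) ((c, d), ((-1 : ZMod k), (1 : ZMod k)))
    have h2 := All_es_two (full := full) s t p' h'
    have h3 := All_es_two_congr (full := full) s t hE
    have h4 : All_st full
        (s ++ ((c, d), ((-1 : ZMod k), (1 : ZMod k))) :: t) = 0 := All_st_zero.2 hg.non
    have h5 := hg.mx _ hr hgood
    have h6 : All_st full (s ++ p' :: t) = 1 := All_st_one hn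
    have h7 : All_st full
        (s ++ ((a, b), ((-1 : ZMod k), (1 : ZMod k))) :: t) ≤ 1 := All_st_le
    have h8 : All_st full (s ++ h' :: t) = 0 := by omega
    have hg' : All_G full B s p' (h' :: t) := by
      refine ⟨hr, hgood, All_st_zero.1 h8, fun B' hB' hB'' => ?_⟩
      have h9 := hg.mx B' hB' hB''
      omega
    have h9 := hg'.mem hH
    rw [hEp, SpQ.E_singleton_le] at h9
    have := H.mul_mem (H.mul_mem (H.mul_mem (H.mul_mem hp2 hp1) (H.inv_mem hp2)) h9.2)
      (H.inv_mem hp2)
    refine mem_word ?_ this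
    simp only [hY, hz]
    group

theorem All_G.next (hH : All_Spr full B H) (hg : All_G full B s p (h :: t)) (ht : SpQ.E t ≤ H) :
    SpQ.E [h] ≤ H := by
  have h1 := hg.slide hH ht
  obtain ⟨⟨c, d⟩, oh⟩ := h
  obtain rfl : oh = (-1, 1) := hg.good ((c, d), oh) (by simp)
  simp only at h1
  -- the rotated handle, normalised
  have r1 := WReach.of_step (WStep.rot [] [] c d (-1 : ZMod k) 1)
  have r2 := SpQ.tw_nat' d⁻¹ (d * c * d⁻¹) (-1 : ZMod k) (-1) 2
  simp only [List.nil_append] at r1
  have r3 := r1.trans r2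
  have e1 : (-1 : ZMod k) - (2 : ℕ) * (-1) = 1 := by push_cast; ring
  rw [e1] at r3
  have hE := r3.E_eq
  have hr : WReach B (s ++ p :: ((d⁻¹, d * c * d⁻¹ * (d⁻¹)⁻¹ ^ 2),
      ((-1 : ZMod k), (1 : ZMod k))) :: t) := by
    refine hg.rch.trans ?_
    have := (r3.left (s ++ [p])).right t
    simpa only [List.append_assoc, List.cons_append, List.nil_append] using this
  have hg' := hg.replace rfl hE.symm hr (hg.good p (by simp)) rfl
  have h2 := hg'.slide hH ht
  simp only at h2
  have h3 : c * d ^ 2 ∈ H := by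
    refine mem_word ?_ h2
    group
  have h4 : c * d ^ 2 * c⁻¹ ∈ H := by
    refine mem_word ?_ (H.mul_mem h1 h1)
    rw [pow_two]
    group
  have hc : c ∈ H := by
    refine mem_word ?_ (H.mul_mem (H.inv_mem h4) h3)
    group
  rw [SpQ.E_singleton_le]
  refine ⟨hc, ?_⟩
  have := H.mul_mem (H.mul_mem (H.inv_mem hc) h1) hc
  exact mem_word (by group) this

theorem All_G.tail (hH : All_Spr full B H) : ∀ {t s : List (Hd Γ k)} {p : Hd Γ k}, All_G full B s p t →
    SpQ.E t ≤ H := by
  intro t
  induction t with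
  | nil =>
    intro s p _
    rw [SpQ.E_nil]
    exact bot_le
  | cons h t ih =>
    intro s p hg
    have h1 : SpQ.E t ≤ H := ih hg.right
    rw [SpQ.E_cons]
    exact sup_le (hg.next hH h1) h1

theorem All_G.init (hH : All_Spr full B H) : ∀ {s t : List (Hd Γ k)} {p : Hd Γ k}, All_G full B s p t →
    SpQ.E s ≤ H := by
  intro s
  induction s using List.reverseRecOn with
  | nil =>
    intro t p _
    rw [SpQ.E_nil]
    exact bot_le
  | append_singleton s h ih =>
    intro t p hg
    have hp := hg.mem hH
    rw [SpQ.E_singleton_le] at hp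
    have h1 := hg.left
    have h2 : SpQ.E s ≤ H := ih h1
    have h3 := h1.tail hH
    rw [SpQ.E_cons] at h3
    rw [SpQ.E_append]
    exact sup_le h2 (E_cj1 (SpQ.bd_mem hp.1 hp.2) h (le_sup_left.trans h3))

/-- **ALL.** -/
theorem thm_All : St_All := by
  intro Γ _ k full B H hB hA hH
  obtain ⟨B₀, hB₀, hB₀g, hmax⟩ : ∃ B₀, WReach B B₀ ∧ (∀ h ∈ B₀, Good h) ∧
      ∀ B', WReach B B' → (∀ h ∈ B', Good h) →
      All_es full [] B' [] ≤ All_es full [] B₀ [] := by
    classical
    have hex : ∃ m, ∃ B₀, (WReach B B₀ ∧ ∀ h ∈ B₀, Good h) ∧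
        B.length - All_es full [] B₀ [] = m :=
      ⟨_, B, ⟨WReach.refl _, hB⟩, rfl⟩
    obtain ⟨B₀, ⟨hB₀, hB₀g⟩, hm⟩ := Nat.find_spec hex
    refine ⟨B₀, hB₀, hB₀g, fun B' hB' hB'' => ?_⟩
    have h1 := Nat.find_min' hex ⟨B', ⟨hB', hB''⟩, rfl⟩
    rw [← hm] at h1
    have h2 := All_es_le (full := full) B' [] []
    have h3 := All_es_le (full := full) B₀ [] []
    rw [hB'.length_eq] at h2
    rw [hB₀.length_eq] at h3
    omega
  have hE : SpQ.E B₀ = SpQ.E B := hB₀.E_eq
  obtain ⟨s, p, t, rfl, hn⟩ := hA B₀ hB₀ hB₀g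
  have hg : All_G full B s p t := ⟨hB₀, hB₀g, hn, hmax⟩
  have hS : All_Spr full B H := hH
  rw [← hE, SpQ.E_append, SpQ.E_cons]
  exact sup_le (hg.init hS) (sup_le (hg.mem hS) (hg.tail hS))

end Pool.Agent.LGC
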