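import Pool.Agent.LGC.Cls

/-!
# Finite covers: the theorem with the bound `2 r K < h`, statements

Helper35, for MP_0707f5_ag (Theorem C of helper21 with half the number of handles).
-/

set_option autoImplicit false

namespace Pool.Agent.LGC

open Matrix Module Helper12.Sc
open SpQ (Hd WStep WReach WExt Good bare bd cj1 IsSpinStructure)
open LGP (F ga gb gx x0 MC NS MR stdL stdM dstd wty prj cyc)

/-- **VEK2**.  `St_Vek` with half the number of handles. -/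
def St_Vek2 : Prop := ∀ (K U Γ : Type) [Field K] [AddCommGroup U] [Module K U] [Group Γ]
    [FiniteDimensional K U] (k : ℕ) (N : Subgroup Γ) [N.Normal] (R : N →* Module.End K U) (w : U)
    (X₀ : List (It Γ k)) (B₀ : List (Hd Γ k)), (∀ h ∈ B₀, Kl N h) → GI (X₀ ++ hl B₀) = ⊤ →
    finrank K (cyc R w ⊤) + 1 ≤ B₀.length →
    ∀ T : U →ₗ[K] K,
    (∀ (X' : List (It Γ k)) (P : List (Hd Γ k)), IReach (X₀ ++ hl B₀) (X' ++ hl P) →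
      (∀ h ∈ P, Kl N h) → ∀ (x : Γ) (hx : x ∈ N), x ∈ SpQ.fc P 0 → T (R ⟨x, hx⟩ w) = 0) →
    ∀ x : N, T (R x w) = 0

/-- **PRN2**.  `St_Prn` with the bound `2 r K < h`. -/
def St_Prn2 : Prop := ∀ (g n k r h : ℕ) (N : Subgroup (F g n)) [N.Normal], h ≤ g →
    (∀ i : Fin g, (i : ℕ) < h → ga i ∈ N ∧ gb i ∈ N) → ∀ (τ : Fin g → ZMod k × ZMod k)
    (ρ₁ ρ₂ : N →* GL (Fin r) ℂ) (A : Matrix (Fin r) (Fin r) ℂ), 2 * r * A.rank < h →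
    (∀ (X : List (It (F g n) k)) (P : List (Hd (F g n) k)), IReach (istd τ) (X ++ hl P) →
      (∀ p ∈ P, Kl N p) → ∀ (x : F g n) (hx : x ∈ N), x ∈ SpQ.fc P 0 →
      ((ρ₁ ⟨x, hx⟩ : Matrix (Fin r) (Fin r) ℂ) * A).trace =
        ((ρ₂ ⟨x, hx⟩ : Matrix (Fin r) (Fin r) ℂ) * A).trace) →
    ∀ x : N, ((ρ₁ x : Matrix (Fin r) (Fin r) ℂ) * A).trace =
      ((ρ₂ x : Matrix (Fin r) (Fin r) ℂ) * A).trace

/-- the condition on a representation of `N` -/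
def Cnd2 {g n : ℕ} (N : Subgroup (F g n)) (h r : ℕ) (σ : N →* GL (Fin r) ℂ) : Prop :=
  2 * r ^ 2 < h ∨ (Pool.Agent.HZ.Irr σ.range ∧ ∃ (hx : x0 g n ∈ N) (c : ℂ),
    (σ ⟨x0 g n, hx⟩ : Matrix (Fin r) (Fin r) ℂ) ≠ c • 1 ∧
    2 * r * ((σ ⟨x0 g n, hx⟩ : Matrix (Fin r) (Fin r) ℂ) - c • 1).rank < h)

/-- **BLK2**.  `St_Blk` with the bound `2 r K < h`. -/
def St_Blk2 : Prop := ∀ (g n k r h : ℕ) (w : SurfaceGroup g → ZMod k), IsSpinStructure k w →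
    ∀ (N : Subgroup (F g n)) [N.Normal] [N.FiniteIndex], ∀ θ ∈ MC g n, θ (x0 g n) = x0 g n →
    h ≤ g → (∀ i : Fin g, (i : ℕ) < h → θ (ga i) ∈ N ∧ θ (gb i) ∈ N) →
    ∀ σ : N →* GL (Fin r) ℂ, Cnd2 N h r σ →
    {z : ℂ | ∃ y : N, NS (y : F g n) ∧ w (prj g n y) = 0 ∧
      z = (σ y : Matrix (Fin r) (Fin r) ℂ).trace}.Finite →
    ∀ τ : Fin g → ZMod k × ZMod k,
    {χ : ↥(N.comap θ.toMonoidHom) → ℂ | ∃ φ ∈ MC g n,
      φ (x0 g n) = x0 g n ∧ (∀ y, φ y * (θ y)⁻¹ ∈ N) ∧ wty w φ = τ ∧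
      ∃ hφ : ∀ y ∈ N.comap θ.toMonoidHom, φ y ∈ N,
      χ = fun y : ↥(N.comap θ.toMonoidHom) =>
        (σ ⟨φ y, hφ y y.2⟩ : Matrix (Fin r) (Fin r) ℂ).trace}.Finite

/-- **TOP2**.  `St_Top` with the bound `2 r K < h` and the hypothesis on the traces of the blocks. -/
def St_Top2 : Prop := ∀ (g n k R m h : ℕ) (w : SurfaceGroup g → ZMod k), 0 < k →
    IsSpinStructure k w → ∀ (N : Subgroup (F g n)) [N.Normal] [N.FiniteIndex], h ≤ g →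
    (∃ θ ∈ MC g n, ∀ i : Fin g, (i : ℕ) < h → θ (ga i) ∈ N ∧ θ (gb i) ∈ N) →
    ∀ (ρ : F g n →* GL (Fin R) ℂ) (r : Fin m → ℕ) (σ : ∀ j, N →* GL (Fin (r j)) ℂ),
    (∀ y : N, (ρ (y : F g n) : Matrix (Fin R) (Fin R) ℂ).charpoly =
      ∏ j, (σ j y : Matrix (Fin (r j)) (Fin (r j)) ℂ).charpoly) →
    (∀ j, Cnd2 N h (r j) (σ j)) →
    (∀ j, {z : ℂ | ∃ y : N, NS (y : F g n) ∧ w (prj g n y) = 0 ∧
      z = (σ j y : Matrix (Fin (r j)) (Fin (r j)) ℂ).trace}.Finite) →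
    {χ : F g n → ℂ | ∃ φ ∈ MC g n,
      χ = fun y => (ρ (φ y) : Matrix (Fin R) (Fin R) ℂ).trace}.Finite

end Pool.Agent.LGC
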