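import Pool.Agent.LGC.Bas
import Pool.Agent.LGC.Up2
import Pool.Agent.LGP.Jac

/-!
# LGC, Blk2: finitely many characters of one block, bound `2 r K < h`

Helper35; the proof is that of helper55 in LGC/Blk.lean.
-/

set_option autoImplicit false

namespace Pool.Agent.LGC

open Matrix Module Helper12.Sc
open SpQ (Hd WStep WReach WExt Good bare bd cj1 IsSpinStructure)
open LGP (F ga gb gx x0 MC NS MR stdL stdM dstd wty prj cyc)

/-- the restriction of a mapping class -/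
private noncomputable def Blk_rs {g n : ℕ} {N N' : Subgroup (F g n)} (φ : MulAut (F g n))
    (hφ : ∀ y ∈ N', φ y ∈ N) : N' →* N :=
  (φ.toMonoidHom.comp N'.subtype).codRestrict N fun y => hφ y y.2

private theorem Blk_rs_apply {g n : ℕ} {N N' : Subgroup (F g n)} (φ : MulAut (F g n))
    (hφ : ∀ y ∈ N', φ y ∈ N) (y : N') : Blk_rs φ hφ y = ⟨φ y, hφ y y.2⟩ := rfl

private theorem Blk_rank_one (r : ℕ) : (1 : Matrix (Fin r) (Fin r) ℂ).rank = r := by
  rw [Matrix.rank_one, Fintype.card_fin]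

/-- finitely many characters from finitely many traces -/
private theorem Blk_core (hF : St_Fnn) (hW : St_Wbi) {g n k r : ℕ} {w : SurfaceGroup g → ZMod k}
    (hw : IsSpinStructure k w) (N : Subgroup (F g n)) [N.Normal] [N.FiniteIndex]
    (N' : Subgroup (F g n)) [N'.Normal] [N'.FiniteIndex] (σ : N →* GL (Fin r) ℂ)
    (hfin : {z : ℂ | ∃ y : N, NS (y : F g n) ∧ w (prj g n y) = 0 ∧
      z = (σ y : Matrix (Fin r) (Fin r) ℂ).trace}.Finite)
    (τ : Fin g → ZMod k × ZMod k) (Pr : MulAut (F g n) → Prop)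
    (hdet : ∀ (φ ψ : MulAut (F g n)), φ (x0 g n) = x0 g n → ψ (x0 g n) = x0 g n → Pr φ → Pr ψ →
      ∀ (hφ : ∀ y ∈ N', φ y ∈ N) (hψ : ∀ y ∈ N', ψ y ∈ N),
      (∀ (X : List (It (F g n) k)) (P : List (Hd (F g n) k)), IReach (istd τ) (X ++ hl P) →
        (∀ p ∈ P, Kl N' p) → ∀ x : F g n, x ∈ SpQ.fc P 0 → ∀ y : N',
        ((y : F g n) = x ∨ (y : F g n) = x * x0 g n) →
        (σ (Blk_rs φ hφ y) : Matrix (Fin r) (Fin r) ℂ).trace =
          (σ (Blk_rs ψ hψ y) : Matrix (Fin r) (Fin r) ℂ).trace) →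
      ∀ y : N', (σ (Blk_rs φ hφ y) : Matrix (Fin r) (Fin r) ℂ).trace =
        (σ (Blk_rs ψ hψ y) : Matrix (Fin r) (Fin r) ℂ).trace) :
    {χ : ↥N' → ℂ | ∃ φ ∈ MC g n, φ (x0 g n) = x0 g n ∧ Pr φ ∧ wty w φ = τ ∧
      ∃ hφ : ∀ y ∈ N', φ y ∈ N,
      χ = fun y : ↥N' => (σ (Blk_rs φ hφ y) : Matrix (Fin r) (Fin r) ℂ).trace}.Finite := by
  classical
  have : Group.FG (F g n) := by
    rw [Group.fg_iff]
    exact ⟨_, FreeGroup.closure_range_of _, Set.finite_range _⟩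
  have : Group.FG N' := inferInstance
  set T : Set ℂ := {z : ℂ | ∃ y : N, NS (y : F g n) ∧ w (prj g n y) = 0 ∧
      z = (σ y : Matrix (Fin r) (Fin r) ℂ).trace} with hT
  let Λ : Set N' := {y | ∃ (X : List (It (F g n) k)) (P : List (Hd (F g n) k)) (x : F g n),
    IReach (istd τ) (X ++ hl P) ∧ (∀ p ∈ P, Kl N' p) ∧ x ∈ SpQ.fc P 0 ∧
      ((y : F g n) = x ∨ (y : F g n) = x * x0 g n)}
  obtain ⟨s, hs, hs2⟩ := hF N' r Λ
  have hfin2 : (Set.univ.pi fun _ : s => T).Finite := Set.Finite.pi fun _ => hfin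
  refine Set.Finite.of_finite_image (f := fun (χ : N' → ℂ) (x : s) => χ x) (hfin2.subset ?_) ?_
  · rintro _ ⟨_, ⟨φ, hφ, hφ0, -, hτ, hφN, rfl⟩, rfl⟩ y _
    obtain ⟨X, P, x, hR, -, hx, hxy⟩ := hs y y.2
    rw [← hτ] at hR
    have h1 := hW g n k w hw φ hφ hφ0 X P hR x hx
    rcases hxy with hxy | hxy
    · refine ⟨⟨φ (y : N'), hφN _ (y : N').2⟩, ?_, ?_, rfl⟩
      · show NS (φ ((y : N') : F g n))
        rw [hxy]
        exact h1.1.1
      · show w (prj g n (φ ((y : N') : F g n))) = 0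
        rw [hxy]
        exact h1.1.2
    · refine ⟨⟨φ (y : N'), hφN _ (y : N').2⟩, ?_, ?_, rfl⟩
      · show NS (φ ((y : N') : F g n))
        rw [hxy]
        exact h1.2.1
      · show w (prj g n (φ ((y : N') : F g n))) = 0
        rw [hxy]
        exact h1.2.2
  · rintro _ ⟨φ, hφ, hφ0, hPφ, hτ, hφN, rfl⟩ _ ⟨ψ, hψ, hψ0, hPψ, hτ', hψN, rfl⟩ heq
    funext y
    refine hdet φ ψ hφ0 hψ0 hPφ hPψ hφN hψN ?_ y
    have h1 := hs2 (σ.comp (Blk_rs φ hφN)) (σ.comp (Blk_rs ψ hψN)) fun z hz =>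
      congrFun heq ⟨z, hz⟩
    intro X P hR hK x hx z hz
    exact h1 z ⟨X, P, x, hR, hK, hx, hz⟩

theorem thm_Blk2 (hP : St_Prn2) (hF : St_Fnn) (hW : St_Wbi) : St_Blk2 := by
  intro g n k r h w hw N _ _ θ hθ hθ0 hhg hN σ hC hfin τ
  set N' : Subgroup (F g n) := N.comap θ.toMonoidHom with hN'
  have hN1 : ∀ i : Fin g, (i : ℕ) < h → ga i ∈ N' ∧ gb i ∈ N' := hN
  have : N'.Normal := by
    rw [hN']
    infer_instance
  have : N'.FiniteIndex := by
    refine ⟨?_⟩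
    rw [hN', Subgroup.index_comap_of_surjective N θ.surjective]
    exact Subgroup.FiniteIndex.index_ne_zero
  have key := Blk_core hF hW hw N N' σ hfin τ (fun φ => ∀ y, φ y * (θ y)⁻¹ ∈ N) ?_
  · refine key.subset ?_
    rintro χ ⟨φ, h1, h2, h3, h4, hφ, rfl⟩
    exact ⟨φ, h1, h2, h3, h4, hφ, rfl⟩
  intro φ ψ hφ0 hψ0 hPφ hPψ hφ hψ hΛ
  rcases hC with h4 | ⟨hirr, hx0, c, hne, h4⟩
  · have h5 := hP g n k r h N' hhg hN1 τ (σ.comp (Blk_rs φ hφ)) (σ.comp (Blk_rs ψ hψ)) 1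
      (by rw [Blk_rank_one, mul_assoc, ← sq]; exact h4) (by
        intro X P hR hK x hx hxP
        rw [mul_one, mul_one]
        exact hΛ X P hR hK x hxP ⟨x, hx⟩ (Or.inl rfl))
    intro y
    have h6 := h5 y
    rw [mul_one, mul_one] at h6
    exact h6
  · have hx0' : x0 g n ∈ N' := by
      show θ (x0 g n) ∈ N
      rw [hθ0]
      exact hx0
    set A : Matrix (Fin r) (Fin r) ℂ :=
      (σ ⟨x0 g n, hx0⟩ : Matrix (Fin r) (Fin r) ℂ) - c • 1 with hAdef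
    have hA : A ≠ 0 := sub_ne_zero.2 hne
    have hkey : ∀ (α : MulAut (F g n)) (hα : ∀ y ∈ N', α y ∈ N), α (x0 g n) = x0 g n →
        ∀ x : N', (((σ.comp (Blk_rs α hα)) x : Matrix (Fin r) (Fin r) ℂ) * A).trace =
          (σ (Blk_rs α hα (x * ⟨x0 g n, hx0'⟩)) : Matrix (Fin r) (Fin r) ℂ).trace -
            c * (σ (Blk_rs α hα x) : Matrix (Fin r) (Fin r) ℂ).trace := by
      intro α hα hα0 x
      have e1 : Blk_rs α hα ⟨x0 g n, hx0'⟩ = ⟨x0 g n, hx0⟩ := Subtype.ext hα0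
      rw [map_mul, map_mul, e1, Units.val_mul, hAdef, mul_sub, Matrix.trace_sub, Matrix.mul_smul,
        Matrix.trace_smul, mul_one, smul_eq_mul]
      rfl
    have h5 := hP g n k r h N' hhg hN1 τ (σ.comp (Blk_rs φ hφ)) (σ.comp (Blk_rs ψ hψ)) A h4 (by
        intro X P hR hK x hx hxP
        rw [hkey φ hφ hφ0, hkey ψ hψ hψ0, hΛ X P hR hK x hxP ⟨x, hx⟩ (Or.inl rfl),
          hΛ X P hR hK x hxP (⟨x, hx⟩ * ⟨x0 g n, hx0'⟩) (Or.inr rfl)])
    have hrange : ∀ (α : MulAut (F g n)) (hα : ∀ y ∈ N', α y ∈ N),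
        (∀ y, α y * (θ y)⁻¹ ∈ N) → (σ.comp (Blk_rs α hα)).range = σ.range := by
      intro α hα hPα
      ext z
      constructor
      · rintro ⟨y, rfl⟩
        exact ⟨Blk_rs α hα y, rfl⟩
      · rintro ⟨y, rfl⟩
        have h6 : α.symm (y : F g n) ∈ N' := by
          show θ (α.symm (y : F g n)) ∈ N
          have h7 := hPα (α.symm (y : F g n))
          rw [MulEquiv.apply_symm_apply] at h7
          have h8 := N.mul_mem (N.inv_mem h7) y.2
          rwa [_root_.mul_inv_rev, inv_inv, mul_assoc, inv_mul_cancel, mul_one] at h8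
        refine ⟨⟨α.symm (y : F g n), h6⟩, ?_⟩
        show σ (Blk_rs α hα ⟨α.symm (y : F g n), h6⟩) = σ y
        congr 1
        apply Subtype.ext
        show α (α.symm (y : F g n)) = y
        rw [MulEquiv.apply_symm_apply]
    exact LGP.thm_Jac N' r (σ.comp (Blk_rs φ hφ)) (σ.comp (Blk_rs ψ hψ)) A A
      (by rw [hrange φ hφ hPφ]; exact hirr) (by rw [hrange ψ hψ hPψ]; exact hirr) hA hA h5

end Pool.Agent.LGC
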