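import Pool.Agent.LGC.Cls

/-!
# Covers of surfaces: conjugates of the last handle, classes modulo `N` (module Cnk)

Helper33, for MP_0707f5_ag.

A PUSH moves the last handle `p` around a letter `t` of the list.  The new group `Q' = E [p']` is
`t Q t⁻¹` or `t⁻¹ Q t` up to an element of `Q`, and every letter `u` of the list becomes `c₀ u c₁` with
`c₀ ∈ Q' Q`, `c₁ ∈ Q Q'`.  Let `D` be the group generated by the groups `Q'` of all handles in the
orbit.  By induction on the path, `Q' ≤ D ⊓ t D t⁻¹ ⊓ t⁻¹ D t` for every letter `t` of the first list.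
So `D` is normalised by the group of the first list.
-/

set_option autoImplicit false

namespace Pool.Agent.LGC

open SpQ (Hd WStep WReach bd cj1)

namespace Cnk

/-! ### group theory -/

section grp
variable {Γ : Type} [Group Γ]

/-- `u'` is obtained from `u` by multiplication with elements of `Q' Q` and `Q Q'` -/
def Rl (Q Q' : Subgroup Γ) (u u' : Γ) : Prop :=
  ∃ x ∈ Q', ∃ y ∈ Q, ∃ y' ∈ Q, ∃ x' ∈ Q', u' = x * y * u * y' * x'

/-- the elements of `D` which stay in `D` after conjugation by `u` -/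
def nm (D : Subgroup Γ) (u : Γ) : Subgroup Γ := D ⊓ D.comap (MulAut.conj u⁻¹).toMonoidHom

theorem mem_nm {D : Subgroup Γ} {u x : Γ} : x ∈ nm D u ↔ x ∈ D ∧ u⁻¹ * x * u ∈ D := by
  unfold nm
  rw [Subgroup.mem_inf, Subgroup.mem_comap]
  show _ ∧ u⁻¹ * x * u⁻¹⁻¹ ∈ D ↔ _
  rw [inv_inv]

/-- the letter `u` comes from the letter `u₀` -/
structure Tr (D Q : Subgroup Γ) (u₀ u : Γ) : Prop where
  q : Q ≤ nm D u₀
  q' : Q ≤ nm D u₀⁻¹
  e : ∃ η ∈ nm D u₀, ∃ η' ∈ nm D u₀⁻¹, u = η * u₀ * η'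

theorem conj_mem {D : Subgroup Γ} {x z : Γ} (hx : x ∈ D) (h : x⁻¹ * z * x ∈ D) : z ∈ D := by
  have h1 := D.mul_mem (D.mul_mem hx h) (D.inv_mem hx)
  have e : x * (x⁻¹ * z * x) * x⁻¹ = z := by group
  rwa [e] at h1

theorem conj_mem' {D : Subgroup Γ} {x z : Γ} (hx : x ∈ D) (h : x * z * x⁻¹ ∈ D) : z ∈ D := by
  have h1 := D.mul_mem (D.mul_mem (D.inv_mem hx) h) hx
  have e : x⁻¹ * (x * z * x⁻¹) * x = z := by group
  rwa [e] at h1

theorem Tr.base {D Q : Subgroup Γ} {u : Γ} (hQ : Q ≤ D) (h1 : ∀ z ∈ Q, u⁻¹ * z * u ∈ D)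
    (h2 : ∀ z ∈ Q, u * z * u⁻¹ ∈ D) : Tr D Q u u where
  q := fun z hz => mem_nm.2 ⟨hQ hz, h1 z hz⟩
  q' := fun z hz => mem_nm.2 ⟨hQ hz, by rw [inv_inv]; exact h2 z hz⟩
  e := ⟨1, Subgroup.one_mem _, 1, Subgroup.one_mem _, by group⟩

theorem Tr.step {D Q Q' : Subgroup Γ} {u₀ u u' : Γ} (h : Tr D Q u₀ u) (hr : Rl Q Q' u u')
    (hQ' : Q' ≤ D) (h1 : ∀ z ∈ Q', u'⁻¹ * z * u' ∈ D) (h2 : ∀ z ∈ Q', u' * z * u'⁻¹ ∈ D) :
    Tr D Q' u₀ u' := by
  obtain ⟨hq, hq', η, hη, η', hη', hu⟩ := h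
  obtain ⟨x, hx, y, hy, y', hy', x', hx', hu'⟩ := hr
  have hyD : y ∈ D := (mem_nm.1 (hq hy)).1
  have hyD' : y' ∈ D := (mem_nm.1 (hq hy')).1
  have k1 : Q' ≤ nm D u₀ := by
    intro z hz
    refine mem_nm.2 ⟨hQ' hz, ?_⟩
    have a1 := h1 (x * z * x⁻¹) (Q'.mul_mem (Q'.mul_mem hx hz) (Q'.inv_mem hx))
    have e1 : u'⁻¹ * (x * z * x⁻¹) * u' = (η' * y' * x')⁻¹ * (u₀⁻¹ * ((y * η)⁻¹ * z * (y * η)) * u₀) *
        (η' * y' * x') := by
      rw [hu', hu]
      group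
    rw [e1] at a1
    have a2 := conj_mem (D.mul_mem (D.mul_mem (mem_nm.1 hη').1 hyD') (hQ' hx')) a1
    have a3 : y * η ∈ nm D u₀ := Subgroup.mul_mem _ (hq hy) hη
    have e2 : u₀⁻¹ * ((y * η)⁻¹ * z * (y * η)) * u₀ =
        (u₀⁻¹ * (y * η) * u₀)⁻¹ * (u₀⁻¹ * z * u₀) * (u₀⁻¹ * (y * η) * u₀) := by group
    rw [e2] at a2
    exact conj_mem (mem_nm.1 a3).2 a2
  have k2 : Q' ≤ nm D u₀⁻¹ := by
    intro z hz
    refine mem_nm.2 ⟨hQ' hz, ?_⟩
    have a1 := h2 (x'⁻¹ * z * x') (Q'.mul_mem (Q'.mul_mem (Q'.inv_mem hx') hz) hx')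
    have e1 : u' * (x'⁻¹ * z * x') * u'⁻¹ =
        (x * y * η) * (u₀ * ((η' * y') * z * (η' * y')⁻¹) * u₀⁻¹) * (x * y * η)⁻¹ := by
      rw [hu', hu]
      group
    rw [e1] at a1
    have a2 := conj_mem' (D.mul_mem (D.mul_mem (hQ' hx) hyD) (mem_nm.1 hη).1) a1
    have a3 : η' * y' ∈ nm D u₀⁻¹ := Subgroup.mul_mem _ hη' (hq' hy')
    have e2 : u₀ * ((η' * y') * z * (η' * y')⁻¹) * u₀⁻¹ =
        (u₀⁻¹⁻¹ * (η' * y') * u₀⁻¹) * (u₀⁻¹⁻¹ * z * u₀⁻¹) * (u₀⁻¹⁻¹ * (η' * y') * u₀⁻¹)⁻¹ := by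
      group
    rw [e2] at a2
    exact conj_mem' (mem_nm.1 a3).2 a2
  refine ⟨k1, k2, x * y * η, ?_, η' * y' * x', ?_, ?_⟩
  · exact Subgroup.mul_mem _ (Subgroup.mul_mem _ (k1 hx) (hq hy)) hη
  · exact Subgroup.mul_mem _ (Subgroup.mul_mem _ hη' (hq' hy')) (k2 hx')
  · rw [hu', hu]
    group

end grp

/-! ### lists -/

theorem forall₂_comp {α : Type} {R S T : α → α → Prop} : ∀ {l₁ l₂ l₃ : List α},
    List.Forall₂ R l₁ l₂ → List.Forall₂ S l₂ l₃ →
    (∀ a b c, c ∈ l₃ → R a b → S b c → T a c) → List.Forall₂ T l₁ l₃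
  | _, _, _, List.Forall₂.nil, List.Forall₂.nil, _ => List.Forall₂.nil
  | _, _, _, List.Forall₂.cons h1 h2, List.Forall₂.cons h3 h4, h =>
    List.Forall₂.cons (h _ _ _ List.mem_cons_self h1 h3)
      (forall₂_comp h2 h4 fun _ _ _ hz => h _ _ _ (List.mem_cons_of_mem _ hz))

theorem forall₂_refl_of {α : Type} {R : α → α → Prop} : ∀ (l : List α), (∀ a ∈ l, R a a) →
    List.Forall₂ R l l
  | [], _ => List.Forall₂.nil
  | _ :: l, h => List.Forall₂.cons (h _ List.mem_cons_self)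
      (forall₂_refl_of l fun _ hb => h _ (List.mem_cons_of_mem _ hb))

theorem forall₂_map {α : Type} {R : α → α → Prop} {f : α → α} (h : ∀ a, R a (f a)) :
    ∀ (l : List α), List.Forall₂ R l (l.map f)
  | [] => List.Forall₂.nil
  | _ :: l => List.Forall₂.cons (h _) (forall₂_map h l)

theorem forall₂_append {α : Type} {R : α → α → Prop} : ∀ {l₁ l₂ m₁ m₂ : List α},
    List.Forall₂ R l₁ l₂ → List.Forall₂ R m₁ m₂ → List.Forall₂ R (l₁ ++ m₁) (l₂ ++ m₂)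
  | _, _, _, _, List.Forall₂.nil, h => h
  | _, _, _, _, List.Forall₂.cons h1 h2, h => List.Forall₂.cons h1 (forall₂_append h2 h)

theorem forall₂_exists {α : Type} {R : α → α → Prop} : ∀ {l₁ l₂ : List α},
    List.Forall₂ R l₁ l₂ → ∀ a ∈ l₁, ∃ b, R a b
  | _, _, List.Forall₂.cons h1 h2, a, ha => by
    rcases List.mem_cons.1 ha with rfl | ha
    · exact ⟨_, h1⟩
    · exact forall₂_exists h2 a ha

/-! ### relations between items -/

section rel
variable {Γ : Type} {k : ℕ}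

/-- the letters are related -/
def RI (R : Γ → Γ → Prop) : It Γ k → It Γ k → Prop
  | Sum.inl h, Sum.inl h' => R h.1.1 h'.1.1 ∧ R h.1.2 h'.1.2
  | Sum.inr y, Sum.inr y' => R y y'
  | _, _ => False

theorem RI.comp {R S T : Γ → Γ → Prop} {i j l : It Γ k} (h1 : RI R i j) (h2 : RI S j l)
    (h : ∀ u v w, w ∈ lt l → R u v → S v w → T u w) : RI T i l := by
  rcases i with i | i <;> rcases j with j | j <;> rcases l with l | l <;>
    simp only [RI] at h1 h2 ⊢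
  · exact ⟨h _ _ _ (Or.inl rfl) h1.1 h2.1, h _ _ _ (Or.inr rfl) h1.2 h2.2⟩
  · exact h _ _ _ rfl h1 h2

theorem RI.refl_of {R : Γ → Γ → Prop} {i : It Γ k} (h : ∀ u ∈ lt i, R u u) : RI R i i := by
  rcases i with i | i
  · exact ⟨h _ (Or.inl rfl), h _ (Or.inr rfl)⟩
  · exact h _ rfl

theorem RI.exists {R : Γ → Γ → Prop} {i j : It Γ k} (h : RI R i j) {u : Γ} (hu : u ∈ lt i) :
    ∃ w, R u w := by
  rcases i with i | i <;> rcases j with j | j <;> simp only [RI] at h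
  · rcases hu with rfl | rfl
    · exact ⟨_, h.1⟩
    · exact ⟨_, h.2⟩
  · rw [lt, Set.mem_singleton_iff] at hu
    subst hu
    exact ⟨_, h⟩

end rel

section
variable {Γ : Type} [Group Γ] {k : ℕ}

/-! ### moves of items in a context -/

theorem ireach_trans {X Y Z : List (It Γ k)} (h : IReach X Y) (h' : IReach Y Z) : IReach X Z :=
  Relation.ReflTransGen.trans h h'

theorem ireach_of_step {X Y : List (It Γ k)} (h : IStep X Y) : IReach X Y :=
  Relation.ReflTransGen.single h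

theorem istep_context {X Y : List (It Γ k)} (h : IStep X Y) (A B : List (It Γ k)) :
    IStep (A ++ X ++ B) (A ++ Y ++ B) := by
  cases h with
  | st U V L L' hs => simpa using IStep.st (A ++ U) (V ++ B) L L' hs
  | br U V i j => simpa using IStep.br (A ++ U) (V ++ B) i j
  | br' U V i j => simpa using IStep.br' (A ++ U) (V ++ B) i j
  | ab U V a b y o => simpa using IStep.ab (A ++ U) (V ++ B) a b y o
  | ab' U V a b y o => simpa using IStep.ab' (A ++ U) (V ++ B) a b y o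

theorem ireach_context {X Y : List (It Γ k)} (h : IReach X Y) (A B : List (It Γ k)) :
    IReach (A ++ X ++ B) (A ++ Y ++ B) := by
  induction h with
  | refl => exact Relation.ReflTransGen.refl
  | tail _ hs ih => exact Relation.ReflTransGen.tail ih (istep_context hs A B)

theorem ireach_of_wreach {L L' : List (Hd Γ k)} (h : WReach L L') : IReach (hl L) (hl L') := by
  induction h with
  | refl => exact Relation.ReflTransGen.refl
  | tail _ hs ih =>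
    refine Relation.ReflTransGen.tail ih ?_
    simpa using IStep.st [] [] _ _ hs

/-- a handle moves to the right unchanged -/
theorem pass_right (p : Hd Γ k) (X : List (It Γ k)) :
    IReach (Sum.inl p :: X) (X.map (icj (bd p)⁻¹) ++ [Sum.inl p]) := by
  induction X with
  | nil => exact Relation.ReflTransGen.refl
  | cons i X ih =>
    have h1 : IStep (Sum.inl p :: i :: X) (icj (bd p)⁻¹ i :: Sum.inl p :: X) :=
      IStep.br [] X (Sum.inl p) i
    have h2 := ireach_context ih [icj (bd p)⁻¹ i] []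
    refine ireach_trans (ireach_of_step h1) ?_
    simpa using h2

/-- a handle moves to the left unchanged -/
theorem pass_left (p : Hd Γ k) (X : List (It Γ k)) :
    IReach (X ++ [Sum.inl p]) (Sum.inl p :: X.map (icj (bd p))) := by
  induction X with
  | nil => exact Relation.ReflTransGen.refl
  | cons i X ih =>
    have h1 := ireach_context ih [i] []
    have h2 : IStep (i :: Sum.inl p :: X.map (icj (bd p)))
        (Sum.inl p :: icj (bd p) i :: X.map (icj (bd p))) :=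
      IStep.br' [] (X.map (icj (bd p))) i (Sum.inl p)
    refine ireach_trans ?_ (ireach_of_step h2)
    simpa using h1

theorem RI.icj {R : Γ → Γ → Prop} {v : Γ} (h : ∀ u, R u (v⁻¹ * u * v)) (i : It Γ k) :
    RI R i (icj v i) := by
  rcases i with i | i
  · exact ⟨h _, h _⟩
  · exact h _

/-! ### local pushes -/

theorem E_cj {p : Hd Γ k} {z : Γ} (hz : z ∈ SpQ.E [p]) (v : Γ) :
    v⁻¹ * z * v ∈ SpQ.E [cj1 v p] := by
  have h : SpQ.E [p] ≤ (SpQ.E [cj1 v p]).comap (MulAut.conj v⁻¹).toMonoidHom := by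
    rw [SpQ.E_singleton_le, Subgroup.mem_comap, Subgroup.mem_comap]
    show v⁻¹ * p.1.1 * v⁻¹⁻¹ ∈ _ ∧ v⁻¹ * p.1.2 * v⁻¹⁻¹ ∈ _
    rw [inv_inv]
    exact ⟨SpQ.fst_mem_E (h := cj1 v p) (by simp), SpQ.snd_mem_E (h := cj1 v p) (by simp)⟩
  have h1 := h hz
  rw [Subgroup.mem_comap] at h1
  have h2 : v⁻¹ * z * v⁻¹⁻¹ ∈ SpQ.E [cj1 v p] := h1
  rwa [inv_inv] at h2

theorem bd_E (p : Hd Γ k) : bd p ∈ SpQ.E [p] := SpQ.bd_mem_E (by simp)

theorem bd_cj1 (v : Γ) (p : Hd Γ k) : bd (cj1 v p) = v⁻¹ * bd p * v := by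
  unfold bd cj1
  group

/-- a local push of the handle `p` to the right of the item `i` -/
structure Loc (i : It Γ k) (p : Hd Γ k) (i' : It Γ k) (v : Γ) : Prop where
  reach : IReach [i, Sum.inl p] [i', Sum.inl (cj1 v p)]
  rel : RI (Rl (SpQ.E [p]) (SpQ.E [cj1 v p])) i i'

theorem icj_one_right (u v : Γ) (i : It Γ k) : icj v (icj u i) = icj (u * v) i := by
  rcases i with ⟨⟨a, b⟩, o⟩ | y
  · simp only [icj, cj1]
    congr 3 <;> group
  · simp only [icj]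
    congr 1
    group

/-- pushes around a letter, in both directions -/
theorem local_push (hP : St_Pas) (i : It Γ k) (p : Hd Γ k) (t : Γ) (ht : t ∈ lt i) :
    (∃ i' v, Loc i p i' v ∧ ∀ D : Subgroup Γ, SpQ.E [p] ≤ D → SpQ.E [cj1 v p] ≤ D →
      ∀ z ∈ SpQ.E [p], t⁻¹ * z * t ∈ D) ∧
    (∃ i' v, Loc i p i' v ∧ ∀ D : Subgroup Γ, SpQ.E [p] ≤ D → SpQ.E [cj1 v p] ≤ D →
      ∀ z ∈ SpQ.E [p], t * z * t⁻¹ ∈ D) := by
  have one (Q : Subgroup Γ) : (1 : Γ) ∈ Q := Q.one_mem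
  have hδ := bd_E p
  have hδ' : (bd p)⁻¹ ∈ SpQ.E [p] := Subgroup.inv_mem _ hδ
  -- first over `i` to the left, then around the letter `v`
  have back : ∀ (v : Γ) (D : Subgroup Γ), SpQ.E [p] ≤ D →
      SpQ.E [cj1 ((bd p)⁻¹ * v * bd p) p] ≤ D → ∀ z ∈ SpQ.E [p], v⁻¹ * z * v ∈ D := by
    intro v D h1 h2 z hz
    have h3 := h2 (E_cj (Subgroup.mul_mem _ (Subgroup.mul_mem _ hδ' hz) hδ)
      ((bd p)⁻¹ * v * bd p))
    have e : ((bd p)⁻¹ * v * bd p)⁻¹ * ((bd p)⁻¹ * z * bd p) * ((bd p)⁻¹ * v * bd p) =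
        (bd p)⁻¹ * (v⁻¹ * z * v) * bd p := by group
    rw [e] at h3
    exact conj_mem (h1 hδ) h3
  rcases i with ⟨⟨a, b⟩, ⟨o, o'⟩⟩ | y
  · obtain ⟨⟨x, y⟩, ⟨w, w'⟩⟩ := p
    set p : Hd Γ k := ((x, y), (w, w')) with hp
    have hbd : bd p = x * y * x⁻¹ * y⁻¹ := rfl
    -- the four pushes
    have LA : Loc (Sum.inl ((a, b), (o, o'))) p
        (icj (bd (cj1 a⁻¹ p))⁻¹ (Sum.inl ((a, (bd p)⁻¹ * b), (o, o' - 2)))) a⁻¹ := by
      constructor
      · have h1 := (hP Γ k x y a b w w' o o').2.2.1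
        have h2 := ireach_of_wreach h1
        have h3 := pass_right (cj1 a⁻¹ p) [Sum.inl ((a, (bd p)⁻¹ * b), (o, o' - 2))]
        refine Relation.ReflTransGen.trans ?_ h3
        have e1 : cj1 a⁻¹ p = ((a * x * a⁻¹, a * y * a⁻¹), (w, w')) := by
          simp only [cj1, hp, inv_inv]
        rw [e1]
        exact h2
      · have hm := bd_E (cj1 a⁻¹ p)
        have hm' := Subgroup.inv_mem _ hm
        refine ⟨⟨bd (cj1 a⁻¹ p), hm, 1, one _, 1, one _, (bd (cj1 a⁻¹ p))⁻¹, hm', ?_⟩,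
          ⟨bd (cj1 a⁻¹ p), hm, (bd p)⁻¹, hδ', 1, one _, (bd (cj1 a⁻¹ p))⁻¹, hm', ?_⟩⟩
        · show (bd (cj1 a⁻¹ p))⁻¹⁻¹ * a * (bd (cj1 a⁻¹ p))⁻¹ = _
          group
        · show (bd (cj1 a⁻¹ p))⁻¹⁻¹ * ((bd p)⁻¹ * b) * (bd (cj1 a⁻¹ p))⁻¹ = _
          group
    have LB : Loc (Sum.inl ((a, b), (o, o'))) p
        (icj (bd (cj1 b p))⁻¹ (Sum.inl (((bd (cj1 b p))⁻¹ * a, b), (o - 2, o')))) b := by
      constructor
      · have h1 := (hP Γ k x y a b w w' o o').2.2.2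
        have h2 := ireach_of_wreach h1
        have h3 := pass_right (cj1 b p) [Sum.inl (((bd (cj1 b p))⁻¹ * a, b), (o - 2, o'))]
        refine Relation.ReflTransGen.trans ?_ h3
        rw [bd_cj1, hbd]
        exact h2
      · have hm := bd_E (cj1 b p)
        have hm' := Subgroup.inv_mem _ hm
        refine ⟨⟨1, one _, 1, one _, 1, one _, (bd (cj1 b p))⁻¹, hm', ?_⟩,
          ⟨bd (cj1 b p), hm, 1, one _, 1, one _, (bd (cj1 b p))⁻¹, hm', ?_⟩⟩
        · show (bd (cj1 b p))⁻¹⁻¹ * ((bd (cj1 b p))⁻¹ * a) * (bd (cj1 b p))⁻¹ = _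
          group
        · show (bd (cj1 b p))⁻¹⁻¹ * b * (bd (cj1 b p))⁻¹ = _
          group
    have LA' : Loc (Sum.inl ((a, b), (o, o'))) p
        (Sum.inl (((bd p)⁻¹ * a * bd p, bd (cj1 ((bd p)⁻¹ * a * bd p) p) *
          ((bd p)⁻¹ * b * bd p)), (o, o' + 2))) ((bd p)⁻¹ * a * bd p) := by
      constructor
      · have h1 := (hP Γ k x y ((bd p)⁻¹ * a * bd p) ((bd p)⁻¹ * b * bd p) w w' o o').1
        have h2 := ireach_of_wreach h1
        have h3 := pass_left p [Sum.inl ((a, b), (o, o'))]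
        refine Relation.ReflTransGen.trans h3 ?_
        rw [bd_cj1]
        have e1 : ((bd p)⁻¹ * a * bd p)⁻¹ * bd p * ((bd p)⁻¹ * a * bd p) *
            ((bd p)⁻¹ * b * bd p) = ((bd p)⁻¹ * a * bd p)⁻¹ * (x * y * x⁻¹ * y⁻¹) *
            ((bd p)⁻¹ * a * bd p) * ((bd p)⁻¹ * b * bd p) := by rw [hbd]
        rw [e1]
        exact h2
      · have hm := bd_E (cj1 ((bd p)⁻¹ * a * bd p) p)
        refine ⟨⟨1, one _, (bd p)⁻¹, hδ', bd p, hδ, 1, one _, ?_⟩,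
          ⟨_, hm, (bd p)⁻¹, hδ', bd p, hδ, 1, one _, ?_⟩⟩
        · show (bd p)⁻¹ * a * bd p = _
          group
        · show bd (cj1 ((bd p)⁻¹ * a * bd p) p) * ((bd p)⁻¹ * b * bd p) = _
          group
    have LB' : Loc (Sum.inl ((a, b), (o, o'))) p
        (Sum.inl ((bd p * ((bd p)⁻¹ * a * bd p), (bd p)⁻¹ * b * bd p), (o + 2, o')))
        ((bd p)⁻¹ * b * bd p)⁻¹ := by
      constructor
      · have h1 := (hP Γ k x y ((bd p)⁻¹ * a * bd p) ((bd p)⁻¹ * b * bd p) w w' o o').2.1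
        have h2 := ireach_of_wreach h1
        have h3 := pass_left p [Sum.inl ((a, b), (o, o'))]
        refine Relation.ReflTransGen.trans h3 ?_
        have e1 : cj1 ((bd p)⁻¹ * b * bd p)⁻¹ p =
            ((((bd p)⁻¹ * b * bd p) * x * ((bd p)⁻¹ * b * bd p)⁻¹,
              ((bd p)⁻¹ * b * bd p) * y * ((bd p)⁻¹ * b * bd p)⁻¹), (w, w')) := by
          simp only [cj1, hp, inv_inv]
        rw [e1]
        exact h2
      · refine ⟨⟨1, one _, 1, one _, bd p, hδ, 1, one _, ?_⟩,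
          ⟨1, one _, (bd p)⁻¹, hδ', bd p, hδ, 1, one _, ?_⟩⟩
        · show bd p * ((bd p)⁻¹ * a * bd p) = _
          group
        · show (bd p)⁻¹ * b * bd p = _
          group
    rcases ht with rfl | rfl
    · -- the letter `a`
      refine ⟨⟨_, _, LA', back t⟩, ⟨_, _, LA, ?_⟩⟩
      intro D h1 h2 z hz
      have h3 := h2 (E_cj hz t⁻¹)
      rwa [inv_inv] at h3
    · -- the letter `b`
      refine ⟨⟨_, _, LB, ?_⟩, ⟨_, _, LB', ?_⟩⟩
      · intro D h1 h2 z hz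
        exact h2 (E_cj hz t)
      · intro D h1 h2 z hz
        have e : ((bd p)⁻¹ * t * bd p)⁻¹ = (bd p)⁻¹ * t⁻¹ * bd p := by group
        rw [e] at h2
        have h3 := back t⁻¹ D h1 h2 z hz
        rwa [inv_inv] at h3
  · have hty : t = y := ht
    subst hty
    refine ⟨⟨Sum.inr ((bd p)⁻¹ * t * bd p), (bd p)⁻¹ * t * bd p, ⟨?_, ?_⟩, back t⟩,
      ⟨Sum.inr ((bd (cj1 t⁻¹ p))⁻¹⁻¹ * t * (bd (cj1 t⁻¹ p))⁻¹), t⁻¹, ⟨?_, ?_⟩, ?_⟩⟩
    · have h1 : IStep [Sum.inr t, Sum.inl p] [Sum.inl p, Sum.inr ((bd p)⁻¹ * t * bd p)] :=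
        IStep.br' [] [] (Sum.inr t) (Sum.inl p)
      have h2 : IStep [Sum.inl p, Sum.inr ((bd p)⁻¹ * t * bd p)]
          [Sum.inr ((bd p)⁻¹ * t * bd p), Sum.inl (cj1 ((bd p)⁻¹ * t * bd p) p)] :=
        IStep.br' [] [] (Sum.inl p) (Sum.inr ((bd p)⁻¹ * t * bd p))
      exact ireach_trans (ireach_of_step h1) (ireach_of_step h2)
    · exact ⟨1, one _, (bd p)⁻¹, hδ', bd p, hδ, 1, one _, by group⟩
    · have h1 : IStep [Sum.inr t, Sum.inl p] [Sum.inl (cj1 t⁻¹ p), Sum.inr t] :=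
        IStep.br [] [] (Sum.inr t) (Sum.inl p)
      have h2 : IStep [Sum.inl (cj1 t⁻¹ p), Sum.inr t]
          [Sum.inr ((bd (cj1 t⁻¹ p))⁻¹⁻¹ * t * (bd (cj1 t⁻¹ p))⁻¹), Sum.inl (cj1 t⁻¹ p)] :=
        IStep.br [] [] (Sum.inl (cj1 t⁻¹ p)) (Sum.inr t)
      exact ireach_trans (ireach_of_step h1) (ireach_of_step h2)
    · have hm := bd_E (cj1 t⁻¹ p)
      exact ⟨_, hm, 1, one _, 1, one _, _, Subgroup.inv_mem _ hm, by group⟩
    · intro D h1 h2 z hz
      have h3 := h2 (E_cj hz t⁻¹)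
      rwa [inv_inv] at h3

/-! ### the orbit -/

/-- a move of the last handle -/
structure PS (s s' : List (It Γ k) × Hd Γ k) : Prop where
  reach : IReach (s.1 ++ [Sum.inl s.2]) (s'.1 ++ [Sum.inl s'.2])
  cj : ∃ v, s'.2 = cj1 v s.2
  rel : List.Forall₂ (RI (Rl (SpQ.E [s.2]) (SpQ.E [s'.2]))) s.1 s'.1

/-- a local push gives a move -/
theorem PS.of_loc {i i' : It Γ k} {p : Hd Γ k} {v : Γ} (h : Loc i p i' v)
    (X₁ X₂ : List (It Γ k)) :
    PS (X₁ ++ i :: X₂, p) (X₁ ++ i' :: X₂.map (icj (bd p * (bd (cj1 v p))⁻¹)), cj1 v p) := by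
  have one (Q : Subgroup Γ) : (1 : Γ) ∈ Q := Q.one_mem
  have hδ := bd_E p
  have hm := bd_E (cj1 v p)
  have hrefl : ∀ u : Γ, Rl (SpQ.E [p]) (SpQ.E [cj1 v p]) u u := fun u =>
    ⟨1, one _, 1, one _, 1, one _, 1, one _, by group⟩
  constructor
  · have h1 := ireach_context (pass_left p X₂) (X₁ ++ [i]) []
    have h2 := ireach_context h.reach X₁ (X₂.map (icj (bd p)))
    have h3 := ireach_context (pass_right (cj1 v p) (X₂.map (icj (bd p)))) (X₁ ++ [i']) []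
    simp only [List.append_assoc, List.cons_append, List.nil_append, List.append_nil,
      List.map_map] at h1 h2 h3
    have e : (icj (bd (cj1 v p))⁻¹ ∘ icj (bd p) : It Γ k → It Γ k) =
        icj (bd p * (bd (cj1 v p))⁻¹) := by
      funext j
      exact icj_one_right _ _ _
    rw [e] at h3
    simp only [List.append_assoc, List.cons_append]
    exact ireach_trans (ireach_trans h1 h2) h3
  · exact ⟨v, rfl⟩
  · refine forall₂_append (forall₂_refl_of _ fun j _ => RI.refl_of fun u _ => hrefl u)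
      (List.Forall₂.cons h.rel (forall₂_map (fun j => RI.icj (fun u => ?_) j) _))
    refine ⟨bd (cj1 v p), hm, (bd p)⁻¹, Subgroup.inv_mem _ hδ, bd p, hδ, (bd (cj1 v p))⁻¹,
      Subgroup.inv_mem _ hm, ?_⟩
    group

/-- the orbit -/
def Orb (s s' : List (It Γ k) × Hd Γ k) : Prop := Relation.ReflTransGen PS s s'

theorem Orb.reach {s s' : List (It Γ k) × Hd Γ k} (h : Orb s s') :
    IReach (s.1 ++ [Sum.inl s.2]) (s'.1 ++ [Sum.inl s'.2]) := by
  induction h with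
  | refl => exact Relation.ReflTransGen.refl
  | tail _ hs ih => exact ireach_trans ih hs.reach

theorem cj1_cj1 (u v : Γ) (p : Hd Γ k) : cj1 v (cj1 u p) = cj1 (u * v) p := by
  have h := icj_one_right u v (Sum.inl p : It Γ k)
  simpa [icj] using h

theorem Orb.cj {s s' : List (It Γ k) × Hd Γ k} (h : Orb s s') : ∃ v, s'.2 = cj1 v s.2 := by
  induction h with
  | refl => exact ⟨1, by simp [cj1]⟩
  | tail _ hs ih =>
    obtain ⟨v, hv⟩ := ih
    obtain ⟨u, hu⟩ := hs.cj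
    exact ⟨v * u, by rw [hu, hv, cj1_cj1]⟩

/-- the group generated by the handles of the orbit -/
def DO (s : List (It Γ k) × Hd Γ k) : Subgroup Γ :=
  Subgroup.closure {x | ∃ s', Orb s s' ∧ x ∈ SpQ.E [s'.2]}

theorem le_DO {s s' : List (It Γ k) × Hd Γ k} (h : Orb s s') : SpQ.E [s'.2] ≤ DO s :=
  fun _ hx => Subgroup.subset_closure ⟨s', h, hx⟩

/-- conjugation by the letters of a state of the orbit -/
theorem letter (hP : St_Pas) {s : List (It Γ k) × Hd Γ k} {X : List (It Γ k)} {p : Hd Γ k}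
    (h : Orb s (X, p)) {i : It Γ k} (hi : i ∈ X) {t : Γ} (ht : t ∈ lt i) :
    (∀ z ∈ SpQ.E [p], t⁻¹ * z * t ∈ DO s) ∧ ∀ z ∈ SpQ.E [p], t * z * t⁻¹ ∈ DO s := by
  have hX := List.append_of_mem hi
  have hl := local_push hP i p t ht
  have m0 : SpQ.E [p] ≤ DO s := le_DO (s' := (X, p)) h
  obtain ⟨X₁, X₂, hX⟩ := hX
  rw [hX] at h
  constructor
  · obtain ⟨i', v, h1, h2⟩ := hl.1
    have k1 := Relation.ReflTransGen.tail h (PS.of_loc h1 X₁ X₂)
    have m1 := le_DO k1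
    exact h2 (DO s) m0 m1
  · obtain ⟨i', v, h1, h2⟩ := hl.2
    have k1 := Relation.ReflTransGen.tail h (PS.of_loc h1 X₁ X₂)
    have m1 := le_DO k1
    exact h2 (DO s) m0 m1

/-- the letters of the first list -/
theorem track (hP : St_Pas) {s s' : List (It Γ k) × Hd Γ k} (h : Orb s s') :
    List.Forall₂ (RI (Tr (DO s) (SpQ.E [s'.2]))) s.1 s'.1 := by
  induction h with
  | refl =>
    refine forall₂_refl_of _ fun i hi => RI.refl_of fun u hu => ?_
    have h1 : Orb s s := Relation.ReflTransGen.refl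
    have h2 := letter hP (X := s.1) (p := s.2) h1 hi hu
    exact Tr.base (le_DO h1) h2.1 h2.2
  | @tail s₁ s₂ hr hs ih =>
    have h1 : Orb s s₂ := Relation.ReflTransGen.tail hr hs
    refine forall₂_comp ih hs.rel fun a b c hc hab hbc => RI.comp hab hbc fun u v w hw huv hvw => ?_
    have h2 := letter hP (X := s₂.1) (p := s₂.2) h1 hc hw
    exact huv.step hvw (le_DO h1) h2.1 h2.2

theorem DO_le_nm (hP : St_Pas) {s : List (It Γ k) × Hd Γ k} {i : It Γ k} (hi : i ∈ s.1) {t : Γ}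
    (ht : t ∈ lt i) : DO s ≤ nm (DO s) t ∧ DO s ≤ nm (DO s) t⁻¹ := by
  have key : ∀ s', Orb s s' → SpQ.E [s'.2] ≤ nm (DO s) t ∧ SpQ.E [s'.2] ≤ nm (DO s) t⁻¹ := by
    intro s' h
    obtain ⟨j, hj⟩ := forall₂_exists (track hP h) i hi
    obtain ⟨w, hw⟩ := hj.exists ht
    exact ⟨hw.q, hw.q'⟩
  constructor
  · conv_lhs => rw [DO]
    rw [Subgroup.closure_le]
    rintro x ⟨s', h, hx⟩
    exact (key s' h).1 hx
  · conv_lhs => rw [DO]
    rw [Subgroup.closure_le]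
    rintro x ⟨s', h, hx⟩
    exact (key s' h).2 hx

theorem DO_normal (hP : St_Pas) (s : List (It Γ k) × Hd Γ k) {v : Γ} (hv : v ∈ GI s.1) :
    ∀ x ∈ DO s, v⁻¹ * x * v ∈ DO s := by
  have key : ∀ u ∈ GI s.1, (∀ x ∈ DO s, u⁻¹ * x * u ∈ DO s) ∧ ∀ x ∈ DO s, u * x * u⁻¹ ∈ DO s := by
    intro u hu
    refine Subgroup.closure_induction (p := fun u _ => (∀ x ∈ DO s, u⁻¹ * x * u ∈ DO s) ∧
      ∀ x ∈ DO s, u * x * u⁻¹ ∈ DO s) ?_ ?_ ?_ ?_ hu
    · rintro t ⟨i, hi, ht⟩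
      obtain ⟨h1, h2⟩ := DO_le_nm hP hi ht
      refine ⟨fun x hx => (mem_nm.1 (h1 hx)).2, fun x hx => ?_⟩
      have := (mem_nm.1 (h2 hx)).2
      rwa [inv_inv] at this
    · refine ⟨fun x hx => ?_, fun x hx => ?_⟩
      · have e : (1 : Γ)⁻¹ * x * 1 = x := by group
        rwa [e]
      · have e : (1 : Γ) * x * 1⁻¹ = x := by group
        rwa [e]
    · rintro a b _ _ ⟨ha, ha'⟩ ⟨hb, hb'⟩
      refine ⟨fun x hx => ?_, fun x hx => ?_⟩
      · have e : (a * b)⁻¹ * x * (a * b) = b⁻¹ * (a⁻¹ * x * a) * b := by group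
        rw [e]
        exact hb _ (ha _ hx)
      · have e : (a * b) * x * (a * b)⁻¹ = a * (b * x * b⁻¹) * a⁻¹ := by group
        rw [e]
        exact ha' _ (hb' _ hx)
    · rintro a _ ⟨ha, ha'⟩
      refine ⟨fun x hx => ?_, fun x hx => ?_⟩
      · rw [inv_inv]
        exact ha' x hx
      · rw [inv_inv]
        exact ha x hx
  exact (key v hv).1

end

end Cnk

namespace Cnk

section
variable {Γ : Type} [Group Γ] {k : ℕ}

theorem cls_of_rl {N Q Q' : Subgroup Γ} [N.Normal] (hQ : Q ≤ N) (hQ' : Q' ≤ N) {u u' : Γ}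
    (h : Rl Q Q' u u') : (u' : Γ ⧸ N) = (u : Γ ⧸ N) := by
  obtain ⟨x, hx, y, hy, y', hy', x', hx', rfl⟩ := h
  have e1 : ((x : Γ) : Γ ⧸ N) = 1 := (QuotientGroup.eq_one_iff _).2 (hQ' hx)
  have e2 : ((y : Γ) : Γ ⧸ N) = 1 := (QuotientGroup.eq_one_iff _).2 (hQ hy)
  have e3 : ((y' : Γ) : Γ ⧸ N) = 1 := (QuotientGroup.eq_one_iff _).2 (hQ hy')
  have e4 : ((x' : Γ) : Γ ⧸ N) = 1 := (QuotientGroup.eq_one_iff _).2 (hQ' hx')
  rw [QuotientGroup.mk_mul, QuotientGroup.mk_mul, QuotientGroup.mk_mul, QuotientGroup.mk_mul,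
    e1, e2, e3, e4]
  simp

theorem cls_of_ri {N Q Q' : Subgroup Γ} [N.Normal] (hQ : Q ≤ N) (hQ' : Q' ≤ N) {i i' : It Γ k}
    (h : RI (Rl Q Q') i i') : cls N i' = cls N i := by
  rcases i with i | i <;> rcases i' with i' | i' <;> simp only [RI] at h
  · simp only [cls, cls_of_rl hQ hQ' h.1, cls_of_rl hQ hQ' h.2]
  · simp only [cls, cls_of_rl hQ hQ' h]

theorem map_of_forall₂ {α β : Type} {R : α → α → Prop} {f : α → β} (hf : ∀ a b, R a b → f b = f a) :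
    ∀ {l₁ l₂ : List α}, List.Forall₂ R l₁ l₂ → l₂.map f = l₁.map f
  | _, _, List.Forall₂.nil => rfl
  | _, _, List.Forall₂.cons h1 h2 => by
    rw [List.map_cons, List.map_cons, hf _ _ h1, map_of_forall₂ hf h2]

theorem E_cj1_le {N : Subgroup Γ} [N.Normal] {p : Hd Γ k} (hp : Kl N p) (v : Γ) :
    SpQ.E [cj1 v p] ≤ N := by
  rw [SpQ.E_singleton_le]
  have h := fun (x : Γ) (hx : x ∈ N) => (inferInstance : N.Normal).conj_mem x hx v⁻¹
  refine ⟨?_, ?_⟩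
  · have := h _ hp.1
    rwa [inv_inv] at this
  · have := h _ hp.2
    rwa [inv_inv] at this

theorem Orb.cls {N : Subgroup Γ} [N.Normal] {s s' : List (It Γ k) × Hd Γ k} (h : Orb s s')
    (hN : Kl N s.2) : s'.1.map (cls N) = s.1.map (cls N) := by
  have hE : ∀ s₁, Orb s s₁ → SpQ.E [s₁.2] ≤ N := by
    intro s₁ h1
    obtain ⟨v, hv⟩ := h1.cj
    rw [hv]
    exact E_cj1_le hN v
  induction h with
  | refl => rfl
  | @tail s₁ s₂ hr hs ih =>
    have h1 : Orb s s₁ := hr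
    have h2 : Orb s s₂ := Relation.ReflTransGen.tail hr hs
    have h3 : s₂.1.map (LGC.cls N) = s₁.1.map (LGC.cls N) :=
      map_of_forall₂ (fun _ _ hab => cls_of_ri (hE _ h1) (hE _ h2) hab) hs.rel
    exact h3.trans ih

end

end Cnk

open Cnk in
/-- **CNK**. -/
theorem thm_Cnk (hP : St_Pas) : St_Cnk := by
  intro Γ _ k N _ X p H hN hH v hv
  have hle : DO (X, p) ≤ H := by
    unfold DO
    rw [Subgroup.closure_le]
    rintro x ⟨s', h, hx⟩
    obtain ⟨u, hu⟩ := h.cj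
    have h1 := h.reach
    rw [hu] at h1 hx
    exact hH s'.1 u h1 (h.cls hN) hx
  have h0 : Orb (X, p) (X, p) := Relation.ReflTransGen.refl
  have h1 := le_DO h0
  have h2 := DO_normal hP (X, p) hv
  rw [SpQ.E_singleton_le]
  exact ⟨hle (h2 _ (h1 (SpQ.fst_mem_E (h := p) (by simp)))),
    hle (h2 _ (h1 (SpQ.snd_mem_E (h := p) (by simp))))⟩

end Pool.Agent.LGC
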