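import Pool.Agent.LGC.Defs
import Pool.Agent.LGP.Fin

/-!
# LGC / Fnn: equalities of traces on a set of elements follow from finitely many

For MP_0707f5_ag.
-/

set_option autoImplicit false

namespace Pool.Agent.LGC

open Matrix Module Helper12.Sc

theorem thm_Fnn : St_Fnn := by
  intro G _ _ r Λ
  classical
  obtain ⟨T, hT, f, hf⟩ := Group.fg_iff_exists_freeGroup_hom_surjective.1 (inferInstance : Group.FG G)
  have := hT.to_subtype
  have : Fintype T := Fintype.ofFinite T
  let e : T ≃ (Fin 0 × Bool) ⊕ Fin (Fintype.card T) :=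
    (Fintype.equivFin T).trans (Equiv.emptySum (Fin 0 × Bool) (Fin (Fintype.card T))).symm
  let e' : FreeGroup T ≃* LGP.F 0 (Fintype.card T) := FreeGroup.freeGroupCongr e
  let π : LGP.F 0 (Fintype.card T) →* G := f.comp e'.symm.toMonoidHom
  have hπ : Function.Surjective π := hf.comp e'.symm.surjective
  obtain ⟨s, hs, h⟩ := LGP.thm_Fin 0 (Fintype.card T) r (π ⁻¹' Λ)
  refine ⟨s.image π, ?_, ?_⟩
  · intro x hx
    obtain ⟨y, hy, rfl⟩ := Finset.mem_image.1 hx
    exact hs y hy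
  · intro ρ₁ ρ₂ h1 x hx
    obtain ⟨y, rfl⟩ := hπ x
    exact h (ρ₁.comp π) (ρ₂.comp π)
      (fun z hz => h1 (π z) (Finset.mem_image.2 ⟨z, hz, rfl⟩)) y hx

end Pool.Agent.LGC
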