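import Pool.Agent.LGC.Defs

/-!
# Moves of items are natural and lift along homomorphisms

Helper2, for MP_0707f5_ag (statements of helper21, `LGC.St_Lif`, `LGC.St_Map`).
-/

set_option autoImplicit false

namespace Pool.Agent.LGC

open Matrix Module Helper12.Sc
open SpQ (Hd WStep WReach WExt Good bare bd cj1 IsSpinStructure)
open LGP (F ga gb gx x0 MC NS MR stdL stdM dstd wty prj cyc)

section

variable {Γ Δ : Type} [Group Γ] [Group Δ] {k : ℕ}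

/-- moves of decorated handles lift -/
theorem Lif_wstep (f : Γ →* Δ) {S : List (Hd Γ k)} {M M' : List (Hd Δ k)}
    (hM : SpQ.mapH f S = M) (h : WStep M M') : ∃ S', WStep S S' ∧ SpQ.mapH f S' = M' := by
  unfold SpQ.mapH at hM ⊢
  cases h with
  | tw u v x y p q =>
    obtain ⟨s₁, t, rfl, rfl, h⟩ := List.map_eq_append_iff.1 hM
    obtain ⟨⟨⟨x', y'⟩, ⟨p', q'⟩⟩, s₂, rfl, hp, rfl⟩ := List.map_eq_cons_iff.1 h
    simp only [Prod.mk.injEq] at hp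
    obtain ⟨⟨rfl, rfl⟩, rfl, rfl⟩ := hp
    exact ⟨_, WStep.tw s₁ s₂ x' y' _ _, by simp⟩
  | tw' u v x y p q =>
    obtain ⟨s₁, t, rfl, rfl, h⟩ := List.map_eq_append_iff.1 hM
    obtain ⟨⟨⟨x', y'⟩, ⟨p', q'⟩⟩, s₂, rfl, hp, rfl⟩ := List.map_eq_cons_iff.1 h
    simp only [Prod.mk.injEq] at hp
    obtain ⟨⟨rfl, rfl⟩, rfl, rfl⟩ := hp
    exact ⟨_, WStep.tw' s₁ s₂ x' y' _ _, by simp⟩
  | rot u v x y p q =>
    obtain ⟨s₁, t, rfl, rfl, h⟩ := List.map_eq_append_iff.1 hM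
    obtain ⟨⟨⟨x', y'⟩, ⟨p', q'⟩⟩, s₂, rfl, hp, rfl⟩ := List.map_eq_cons_iff.1 h
    simp only [Prod.mk.injEq] at hp
    obtain ⟨⟨rfl, rfl⟩, rfl, rfl⟩ := hp
    exact ⟨_, WStep.rot s₁ s₂ x' y' _ _, by simp⟩
  | rot' u v x y p q =>
    obtain ⟨s₁, t, rfl, rfl, h⟩ := List.map_eq_append_iff.1 hM
    obtain ⟨⟨⟨x', y'⟩, ⟨p', q'⟩⟩, s₂, rfl, hp, rfl⟩ := List.map_eq_cons_iff.1 h
    simp only [Prod.mk.injEq] at hp
    obtain ⟨⟨rfl, rfl⟩, rfl, rfl⟩ := hp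
    exact ⟨_, WStep.rot' s₁ s₂ x' y' _ _, by simp⟩
  | sl u v a b c d p q p' q' =>
    obtain ⟨s₁, t, rfl, rfl, h⟩ := List.map_eq_append_iff.1 hM
    obtain ⟨⟨⟨a', b'⟩, ⟨_, _⟩⟩, t₂, rfl, hp, h⟩ := List.map_eq_cons_iff.1 h
    obtain ⟨⟨⟨c', d'⟩, ⟨_, _⟩⟩, s₂, rfl, hq, rfl⟩ := List.map_eq_cons_iff.1 h
    simp only [Prod.mk.injEq] at hp hq
    obtain ⟨⟨rfl, rfl⟩, rfl, rfl⟩ := hp
    obtain ⟨⟨rfl, rfl⟩, rfl, rfl⟩ := hq
    exact ⟨_, WStep.sl s₁ s₂ a' b' c' d' _ _ _ _, by simp⟩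
  | sl' u v a b c d p q p' q' =>
    obtain ⟨s₁, t, rfl, rfl, h⟩ := List.map_eq_append_iff.1 hM
    obtain ⟨⟨⟨a', b'⟩, ⟨_, _⟩⟩, t₂, rfl, hp, h⟩ := List.map_eq_cons_iff.1 h
    obtain ⟨⟨⟨c', d'⟩, ⟨_, _⟩⟩, s₂, rfl, hq, rfl⟩ := List.map_eq_cons_iff.1 h
    simp only [Prod.mk.injEq] at hp hq
    obtain ⟨⟨rfl, rfl⟩, rfl, rfl⟩ := hp
    obtain ⟨⟨rfl, rfl⟩, rfl, rfl⟩ := hq
    exact ⟨_, WStep.sl' s₁ s₂ a' b' c' d' _ _ _ _, by simp⟩
  | br u v a b c d p q p' q' =>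
    obtain ⟨s₁, t, rfl, rfl, h⟩ := List.map_eq_append_iff.1 hM
    obtain ⟨⟨⟨a', b'⟩, ⟨_, _⟩⟩, t₂, rfl, hp, h⟩ := List.map_eq_cons_iff.1 h
    obtain ⟨⟨⟨c', d'⟩, ⟨_, _⟩⟩, s₂, rfl, hq, rfl⟩ := List.map_eq_cons_iff.1 h
    simp only [Prod.mk.injEq] at hp hq
    obtain ⟨⟨rfl, rfl⟩, rfl, rfl⟩ := hp
    obtain ⟨⟨rfl, rfl⟩, rfl, rfl⟩ := hq
    exact ⟨_, WStep.br s₁ s₂ a' b' c' d' _ _ _ _, by simp⟩
  | br' u v a b c d p q p' q' =>
    obtain ⟨s₁, t, rfl, rfl, h⟩ := List.map_eq_append_iff.1 hM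
    obtain ⟨⟨⟨a', b'⟩, ⟨_, _⟩⟩, t₂, rfl, hp, h⟩ := List.map_eq_cons_iff.1 h
    obtain ⟨⟨⟨c', d'⟩, ⟨_, _⟩⟩, s₂, rfl, hq, rfl⟩ := List.map_eq_cons_iff.1 h
    simp only [Prod.mk.injEq] at hp hq
    obtain ⟨⟨rfl, rfl⟩, rfl, rfl⟩ := hp
    obtain ⟨⟨rfl, rfl⟩, rfl, rfl⟩ := hq
    exact ⟨_, WStep.br' s₁ s₂ a' b' c' d' _ _ _ _, by simp⟩

theorem Lif_hl (f : Γ →* Δ) (L : List (Hd Γ k)) :
    (hl L).map (imap f) = hl (SpQ.mapH f L) := by
  unfold hl SpQ.mapH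
  rw [List.map_map, List.map_map]
  rfl

theorem Lif_hl_inv (f : Γ →* Δ) (M : List (Hd Δ k)) : ∀ X : List (It Γ k),
    X.map (imap f) = hl M → ∃ L, X = hl L ∧ SpQ.mapH f L = M := by
  induction M with
  | nil =>
    intro X hX
    obtain rfl := List.map_eq_nil_iff.1 hX
    exact ⟨[], rfl, rfl⟩
  | cons m M ih =>
    intro X hX
    obtain ⟨i, X', rfl, hi, hX'⟩ := List.map_eq_cons_iff.1 hX
    obtain ⟨L, rfl, hL⟩ := ih X' hX'
    cases i with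
    | inl h =>
      refine ⟨h :: L, rfl, ?_⟩
      have h1 : ((f h.1.1, f h.1.2), h.2) = m := Sum.inl.inj hi
      rw [← h1, ← hL]
      rfl
    | inr y => exact absurd hi Sum.inr_ne_inl

theorem Lif_bd (f : Γ →* Δ) (h : Hd Γ k) :
    f (bd h) = bd (((f h.1.1, f h.1.2), h.2) : Hd Δ k) := by
  unfold bd
  simp

theorem Lif_ib (f : Γ →* Δ) (i : It Γ k) : f (ib i) = ib (imap f i) := by
  cases i with
  | inl h => exact Lif_bd f h
  | inr y => rfl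

theorem Lif_icj (f : Γ →* Δ) (u : Γ) (i : It Γ k) :
    imap f (icj u i) = icj (f u) (imap f i) := by
  cases i with
  | inl h =>
    simp [icj, imap, cj1]
  | inr y =>
    simp [icj, imap]

theorem Lif_inl (f : Γ →* Δ) (i : It Γ k) (a b : Δ) (o : ZMod k × ZMod k)
    (h : imap f i = Sum.inl ((a, b), o)) :
    ∃ a' b', i = Sum.inl ((a', b'), o) ∧ f a' = a ∧ f b' = b := by
  cases i with
  | inl h' =>
    obtain ⟨⟨a', b'⟩, o'⟩ := h'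
    have h1 : ((f a', f b'), o') = ((a, b), o) := Sum.inl.inj h
    simp only [Prod.mk.injEq] at h1
    obtain ⟨⟨h2, h3⟩, rfl⟩ := h1
    exact ⟨a', b', rfl, h2, h3⟩
  | inr y => exact absurd h Sum.inr_ne_inl

theorem Lif_inr (f : Γ →* Δ) (i : It Γ k) (y : Δ) (h : imap f i = Sum.inr y) :
    ∃ y', i = Sum.inr y' ∧ f y' = y := by
  cases i with
  | inl h' => exact absurd h Sum.inl_ne_inr
  | inr y' => exact ⟨y', rfl, Sum.inr.inj h⟩

/-- naturality of one move -/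
theorem Lif_step_map (f : Γ →* Δ) {X X' : List (It Γ k)} (h : IStep X X') :
    IStep (X.map (imap f)) (X'.map (imap f)) := by
  cases h with
  | st A B L L' h =>
    simp only [List.map_append, Lif_hl]
    exact IStep.st _ _ _ _ (SpQ.mapH_step f h)
  | br A B i j =>
    simp only [List.map_append, List.map_cons, Lif_icj, map_inv, Lif_ib]
    exact IStep.br _ _ _ _
  | br' A B i j =>
    simp only [List.map_append, List.map_cons, Lif_icj, Lif_ib]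
    exact IStep.br' _ _ _ _
  | ab A B a b y o =>
    simpa [imap] using IStep.ab (A.map (imap f)) (B.map (imap f)) (f a) (f b) (f y) o
  | ab' A B a b y o =>
    simpa [imap] using IStep.ab' (A.map (imap f)) (B.map (imap f)) (f a) (f b) (f y) o

/-- one move lifts -/
theorem Lif_step_lift (f : Γ →* Δ) {X : List (It Γ k)} {Y Y' : List (It Δ k)}
    (hX : X.map (imap f) = Y) (h : IStep Y Y') : ∃ X', IStep X X' ∧ X'.map (imap f) = Y' := by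
  cases h with
  | st A B L L' h =>
    obtain ⟨s, c, rfl, hs, rfl⟩ := List.map_eq_append_iff.1 hX
    obtain ⟨a, b, rfl, rfl, hb⟩ := List.map_eq_append_iff.1 hs
    obtain ⟨M, rfl, hM⟩ := Lif_hl_inv f L b hb
    obtain ⟨M', h1, h2⟩ := Lif_wstep f hM h
    refine ⟨_, IStep.st a c M M' h1, ?_⟩
    simp only [List.map_append, Lif_hl, h2]
  | br A B i j =>
    obtain ⟨a, t, rfl, rfl, h⟩ := List.map_eq_append_iff.1 hX
    obtain ⟨i', t', rfl, rfl, h1⟩ := List.map_eq_cons_iff.1 h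
    obtain ⟨j', c, rfl, rfl, rfl⟩ := List.map_eq_cons_iff.1 h1
    refine ⟨_, IStep.br a c i' j', ?_⟩
    simp only [List.map_append, List.map_cons, Lif_icj, map_inv, Lif_ib]
  | br' A B i j =>
    obtain ⟨a, t, rfl, rfl, h⟩ := List.map_eq_append_iff.1 hX
    obtain ⟨i', t', rfl, rfl, h1⟩ := List.map_eq_cons_iff.1 h
    obtain ⟨j', c, rfl, rfl, rfl⟩ := List.map_eq_cons_iff.1 h1
    refine ⟨_, IStep.br' a c i' j', ?_⟩
    simp only [List.map_append, List.map_cons, Lif_icj, Lif_ib]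
  | ab A B a b y o =>
    obtain ⟨s, t, rfl, rfl, h⟩ := List.map_eq_append_iff.1 hX
    obtain ⟨i', t', rfl, hi, h1⟩ := List.map_eq_cons_iff.1 h
    obtain ⟨j', c, rfl, hj, rfl⟩ := List.map_eq_cons_iff.1 h1
    obtain ⟨a', b', rfl, rfl, rfl⟩ := Lif_inl f i' a b o hi
    obtain ⟨y', rfl, rfl⟩ := Lif_inr f j' y hj
    exact ⟨_, IStep.ab s c a' b' y' o, by simp [imap]⟩
  | ab' A B a b y o =>
    obtain ⟨s, t, rfl, rfl, h⟩ := List.map_eq_append_iff.1 hX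
    obtain ⟨i', t', rfl, hi, h1⟩ := List.map_eq_cons_iff.1 h
    obtain ⟨j', c, rfl, hj, rfl⟩ := List.map_eq_cons_iff.1 h1
    obtain ⟨a', b', rfl, rfl, rfl⟩ := Lif_inl f i' a b o hi
    obtain ⟨y', rfl, rfl⟩ := Lif_inr f j' y hj
    exact ⟨_, IStep.ab' s c a' b' y' o, by simp [imap]⟩

end

theorem thm_Lif : St_Lif := by
  intro Γ Δ _ _ k f X Y h
  induction h with
  | refl => exact ⟨X, Relation.ReflTransGen.refl, rfl⟩
  | tail _ hs ih =>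
    obtain ⟨X', h1, h2⟩ := ih
    obtain ⟨X'', h3, h4⟩ := Lif_step_lift f h2 hs
    exact ⟨X'', Relation.ReflTransGen.tail h1 h3, h4⟩

theorem thm_Map : St_Map := by
  intro Γ Δ _ _ k f X Y h
  induction h with
  | refl => exact Relation.ReflTransGen.refl
  | tail _ hs ih => exact Relation.ReflTransGen.tail ih (Lif_step_map f hs)

end Pool.Agent.LGC

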