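import Pool.Agent.LGC.Bas
import Pool.Agent.LGC.Lif
import Pool.Agent.LGC.Cls

/-!
# Killed good handles of a list which does not generate the group

Helper35, for MP_0707f5_ag; the proof is that of helper37 in LGC/Gen.lean, with the classes.
-/

set_option autoImplicit false

namespace Pool.Agent.LGC

open SpQ (Hd WStep WReach WExt Good bare bd cj1)

section

variable {Γ Δ : Type} [Group Γ] [Group Δ] {k : ℕ}

private theorem Gen_lt (f : Γ →* Δ) (i : It Γ k) : lt (imap f i) = f '' lt i := by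
  rcases i with ⟨⟨a, b⟩, o⟩ | y
  · exact (Set.image_pair f a b).symm
  · exact (Set.image_singleton).symm

private theorem Gen_map (f : Γ →* Δ) (X : List (It Γ k)) :
    (GI X).map f = GI (X.map (imap f)) := by
  unfold GI
  rw [MonoidHom.map_closure]
  congr 1
  ext z
  constructor
  · rintro ⟨x, ⟨i, hi, hx⟩, rfl⟩
    refine ⟨imap f i, List.mem_map_of_mem hi, ?_⟩
    rw [Gen_lt]
    exact ⟨x, hx, rfl⟩
  · rintro ⟨j, hj, hz⟩
    obtain ⟨i, hi, rfl⟩ := List.mem_map.1 hj
    rw [Gen_lt] at hz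
    obtain ⟨x, hx, rfl⟩ := hz
    exact ⟨x, ⟨i, hi, hx⟩, rfl⟩

private theorem Gen_lift (D : Subgroup Γ) : ∀ X : List (It Γ k), GI X ≤ D →
    ∃ X' : List (It D k), X'.map (imap D.subtype) = X := by
  intro X
  induction X with
  | nil => exact fun _ => ⟨[], rfl⟩
  | cons i X ih =>
    intro h
    obtain ⟨X', hX'⟩ := ih ((GI_mono fun j hj => List.mem_cons_of_mem _ hj).trans h)
    have h2 : ∀ z ∈ lt i, z ∈ D := fun z hz => h (mem_GI List.mem_cons_self hz)
    rcases i with ⟨⟨a, b⟩, o⟩ | y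
    · refine ⟨Sum.inl ((⟨a, h2 a (Or.inl rfl)⟩, ⟨b, h2 b (Or.inr rfl)⟩), o) :: X', ?_⟩
      rw [List.map_cons, hX']
      rfl
    · refine ⟨Sum.inr ⟨y, h2 y rfl⟩ :: X', ?_⟩
      rw [List.map_cons, hX']
      rfl

/-- classes modulo `N` of items with letters in a subgroup -/
private theorem Gek_cls {D N : Subgroup Γ} {X : List (It Γ k)} {X' X₁ : List (It D k)}
    (hX' : X'.map (imap D.subtype) = X)
    (h : X₁.map (cls (N.subgroupOf D)) = X'.map (cls (N.subgroupOf D))) :
    (X₁.map (imap D.subtype)).map (cls N) = X.map (cls N) := by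
  let q : D ⧸ N.subgroupOf D → Γ ⧸ N := Quotient.map' (fun x : D => (x : Γ)) (by
    intro a b hab
    rw [QuotientGroup.leftRel_apply] at hab ⊢
    exact hab)
  let f : ((D ⧸ N.subgroupOf D) × (D ⧸ N.subgroupOf D)) ⊕ (D ⧸ N.subgroupOf D) →
    ((Γ ⧸ N) × (Γ ⧸ N)) ⊕ (Γ ⧸ N) := Sum.map (Prod.map q q) q
  have e : ∀ i : It D k, cls N (imap D.subtype i) = f (cls (N.subgroupOf D) i) := by
    rintro (⟨⟨a, b⟩, o⟩ | y) <;> rfl
  have e2 : ∀ Y : List (It D k), (Y.map (imap D.subtype)).map (cls N) =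
      (Y.map (cls (N.subgroupOf D))).map f := by
    intro Y
    rw [List.map_map, List.map_map]
    exact List.map_congr_left fun i _ => e i
  rw [← hX', e2, e2, h]

end

theorem thm_Gek (hG : St_Gnk) (hM : St_Map) : St_Gek := by
  intro Γ _ k N _ X B hB hgood hkl H hH
  set D : Subgroup Γ := GI (X ++ hl B) with hD
  obtain ⟨X', hX'⟩ := Gen_lift D X (GI_mono fun i hi => List.mem_append_left _ hi)
  obtain ⟨Y', hY'⟩ := Gen_lift D (hl B) (GI_mono fun i hi => List.mem_append_right _ hi)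
  obtain ⟨B', rfl, hB'⟩ := Lif_hl_inv D.subtype B Y' hY'
  have hmap : (X' ++ hl B').map (imap D.subtype) = X ++ hl B := by
    rw [List.map_append, hX', hY']
  have htop : GI (X' ++ hl B') = ⊤ := by
    apply Subgroup.map_injective D.subtype_injective
    rw [Gen_map, hmap, ← MonoidHom.range_eq_map, Subgroup.range_subtype]
  have hmem : ∀ (C : List (Hd D k)) (h : Hd D k), h ∈ C →
      ((D.subtype h.1.1, D.subtype h.1.2), h.2) ∈ SpQ.mapH D.subtype C :=
    fun C h hh => List.mem_map_of_mem (f := fun h : Hd D k =>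
      ((D.subtype h.1.1, D.subtype h.1.2), h.2)) hh
  have key : N.subgroupOf D ≤ H.subgroupOf D := by
    refine hG D k (N.subgroupOf D) X' B' ?_ ?_ ?_ htop (H.subgroupOf D) ?_
    · rintro rfl
      exact hB hB'.symm
    · intro h hh
      have h1 := hmem B' h hh
      rw [hB'] at h1
      exact hgood _ h1
    · intro h hh
      have h1 := hmem B' h hh
      rw [hB'] at h1
      exact ⟨Subgroup.mem_subgroupOf.2 (hkl _ h1).1, Subgroup.mem_subgroupOf.2 (hkl _ h1).2⟩
    · intro X₁ B₁ hr hcl hlen hg hk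
      have h1 := hM D Γ k D.subtype _ _ hr
      rw [hmap, List.map_append, Lif_hl] at h1
      have h2 : SpQ.E (SpQ.mapH D.subtype B₁) ≤ H := by
        refine hH _ _ h1 (Gek_cls hX' hcl) ?_ ?_ ?_
        · have h3 : B.length = B'.length := by
            rw [← hB']
            exact List.length_map _
          rw [h3, ← hlen]
          exact List.length_map _
        · intro h hh
          obtain ⟨h', hh', rfl⟩ := List.mem_map.1 hh
          exact hg h' hh'
        · intro h hh
          obtain ⟨h', hh', rfl⟩ := List.mem_map.1 hh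
          exact ⟨Subgroup.mem_subgroupOf.1 (hk h' hh').1, Subgroup.mem_subgroupOf.1 (hk h' hh').2⟩
      have h3 : (SpQ.E B₁).map D.subtype ≤ H := by
        rw [← GI_hl, Gen_map, Lif_hl, GI_hl]
        exact h2
      exact Subgroup.map_le_iff_le_comap.1 h3
  rintro x ⟨hx1, hx2⟩
  exact Subgroup.mem_subgroupOf.1 (key (Subgroup.mem_subgroupOf.2 (show ((⟨x, hx2⟩ : D) : Γ) ∈ N from hx1)))

end Pool.Agent.LGC
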