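import Pool.Agent.LGC.Gno
import Pool.Agent.LGC.Cls

/-!
# Killed good handles generate `N`: moves which preserve the classes

Helper35, for MP_0707f5_ag; the proof is that of helper2 in LGC/Gno.lean, with the classes.
-/

set_option autoImplicit false

namespace Pool.Agent.LGC

open Matrix Module Helper12.Sc
open SpQ (Hd WStep WReach WExt Good bare bd cj1 IsSpinStructure)
open LGP (F ga gb gx x0 MC NS MR stdL stdM dstd wty prj cyc)

section

variable {Γ : Type} [Group Γ] {k : ℕ}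

/-- lists with the same letters modulo `J ≤ N` have the same classes -/
theorem cls_of_nwt {J N : Subgroup Γ} [J.Normal] (hJ : J ≤ N) {X X' : List (It Γ k)}
    (h : (X'.map (imap (QuotientGroup.mk' J))).map nwt =
      (X.map (imap (QuotientGroup.mk' J))).map nwt) :
    X'.map (cls N) = X.map (cls N) := by
  let q : Γ ⧸ J → Γ ⧸ N := Subgroup.quotientMapOfLE hJ
  let f : ((Γ ⧸ J) × (Γ ⧸ J)) ⊕ (Γ ⧸ J) → ((Γ ⧸ N) × (Γ ⧸ N)) ⊕ (Γ ⧸ N) :=
    Sum.map (Prod.map q q) q
  have e : ∀ i : It Γ k, cls N i = f (nwt (imap (QuotientGroup.mk' J) i)) := by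
    rintro (⟨⟨a, b⟩, o⟩ | y) <;> rfl
  have e2 : ∀ Y : List (It Γ k), Y.map (cls N) =
      ((Y.map (imap (QuotientGroup.mk' J))).map nwt).map f := by
    intro Y
    rw [List.map_map, List.map_map]
    exact List.map_congr_left fun i _ => e i
  rw [e2, e2, h]

/-- step (1): the conjugates of the handles -/
theorem Gnk_cj (hC : St_Cnk) (N : Subgroup Γ) [N.Normal] (X : List (It Γ k))
    (B : List (Hd Γ k)) (hg : ∀ h ∈ B, Good h) (hk : ∀ h ∈ B, Kl N h) (H : Subgroup Γ)
    (hH : ∀ (X' : List (It Γ k)) (B' : List (Hd Γ k)), IReach (X ++ hl B) (X' ++ hl B') →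
      X'.map (cls N) = X.map (cls N) →
      B'.length = B.length → (∀ h ∈ B', Good h) → (∀ h ∈ B', Kl N h) → SpQ.E B' ≤ H) :
    ∀ (m : ℕ) (B₁ B₂ : List (Hd Γ k)) (q : Hd Γ k), B₁.length = m → B = B₁ ++ q :: B₂ →
      ∀ v ∈ GI X, SpQ.E [cj1 v q] ≤ H := by
  intro m
  induction m using Nat.strong_induction_on with
  | _ m ih =>
  intro B₁ B₂ q hm hB v hv
  have h1 : ∀ p ∈ B₁, ∀ w ∈ GI X, SpQ.E [cj1 w p] ≤ H := by
    intro p hp w hw
    obtain ⟨C₁, C₂, rfl⟩ := List.append_of_mem hp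
    refine ih C₁.length ?_ C₁ (C₂ ++ q :: B₂) p rfl ?_ w hw
    · rw [← hm]
      simp
    · rw [hB]
      simp
  obtain ⟨c, hc, hr⟩ := SpQ.move_front B₁ q
  have hr2 : WReach B (cj1 c q :: (B₁ ++ B₂)) := by
    have := hr.right B₂
    rw [hB]
    simpa using this
  have hqB : q ∈ B := by
    rw [hB]
    simp
  have hgB : ∀ h ∈ B₁ ++ B₂, Good h := by
    intro h hh
    refine hg h ?_
    rw [hB]
    rcases List.mem_append.1 hh with hh | hh
    · exact List.mem_append_left _ hh
    · exact List.mem_append_right _ (List.mem_cons_of_mem _ hh)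
  have hkB : ∀ h ∈ B₁ ++ B₂, Kl N h := by
    intro h hh
    refine hk h ?_
    rw [hB]
    rcases List.mem_append.1 hh with hh | hh
    · exact List.mem_append_left _ hh
    · exact List.mem_append_right _ (List.mem_cons_of_mem _ hh)
  have hlen : (B₁ ++ B₂).length + 1 = B.length := by
    rw [hB]
    simp only [List.length_append, List.length_cons]
    omega
  have h2 : ∀ w ∈ GI X, SpQ.E [cj1 w (cj1 c q)] ≤ H := by
    refine hC Γ k N X (cj1 c q) H ((hk q hqB).cj1 c) ?_
    intro X' w hw hcl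
    have h3 : IReach (X ++ hl B) (X' ++ hl (cj1 w (cj1 c q) :: (B₁ ++ B₂))) := by
      have e1 : IReach (X ++ hl B) (X ++ hl (cj1 c q :: (B₁ ++ B₂))) :=
        (IReach.of_wreach hr2).left X
      have e2 := hw.right (hl (B₁ ++ B₂))
      refine e1.trans ?_
      rw [hl_cons, hl_cons]
      simpa using e2
    have h4 := hH X' (cj1 w (cj1 c q) :: (B₁ ++ B₂)) h3 hcl (by
      rw [List.length_cons, hlen]) (by
      intro h hh
      rcases List.mem_cons.1 hh with rfl | hh
      · exact ((hg q hqB).cj1 c).cj1 w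
      · exact hgB h hh) (by
      intro h hh
      rcases List.mem_cons.1 hh with rfl | hh
      · exact ((hk q hqB).cj1 c).cj1 w
      · exact hkB h hh)
    rw [SpQ.E_cons] at h4
    exact le_trans le_sup_left h4
  have h5 : v⁻¹ * c * v ∈ H := by
    have h6 : SpQ.E B₁ ≤ H.comap (MulAut.conj v⁻¹).toMonoidHom := by
      rw [SpQ.E_le]
      intro p hp
      have h7 := SpQ.E_singleton_le.1 (h1 p hp v hv)
      constructor
      · show MulAut.conj v⁻¹ p.1.1 ∈ H
        rw [MulAut.conj_apply, inv_inv]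
        exact h7.1
      · show MulAut.conj v⁻¹ p.1.2 ∈ H
        rw [MulAut.conj_apply, inv_inv]
        exact h7.2
    have h8 := h6 hc
    change MulAut.conj v⁻¹ c ∈ H at h8
    rwa [MulAut.conj_apply, inv_inv] at h8
  have h9 := SpQ.E_singleton_le.1 (h2 v hv)
  rw [SpQ.E_singleton_le]
  constructor
  · have := H.mul_mem (H.mul_mem h5 h9.1) (H.inv_mem h5)
    refine LGP.mem_word ?_ this
    simp only [cj1]
    group
  · have := H.mul_mem (H.mul_mem h5 h9.2) (H.inv_mem h5)
    refine LGP.mem_word ?_ this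
    simp only [cj1]
    group

end

/-- **GNK** -/
theorem thm_Gnk (hC : St_Cnk) (hS : St_Slk) (hL : St_Lif) : St_Gnk := by
  intro Γ _ k N _ X B hne hg hk hgen H hH
  have hcj : ∀ v ∈ GI X, ∀ q ∈ B, SpQ.E [cj1 v q] ≤ H := by
    intro v hv q hq
    obtain ⟨B₁, B₂, hB⟩ := List.append_of_mem hq
    exact Gnk_cj hC N X B hg hk H hH B₁.length B₁ B₂ q rfl hB v hv
  -- the group of the conjugates
  obtain ⟨J, hJn, hJH, hJN, hJE⟩ : ∃ J : Subgroup Γ, J.Normal ∧ J ≤ H ∧ J ≤ N ∧
      SpQ.E B ≤ J := by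
    refine ⟨_, Gno_normal X B hgen, ?_, ?_, ?_⟩
    · rw [Subgroup.closure_le]
      rintro z ⟨v, hv, q, hq, hz⟩
      have h3 := SpQ.E_singleton_le.1 (hcj v hv q hq)
      rcases hz with rfl | rfl
      · exact h3.1
      · exact h3.2
    · rw [Subgroup.closure_le]
      rintro z ⟨v, -, q, hq, hz⟩
      have h3 := (hk q hq).cj1 v
      rcases hz with rfl | rfl
      · exact h3.1
      · exact h3.2
    · rw [SpQ.E_le]
      intro q hq
      constructor
      · exact Subgroup.subset_closure ⟨1, Subgroup.one_mem _, q, hq, Or.inl (by group)⟩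
      · exact Subgroup.subset_closure ⟨1, Subgroup.one_mem _, q, hq, Or.inr (by group)⟩
  have h1 : N ⊓ GI X ≤ H := by
    intro u hu
    obtain ⟨huN, huX⟩ := Subgroup.mem_inf.1 hu
    obtain ⟨p, B₂, rfl⟩ := List.exists_cons_of_ne_nil hne
    obtain ⟨⟨a, b⟩, o⟩ := p
    have ho : o = (-1, 1) := hg ((a, b), o) (List.mem_cons_self)
    subst ho
    have ha : a ∈ J := hJE (SpQ.fst_mem_E (h := ((a, b), (-1, 1))) (List.mem_cons_self))
    have hb : b ∈ J := hJE (SpQ.snd_mem_E (h := ((a, b), (-1, 1))) (List.mem_cons_self))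
    have hfa : QuotientGroup.mk' J a = 1 := (QuotientGroup.eq_one_iff a).2 ha
    have hfb : QuotientGroup.mk' J b = 1 := (QuotientGroup.eq_one_iff b).2 hb
    obtain ⟨X', t, hX', hnw⟩ := hS (Γ ⧸ J) k (X.map (imap (QuotientGroup.mk' J))) 1 (-1, 1)
      (QuotientGroup.mk' J u) (Gno_map _ X huX)
    have e1 : (X ++ [Sum.inl ((a, b), ((-1 : ZMod k), (1 : ZMod k)))]).map
        (imap (QuotientGroup.mk' J)) = X.map (imap (QuotientGroup.mk' J)) ++
          [Sum.inl (((1 : Γ ⧸ J), (1 : Γ ⧸ J)), ((-1 : ZMod k), (1 : ZMod k)))] := by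
      rw [List.map_append]
      simp only [List.map_cons, List.map_nil, imap]
      rw [hfa, hfb]
    rw [← e1] at hX'
    obtain ⟨X'', hr, hX''⟩ := hL Γ (Γ ⧸ J) k _ _ _ hX'
    obtain ⟨X₁, s, rfl, hX₁, hs⟩ := List.map_eq_append_iff.1 hX''
    obtain ⟨i, s', rfl, hi, hs'⟩ := List.map_eq_cons_iff.1 hs
    rw [List.map_eq_nil_iff] at hs'
    subst hs'
    obtain ⟨a', y, rfl, ha', hy⟩ := Lif_inl _ i _ _ _ hi
    have ha'J : a' ∈ J := (QuotientGroup.eq_one_iff a').1 ha'
    have hyJ : u⁻¹ * y ∈ J := by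
      rw [mul_one] at hy
      exact (QuotientGroup.eq (s := J)).1 hy.symm
    have hyN : y ∈ N := by
      have := N.mul_mem huN (hJN hyJ)
      exact LGP.mem_word (by group) this
    obtain ⟨y', hy'⟩ := SpQ.good_of_neg_one a' y t
    have hE := hy'.E_eq
    have hkl : Kl N (((a', y'), ((-1 : ZMod k), (1 : ZMod k))) : Hd Γ k) := by
      rw [Kl_iff, hE, ← Kl_iff]
      exact ⟨hJN ha'J, hyN⟩
    have h3 : IReach (X ++ hl (((a, b), ((-1 : ZMod k), (1 : ZMod k))) :: B₂))
        (X₁ ++ hl (((a', y'), ((-1 : ZMod k), (1 : ZMod k))) :: B₂)) := by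
      have r1 := hr.right (hl B₂)
      have r2 := IReach.of_wreach' hy' X₁ (hl B₂)
      rw [hl_cons, hl_cons]
      refine IReach.trans ?_ r2
      simpa [hl] using r1
    have hcl : X₁.map (cls N) = X.map (cls N) := by
      refine cls_of_nwt hJN ?_
      rw [hX₁, hnw]
    have h4 := hH X₁ (((a', y'), ((-1 : ZMod k), (1 : ZMod k))) :: B₂) h3 hcl (by simp) (by
      intro h hh
      rcases List.mem_cons.1 hh with rfl | hh
      · exact rfl
      · exact hg h (List.mem_cons_of_mem _ hh)) (by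
      intro h hh
      rcases List.mem_cons.1 hh with rfl | hh
      · exact hkl
      · exact hk h (List.mem_cons_of_mem _ hh))
    rw [SpQ.E_cons, hE] at h4
    have hyH : y ∈ H := (SpQ.E_singleton_le.1 (le_trans le_sup_left h4)).2
    have := H.mul_mem hyH (H.inv_mem (hJH hyJ))
    exact LGP.mem_word (by group) this
  have h5 := grp X B hk H h1 hcj
  rwa [hgen, inf_top_eq] at h5

end Pool.Agent.LGC
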