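import Pool.Agent.LGC.Csp

/-!
# Growth of the cyclic module of the killed handles, half the number of handles

Helper35, for MP_0707f5_ag (Theorem C with the bound `2 r K < h`).  A handle is spare if the module
generated by the subspace `cyc R w (E P)`, which has been reached, is already generated without it.
-/

set_option autoImplicit false

namespace Pool.Agent.LGC

open Module Helper12.Sc
open SpQ (Hd WStep WReach WExt Good bare bd cj1)
open LGP (cyc stb)

/-- **GRW2**.  In a suitable system the killed good handles generate the cyclic module. -/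
def St_Grw2 : Prop := ∀ (K U Γ : Type) [Field K] [AddCommGroup U] [Module K U] [Group Γ]
    [FiniteDimensional K U] (k : ℕ) (N : Subgroup Γ) [N.Normal] (R : N →* Module.End K U) (w : U)
    (X : List (It Γ k)) (B : List (Hd Γ k)), (∀ h ∈ B, Good h) → (∀ h ∈ B, Kl N h) →
    cyc R w ((GI (X ++ hl B)).subgroupOf N) = cyc R w ⊤ →
    finrank K (cyc R w ⊤) ≤ B.length →
    ∃ (X' : List (It Γ k)) (B' : List (Hd Γ k)), IReach (X ++ hl B) (X' ++ hl B') ∧
      X'.map (cls N) = X.map (cls N) ∧ B'.length = B.length ∧ (∀ h ∈ B', Good h) ∧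
      (∀ h ∈ B', Kl N h) ∧ cyc R w ((SpQ.E B').subgroupOf N) = cyc R w ⊤

section
variable {K U Γ : Type} [Field K] [AddCommGroup U] [Module K U] [Group Γ] {k : ℕ}

/-- the cyclic module of the group of a list of handles -/
private def Qm (N : Subgroup Γ) (R : N →* Module.End K U) (w : U) (P : List (Hd Γ k)) :
    Submodule K U := cyc R w ((SpQ.E P).subgroupOf N)

variable {N : Subgroup Γ} {R : N →* Module.End K U} {w : U}

private theorem Qm_self (P : List (Hd Γ k)) : w ∈ Qm N R w P := LGP.self_mem_cyc _ _ _

private theorem Qm_mono {P P' : List (Hd Γ k)} (h : SpQ.E P ≤ SpQ.E P') :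
    Qm N R w P ≤ Qm N R w P' :=
  LGP.cyc_mono R w (Subgroup.comap_mono h)

private theorem Qm_le (P : List (Hd Γ k)) : Qm N R w P ≤ cyc R w ⊤ :=
  LGP.cyc_mono R w le_top

private theorem Grw2_main (hA : St_All) (hG : St_Gek) [FiniteDimensional K U]
    [N.Normal] (X : List (It Γ k)) (B : List (Hd Γ k)) (hgood : ∀ h ∈ B, Good h)
    (hkl : ∀ h ∈ B, Kl N h) (hcyc : cyc R w ((GI (X ++ hl B)).subgroupOf N) = cyc R w ⊤)
    (hlen : finrank K (cyc R w ⊤) ≤ B.length) :
    ∃ (X' : List (It Γ k)) (B' : List (Hd Γ k)), IReach (X ++ hl B) (X' ++ hl B') ∧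
      X'.map (cls N) = X.map (cls N) ∧ B'.length = B.length ∧ (∀ h ∈ B', Good h) ∧
      (∀ h ∈ B', Kl N h) ∧ cyc R w ((SpQ.E B').subgroupOf N) = cyc R w ⊤ := by
  by_cases hw : w = 0
  · refine ⟨X, B, IReach.refl _, rfl, rfl, hgood, hkl, ?_⟩
    have hz : ∀ H : Subgroup N, cyc R w H = ⊥ := by
      intro H
      rw [eq_bot_iff]
      unfold LGP.cyc
      rw [Submodule.span_le]
      rintro _ ⟨x, _, rfl⟩
      show R x w ∈ (⊥ : Submodule K U)
      rw [hw, map_zero]
      exact Submodule.zero_mem _
    rw [hz, hz]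
  -- the module of a subspace of the cyclic module
  have hcs : ∀ (S : Submodule K U) (H : Subgroup N), S ≤ cyc R w ⊤ →
      cs R S H ≤ cyc R w ⊤ := fun S H hS =>
    cs_le hS (le_trans le_top (LGP.le_stb_cyc _))
  have main : ∀ m : ℕ, m < finrank K (cyc R w (⊤ : Subgroup N)) →
      ∃ (X' : List (It Γ k)) (B' P : List (Hd Γ k)), IReach (X ++ hl B) (X' ++ hl (B' ++ P)) ∧
        X'.map (cls N) = X.map (cls N) ∧
        (∀ h ∈ B' ++ P, Good h) ∧ (∀ h ∈ B' ++ P, Kl N h) ∧ B'.length + P.length = B.length ∧
        (Qm N R w P = cyc R w ⊤ ∨ (P.length = m ∧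
          cs R (Qm N R w P) ((GI (X' ++ hl B')).subgroupOf N) = cyc R w ⊤ ∧
          m + 1 ≤ finrank K (Qm N R w P))) := by
    intro m
    induction m with
    | zero =>
      intro _
      refine ⟨X, B, [], by simpa using IReach.refl _, rfl, by simpa using hgood,
        by simpa using hkl, by simp, Or.inr ⟨rfl, ?_, ?_⟩⟩
      · refine le_antisymm (hcs _ _ (Qm_le _)) ?_
        rw [← hcyc]
        exact cyc_le_cs (Qm_self _)
      · have h1 : Qm N R w ([] : List (Hd Γ k)) ≠ ⊥ := by
          intro h
          have := Qm_self (N := N) (R := R) (w := w) ([] : List (Hd Γ k))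
          rw [h, Submodule.mem_bot] at this
          exact hw this
        have h2 := Submodule.one_le_finrank_iff.2 h1
        simpa using h2
    | succ m ih =>
      intro hm
      obtain ⟨X', B', P, hr, hcl, hBg, hBk, hBlen', hdone | ⟨hPlen, hcy, hdim⟩⟩ := ih (by omega)
      · exact ⟨X', B', P, hr, hcl, hBg, hBk, hBlen', Or.inl hdone⟩
      have hBlen : finrank K (cyc R w (⊤ : Subgroup N)) + 1 ≤
          finrank K (Qm N R w P) + B'.length := by omega
      have hBne : B' ≠ [] := by
        intro h0'
        rw [h0', List.length_nil] at hBlen'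
        omega
      by_cases hst : ∃ (X'' : List (It Γ k)) (B₁ : List (Hd Γ k)) (p : Hd Γ k),
          IReach (X' ++ hl B') (X'' ++ hl (B₁ ++ [p])) ∧ X''.map (cls N) = X'.map (cls N) ∧
          (∀ h ∈ B₁ ++ [p], Good h) ∧
          (∀ h ∈ B₁ ++ [p], Kl N h) ∧ B₁.length + 1 = B'.length ∧
          cs R (Qm N R w P) ((GI (X'' ++ hl B₁)).subgroupOf N) = cyc R w ⊤ ∧
          Qm N R w ([p] ++ P) ≠ Qm N R w P
      · obtain ⟨X'', B₁, p, h1, hc1, hg1, hk1, hl1, h2, h3⟩ := hst
        have h4 : Qm N R w P ≤ Qm N R w ([p] ++ P) := by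
          refine Qm_mono ?_
          rw [SpQ.E_append]
          exact le_sup_right
        refine ⟨X'', B₁, [p] ++ P, ?_, hc1.trans hcl, ?_, ?_, ?_, Or.inr ⟨by simp [hPlen], ?_, ?_⟩⟩
        · refine hr.trans ?_
          have h4 := h1.right (hl P)
          have e1 : X' ++ hl B' ++ hl P = X' ++ hl (B' ++ P) := by
            rw [hl_append, List.append_assoc]
          have e2 : X'' ++ hl (B₁ ++ [p]) ++ hl P = X'' ++ hl (B₁ ++ ([p] ++ P)) := by
            rw [hl_append, hl_append, hl_append, List.append_assoc, List.append_assoc]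
          rwa [e1, e2] at h4
        · intro h hh
          rw [← List.append_assoc] at hh
          rcases List.mem_append.1 hh with h5 | h5
          · exact hg1 h h5
          · exact hBg h (List.mem_append_right _ h5)
        · intro h hh
          rw [← List.append_assoc] at hh
          rcases List.mem_append.1 hh with h5 | h5
          · exact hk1 h h5
          · exact hBk h (List.mem_append_right _ h5)
        · simp only [List.length_append, List.length_singleton]
          omega
        · refine le_antisymm (hcs _ _ (Qm_le _)) ?_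
          rw [← h2]
          exact cs_mono' h4
        · have h5 := Submodule.finrank_lt_finrank_of_lt (lt_of_le_of_ne h4 (Ne.symm h3))
          omega
      · push Not at hst
        refine ⟨X', B', P, hr, hcl, hBg, hBk, hBlen', Or.inl ?_⟩
        have hkB' : ∀ h ∈ B', Kl N h := fun h hh => hBk h (List.mem_append_left _ hh)
        have hgB' : ∀ h ∈ B', Good h := fun h hh => hBg h (List.mem_append_left _ hh)
        have key : N ⊓ GI (X' ++ hl B') ≤ sg R (Qm N R w P) := by
          refine hG Γ k N X' B' hBne hgB' hkB' _ ?_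
          intro X'' B'' hr' hcl' hlen' hg' hk'
          have hEN : SpQ.E B'' ≤ N := Kl_list.1 hk'
          have hGI : GI (X'' ++ hl B'') = GI (X' ++ hl B') := hr'.GI_eq
          refine hA Γ k (fun G => cs R (Qm N R w P) ((GI X'' ⊔ G).subgroupOf N) = cyc R w ⊤) B''
            (sg R (Qm N R w P)) hg' ?_ ?_
          · intro B₃ hw3 hg3
            have hE3 : SpQ.E B₃ = SpQ.E B'' := hw3.E_eq
            have hk3 : ∀ h ∈ B₃, Kl N h := Kl_list.2 (by rw [hE3]; exact hEN)
            have hGI3 : GI (X'' ++ hl B₃) = GI (X' ++ hl B') := by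
              rw [GI_append_hl, hE3, ← GI_append_hl, hGI]
            have hlen3 : B₃.length = B''.length := hw3.length_eq
            obtain ⟨s, p, t, h1, h2⟩ := non2 N R (Qm N R w P) X'' B₃ hk3 (by
              rw [hGI3, hcy, hlen3, hlen']
              exact hBlen)
            refine ⟨s, p, t, h1, ?_⟩
            show cs R (Qm N R w P) ((GI X'' ⊔ SpQ.E (s ++ t)).subgroupOf N) = cyc R w ⊤
            rw [← GI_append_hl, h2, hGI3, hcy]
          · intro B₃ p hw3 hg3 hfull
            have hfull' : cs R (Qm N R w P) ((GI X'' ⊔ SpQ.E B₃).subgroupOf N) =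
              cyc R w ⊤ := hfull
            have hE3 : SpQ.E (B₃ ++ [p]) = SpQ.E B'' := hw3.E_eq
            have hk3 : ∀ h ∈ B₃ ++ [p], Kl N h := Kl_list.2 (by rw [hE3]; exact hEN)
            have hlen3 : (B₃ ++ [p]).length = B''.length := hw3.length_eq
            have h3 := hst X'' B₃ p
              (hr'.trans (by
                have h4 := IReach.of_wreach' hw3 X'' []
                rwa [List.append_nil, List.append_nil] at h4)) hcl' hg3 hk3
              (by
                rw [List.length_append, List.length_singleton] at hlen3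
                rw [hlen3, hlen']) (by rw [GI_append_hl]; exact hfull')
            have hkp : Kl N p := hk3 p (by simp)
            -- all elements of the group of `p` stabilise the module
            have hEp : SpQ.E [p] ≤ N := Kl_iff.1 hkp
            intro x hx
            refine ⟨⟨x, hEp hx⟩, ?_, rfl⟩
            have h5 := LGP.le_stb_cyc (R := R) (w := w) ((SpQ.E ([p] ++ P)).subgroupOf N)
            have h6 : (⟨x, hEp hx⟩ : N) ∈ (SpQ.E ([p] ++ P)).subgroupOf N := by
              show x ∈ SpQ.E ([p] ++ P)
              rw [SpQ.E_append]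
              exact (le_sup_left : SpQ.E [p] ≤ _) hx
            have h7 := h5 h6
            have h8 : cyc R w ((SpQ.E ([p] ++ P)).subgroupOf N) = Qm N R w P := h3
            rwa [h8] at h7
        refine le_antisymm (Qm_le P) ?_
        rw [← hcy]
        exact cs_le le_rfl (subgroupOf_le_stb R _ _ key)
  have hpos : 0 < finrank K (cyc R w (⊤ : Subgroup N)) := by
    have h1 : cyc R w (⊤ : Subgroup N) ≠ ⊥ := by
      intro h
      have := LGP.self_mem_cyc R w (⊤ : Subgroup N)
      rw [h, Submodule.mem_bot] at this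
      exact hw this
    exact Submodule.one_le_finrank_iff.2 h1
  obtain ⟨X', B', P, hr, hcl, hBg, hBk, hBlen, hdone⟩ :=
    main (finrank K (cyc R w (⊤ : Subgroup N)) - 1) (by omega)
  have h2 : Qm N R w P = cyc R w ⊤ := by
    rcases hdone with h | ⟨-, -, hdim⟩
    · exact h
    · exact Submodule.eq_of_le_of_finrank_le (Qm_le P) (by omega)
  refine ⟨X', B' ++ P, hr, hcl, by rw [List.length_append]; exact hBlen, hBg, hBk, ?_⟩
  refine le_antisymm (LGP.cyc_mono R w le_top) ?_
  rw [← h2]
  refine Qm_mono ?_
  rw [SpQ.E_append]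
  exact le_sup_right

end

theorem thm_Grw2 (hA : St_All) (hG : St_Gek) : St_Grw2 := by
  intro K U Γ _ _ _ _ _ k N _ R w X B hgood hkl hcyc hlen
  exact Grw2_main hA hG X B hgood hkl hcyc hlen

end Pool.Agent.LGC
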