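import Pool.Agent.LGC.Defs
import Pool.Agent.LGP.Dsc

/-!
# LGC, Mci: the inverse of a mapping class is a mapping class
-/

set_option autoImplicit false

namespace Pool.Agent.LGC

theorem thm_Mci : St_Mci := by
  intro g n φ hφ
  refine ⟨?_, fun j => LGP.Dsc_inv hφ j⟩
  have h := (φ⁻¹).toMonoidHom.map_isConj hφ.1
  have e : ∀ y, (φ⁻¹).toMonoidHom (φ y) = y := fun y => φ.symm_apply_apply y
  rw [e] at h
  exact h.symm

end Pool.Agent.LGC
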