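import Pool.Agent.LGC.Defs

/-!
# SIM: moves of items are moves of tuples (handles, punctures)

Helper32, for MP_0707f5_ag (statement of helper21, `LGC.St_Sim`).
-/

set_option autoImplicit false

namespace Pool.Agent.LGC

open Matrix Module Helper12.Sc
open SpQ (Hd WStep WReach WExt Good bare bd cj1 IsSpinStructure)
open LGP (F ga gb gx x0 MC NS MR stdL stdM dstd wty prj cyc)

section
variable {Γ : Type} [Group Γ] {k : ℕ}

/-- conjugation of punctures -/
private def Sim_c (c : Γ) (M : List Γ) : List Γ := M.map fun x => c⁻¹ * x * c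

/-- conjugation of handles -/
private def Sim_h (c : Γ) (L : List (Γ × Γ)) : List (Γ × Γ) :=
  L.map fun p => (c⁻¹ * p.1 * c, c⁻¹ * p.2 * c)

private theorem Sim_comm_append (A B : List (Γ × Γ)) : comm (A ++ B) = comm A * comm B := by
  simp [Helper12.Sc.comm]

private theorem Sim_comm_one (a b : Γ) : comm [(a, b)] = a * b * a⁻¹ * b⁻¹ := by
  simp [Helper12.Sc.comm]

private theorem Sim_comm_nil : comm ([] : List (Γ × Γ)) = 1 := by
  simp [Helper12.Sc.comm]

private theorem Sim_app (X Z : List (It Γ k)) :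
    sim (X ++ Z) = ((sim X).1 ++ (sim Z).1, Sim_c (comm (sim Z).1) (sim X).2 ++ (sim Z).2) := by
  induction X with
  | nil => simp [sim, Sim_c]
  | cons i X ih =>
    cases i with
    | inl h =>
      rw [List.cons_append, sim, ih]
      rfl
    | inr y =>
      rw [List.cons_append, sim, ih, sim]
      simp only [Sim_comm_append, Sim_c, List.map_cons, List.cons_append, Prod.mk.injEq,
        List.cons.injEq, true_and, and_true]
      group

private theorem Sim_symm {t t' : List (Γ × Γ) × List Γ} (h : MR t t') : MR t' t := by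
  induction h with
  | refl => exact Relation.ReflTransGen.refl
  | tail _ hs ih => exact Relation.ReflTransGen.head hs.symm ih

private theorem Sim_trans {t t' t'' : List (Γ × Γ) × List Γ} (h : MR t t') (h' : MR t' t'') :
    MR t t'' := Relation.ReflTransGen.trans h h'

/-- a puncture moves to the left over a list of punctures -/
private theorem Sim_one (L : List (Γ × Γ)) (R P : List Γ) (z : Γ) :
    ∀ S : List Γ, MR (L, R ++ (P ++ z :: S)) (L, R ++ (z :: (Sim_c z P ++ S))) := by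
  induction P using List.reverseRecOn with
  | nil => intro S; exact Relation.ReflTransGen.refl
  | append_singleton P y ih =>
    intro S
    have h1 := LGP.Mv.sw L (R ++ P) S y z
    have h2 := ih (z⁻¹ * y * z :: S)
    have e1 : R ++ ((P ++ [y]) ++ z :: S) = (R ++ P) ++ y :: z :: S := by simp
    have e2 : (R ++ P) ++ z :: (z⁻¹ * y * z) :: S = R ++ (P ++ z :: (z⁻¹ * y * z :: S)) := by simp
    have e3 : R ++ (z :: (Sim_c z (P ++ [y]) ++ S)) =
        R ++ (z :: (Sim_c z P ++ (z⁻¹ * y * z :: S))) := by simp [Sim_c]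
    rw [e1, e3]
    rw [e2] at h1
    exact Relation.ReflTransGen.head h1 h2

private theorem Sim_c_c (m z : Γ) (P : List Γ) : Sim_c m (Sim_c z P) = Sim_c (z * m) P := by
  unfold Sim_c
  rw [List.map_map]
  apply List.map_congr_left
  intro x _
  simp only [Function.comp_apply]
  group

private theorem Sim_c_one (P : List Γ) : Sim_c 1 P = P := by
  unfold Sim_c
  simp

/-- a list of punctures moves over another one -/
private theorem Sim_mov (L : List (Γ × Γ)) (M S : List Γ) :
    ∀ R P : List Γ, MR (L, R ++ (P ++ (M ++ S))) (L, R ++ (M ++ (Sim_c M.prod P ++ S))) := by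
  induction M with
  | nil =>
    intro R P
    rw [List.prod_nil, Sim_c_one]
    exact Relation.ReflTransGen.refl
  | cons z M ih =>
    intro R P
    have h1 := Sim_one L R P z (M ++ S)
    have h2 := ih (R ++ [z]) (Sim_c z P)
    rw [Sim_c_c] at h2
    have e1 : (R ++ [z]) ++ (Sim_c z P ++ (M ++ S)) = R ++ (z :: (Sim_c z P ++ (M ++ S))) := by
      simp
    have e2 : (R ++ [z]) ++ (M ++ (Sim_c (z * M.prod) P ++ S)) =
        R ++ ((z :: M) ++ (Sim_c (z :: M).prod P ++ S)) := by simp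
    rw [e1, e2] at h2
    exact Sim_trans h1 h2

/-- handles on the left, punctures on the right -/
private theorem Sim_ctx1 {t t' : List (Γ × Γ) × List Γ} (h : LGP.Mv t t') (A : List (Γ × Γ))
    (Q : List Γ) : LGP.Mv (A ++ t.1, t.2 ++ Q) (A ++ t'.1, t'.2 ++ Q) := by
  cases h with
  | st L L' M h => exact LGP.Mv.st _ _ _ (by simpa using h.context A [])
  | ab L a b y M => simpa using LGP.Mv.ab (A ++ L) a b y (M ++ Q)
  | ab' L a b y M => simpa using LGP.Mv.ab' (A ++ L) a b y (M ++ Q)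
  | sw L P S y z => simpa using LGP.Mv.sw (A ++ L) P (S ++ Q) y z
  | sw' L P S y z => simpa using LGP.Mv.sw' (A ++ L) P (S ++ Q) y z

private theorem Sim_ctx2 {t t' : List (Γ × Γ) × List Γ} (h : MR t t') (A : List (Γ × Γ))
    (Q : List Γ) : MR (A ++ t.1, t.2 ++ Q) (A ++ t'.1, t'.2 ++ Q) := by
  induction h with
  | refl => exact Relation.ReflTransGen.refl
  | tail _ hs ih => exact Relation.ReflTransGen.tail ih (Sim_ctx1 hs A Q)

private theorem Sim_inv {t t' : List (Γ × Γ) × List Γ} (h : MR t t') :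
    comm t'.1 * t'.2.prod = comm t.1 * t.2.prod := by
  induction h with
  | refl => rfl
  | tail _ hs ih => rw [hs.comm_eq, ih]

/-- items on the left -/
private theorem Sim_left {t t' : List (Γ × Γ) × List Γ} (h : MR t t') (A : List (Γ × Γ))
    (P : List Γ) : MR (A ++ t.1, Sim_c (comm t.1) P ++ t.2) (A ++ t'.1, Sim_c (comm t'.1) P ++ t'.2) := by
  have key : ∀ s : List (Γ × Γ) × List Γ, MR (A ++ s.1, Sim_c (comm s.1) P ++ s.2)
      (A ++ s.1, s.2 ++ Sim_c (comm s.1 * s.2.prod) P) := by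
    intro s
    have h1 := Sim_mov (A ++ s.1) s.2 [] [] (Sim_c (comm s.1) P)
    rw [Sim_c_c] at h1
    simpa using h1
  have h2 := Sim_ctx2 h A (Sim_c (comm t.1 * t.2.prod) P)
  have h3 := key t'
  rw [Sim_inv h] at h3
  exact Sim_trans (key t) (Sim_trans h2 (Sim_symm h3))

/-- a handle moves to the left -/
private theorem Sim_h1 (A H : List (Γ × Γ)) (c d : Γ) :
    ∀ S, Reach (A ++ (H ++ (c, d) :: S)) (A ++ ((c, d) :: (Sim_h (comm [(c, d)]) H ++ S))) := by
  induction H using List.reverseRecOn with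
  | nil => intro S; exact Relation.ReflTransGen.refl
  | append_singleton H p ih =>
    intro S
    obtain ⟨a, b⟩ := p
    have h1 := Step.br' (A ++ H) S a b c d
    rw [← Sim_comm_one] at h1
    have h2 := ih (((comm [(c, d)])⁻¹ * a * comm [(c, d)], (comm [(c, d)])⁻¹ * b * comm [(c, d)]) :: S)
    have e1 : A ++ ((H ++ [(a, b)]) ++ (c, d) :: S) = (A ++ H) ++ (a, b) :: (c, d) :: S := by simp
    have e3 : A ++ ((c, d) :: (Sim_h (comm [(c, d)]) (H ++ [(a, b)]) ++ S)) =
        A ++ ((c, d) :: (Sim_h (comm [(c, d)]) H ++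
          (((comm [(c, d)])⁻¹ * a * comm [(c, d)],
            (comm [(c, d)])⁻¹ * b * comm [(c, d)]) :: S))) := by simp [Sim_h]
    rw [e1, e3]
    rw [List.append_assoc A H ((c, d) :: _ :: S)] at h1
    exact Relation.ReflTransGen.head h1 h2

private theorem Sim_h_h (m z : Γ) (H : List (Γ × Γ)) : Sim_h m (Sim_h z H) = Sim_h (z * m) H := by
  unfold Sim_h
  rw [List.map_map]
  apply List.map_congr_left
  rintro ⟨x, y⟩ _
  simp only [Function.comp_apply, Prod.mk.injEq]
  constructor <;> group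

private theorem Sim_h2 (L : List (Γ × Γ)) :
    ∀ A H : List (Γ × Γ), Reach (A ++ (H ++ L)) (A ++ (L ++ Sim_h (comm L) H)) := by
  induction L with
  | nil =>
    intro A H
    have : Sim_h (comm []) H = H := by simp [Sim_h, Helper12.Sc.comm]
    rw [this, List.append_nil, List.nil_append]
    exact Reach.refl _
  | cons p L ih =>
    intro A H
    obtain ⟨c, d⟩ := p
    have h1 := Sim_h1 A H c d L
    have h2 := ih (A ++ [(c, d)]) (Sim_h (comm [(c, d)]) H)
    rw [Sim_h_h, ← Sim_comm_append] at h2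
    have e1 : (A ++ [(c, d)]) ++ (Sim_h (comm [(c, d)]) H ++ L) =
      A ++ ((c, d) :: (Sim_h (comm [(c, d)]) H ++ L)) := by simp
    have e2 : (A ++ [(c, d)]) ++ (L ++ Sim_h (comm ([(c, d)] ++ L)) H) =
      A ++ (((c, d) :: L) ++ Sim_h (comm ((c, d) :: L)) H) := by simp
    rw [e1, e2] at h2
    exact Reach.trans h1 h2

private theorem Sim_st {L L' : List (Γ × Γ)} (h : Reach L L') (M : List Γ) :
    MR (L, M) (L', M) := by
  induction h with
  | refl => exact Relation.ReflTransGen.refl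
  | tail _ hs ih => exact Relation.ReflTransGen.tail ih (LGP.Mv.st _ _ M hs)

private theorem Sim_conj {t t' : List (Γ × Γ) × List Γ} (h : MR t t') (c : Γ) :
    MR (Sim_h c t.1, Sim_c c t.2) (Sim_h c t'.1, Sim_c c t'.2) := by
  have e : ∀ s : List (Γ × Γ) × List Γ,
      LGP.Aut_mp (MulAut.conj c⁻¹).toMonoidHom s = (Sim_h c s.1, Sim_c c s.2) := by
    intro s
    unfold LGP.Aut_mp Sim_h Sim_c
    refine Prod.ext ?_ ?_
    · apply List.map_congr_left
      rintro ⟨x, y⟩ _
      simp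
    · apply List.map_congr_left
      intro x _
      simp
  induction h with
  | refl => exact Relation.ReflTransGen.refl
  | tail _ hs ih =>
    have h1 := LGP.Mv.map (MulAut.conj c⁻¹).toMonoidHom hs
    rw [e, e] at h1
    exact Relation.ReflTransGen.tail ih h1

/-- items on the right -/
private theorem Sim_right {t t' : List (Γ × Γ) × List Γ} (h : MR t t') (L : List (Γ × Γ))
    (M : List Γ) : MR (t.1 ++ L, Sim_c (comm L) t.2 ++ M) (t'.1 ++ L, Sim_c (comm L) t'.2 ++ M) := by
  have key : ∀ s : List (Γ × Γ) × List Γ, MR (s.1 ++ L, Sim_c (comm L) s.2 ++ M)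
      (L ++ Sim_h (comm L) s.1, Sim_c (comm L) s.2 ++ M) := by
    intro s
    have h1 := Sim_h2 L [] s.1
    exact Sim_st h1 _
  have h2 := Sim_ctx2 (Sim_conj h (comm L)) L M
  exact Sim_trans (key t) (Sim_trans h2 (Sim_symm (key t')))

/-- the full twist of a handle and a puncture -/
private theorem Sim_ft (a b y : Γ) : MR ([(a, b)], [y])
    ([(y⁻¹ * a * y, y⁻¹ * b * y)], [y⁻¹ * (a * b * a⁻¹ * b⁻¹)⁻¹ * y * (a * b * a⁻¹ * b⁻¹) * y]) := by
  have h1 := LGP.Mv.ab [] a b y []
  have h2 := fun Y => LGP.Mv.st _ _ Y (Step.rot [] [] a (y⁻¹ * b))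
  have h3 := fun Y => LGP.Mv.st _ _ Y (Step.rot [] [] (y⁻¹ * b)⁻¹ (y⁻¹ * b * a * (y⁻¹ * b)⁻¹))
  have h4 := LGP.Mv.ab [] (y⁻¹ * b * a * (y⁻¹ * b)⁻¹)⁻¹
    (y⁻¹ * b * a * (y⁻¹ * b)⁻¹ * (y⁻¹ * b)⁻¹ * (y⁻¹ * b * a * (y⁻¹ * b)⁻¹)⁻¹)
    ((a * (y⁻¹ * b) * a⁻¹ * (y⁻¹ * b)⁻¹)⁻¹ * (a * y * a⁻¹) *
          (a * (y⁻¹ * b) * a⁻¹ * (y⁻¹ * b)⁻¹)) []
  have h5 := fun (p q : Γ) Y => LGP.Mv.st _ _ Y (Step.rot' [] [] p q)
  have h := (((((Relation.ReflTransGen.single h1).tail (h2 _)).tail (h3 _)).tail h4).tail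
    (h5 _ _ _)).tail (h5 _ _ _)
  have e : ∀ {s t t' : List (Γ × Γ) × List Γ}, t = t' → MR s t → MR s t' := by
    intro s t t' h h'
    rw [← h]
    exact h'
  refine e ?_ h
  simp only [List.nil_append, Prod.mk.injEq, List.cons.injEq, and_true]
  refine ⟨⟨?_, ?_⟩, ?_⟩ <;> group

/-- the core of an elementary move -/
private theorem Sim_eq {t t' : List (Γ × Γ) × List Γ} (h : t = t') : MR t t' := by
  rw [h]
  exact Relation.ReflTransGen.refl

private theorem Sim_hl (L : List (Hd Γ k)) : sim (hl L) = (bare L, []) := by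
  induction L with
  | nil => rfl
  | cons h L ih =>
    show sim (Sum.inl h :: hl L) = _
    rw [sim, ih]
    rfl

private theorem Sim_br (i j : It Γ k) : MR (sim [i, j]) (sim [icj (ib i)⁻¹ j, i]) := by
  rcases i with ⟨⟨a, b⟩, o⟩ | y <;> rcases j with ⟨⟨c, d⟩, o'⟩ | z
  · have h := LGP.Mv.st _ _ [] (Step.br [] [] a b c d)
    refine Sim_trans (Relation.ReflTransGen.single h) (Sim_eq ?_)
    simp only [sim, icj, ib, cj1, bd, inv_inv, List.nil_append]
  · apply Sim_eq
    simp only [sim, icj, ib, bd, inv_inv, Sim_comm_one, Sim_comm_nil, Prod.mk.injEq,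
      List.cons.injEq, and_true, true_and]
    group
  · have h := Sim_ft (y * c * y⁻¹) (y * d * y⁻¹) y
    refine Sim_trans (Sim_eq ?_) (Sim_trans (Sim_symm h) (Sim_eq ?_))
    · simp only [sim, Sim_comm_one, Prod.mk.injEq, List.cons.injEq, and_true, true_and]
      refine ⟨⟨?_, ?_⟩, ?_⟩ <;> group
    · simp only [sim, icj, ib, cj1, inv_inv, Sim_comm_nil, _root_.inv_one, one_mul, mul_one]
  · have h := LGP.Mv.sw' [] [] [] y z
    refine Sim_trans (Sim_eq ?_) (Sim_trans (Relation.ReflTransGen.single h) (Sim_eq ?_))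
    · simp [sim, Helper12.Sc.comm]
    · simp [sim, Helper12.Sc.comm, icj, ib]

private theorem Sim_br' (i j : It Γ k) : MR (sim [i, j]) (sim [j, icj (ib j) i]) := by
  rcases i with ⟨⟨a, b⟩, o⟩ | y <;> rcases j with ⟨⟨c, d⟩, o'⟩ | z
  · have h := LGP.Mv.st _ _ [] (Step.br' [] [] a b c d)
    refine Sim_trans (Relation.ReflTransGen.single h) (Sim_eq ?_)
    simp only [sim, icj, ib, cj1, bd, List.nil_append]
  · have h := Sim_ft a b z
    refine Sim_trans (Sim_eq ?_) (Sim_trans h (Sim_eq ?_))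
    · simp [sim, Helper12.Sc.comm]
    · simp only [sim, icj, ib, cj1, Sim_comm_one, Prod.mk.injEq, List.cons.injEq, and_true,
        true_and]
      group
  · apply Sim_eq
    simp only [sim, icj, ib, bd, Sim_comm_one, Sim_comm_nil, Prod.mk.injEq, List.cons.injEq,
      and_true, true_and]
    group
  · have h := LGP.Mv.sw [] [] [] y z
    refine Sim_trans (Sim_eq ?_) (Sim_trans (Relation.ReflTransGen.single h) (Sim_eq ?_))
    · simp [sim, Helper12.Sc.comm]
    · simp [sim, Helper12.Sc.comm, icj, ib]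

/-- an elementary move in context -/
private theorem Sim_ctx (X Y C C' : List (It Γ k)) (h : MR (sim C) (sim C')) :
    MR (sim (X ++ (C ++ Y))) (sim (X ++ (C' ++ Y))) := by
  have h1 : MR (sim (C ++ Y)) (sim (C' ++ Y)) := by
    rw [Sim_app, Sim_app]
    exact Sim_right h (sim Y).1 (sim Y).2
  rw [Sim_app X, Sim_app X]
  exact Sim_left h1 (sim X).1 (sim X).2

private theorem Sim_step {X X' : List (It Γ k)} (h : IStep X X') : MR (sim X) (sim X') := by
  cases h with
  | st X Y L L' h =>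
    rw [List.append_assoc, List.append_assoc]
    apply Sim_ctx
    rw [Sim_hl, Sim_hl]
    exact Relation.ReflTransGen.single (LGP.Mv.st _ _ _ (SpQ.step_bare h))
  | br X Y i j => exact Sim_ctx X Y [i, j] [icj (ib i)⁻¹ j, i] (Sim_br i j)
  | br' X Y i j => exact Sim_ctx X Y [i, j] [j, icj (ib j) i] (Sim_br' i j)
  | ab X Y a b y o =>
    refine Sim_ctx X Y [Sum.inl ((a, b), o), Sum.inr y] [Sum.inl ((a, y⁻¹ * b), o),
          Sum.inr ((a * (y⁻¹ * b) * a⁻¹ * (y⁻¹ * b)⁻¹)⁻¹ * (a * y * a⁻¹) *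
            (a * (y⁻¹ * b) * a⁻¹ * (y⁻¹ * b)⁻¹))] ?_
    have h := LGP.Mv.ab [] a b y []
    refine Sim_trans (Sim_eq ?_) (Sim_trans (Relation.ReflTransGen.single h) (Sim_eq ?_))
    · simp [sim, Helper12.Sc.comm]
    · simp [sim, Helper12.Sc.comm]
  | ab' X Y a b y o =>
    refine Sim_ctx X Y [Sum.inl ((a, b), o), Sum.inr y]
      [Sum.inl ((a, a⁻¹ * ((a * b * a⁻¹ * b⁻¹) * y * (a * b * a⁻¹ * b⁻¹)⁻¹) * a * b), o),
          Sum.inr (a⁻¹ * ((a * b * a⁻¹ * b⁻¹) * y * (a * b * a⁻¹ * b⁻¹)⁻¹) * a)] ?_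
    have h := LGP.Mv.ab' [] a b y []
    refine Sim_trans (Sim_eq ?_) (Sim_trans (Relation.ReflTransGen.single h) (Sim_eq ?_))
    · simp [sim, Helper12.Sc.comm]
    · simp [sim, Helper12.Sc.comm]

end

theorem thm_Sim : St_Sim := by
  intro Γ _ k X X' h
  induction h with
  | refl => exact Relation.ReflTransGen.refl
  | tail _ hs ih => exact Sim_trans ih (Sim_step hs)

end Pool.Agent.LGC
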