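import Pool.Agent.LGC.Bas
import Pool.Agent.LGC.Cls

/-!
# The slot `(1, b)` takes any element, the other items do not change

Helper61 (Slo.lean), with the additional information of `St_Slk` (helper33), for MP_0707f5_ag.
-/

set_option autoImplicit false

namespace Pool.Agent.LGC

open SpQ (Hd WStep WReach)

section slo
variable {Γ : Type} [Group Γ] {k : ℕ}

/-- an item without its weights -/
private def frg : It Γ k → (Γ × Γ) ⊕ Γ := Sum.map Prod.fst id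

/-- the multiplication of the slot by `z` next to the item `j` -/
private def Loc (j : It Γ k) (z : Γ) : Prop := ∀ (j₀ : It Γ k), frg j₀ = frg j →
  ∀ (b : Γ) (o : ZMod k × ZMod k), ∃ (j' : It Γ k) (t : ZMod k), frg j' = frg j ∧
    IReach [Sum.inl ((1, b), o), j₀] [Sum.inl ((1, z * b), (o.1, t)), j']

/-- the multiplication of the slot by `z` next to the list `X` -/
private def Glo (X : List (It Γ k)) (z : Γ) : Prop := ∀ (X₀ : List (It Γ k)),
  X₀.map frg = X.map frg → ∀ (b : Γ) (o : ZMod k × ZMod k),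
    ∃ (X' : List (It Γ k)) (t : ZMod k), X'.map frg = X.map frg ∧
    IReach (X₀ ++ [Sum.inl ((1, b), o)]) (X' ++ [Sum.inl ((1, z * b), (o.1, t))])

private theorem Loc.mul {j : It Γ k} {z z' : Γ} (h : Loc j z) (h' : Loc j z') :
    Loc j (z * z') := by
  intro j₀ e b o
  obtain ⟨j₁, t₁, e₁, r₁⟩ := h' j₀ e b o
  obtain ⟨j₂, t₂, e₂, r₂⟩ := h j₁ e₁ (z' * b) (o.1, t₁)
  refine ⟨j₂, t₂, e₂, r₁.trans ?_⟩
  rw [mul_assoc]
  exact r₂

private theorem Glo.mul {X : List (It Γ k)} {z z' : Γ} (h : Glo X z) (h' : Glo X z') :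
    Glo X (z * z') := by
  intro X₀ e b o
  obtain ⟨X₁, t₁, e₁, r₁⟩ := h' X₀ e b o
  obtain ⟨X₂, t₂, e₂, r₂⟩ := h X₁ e₁ (z' * b) (o.1, t₁)
  refine ⟨X₂, t₂, e₂, r₁.trans ?_⟩
  rw [mul_assoc]
  exact r₂

private theorem ib_slot (b : Γ) (o : ZMod k × ZMod k) :
    ib (Sum.inl ((1, b), o) : It Γ k) = 1 := by
  simp [ib, SpQ.bd]

private theorem map_icj_one (X : List (It Γ k)) : X.map (icj 1) = X := by
  have : (icj (1 : Γ) : It Γ k → It Γ k) = id := funext icj_one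
  rw [this, List.map_id]

private theorem slot_right (b : Γ) (o : ZMod k × ZMod k) (X : List (It Γ k)) :
    IReach (Sum.inl ((1, b), o) :: X) (X ++ [Sum.inl ((1, b), o)]) := by
  have h := IReach.move_right (Sum.inl ((1, b), o) : It Γ k) X
  rw [ib_slot, inv_one, map_icj_one] at h
  exact h

private theorem slot_left (b : Γ) (o : ZMod k × ZMod k) (X : List (It Γ k)) :
    IReach (X ++ [Sum.inl ((1, b), o)]) (Sum.inl ((1, b), o) :: X) := by
  have h := IReach.move_left' X (Sum.inl ((1, b), o) : It Γ k)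
  rw [ib_slot, map_icj_one] at h
  exact h

/-- from next to an item to next to a list -/
private theorem Loc.glo {X : List (It Γ k)} {j : It Γ k} {z : Γ} (hj : j ∈ X) (h : Loc j z) :
    Glo X z := by
  intro X₀ e b o
  obtain ⟨s, t, rfl⟩ := List.append_of_mem hj
  rw [List.map_append, List.map_cons] at e
  obtain ⟨s₀, u₀, rfl, es, eu⟩ := List.map_eq_append_iff.1 e
  obtain ⟨j₀, t₀, rfl, ej, et⟩ := List.map_eq_cons_iff.1 eu
  obtain ⟨j', t', e', r'⟩ := h j₀ ej b o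
  refine ⟨s₀ ++ j' :: t₀, t', ?_, ?_⟩
  · rw [List.map_append, List.map_cons, List.map_append, List.map_cons, es, et, e']
  · have h1 : IReach (s₀ ++ (j₀ :: t₀ ++ [Sum.inl ((1, b), o)]))
        (s₀ ++ (Sum.inl ((1, b), o) :: (j₀ :: t₀))) := (slot_left b o (j₀ :: t₀)).left s₀
    have h2 : IReach (s₀ ++ ([Sum.inl ((1, b), o), j₀] ++ t₀))
        (s₀ ++ ([Sum.inl ((1, z * b), (o.1, t')), j'] ++ t₀)) := (r'.right t₀).left s₀
    have h3 : IReach (s₀ ++ (Sum.inl ((1, z * b), (o.1, t')) :: (j' :: t₀)))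
        (s₀ ++ (j' :: t₀ ++ [Sum.inl ((1, z * b), (o.1, t'))])) :=
      (slot_right (z * b) (o.1, t') (j' :: t₀)).left s₀
    have h4 := (h1.trans h2).trans h3
    simpa using h4

/-! ### a puncture -/

private theorem loc_inr (y : Γ) : Loc (Sum.inr y : It Γ k) y := by
  rintro (⟨w, o'⟩ | y₀) e b o
  · simp [frg] at e
  · have ey : y₀ = y := by simpa [frg] using e
    subst ey
    refine ⟨Sum.inr y₀, o.2, rfl, ?_⟩
    have h := IReach.of_step (IStep.ab' ([] : List (It Γ k)) [] 1 b y₀ o)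
    have e1 : (1 : Γ)⁻¹ * ((1 * b * (1 : Γ)⁻¹ * b⁻¹) * y₀ * (1 * b * (1 : Γ)⁻¹ * b⁻¹)⁻¹) * 1 * b =
        y₀ * b := by group
    have e2 : (1 : Γ)⁻¹ * ((1 * b * (1 : Γ)⁻¹ * b⁻¹) * y₀ * (1 * b * (1 : Γ)⁻¹ * b⁻¹)⁻¹) * 1 =
        y₀ := by group
    rw [e1, e2] at h
    exact h

private theorem loc_inr' (y : Γ) : Loc (Sum.inr y : It Γ k) y⁻¹ := by
  rintro (⟨w, o'⟩ | y₀) e b o
  · simp [frg] at e
  · have ey : y₀ = y := by simpa [frg] using e
    subst ey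
    refine ⟨Sum.inr y₀, o.2, rfl, ?_⟩
    have h := IReach.of_step (IStep.ab ([] : List (It Γ k)) [] 1 b y₀ o)
    have e2 : (1 * (y₀⁻¹ * b) * (1 : Γ)⁻¹ * (y₀⁻¹ * b)⁻¹)⁻¹ * (1 * y₀ * (1 : Γ)⁻¹) *
        (1 * (y₀⁻¹ * b) * (1 : Γ)⁻¹ * (y₀⁻¹ * b)⁻¹) = y₀ := by group
    rw [e2] at h
    exact h

/-! ### a handle -/

private theorem sl_one (b c d : Γ) (o o' : ZMod k × ZMod k) : ∃ (t : ZMod k) (o'' : ZMod k × ZMod k),
    IReach [Sum.inl ((1, b), o), Sum.inl ((c, d), o')]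
      [Sum.inl ((1, c * d * c⁻¹ * b), (o.1, t)), Sum.inl ((c, d), o'')] := by
  obtain ⟨p, q⟩ := o
  obtain ⟨p', q'⟩ := o'
  refine ⟨q + q' - p + 1, (p' - p + 1, q'), ?_⟩
  have h := WReach.of_step (WStep.sl ([] : List (Hd Γ k)) [] 1 b c d p q p' q')
  have e1 : b * (1 : Γ)⁻¹ * b⁻¹ * c * d * c⁻¹ * b = c * d * c⁻¹ * b := by group
  have e2 : b * (1 : Γ)⁻¹ * b⁻¹ * c = c := by group
  rw [e1, e2] at h
  exact IReach.of_wreach h

private theorem sl_one' (b c d : Γ) (o o' : ZMod k × ZMod k) : ∃ (t : ZMod k) (o'' : ZMod k × ZMod k),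
    IReach [Sum.inl ((1, b), o), Sum.inl ((c, d), o')]
      [Sum.inl ((1, c * d⁻¹ * c⁻¹ * b), (o.1, t)), Sum.inl ((c, d), o'')] := by
  obtain ⟨p, q⟩ := o
  obtain ⟨p', q'⟩ := o'
  refine ⟨q - q' + p - 1, (p' + p - 1, q'), ?_⟩
  have h := WReach.of_step (WStep.sl' ([] : List (Hd Γ k)) [] 1 b c d p q p' q')
  have e1 : c * d⁻¹ * c⁻¹ * b * 1 = c * d⁻¹ * c⁻¹ * b := by group
  have e2 : c * d⁻¹ * c⁻¹ * b * b⁻¹ * c * d = c := by group
  rw [e1, e2] at h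
  exact IReach.of_wreach h

private theorem rot_one (i : It Γ k) (c d : Γ) (o : ZMod k × ZMod k) :
    IReach [i, Sum.inl ((c, d), o)] [i, Sum.inl ((d⁻¹, d * c * d⁻¹), (-o.2, o.1))] := by
  have h := WReach.of_step (WStep.rot ([] : List (Hd Γ k)) [] c d o.1 o.2)
  exact (IReach.of_wreach h).cons i

private theorem rot_one' (i : It Γ k) (c d : Γ) (o : ZMod k × ZMod k) :
    IReach [i, Sum.inl ((d⁻¹, d * c * d⁻¹), o)] [i, Sum.inl ((c, d), (o.2, -o.1))] := by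
  have h := WReach.of_step (WStep.rot' ([] : List (Hd Γ k)) [] d⁻¹ (d * c * d⁻¹) o.1 o.2)
  have e1 : d⁻¹ * (d * c * d⁻¹) * d⁻¹⁻¹ = c := by group
  rw [e1, inv_inv] at h
  exact (IReach.of_wreach h).cons i

private theorem loc_conj (c d : Γ) (o : ZMod k × ZMod k) :
    Loc (Sum.inl ((c, d), o) : It Γ k) (c * d * c⁻¹) := by
  rintro (⟨⟨c₀, d₀⟩, o'⟩ | y₀) e b w
  · obtain ⟨rfl, rfl⟩ : c₀ = c ∧ d₀ = d := by simpa [frg] using e
    obtain ⟨t, o'', h⟩ := sl_one b c₀ d₀ w o'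
    exact ⟨Sum.inl ((c₀, d₀), o''), t, rfl, h⟩
  · simp [frg] at e

private theorem loc_conj' (c d : Γ) (o : ZMod k × ZMod k) :
    Loc (Sum.inl ((c, d), o) : It Γ k) (c * d⁻¹ * c⁻¹) := by
  rintro (⟨⟨c₀, d₀⟩, o'⟩ | y₀) e b w
  · obtain ⟨rfl, rfl⟩ : c₀ = c ∧ d₀ = d := by simpa [frg] using e
    obtain ⟨t, o'', h⟩ := sl_one' b c₀ d₀ w o'
    exact ⟨Sum.inl ((c₀, d₀), o''), t, rfl, h⟩
  · simp [frg] at e

private theorem loc_fst (c d : Γ) (o : ZMod k × ZMod k) :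
    Loc (Sum.inl ((c, d), o) : It Γ k) c := by
  rintro (⟨⟨c₀, d₀⟩, o'⟩ | y₀) e b w
  · obtain ⟨rfl, rfl⟩ : c₀ = c ∧ d₀ = d := by simpa [frg] using e
    obtain ⟨t, o'', h⟩ := sl_one b d₀⁻¹ (d₀ * c₀ * d₀⁻¹) w (-o'.2, o'.1)
    have e1 : d₀⁻¹ * (d₀ * c₀ * d₀⁻¹) * d₀⁻¹⁻¹ * b = c₀ * b := by group
    rw [e1] at h
    exact ⟨Sum.inl ((c₀, d₀), (o''.2, -o''.1)), t, rfl,
      ((rot_one _ c₀ d₀ o').trans h).trans (rot_one' _ c₀ d₀ o'')⟩
  · simp [frg] at e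

private theorem loc_fst' (c d : Γ) (o : ZMod k × ZMod k) :
    Loc (Sum.inl ((c, d), o) : It Γ k) c⁻¹ := by
  rintro (⟨⟨c₀, d₀⟩, o'⟩ | y₀) e b w
  · obtain ⟨rfl, rfl⟩ : c₀ = c ∧ d₀ = d := by simpa [frg] using e
    obtain ⟨t, o'', h⟩ := sl_one' b d₀⁻¹ (d₀ * c₀ * d₀⁻¹) w (-o'.2, o'.1)
    have e1 : d₀⁻¹ * (d₀ * c₀ * d₀⁻¹)⁻¹ * d₀⁻¹⁻¹ * b = c₀⁻¹ * b := by group
    rw [e1] at h
    exact ⟨Sum.inl ((c₀, d₀), (o''.2, -o''.1)), t, rfl,
      ((rot_one _ c₀ d₀ o').trans h).trans (rot_one' _ c₀ d₀ o'')⟩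
  · simp [frg] at e

private theorem loc_snd (c d : Γ) (o : ZMod k × ZMod k) :
    Loc (Sum.inl ((c, d), o) : It Γ k) d := by
  have h := ((loc_fst' c d o).mul (loc_conj c d o)).mul (loc_fst c d o)
  have e : c⁻¹ * (c * d * c⁻¹) * c = d := by group
  rwa [e] at h

private theorem loc_snd' (c d : Γ) (o : ZMod k × ZMod k) :
    Loc (Sum.inl ((c, d), o) : It Γ k) d⁻¹ := by
  have h := ((loc_fst' c d o).mul (loc_conj' c d o)).mul (loc_fst c d o)
  have e : c⁻¹ * (c * d⁻¹ * c⁻¹) * c = d⁻¹ := by group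
  rwa [e] at h

/-- the letters and their inverses -/
private theorem loc_letter (j : It Γ k) (z : Γ) (hz : z ∈ lt j) : Loc j z ∧ Loc j z⁻¹ := by
  rcases j with ⟨⟨c, d⟩, o⟩ | y
  · rcases hz with rfl | hz
    · exact ⟨loc_fst _ _ _, loc_fst' _ _ _⟩
    · rw [Set.mem_singleton_iff] at hz
      subst hz
      exact ⟨loc_snd _ _ _, loc_snd' _ _ _⟩
  · change z = y at hz
    subst hz
    exact ⟨loc_inr _, loc_inr' _⟩

private theorem glo_mem (X : List (It Γ k)) (u : Γ) (hu : u ∈ GI X) : Glo X u := by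
  unfold GI at hu
  induction hu using Subgroup.closure_induction_left with
  | one =>
    intro X₀ e b o
    refine ⟨X₀, o.2, e, ?_⟩
    rw [one_mul]
    exact IReach.refl _
  | mul_left x hx y _ ih =>
    obtain ⟨i, hi, hz⟩ := hx
    exact ((loc_letter i x hz).1.glo hi).mul ih
  | inv_mul_cancel x hx y _ ih =>
    obtain ⟨i, hi, hz⟩ := hx
    exact ((loc_letter i x hz).2.glo hi).mul ih

end slo

/-- The second entry of a handle `(1, b)` can be multiplied by any element of the group, the letters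
of the other items do not change. -/
theorem thm_Slk : St_Slk := by
  intro Γ _ k X b o u hu
  have e : (nwt : It Γ k → (Γ × Γ) ⊕ Γ) = frg := by
    funext i
    rcases i with i | y <;> rfl
  obtain ⟨X', t, e', h⟩ := glo_mem X u hu X rfl b o
  exact ⟨X', t, h, by rw [e]; exact e'⟩

end Pool.Agent.LGC
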