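import Pool.Agent.LGC.Csp
import Pool.Agent.SpQ.Greedy

/-!
# The vector theorem for killed handles, half the number of handles

Helper35, for MP_0707f5_ag (Theorem C with the bound `2 r K < h`).  A handle is spare if the module
generated by the subspace `Sp P`, which has been reached, is already generated without it.
-/

set_option autoImplicit false

namespace Pool.Agent.LGC

open Module Helper12.Sc
open SpQ (Hd WStep WReach WExt Good bare bd cj1)
open LGP (cyc stb)

section
variable {K U Γ : Type} [Field K] [AddCommGroup U] [Module K U] [Group Γ] {k : ℕ}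

/-- the span of `w` and of the images of `w` under the first components of weight `-1` in `N` -/
private def Sp (N : Subgroup Γ) (R : N →* Module.End K U) (w : U) (P : List (Hd Γ k)) :
    Submodule K U :=
  Submodule.span K (insert w {u | ∃ (x : Γ) (hx : x ∈ N), x ∈ SpQ.fc P (-1) ∧ R ⟨x, hx⟩ w = u})

variable {N : Subgroup Γ} {R : N →* Module.End K U} {w : U}

private theorem Sp_self (P : List (Hd Γ k)) : w ∈ Sp N R w P :=
  Submodule.subset_span (Set.mem_insert _ _)

private theorem Sp_mono {P P' : List (Hd Γ k)} (h : WExt P' P) :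
    Sp N R w P ≤ Sp N R w P' := by
  refine Submodule.span_mono (Set.insert_subset_insert ?_)
  rintro u ⟨x, hx, hxf, rfl⟩
  exact ⟨x, hx, SpQ.fc_mono h (-1) hxf, rfl⟩

private theorem Sp_le {P : List (Hd Γ k)} {H : Subgroup Γ} (h : SpQ.E P ≤ H) :
    Sp N R w P ≤ cyc R w (H.subgroupOf N) := by
  unfold Sp
  rw [Submodule.span_le]
  rintro u (rfl | ⟨x, hx, hxf, rfl⟩)
  · exact LGP.self_mem_cyc _ _ _
  · refine Submodule.subset_span ⟨⟨x, hx⟩, ?_, rfl⟩
    show x ∈ H
    exact h (SpQ.fc_sub hxf)

/-- the vector theorem for killed handles -/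
theorem wvec2 (hA : St_All) [FiniteDimensional K U] [N.Normal]
    (R : N →* Module.End K U) (w : U) (B : List (Hd Γ k)) (hgood : ∀ h ∈ B, Good h)
    (hkl : ∀ h ∈ B, Kl N h) (hlen : finrank K (cyc R w ((SpQ.E B).subgroupOf N)) ≤ B.length)
    (T : U →ₗ[K] K) (h0 : T w = 0)
    (hT : ∀ (x : Γ) (hx : x ∈ N), x ∈ SpQ.fc B (-1) → T (R ⟨x, hx⟩ w) = 0) :
    ∀ x : N, (x : Γ) ∈ SpQ.E B → T (R x w) = 0 := by
  by_cases hw : w = 0
  · intro x _
    rw [hw, map_zero, map_zero]
  set W := cyc R w ((SpQ.E B).subgroupOf N) with hW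
  have hEBN : SpQ.E B ≤ N := Kl_list.1 hkl
  -- the functional vanishes on the spans
  have hSp : ∀ P : List (Hd Γ k), WExt B P → ∀ u ∈ Sp N R w P, T u = 0 := by
    intro P hP u hu
    unfold Sp at hu
    refine Submodule.span_induction (p := fun u _ => T u = 0) ?_ ?_ ?_ ?_ hu
    · rintro u (rfl | ⟨x, hx, hxf, rfl⟩)
      · exact h0
      · exact hT x hx (SpQ.fc_mono hP _ hxf)
    · exact map_zero T
    · intro a b _ _ ha hb
      rw [map_add, ha, hb, add_zero]
    · intro c a _ ha
      rw [map_smul, ha, smul_zero]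
  have hcs : ∀ (S : Submodule K U) (H : Subgroup Γ), S ≤ W → H ≤ SpQ.E B →
      cs R S (H.subgroupOf N) ≤ W := fun S H hS hH =>
    cs_le hS (le_trans (Subgroup.comap_mono hH) (LGP.le_stb_cyc _))
  have main : ∀ m : ℕ, m < finrank K W → (∀ x : N, (x : Γ) ∈ SpQ.E B → T (R x w) = 0) ∨
      ∃ P B' : List (Hd Γ k), WReach B (B' ++ P) ∧ (∀ h ∈ B', Good h) ∧ P.length = m ∧
        B'.length + m = B.length ∧ cs R (Sp N R w P) ((SpQ.E B').subgroupOf N) = W ∧
        m + 1 ≤ finrank K (Sp N R w P) := by
    intro m
    induction m with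
    | zero =>
      intro _
      right
      refine ⟨[], B, by simpa using WReach.refl B, hgood, rfl, by simp, ?_, ?_⟩
      · refine le_antisymm (hcs _ _ (Sp_le (by rw [SpQ.E_nil]; exact bot_le)) le_rfl) ?_
        rw [hW]
        exact cyc_le_cs (Sp_self _)
      · have h1 : Sp N R w ([] : List (Hd Γ k)) ≠ ⊥ := by
          intro h
          have := Sp_self (N := N) (R := R) (w := w) ([] : List (Hd Γ k))
          rw [h, Submodule.mem_bot] at this
          exact hw this
        have h2 := Submodule.one_le_finrank_iff.2 h1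
        simpa using h2
    | succ m ih =>
      intro hm
      rcases ih (by omega) with hdone | ⟨P, B', hr, hBg, hPlen, hBlen', hcy, hdim⟩
      · exact Or.inl hdone
      have hEr : SpQ.E (B' ++ P) = SpQ.E B := hr.E_eq
      have hEB' : SpQ.E B' ≤ SpQ.E B := by
        rw [← hEr, SpQ.E_append]
        exact le_sup_left
      have hEP : SpQ.E P ≤ SpQ.E B := by
        rw [← hEr, SpQ.E_append]
        exact le_sup_right
      by_cases hst : ∃ (B₁ : List (Hd Γ k)) (p : Hd Γ k), WReach B' (B₁ ++ [p]) ∧
          (∀ h ∈ B₁ ++ [p], Good h) ∧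
          cs R (Sp N R w P) ((SpQ.E B₁).subgroupOf N) = W ∧
          Sp N R w ([p] ++ P) ≠ Sp N R w P
      · obtain ⟨B₁, p, h1, hg1, h2, h3⟩ := hst
        have h4 : Sp N R w P ≤ Sp N R w ([p] ++ P) := Sp_mono (WExt.drop_left [p] P)
        have h6 : SpQ.E (B₁ ++ [p]) = SpQ.E B' := h1.E_eq
        rw [SpQ.E_append] at h6
        have hl1 := h1.length_eq
        rw [List.length_append, List.length_singleton] at hl1
        right
        refine ⟨[p] ++ P, B₁, ?_, fun h hh => hg1 h (by simp [hh]), by simp [hPlen], by omega,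
          ?_, ?_⟩
        · refine hr.trans ?_
          have h4 := h1.right P
          rwa [List.append_assoc] at h4
        · refine le_antisymm (hcs _ _ (Sp_le ?_) ?_) ?_
          · rw [SpQ.E_append]
            refine sup_le ?_ hEP
            refine le_trans ?_ hEB'
            rw [← h6]
            exact le_sup_right
          · refine le_trans ?_ hEB'
            rw [← h6]
            exact le_sup_left
          · rw [← h2]
            exact cs_mono' h4
        · have h5 := Submodule.finrank_lt_finrank_of_lt (lt_of_le_of_ne h4 (Ne.symm h3))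
          omega
      · left
        push Not at hst
        have hGI0 : ∀ C : List (Hd Γ k), GI ([] ++ hl C) = SpQ.E C := fun C => GI_hl C
        have key : SpQ.E B' ≤ sg R (Sp N R w P) := by
          refine hA Γ k (fun G => cs R (Sp N R w P) (G.subgroupOf N) = W) B'
            (sg R (Sp N R w P)) hBg ?_ ?_
          · intro B₃ hw3 hg3
            have hE3 : SpQ.E B₃ = SpQ.E B' := hw3.E_eq
            have hk3 : ∀ h ∈ B₃, Kl N h :=
              Kl_list.2 (by rw [hE3]; exact hEB'.trans hEBN)
            have hlen3 : B₃.length = B'.length := hw3.length_eq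
            obtain ⟨s, p, t, h1, h2⟩ := non2 N R (Sp N R w P) [] B₃ hk3 (by
              rw [hGI0, hE3, hcy, hlen3]
              omega)
            rw [hGI0, hGI0, hE3, hcy] at h2
            exact ⟨s, p, t, h1, h2⟩
          · intro B₃ p hw3 hg3 hfull
            have hE3 : SpQ.E (B₃ ++ [p]) = SpQ.E B' := hw3.E_eq
            have hk3 : ∀ h ∈ B₃ ++ [p], Kl N h :=
              Kl_list.2 (by rw [hE3]; exact hEB'.trans hEBN)
            have h3 := hst B₃ p hw3 hg3 hfull
            have hkp : Kl N p := hk3 p (by simp)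
            have hstab : ∀ (z : Γ) (hz : z ∈ N), z ∈ SpQ.fc [p] (-1) →
                (⟨z, hz⟩ : N) ∈ stb R (Sp N R w P) := by
              intro z hz hzf s hs
              rw [← h3]
              unfold Sp at hs
              refine Submodule.span_induction
                (p := fun s _ => R ⟨z, hz⟩ s ∈ Sp N R w ([p] ++ P)) ?_ ?_ ?_ ?_ hs
              · rintro u (rfl | ⟨x, hx, hxf, rfl⟩)
                · exact Submodule.subset_span (Or.inr ⟨z, hz,
                    SpQ.fc_mono (WExt.drop_right [p] P) _ hzf, rfl⟩)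
                · show R ⟨z, hz⟩ (R ⟨x, hx⟩ w) ∈ _
                  rw [← Module.End.mul_apply, ← map_mul]
                  have h4 := SpQ.fc_mul hzf hxf
                  have e : (-1 : ZMod k) + -1 + 1 = -1 := by ring
                  rw [e] at h4
                  exact Submodule.subset_span (Or.inr ⟨z * x, N.mul_mem hz hx, h4, rfl⟩)
              · rw [map_zero]
                exact Submodule.zero_mem _
              · intro a b _ _ ha hb
                rw [map_add]
                exact Submodule.add_mem _ ha hb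
              · intro c a _ ha
                rw [map_smul]
                exact Submodule.smul_mem _ c ha
            have hgp : Good p := hg3 p (by simp)
            obtain ⟨⟨x, y⟩, o⟩ := p
            obtain rfl : o = (-1, 1) := hgp
            rw [SpQ.E_singleton_le]
            have hxN : x ∈ N := hkp.1
            have hyN : y ∈ N := hkp.2
            refine ⟨⟨⟨x, hxN⟩, hstab x hxN ⟨y, 1, WExt.refl _⟩, rfl⟩, ?_⟩
            have h4 : (⟨y⁻¹, N.inv_mem hyN⟩ : N) ∈ stb R (Sp N R w P) :=
              hstab _ _ ⟨_, _, WExt.rot x y (-1) 1⟩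
            exact ⟨⟨y, hyN⟩, inv_mem_iff.1 h4, rfl⟩
        have hc : W ≤ Sp N R w P := by
          rw [← hcy]
          exact cs_le le_rfl (subgroupOf_le_stb R _ _ (inf_le_right.trans key))
        intro x hx
        exact hSp P ⟨B', hr⟩ _ (hc (Submodule.subset_span ⟨x, hx, rfl⟩))
  have hpos : 0 < finrank K W := by
    have h1 : W ≠ ⊥ := by
      intro h
      have := LGP.self_mem_cyc R w ((SpQ.E B).subgroupOf N)
      rw [← hW, h, Submodule.mem_bot] at this
      exact hw this
    exact Submodule.one_le_finrank_iff.2 h1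
  rcases main (finrank K W - 1) (by omega) with h | ⟨P, B', hr, -, -, -, -, hdim⟩
  · exact h
  · have hEP : SpQ.E P ≤ SpQ.E B := by
      have hEr : SpQ.E (B' ++ P) = SpQ.E B := hr.E_eq
      rw [← hEr, SpQ.E_append]
      exact le_sup_right
    have h2 : Sp N R w P = W := Submodule.eq_of_le_of_finrank_le (Sp_le hEP) (by omega)
    intro x hx
    refine hSp P ⟨B', hr⟩ _ ?_
    rw [h2]
    exact Submodule.subset_span ⟨x, hx, rfl⟩

end

end Pool.Agent.LGC
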