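import Pool.Agent.LGC.Vek
import Pool.Agent.LGC.Grw2
import Pool.Agent.LGC.Wv2
import Pool.Agent.LGC.Up2

/-!
# The vector theorem for loops of weight zero, with half the number of handles

Helper35, for MP_0707f5_ag (Theorem C).
-/

set_option autoImplicit false

namespace Pool.Agent.LGC

open Module Helper12.Sc
open SpQ (Hd WStep WReach WExt Good bare bd cj1)
open LGP (cyc)

theorem thm_Vek2 (hA : St_All) (hG : St_Grw2) : St_Vek2 := by
  intro K U Γ _ _ _ _ _ k N _ R w X₀ B₀ hB htop hlen T hT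
  by_cases hw : w = 0
  · intro x
    rw [hw, map_zero, map_zero]
  -- the dimension is positive
  have hpos : 1 ≤ finrank K (cyc R w ⊤) := by
    have h1 : cyc R w ⊤ ≠ ⊥ := by
      intro h
      have := LGP.self_mem_cyc R w (⊤ : Subgroup N)
      rw [h, Submodule.mem_bot] at this
      exact hw this
    exact Submodule.one_le_finrank_iff.2 h1
  have htop' : cyc R w ((GI (X₀ ++ hl B₀)).subgroupOf N) = cyc R w ⊤ := by
    rw [htop, Subgroup.top_subgroupOf]
  -- good handles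
  obtain ⟨h₀, G₀, rfl⟩ : ∃ h₀ G₀, B₀ = h₀ :: G₀ := by
    cases B₀ with
    | nil =>
      rw [List.length_nil] at hlen
      omega
    | cons a b => exact ⟨a, b, rfl⟩
  obtain ⟨h₁, B, hr, hg⟩ := SpQ.exists_good h₀ G₀
  have hE : SpQ.E (h₁ :: B) = SpQ.E (h₀ :: G₀) := hr.E_eq
  have hkB : ∀ h ∈ h₁ :: B, Kl N h := by
    rw [Kl_list, hE, ← Kl_list]
    exact hB
  have hlen2 : B.length = G₀.length := by
    have h1 := hr.length_eq
    rw [List.length_cons, List.length_cons] at h1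
    omega
  have e3 : (X₀ ++ [Sum.inl h₁]) ++ hl B = X₀ ++ hl (h₁ :: B) := by
    rw [hl_cons, List.append_assoc]
    rfl
  have hreach : IReach (X₀ ++ hl (h₀ :: G₀)) ((X₀ ++ [Sum.inl h₁]) ++ hl B) := by
    rw [e3]
    exact (IReach.of_wreach hr).left X₀
  have hGI : GI ((X₀ ++ [Sum.inl h₁]) ++ hl B) = GI (X₀ ++ hl (h₀ :: G₀)) := by
    rw [e3, GI_append_hl, GI_append_hl, hE]
  rw [List.length_cons] at hlen
  obtain ⟨X', B', hr', hcl, hBlen, hBg, hBk, hcy⟩ := hG K U Γ k N R w (X₀ ++ [Sum.inl h₁]) B hg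
    (fun h hh => hkB h (List.mem_cons_of_mem _ hh)) (by rw [hGI, htop']) (by omega)
  -- the killed handle of the context
  rw [List.map_append] at hcl
  obtain ⟨X₁, s, rfl, -, hs⟩ := List.map_eq_append_iff.1 hcl
  obtain ⟨i, s', rfl, hi, hs'⟩ := List.map_eq_cons_iff.1 hs
  obtain rfl : s' = [] := List.map_eq_nil_iff.1 hs'
  obtain ⟨h', rfl, hk'⟩ := cls_killed (hkB h₁ List.mem_cons_self) hi
  obtain ⟨p, hp, hz⟩ := SpQ.exists_zero h'
  have hkp : Kl N p := by
    rw [Kl_iff, hp.E_eq, ← Kl_iff]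
    exact hk'
  have hreach2 : IReach (X₀ ++ hl (h₀ :: G₀)) (X₁ ++ hl (p :: B')) := by
    refine (hreach.trans hr').trans ?_
    have h1 := IReach.of_wreach' hp X₁ (hl B')
    have e1 : ∀ x : Hd Γ k, X₁ ++ (hl [x] ++ hl B') = X₁ ++ hl (x :: B') := by
      intro x
      rw [← hl_append]
      rfl
    rw [e1, e1] at h1
    have e2 : X₁ ++ [Sum.inl h'] ++ hl B' = X₁ ++ hl (h' :: B') := by
      rw [hl_cons, List.append_assoc]
      rfl
    rw [e2]
    exact h1
  have hkP : ∀ h ∈ p :: B', Kl N h := by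
    intro h hh
    rcases List.mem_cons.1 hh with rfl | hh
    · exact hkp
    · exact hBk h hh
  obtain ⟨⟨γ, δ⟩, ⟨z, q⟩⟩ := p
  dsimp only at hz
  subst hz
  have hγN : γ ∈ N := hkp.1
  have hγ : γ ∈ SpQ.fc [((γ, δ), ((0 : ZMod k), q))] 0 := ⟨δ, q, WExt.refl _⟩
  have hmul : ∀ x : N, T (R ⟨γ, hγN⟩ (R x w)) = T (R (⟨γ, hγN⟩ * x) w) := by
    intro x
    rw [map_mul, Module.End.mul_apply]
  have key := wvec2 hA R w B' hBg hBk (by rw [hcy, hBlen]; omega)
    (T.comp (R ⟨γ, hγN⟩)) ?_ ?_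
  · -- the functional vanishes on the whole module
    have h1 : ∀ u ∈ cyc R w ((SpQ.E B').subgroupOf N), T (R ⟨γ, hγN⟩ u) = 0 := by
      intro u hu
      unfold LGP.cyc at hu
      refine Submodule.span_induction (p := fun u _ => T (R ⟨γ, hγN⟩ u) = 0) ?_ ?_ ?_ ?_ hu
      · rintro _ ⟨y, hy, rfl⟩
        exact key y hy
      · rw [map_zero, map_zero]
      · intro a b _ _ ha hb
        rw [map_add, map_add, ha, hb, add_zero]
      · intro c a _ ha
        rw [map_smul, map_smul, ha, smul_zero]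
    intro x
    have h2 := h1 (R (⟨γ, hγN⟩⁻¹ * x) w) (by
      rw [hcy]
      exact Submodule.subset_span ⟨_, Subgroup.mem_top _, rfl⟩)
    rw [hmul, mul_inv_cancel_left] at h2
    exact h2
  · rw [LinearMap.comp_apply]
    have h1 : γ ∈ SpQ.fc (((γ, δ), ((0 : ZMod k), q)) :: B') 0 :=
      SpQ.fc_mono (WExt.drop_right [((γ, δ), ((0 : ZMod k), q))] B') _ hγ
    exact hT X₁ _ hreach2 hkP γ hγN h1
  · intro x hx hxP
    rw [LinearMap.comp_apply, hmul]
    have h1 := SpQ.fc_mul hγ hxP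
    have e5 : (0 : ZMod k) + -1 + 1 = 0 := by ring
    rw [e5] at h1
    exact hT X₁ _ hreach2 hkP (γ * x) (N.mul_mem hγN hx) h1

end Pool.Agent.LGC
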