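import Pool.Agent.LGC.Defs
import Pool.Agent.LGC.Bas
import Pool.Agent.LGP.Aut
import Pool.Agent.LGP.Psh
import Pool.Agent.LGP.Dsc
import Pool.Agent.LGP.Wbr

/-!
# LGC, module Wbi: first components of weight zero are simple loops with winding number zero
-/

set_option autoImplicit false

namespace Pool.Agent.LGC

open Helper12.Sc Helper12.Sc.SurfaceGroup
open SpQ (Hd WStep WReach WExt Good bare bd cj1 IsSpinStructure IsOrientationPreserving)
open LGP (F ga gb gx x0 MC NS MR stdL stdM dstd wty prj)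

/-! ### the handles and the punctures of a list of items -/

private theorem Wbi_hs_append {Γ : Type} {k : ℕ} (X Y : List (It Γ k)) :
    hs (X ++ Y) = hs X ++ hs Y := by
  induction X with
  | nil => rfl
  | cons i X ih =>
    rcases i with h | y
    · show h :: hs (X ++ Y) = h :: hs X ++ hs Y
      rw [ih]
      rfl
    · exact ih

private theorem Wbi_hs_hl {Γ : Type} {k : ℕ} (L : List (Hd Γ k)) : hs (hl L) = L := by
  induction L with
  | nil => rfl
  | cons h L ih =>
    show h :: hs (hl L) = h :: L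
    rw [ih]

private theorem Wbi_hs_inr {Γ : Type} {k : ℕ} (M : List Γ) :
    hs (M.map (Sum.inr : Γ → It Γ k)) = [] := by
  induction M with
  | nil => rfl
  | cons y M ih => exact ih

private theorem Wbi_sim_fst {Γ : Type} [Group Γ] {k : ℕ} (X : List (It Γ k)) :
    (sim X).1 = bare (hs X) := by
  induction X with
  | nil => rfl
  | cons i X ih =>
    rcases i with h | y
    · show h.1 :: (sim X).1 = bare (h :: hs X)
      rw [ih]
      rfl
    · exact ih

private theorem Wbi_sim_inr {Γ : Type} [Group Γ] {k : ℕ} (M : List Γ) :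
    sim (M.map (Sum.inr : Γ → It Γ k)) = ([], M) := by
  induction M with
  | nil => rfl
  | cons y M ih =>
    show ((sim (M.map (Sum.inr : Γ → It Γ k))).1,
      ((Helper12.Sc.comm (sim (M.map (Sum.inr : Γ → It Γ k))).1)⁻¹ * y *
        Helper12.Sc.comm (sim (M.map (Sum.inr : Γ → It Γ k))).1) :: (sim (M.map (Sum.inr : Γ → It Γ k))).2) = _
    rw [ih]
    have h1 : Helper12.Sc.comm ([] : List (Γ × Γ)) = 1 := by
      unfold Helper12.Sc.comm
      simp
    rw [h1]
    simp

private theorem Wbi_sim_hl {Γ : Type} [Group Γ] {k : ℕ} (L : List (Hd Γ k))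
    (Z : List (It Γ k)) : sim (hl L ++ Z) = (bare L ++ (sim Z).1, (sim Z).2) := by
  induction L with
  | nil => rfl
  | cons h L ih =>
    show (h.1 :: (sim (hl L ++ Z)).1, (sim (hl L ++ Z)).2) = _
    rw [ih]
    rfl

private theorem Wbi_sim_istd {g n k : ℕ} (τ : Fin g → ZMod k × ZMod k) :
    sim (istd (n := n) τ) = (stdL g n, stdM g n) := by
  unfold istd
  rw [Wbi_sim_hl, Wbi_sim_inr, LGP.Wbr_bare_dstd]
  simp

/-! ### weights -/

/-- the image of the handles is a decorated list and the punctures die -/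
private def Wbi_Q {g k : ℕ} {Γ : Type} [Group Γ] (w : SurfaceGroup g → ZMod k)
    (f : Γ →* SurfaceGroup g) (X : List (It Γ k)) : Prop :=
  (∃ ψ : SurfaceGroup g ≃* SurfaceGroup g, IsOrientationPreserving ψ ∧
    SpQ.mapH f (hs X) = SpQ.decor w ψ) ∧ ∀ y, (Sum.inr y : It Γ k) ∈ X → f y = 1

private theorem Wbi_same {g k : ℕ} {Γ : Type} [Group Γ] {w : SurfaceGroup g → ZMod k}
    {f : Γ →* SurfaceGroup g} {X X' : List (It Γ k)} (h : Wbi_Q w f X)
    (h1 : SpQ.mapH f (hs X') = SpQ.mapH f (hs X))
    (h2 : ∀ y, (Sum.inr y : It Γ k) ∈ X' → f y = 1) : Wbi_Q w f X' := by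
  obtain ⟨⟨ψ, hψ, he⟩, -⟩ := h
  exact ⟨⟨ψ, hψ, h1.trans he⟩, h2⟩

private theorem Wbi_wstep {g k : ℕ} {Γ : Type} [Group Γ] {w : SurfaceGroup g → ZMod k}
    (hw : IsSpinStructure k w)
    {f : Γ →* SurfaceGroup g} {X X' : List (It Γ k)} (h : Wbi_Q w f X)
    (h1 : WStep (hs X) (hs X'))
    (h2 : ∀ y, (Sum.inr y : It Γ k) ∈ X' → f y = 1) : Wbi_Q w f X' := by
  obtain ⟨⟨ψ, hψ, he⟩, -⟩ := h
  have h3 := SpQ.mapH_step f h1
  rw [he] at h3
  exact ⟨SpQ.step_decor hw hψ h3, h2⟩

private theorem Wbi_mapH_append {Γ Δ : Type} [Group Γ] [Group Δ] {k : ℕ} (f : Γ →* Δ)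
    (L M : List (Hd Γ k)) : SpQ.mapH f (L ++ M) = SpQ.mapH f L ++ SpQ.mapH f M := by
  unfold SpQ.mapH
  exact List.map_append

private theorem Wbi_mapH_cons {Γ Δ : Type} [Group Γ] [Group Δ] {k : ℕ} (f : Γ →* Δ)
    (h : Hd Γ k) (M : List (Hd Γ k)) :
    SpQ.mapH f (h :: M) = ((f h.1.1, f h.1.2), h.2) :: SpQ.mapH f M := rfl

private theorem Wbi_step {g k : ℕ} {Γ : Type} [Group Γ] {w : SurfaceGroup g → ZMod k}
    (hw : IsSpinStructure k w) (f : Γ →* SurfaceGroup g) {X X' : List (It Γ k)}
    (hs' : IStep X X') (h : Wbi_Q w f X) : Wbi_Q w f X' := by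
  have hp := h.2
  cases hs' with
  | st A B L L' hL =>
    apply Wbi_wstep hw h
    · rw [Wbi_hs_append, Wbi_hs_append, Wbi_hs_append, Wbi_hs_append, Wbi_hs_hl, Wbi_hs_hl]
      exact hL.context (hs A) (hs B)
    · intro y hy
      apply hp y
      simp only [List.mem_append] at hy ⊢
      rcases hy with (hy | hy) | hy
      · exact Or.inl (Or.inl hy)
      · exfalso
        obtain ⟨h', -, h''⟩ := mem_hl.1 hy
        cases h''
      · exact Or.inr hy
  | br A B i j =>
    rcases i with ⟨⟨a, b⟩, o⟩ | y <;> rcases j with ⟨⟨c, d⟩, o'⟩ | z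
    · apply Wbi_wstep hw h
      · rw [Wbi_hs_append, Wbi_hs_append]
        have h3 := WStep.br (hs A) (hs B) a b c d o.1 o.2 o'.1 o'.2
        have e : cj1 (a * b * a⁻¹ * b⁻¹)⁻¹ ((c, d), o') =
            ((a * b * a⁻¹ * b⁻¹ * c * (a * b * a⁻¹ * b⁻¹)⁻¹,
              a * b * a⁻¹ * b⁻¹ * d * (a * b * a⁻¹ * b⁻¹)⁻¹), (o'.1, o'.2)) := by
          unfold cj1
          rw [inv_inv]
        show WStep (hs A ++ ((a, b), o) :: ((c, d), o') :: hs B)
          (hs A ++ cj1 (a * b * a⁻¹ * b⁻¹)⁻¹ ((c, d), o') :: ((a, b), o) :: hs B)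
        rw [e]
        exact h3
      · intro y hy
        apply hp y
        simp only [List.mem_append, List.mem_cons] at hy ⊢
        rcases hy with hy | hy | hy | hy
        · exact Or.inl hy
        · cases hy
        · cases hy
        · exact Or.inr (Or.inr (Or.inr hy))
    · apply Wbi_same h
      · rw [Wbi_hs_append, Wbi_hs_append]
        rfl
      · intro y hy
        have hz : f z = 1 := hp z (by simp)
        simp only [List.mem_append, List.mem_cons] at hy
        rcases hy with hy | hy | hy | hy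
        · exact hp y (by simp [hy])
        · have hy' : y = (ib (Sum.inl ((a, b), o) : It Γ k))⁻¹⁻¹ * z *
              (ib (Sum.inl ((a, b), o) : It Γ k))⁻¹ := Sum.inr.inj hy
          rw [hy', map_mul, map_mul, hz, map_inv, map_inv]
          group
        · cases hy
        · exact hp y (by simp [hy])
    · have hyy : f y = 1 := hp y (by simp)
      apply Wbi_same h
      · rw [Wbi_hs_append, Wbi_hs_append]
        show SpQ.mapH f (hs A ++ cj1 (y)⁻¹ ((c, d), o') :: hs B) =
          SpQ.mapH f (hs A ++ ((c, d), o') :: hs B)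
        rw [Wbi_mapH_append, Wbi_mapH_append, Wbi_mapH_cons, Wbi_mapH_cons]
        unfold cj1
        simp [hyy]
      · intro z hz
        simp only [List.mem_append, List.mem_cons] at hz
        rcases hz with hz | hz | hz | hz
        · exact hp z (by simp [hz])
        · cases hz
        · exact hp z (by simp [hz])
        · exact hp z (by simp [hz])
    · have hyy : f y = 1 := hp y (by simp)
      have hzz : f z = 1 := hp z (by simp)
      apply Wbi_same h
      · rw [Wbi_hs_append, Wbi_hs_append]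
        rfl
      · intro t ht
        simp only [List.mem_append, List.mem_cons] at ht
        rcases ht with ht | ht | ht | ht
        · exact hp t (by simp [ht])
        · have ht' : t = (y)⁻¹⁻¹ * z * (y)⁻¹ := Sum.inr.inj ht
          rw [ht', map_mul, map_mul, hzz, map_inv, map_inv]
          group
        · exact hp t (by simp [ht])
        · exact hp t (by simp [ht])
  | br' A B i j =>
    rcases i with ⟨⟨a, b⟩, o⟩ | y <;> rcases j with ⟨⟨c, d⟩, o'⟩ | z
    · apply Wbi_wstep hw h
      · rw [Wbi_hs_append, Wbi_hs_append]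
        exact WStep.br' (hs A) (hs B) a b c d o.1 o.2 o'.1 o'.2
      · intro y hy
        apply hp y
        simp only [List.mem_append, List.mem_cons] at hy ⊢
        rcases hy with hy | hy | hy | hy
        · exact Or.inl hy
        · cases hy
        · cases hy
        · exact Or.inr (Or.inr (Or.inr hy))
    · have hzz : f z = 1 := hp z (by simp)
      apply Wbi_same h
      · rw [Wbi_hs_append, Wbi_hs_append]
        show SpQ.mapH f (hs A ++ cj1 z ((a, b), o) :: hs B) =
          SpQ.mapH f (hs A ++ ((a, b), o) :: hs B)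
        rw [Wbi_mapH_append, Wbi_mapH_append, Wbi_mapH_cons, Wbi_mapH_cons]
        unfold cj1
        simp [hzz]
      · intro t ht
        simp only [List.mem_append, List.mem_cons] at ht
        rcases ht with ht | ht | ht | ht
        · exact hp t (by simp [ht])
        · exact hp t (by simp [ht])
        · cases ht
        · exact hp t (by simp [ht])
    · have hyy : f y = 1 := hp y (by simp)
      apply Wbi_same h
      · rw [Wbi_hs_append, Wbi_hs_append]
        rfl
      · intro t ht
        simp only [List.mem_append, List.mem_cons] at ht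
        rcases ht with ht | ht | ht | ht
        · exact hp t (by simp [ht])
        · cases ht
        · have ht' : t = (ib (Sum.inl ((c, d), o') : It Γ k))⁻¹ * y *
              (ib (Sum.inl ((c, d), o') : It Γ k)) := Sum.inr.inj ht
          rw [ht', map_mul, map_mul, hyy, map_inv]
          group
        · exact hp t (by simp [ht])
    · have hyy : f y = 1 := hp y (by simp)
      have hzz : f z = 1 := hp z (by simp)
      apply Wbi_same h
      · rw [Wbi_hs_append, Wbi_hs_append]
        rfl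
      · intro t ht
        simp only [List.mem_append, List.mem_cons] at ht
        rcases ht with ht | ht | ht | ht
        · exact hp t (by simp [ht])
        · exact hp t (by simp [ht])
        · have ht' : t = z⁻¹ * y * z := Sum.inr.inj ht
          rw [ht', map_mul, map_mul, hyy, map_inv]
          group
        · exact hp t (by simp [ht])
  | ab A B a b y o =>
    have hyy : f y = 1 := hp y (by simp)
    apply Wbi_same h
    · rw [Wbi_hs_append, Wbi_hs_append]
      show SpQ.mapH f (hs A ++ ((a, y⁻¹ * b), o) :: hs B) =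
        SpQ.mapH f (hs A ++ ((a, b), o) :: hs B)
      rw [Wbi_mapH_append, Wbi_mapH_append, Wbi_mapH_cons, Wbi_mapH_cons]
      simp [hyy]
    · intro t ht
      simp only [List.mem_append, List.mem_cons] at ht
      rcases ht with ht | ht | ht | ht
      · exact hp t (by simp [ht])
      · cases ht
      · have ht' := Sum.inr.inj ht
        rw [ht']
        simp only [map_mul, map_inv, hyy]
        group
      · exact hp t (by simp [ht])
  | ab' A B a b y o =>
    have hyy : f y = 1 := hp y (by simp)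
    apply Wbi_same h
    · rw [Wbi_hs_append, Wbi_hs_append]
      show SpQ.mapH f (hs A ++ ((a, a⁻¹ * ((a * b * a⁻¹ * b⁻¹) * y * (a * b * a⁻¹ * b⁻¹)⁻¹) *
          a * b), o) :: hs B) = SpQ.mapH f (hs A ++ ((a, b), o) :: hs B)
      rw [Wbi_mapH_append, Wbi_mapH_append, Wbi_mapH_cons, Wbi_mapH_cons]
      have e : f (a⁻¹ * ((a * b * a⁻¹ * b⁻¹) * y * (a * b * a⁻¹ * b⁻¹)⁻¹) * a * b) = f b := by
        simp only [map_mul, map_inv, hyy]
        group
      show _ ++ ((f a, f (a⁻¹ * ((a * b * a⁻¹ * b⁻¹) * y * (a * b * a⁻¹ * b⁻¹)⁻¹) * a * b)), o) ::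
        _ = _ ++ ((f a, f b), o) :: _
      rw [e]
    · intro t ht
      simp only [List.mem_append, List.mem_cons] at ht
      rcases ht with ht | ht | ht | ht
      · exact hp t (by simp [ht])
      · cases ht
      · have ht' := Sum.inr.inj ht
        rw [ht']
        simp only [map_mul, map_inv, hyy]
        group
      · exact hp t (by simp [ht])

private theorem Wbi_inv {g k : ℕ} {Γ : Type} [Group Γ] {w : SurfaceGroup g → ZMod k}
    (hw : IsSpinStructure k w) (f : Γ →* SurfaceGroup g) {X X' : List (It Γ k)}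
    (hr : IReach X X') (h : Wbi_Q w f X) : Wbi_Q w f X' := by
  induction hr with
  | refl => exact h
  | tail _ hs' ih => exact Wbi_step hw f hs' ih

/-- [Wbi] -/
theorem thm_Wbi (hS : St_Sim) : St_Wbi := by
  intro g n k w hw φ hφ hx0 X P hXP x hx
  obtain ⟨y, q, junk, hr⟩ := hx
  -- the reachable list of items
  have hR : IReach (istd (wty w φ)) (X ++ hl (junk ++ [((x, y), (0, q))])) :=
    hXP.trans ((IReach.of_wreach hr).left X)
  -- the mapping class
  have hB := hS (F g n) k _ _ hR
  rw [Wbi_sim_istd] at hB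
  have hB' : MR (stdL g n, stdM g n) ((sim (X ++ hl (junk ++ [((x, y), ((0 : ZMod k), q))]))).1,
      (sim (X ++ hl (junk ++ [((x, y), ((0 : ZMod k), q))]))).2) := hB
  obtain ⟨θ, hθ, hθx, hθL, -⟩ := LGP.thm_Aut g n _ _ hB'
  have hmem : ((x, y) : F g n × F g n) ∈
      (sim (X ++ hl (junk ++ [((x, y), ((0 : ZMod k), q))]))).1 := by
    rw [Wbi_sim_fst, Wbi_hs_append, Wbi_hs_hl]
    unfold bare
    simp
  rw [← hθL] at hmem
  obtain ⟨p, hp, hpe⟩ := List.mem_map.1 hmem
  unfold stdL at hp
  obtain ⟨i, rfl⟩ := (List.mem_ofFn' _ _).1 hp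
  have hxi : x = θ (ga i) := (congrArg Prod.fst hpe).symm
  have hNS1 : NS (φ x) := by
    rw [hxi]
    exact LGP.Psh_NS_map hφ ⟨θ, hθ, i, rfl⟩
  have hNS2 : NS (φ (x * x0 g n)) := by
    have e : x * x0 g n = θ (ga i * x0 g n) := by rw [map_mul, hθx, ← hxi]
    rw [e]
    exact LGP.Psh_NS_map hφ (LGP.Psh_NS_map hθ (LGP.thm_Psh LGP.thm_Aut g n i))
  -- the weight
  obtain ⟨ψ, hψ, hψe⟩ := LGP.thm_Dsc g n φ hφ hx0
  have h1 : SpQ.mapH ((prj g n).comp φ.toMonoidHom) (dstd (n := n) (wty w φ)) =
      SpQ.decor w ψ := by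
    unfold SpQ.mapH dstd SpQ.decor
    rw [List.map_ofFn]
    congr 1
    funext j
    have ea : prj g n (φ (ga j)) = ψ (a j) := by
      rw [hψe]
      congr 1
    have eb : prj g n (φ (gb j)) = ψ (b j) := by
      rw [hψe]
      congr 1
    show ((prj g n (φ (ga j)), prj g n (φ (gb j))),
      (w (prj g n (φ (ga j))), w (prj g n (φ (gb j))))) = _
    rw [ea, eb]
  have h2 : ∀ z ∈ stdM g n, ((prj g n).comp φ.toMonoidHom) z = 1 := by
    intro z hz
    unfold stdM at hz
    obtain ⟨j, rfl⟩ := (List.mem_ofFn' _ _).1 hz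
    show prj g n (φ (gx j)) = 1
    rw [hψe, map_eq_one_iff ψ ψ.injective]
    unfold prj gx
    rw [FreeGroup.lift_apply_of]
  have h3 : Wbi_Q w ((prj g n).comp φ.toMonoidHom) (istd (n := n) (wty w φ)) := by
    refine ⟨⟨ψ, hψ, ?_⟩, ?_⟩
    · unfold istd
      rw [Wbi_hs_append, Wbi_hs_hl, Wbi_hs_inr, List.append_nil]
      exact h1
    · intro z hz
      unfold istd at hz
      rcases List.mem_append.1 hz with hz | hz
      · obtain ⟨h', -, h''⟩ := mem_hl.1 hz
        cases h''
      · obtain ⟨z', hz', hzz⟩ := List.mem_map.1 hz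
        have h4 : z' = z := Sum.inr.inj hzz
        rw [← h4]
        exact h2 z' hz'
  obtain ⟨⟨ψ', hψ', he⟩, -⟩ := Wbi_inv hw _ hR h3
  have he' : SpQ.mapH ((prj g n).comp φ.toMonoidHom) (hs X ++ junk) ++
      ((prj g n (φ x), prj g n (φ y)), ((0 : ZMod k), q)) :: [] = SpQ.decor w ψ' := by
    rw [← he, Wbi_hs_append, Wbi_hs_hl]
    unfold SpQ.mapH
    simp
  obtain ⟨j, -, hj⟩ := SpQ.decor_get he'
  simp only [Prod.mk.injEq] at hj
  obtain ⟨⟨hj1, -⟩, hj2, -⟩ := hj
  have hW : w (prj g n (φ x)) = 0 := by rw [hj1, ← hj2]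
  refine ⟨⟨hNS1, hW⟩, hNS2, ?_⟩
  rw [map_mul, map_mul, hx0, LGP.Wbr_prj_x0, mul_one]
  exact hW

end Pool.Agent.LGC
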