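import Pool.Agent.LGC.Tod
import Pool.Agent.LGC.Fnn
import Pool.Agent.LGC.Kil2
import Pool.Agent.LGC.All
import Pool.Agent.LGC.Sim
import Pool.Agent.LGC.Wbi
import Pool.Agent.LGC.Pas
import Pool.Agent.LGC.Lif
import Pool.Agent.LGC.Cnk
import Pool.Agent.LGC.Slk
import Pool.Agent.LGC.Gnk
import Pool.Agent.LGC.Gek
import Pool.Agent.LGC.Grw2
import Pool.Agent.LGC.Vek2
import Pool.Agent.LGC.Prn2
import Pool.Agent.LGC.Blk2
import Pool.Agent.LGC.Ext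
import Pool.Agent.LGC.Mci
import Pool.Agent.LGP.WMain

/-!
# LGC / Final: Theorem D

Helper21, for MP_0707f5_ag.
-/

set_option autoImplicit false

namespace Pool.Agent.LGC

open Matrix Module Helper12.Sc
open SpQ (IsSpinStructure)
open LGP (F ga gb gx x0 MC NS prj)

theorem all_Blk2 : St_Blk2 :=
  thm_Blk2 (thm_Prn2 (thm_Vek2 thm_All (thm_Grw2 thm_All
    (thm_Gek (thm_Gnk (thm_Cnk thm_Pas) thm_Slk thm_Lif) thm_Map)))) thm_Fnn (thm_Wbi thm_Sim)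

/-- quasi-unipotent elements: finitely many traces -/
theorem quasi_traces {g n R r d : ℕ} (N : Subgroup (F g n)) [N.FiniteIndex]
    (ρ : F g n →* GL (Fin R) ℂ) (σ : N →* GL (Fin r) ℂ) (C : Set N)
    (h1 : ∀ y : N, ∀ z : ℂ, (σ y : Matrix (Fin r) (Fin r) ℂ).charpoly.IsRoot z →
      z ∈ Wd d {u | (ρ (y : F g n) : Matrix (Fin R) (Fin R) ℂ).charpoly.IsRoot u})
    (h2 : ∀ y ∈ C, Pool.Agent.HZ.Quasi (ρ (y : F g n))) :
    {z : ℂ | ∃ y ∈ C, z = (σ y : Matrix (Fin r) (Fin r) ℂ).trace}.Finite := by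
  have : Group.FG (F g n) := by
    rw [Group.fg_iff]
    exact ⟨_, FreeGroup.closure_range_of _, Set.finite_range _⟩
  have : Group.FG N := inferInstance
  have hfg : σ.range.FG := by
    rw [← Group.fg_iff_subgroup_fg]
    infer_instance
  obtain ⟨M, hM, hexp⟩ := Pool.Agent.HZ.exists_exponent σ.range hfg
  have hZ : {z : ℂ | z ^ M = 1}.Finite := by
    classical
    refine ((Polynomial.nthRoots M (1 : ℂ)).toFinset.finite_toSet).subset ?_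
    intro z hz
    rw [Finset.mem_coe, Multiset.mem_toFinset, Polynomial.mem_nthRoots hM]
    exact hz
  refine (Pool.Agent.HZ.finite_traces_of_roots r _ hZ).subset ?_
  rintro _ ⟨y, hy, rfl⟩
  refine ⟨_, fun c hc => ?_, rfl⟩
  exact hexp (σ y) ⟨y, rfl⟩ c hc (Wd_root d (fun z hz => h2 y hy z hz) c (h1 y c hc))

/-- **Theorem D** -/
theorem thmD2 (g n k R m h : ℕ) (w : SurfaceGroup g → ZMod k) (hk : 0 < k)
    (hw : IsSpinStructure k w) (N : Subgroup (F g n)) [N.Normal] [N.FiniteIndex] (hh : h ≤ g)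
    (hN : ∃ θ ∈ MC g n, ∀ i : Fin g, (i : ℕ) < h → θ (ga i) ∈ N ∧ θ (gb i) ∈ N)
    (ρ : F g n →* GL (Fin R) ℂ) (r : Fin m → ℕ) (σ : ∀ j, N →* GL (Fin (r j)) ℂ)
    (hσ : ∀ j, Cnd2 N h (r j) (σ j))
    (h1 : ∃ d, ∀ (y : N) (z : ℂ), (ρ (y : F g n) : Matrix (Fin R) (Fin R) ℂ).charpoly.IsRoot z →
      z ∈ Wd d {u | ∃ j, (σ j y : Matrix (Fin (r j)) (Fin (r j)) ℂ).charpoly.IsRoot u})
    (h2 : ((∀ y : N, NS (y : F g n) → w (prj g n y) = 0 → Pool.Agent.HZ.Quasi (ρ (y : F g n))) ∧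
        ∃ d, ∀ (y : N) (j : Fin m) (z : ℂ),
          (σ j y : Matrix (Fin (r j)) (Fin (r j)) ℂ).charpoly.IsRoot z →
          z ∈ Wd d {u | (ρ (y : F g n) : Matrix (Fin R) (Fin R) ℂ).charpoly.IsRoot u}) ∨
      ∀ j, {z : ℂ | ∃ y : N, NS (y : F g n) ∧ w (prj g n y) = 0 ∧
        z = (σ j y : Matrix (Fin (r j)) (Fin (r j)) ℂ).trace}.Finite) :
    {χ : F g n → ℂ | ∃ φ ∈ MC g n,
      χ = fun y => (ρ (φ y) : Matrix (Fin R) (Fin R) ℂ).trace}.Finite := by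
  have hfin : ∀ j, {z : ℂ | ∃ y : N, NS (y : F g n) ∧ w (prj g n y) = 0 ∧
      z = (σ j y : Matrix (Fin (r j)) (Fin (r j)) ℂ).trace}.Finite := by
    rcases h2 with ⟨h2, d, h3⟩ | h2
    · intro j
      refine (quasi_traces N ρ (σ j) {y | NS (y : F g n) ∧ w (prj g n y) = 0}
        (fun y z hz => h3 y j z hz) (fun y hy => h2 y hy.1 hy.2)).subset ?_
      rintro z ⟨y, hy1, hy2, rfl⟩
      exact ⟨y, ⟨hy1, hy2⟩, rfl⟩
    · exact h2
  obtain ⟨d, h1⟩ := h1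
  exact tod (thm_Ext thm_Fnn) thm_Fnn thm_Mci g n k R m h d w hk N hN ρ r σ h1
    fun θ hθ hθ0 hθN j τ =>
      all_Blk2 g n k (r j) h w hw N θ hθ hθ0 hh hθN (σ j) (hσ j) (hfin j) τ

end Pool.Agent.LGC
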