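import Pool.Agent.LGP.WDefs

/-!
# Finite covers of punctured surfaces with a spin structure: definitions and statements

Helper21, for MP_0707f5_ag (Theorem C).

Goal: `N` is a normal subgroup of finite index of `F g n`, some mapping class moves `h` handles into
`N` (these handles are called killed), `ρ : F g n →* GL (Fin R) ℂ` with `R` arbitrary, and the
character of `ρ` on `N` is the sum of the characters of representations of `N` of ranks `r` with
`4 r ^ 2 ≤ h`.  If `ρ y` is quasi-unipotent for the non-separating simple loops `y ∈ N` with winding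
number zero then the character of `ρ` has a finite orbit.

An ITEM is a decorated handle or a puncture; lists of items describe all orders of the handles and
punctures.  The killed good handles are kept at the right end.
-/

set_option autoImplicit false

namespace Pool.Agent.LGC

open Matrix Module Helper12.Sc
open SpQ (Hd WStep WReach WExt Good bare bd cj1 IsSpinStructure)
open LGP (F ga gb gx x0 MC NS MR stdL stdM dstd wty prj cyc)

/-! ### items and their moves -/

/-- an item: a decorated handle or a puncture -/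
abbrev It (Γ : Type) (k : ℕ) : Type := Hd Γ k ⊕ Γ

section items
variable {Γ : Type} [Group Γ] {k : ℕ}

/-- the boundary word of an item -/
def ib : It Γ k → Γ
  | Sum.inl h => bd h
  | Sum.inr y => y

/-- conjugation of an item: `u⁻¹ * _ * u` -/
def icj (u : Γ) : It Γ k → It Γ k
  | Sum.inl h => Sum.inl (cj1 u h)
  | Sum.inr y => Sum.inr (u⁻¹ * y * u)

/-- the letters of an item -/
def lt : It Γ k → Set Γ
  | Sum.inl h => {h.1.1, h.1.2}
  | Sum.inr y => {y}

/-- handles as items -/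
def hl (L : List (Hd Γ k)) : List (It Γ k) := L.map Sum.inl

/-- elementary moves of lists of items; they preserve the product of the boundary words -/
inductive IStep : List (It Γ k) → List (It Γ k) → Prop
  | st (X Y : List (It Γ k)) (L L' : List (Hd Γ k)) : WStep L L' →
      IStep (X ++ hl L ++ Y) (X ++ hl L' ++ Y)
  | br (X Y : List (It Γ k)) (i j : It Γ k) :
      IStep (X ++ i :: j :: Y) (X ++ icj (ib i)⁻¹ j :: i :: Y)
  | br' (X Y : List (It Γ k)) (i j : It Γ k) :
      IStep (X ++ i :: j :: Y) (X ++ j :: icj (ib j) i :: Y)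
  | ab (X Y : List (It Γ k)) (a b y : Γ) (o : ZMod k × ZMod k) :
      IStep (X ++ Sum.inl ((a, b), o) :: Sum.inr y :: Y)
        (X ++ Sum.inl ((a, y⁻¹ * b), o) ::
          Sum.inr ((a * (y⁻¹ * b) * a⁻¹ * (y⁻¹ * b)⁻¹)⁻¹ * (a * y * a⁻¹) *
            (a * (y⁻¹ * b) * a⁻¹ * (y⁻¹ * b)⁻¹)) :: Y)
  | ab' (X Y : List (It Γ k)) (a b y : Γ) (o : ZMod k × ZMod k) :
      IStep (X ++ Sum.inl ((a, b), o) :: Sum.inr y :: Y)
        (X ++ Sum.inl ((a, a⁻¹ * ((a * b * a⁻¹ * b⁻¹) * y * (a * b * a⁻¹ * b⁻¹)⁻¹) * a * b), o) ::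
          Sum.inr (a⁻¹ * ((a * b * a⁻¹ * b⁻¹) * y * (a * b * a⁻¹ * b⁻¹)⁻¹) * a) :: Y)

/-- reachable lists of items -/
def IReach (X Y : List (It Γ k)) : Prop := Relation.ReflTransGen IStep X Y

/-- the subgroup generated by the letters of a list of items -/
def GI (X : List (It Γ k)) : Subgroup Γ := Subgroup.closure {z | ∃ i ∈ X, z ∈ lt i}

/-- a killed handle: its entries are in `N` -/
def Kl (N : Subgroup Γ) (h : Hd Γ k) : Prop := h.1.1 ∈ N ∧ h.1.2 ∈ N

end items

/-- the image of an item under a homomorphism -/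
def imap {Γ Δ : Type} [Group Γ] [Group Δ] {k : ℕ} (f : Γ →* Δ) : It Γ k → It Δ k
  | Sum.inl h => Sum.inl ((f h.1.1, f h.1.2), h.2)
  | Sum.inr y => Sum.inr (f y)

/-- the handles of a list of items -/
def hs {Γ : Type} {k : ℕ} : List (It Γ k) → List (Hd Γ k)
  | [] => []
  | Sum.inl h :: X => h :: hs X
  | Sum.inr _ :: X => hs X

/-- the handles and punctures of a list of items, the punctures conjugated and moved to the right
through the handles, which are unchanged -/
def sim {Γ : Type} [Group Γ] {k : ℕ} : List (It Γ k) → List (Γ × Γ) × List Γ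
  | [] => ([], [])
  | Sum.inl h :: X => (h.1 :: (sim X).1, (sim X).2)
  | Sum.inr y :: X => ((sim X).1, ((comm (sim X).1)⁻¹ * y * comm (sim X).1) :: (sim X).2)

/-- the standard list of items -/
def istd {g n k : ℕ} (τ : Fin g → ZMod k × ZMod k) : List (It (F g n) k) :=
  hl (dstd τ) ++ (stdM g n).map Sum.inr

/-! ### geometry -/

/-- **SIM**.  Moves of items are moves of tuples (handles, punctures).
PROOF. One step `IStep X X'`; then induction.  Write `sim Y = (L, M)`, `c = comm L`.  First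
`MR (sim Y) (sim Y') → MR (sim (X ++ Y)) (sim (X ++ Y'))` when `comm (sim Y).1 * (sim Y).2.prod` ... is
not enough, so do the induction on `X` with the stronger statement: if `comm` of the two lists of
handles is the same, or if the item in front is a handle, this is clear; in general `sim (y :: Y) =
(L, c⁻¹ y c :: M)`, so it is best to prove for every elementary move that for ALL `X` the tuples
`sim (X ++ Y)` and `sim (X ++ Y')` are connected, by writing `sim (X ++ Y) = (hX ++ L, M_X(c) ++ M)`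
where `hX` are the handles of `X` and `M_X(c)` are the punctures of `X` conjugated: the puncture `y` of
`X = X₁ ++ y :: X₂` becomes `(comm (hs X₂) * c)⁻¹ y (comm (hs X₂) * c)`.
(st) `L → L'` in the handles, `comm` unchanged (`Step.comm_eq`, `SpQ.step_bare`): `Mv.st`.
(br, br') of two handles: as `st`.  (br) of (handle `h`, puncture `y`): `sim` is unchanged; the same for
(br') of (puncture, handle).  (br, br') of two punctures: `sw`, `sw'`, conjugated (the moves
commute with conjugation of all punctures).  (br') of (handle `h`, puncture `y`), with `Y` to the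
right, `sim Y = (L, M)`, `c = comm L`, `ŷ = c⁻¹ y c`: before: `(h :: L, ŷ :: M)`; after:
`(y⁻¹ h y :: L, ŷ' :: M)` with `ŷ' = (comm (y⁻¹hy :: L))⁻¹ y comm (y⁻¹hy :: L)`, and all punctures of
`X` are conjugated by one more factor: their conjugating element is `... comm h * c` before and
`... comm (y⁻¹hy) * c` after.  So first write the punctures of `X` as they stand: they are to the LEFT
of the others in the list of punctures, and the product of all is preserved.  Moves: `h` moves to the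
end of the handles, `L` unchanged, and becomes `c⁻¹ h c` (`Step.br'`); the punctures of `X` are moved
to the right of `ŷ` by `sw'`-moves with `ŷ` unchanged (then they are conjugated by `ŷ`); the full
twist of `(c⁻¹ h c, ŷ)` is the sequence `ab, rot, rot, ab, rot', rot'`: it sends `(a, b), y` to
`(y⁻¹ a y, y⁻¹ b y), y⁻¹ D⁻¹ y D y` with `D = a b a⁻¹ b⁻¹` (found by computer, check with `group`);
then move back.  (br) of (puncture, handle) is the inverse (`Mv.symm` in LGP/Aut.lean).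
(ab, ab'): `(a, b)` moves to the end of the handles, `ŷ` to the front of the punctures, `Mv.ab`, and
back. -/
def St_Sim : Prop := ∀ (Γ : Type) [Group Γ] (k : ℕ) (X X' : List (It Γ k)), IReach X X' →
    MR (sim X) (sim X')

/-- **WBI**.  First components of weight zero are non-separating simple loops with winding number
zero, also after multiplication with `x_0`.
PROOF. As `LGP.thm_Wbr`.  `x ∈ SpQ.fc P 0`: `WReach P (junk ++ [((x, y), (0, q))])`, so the list
`X₁ ++ hl (junk ++ [((x, y), (0, q))])` is reachable.  (1) `St_Sim`: `sim (istd τ) = (stdL, stdM)` and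
`(sim X).1 = bare (hs X)` contains `(x, y)`; continue as in `LGP.thm_Wbr` (`thm_Aut`, `thm_Psh`).
(2) Weights: if `f y = 1` for all punctures `y` of `X` and `IStep X X'` then the same holds for `X'`,
and `WReach (SpQ.mapH f (hs X)) (SpQ.mapH f (hs X'))` (`SpQ.mapH_step`; `br` and `br'` of two handles
are `WStep.br`, `WStep.br'`; conjugation by, or `ab` with, an element with image `1` changes nothing).
With `f = (prj g n).comp φ.toMonoidHom`: `St_Dsc` and `SpQ.reach_decor` as in `LGP.Wbr_inv`. -/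
def St_Wbi : Prop := ∀ (g n k : ℕ) (w : SurfaceGroup g → ZMod k), IsSpinStructure k w →
    ∀ φ ∈ MC g n, φ (x0 g n) = x0 g n → ∀ (X : List (It (F g n) k)) (P : List (Hd (F g n) k)),
    IReach (istd (wty w φ)) (X ++ hl P) → ∀ x ∈ SpQ.fc P 0,
    (NS (φ x) ∧ w (prj g n (φ x)) = 0) ∧
      (NS (φ (x * x0 g n)) ∧ w (prj g n (φ (x * x0 g n))) = 0)

/-- **PAS**.  A handle `(x, y)` moves around the loops `a`, `b` of the neighbouring handle.
PROOF. (1) is the sequence `tw` (on 1), `tw` (on 2), `rot'` (on 2), `sl`, `rot` (on 1), `br'`, `rot`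
(on 1), `sl`, `rot'` (on 2).  (2) is `tw` (on 1), `sl`, `rot` (on 1), `rot` (on 2), `tw` (on 2), `br'`,
`sl`, `rot'` (on 2), `rot'` (on 1).  Here (on 1), (on 2) is the position of the handle.  Weights and
words: `ring`, `group`.  (3) is the inverse of (1): the steps have inverses (`tw, tw'`; `rot, rot'`;
`sl, sl'`; `br, br'`): put `x = a x' a⁻¹` etc., or do the reversed sequence of the inverse steps.
(4) is the inverse of (2). -/
def St_Pas : Prop := ∀ (Γ : Type) [Group Γ] (k : ℕ) (x y a b : Γ) (p q p' q' : ZMod k),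
    WReach [((x, y), (p, q)), ((a, b), (p', q'))]
      [((a, a⁻¹ * (x * y * x⁻¹ * y⁻¹) * a * b), (p', q' + 2)),
        ((a⁻¹ * x * a, a⁻¹ * y * a), (p, q))] ∧
    WReach [((x, y), (p, q)), ((a, b), (p', q'))]
      [((x * y * x⁻¹ * y⁻¹ * a, b), (p' + 2, q')), ((b * x * b⁻¹, b * y * b⁻¹), (p, q))] ∧
    WReach [((a, b), (p', q')), ((x, y), (p, q))]
      [((a * x * a⁻¹, a * y * a⁻¹), (p, q)), ((a, (x * y * x⁻¹ * y⁻¹)⁻¹ * b), (p', q' - 2))] ∧
    WReach [((a, b), (p', q')), ((x, y), (p, q))]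
      [((b⁻¹ * x * b, b⁻¹ * y * b), (p, q)),
        (((b⁻¹ * (x * y * x⁻¹ * y⁻¹) * b)⁻¹ * a, b), (p' - 2, q'))]

/-- **LIF**.  Moves lift along homomorphisms.
PROOF. As `Step.lift`, `Mv.lift` in LGP/Aut.lean. -/
def St_Lif : Prop := ∀ (Γ Δ : Type) [Group Γ] [Group Δ] (k : ℕ) (f : Γ →* Δ) (X : List (It Γ k))
    (Y : List (It Δ k)), IReach (X.map (imap f)) Y → ∃ X', IReach X X' ∧ X'.map (imap f) = Y

/-- **MAP**.  Moves are natural. -/
def St_Map : Prop := ∀ (Γ Δ : Type) [Group Γ] [Group Δ] (k : ℕ) (f : Γ →* Δ)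
    (X Y : List (It Γ k)), IReach X Y → IReach (X.map (imap f)) (Y.map (imap f))

/-! ### conjugates of a handle, and slides -/

/-- **CNJ**.  If a subgroup contains all reachable conjugates of the last handle then it contains all
its conjugates.
PROOF. (0) The hypothesis holds for `p' = cj1 v p` at any position: `p'` moves to the right end
unchanged (`IStep.br`).  A STATE is `(X₁, p', X₂)`, `p' = cj1 v p`, with `X₁ ++ inl p' :: X₂` reachable;
`T` = the set of the letters of `X₁ ++ X₂`, their inverses, and `1`; `V m` = the set of the products of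
`m` elements of `T`; `D = bd p'`.
(1) INS.  Let `T, T'` be two such sets, `K` a subgroup, `C ⊆ K` with `1 ∈ C`, and suppose that for every
`t ∈ T` there are `t' ∈ T'`, `c₀ ∈ K`, `c₁ ∈ C` with `t' = c₀ t c₁`, and that `u K u⁻¹ ≤ H` for
`u ∈ V j`, `j < m`.  Then for every `u ∈ V m` there are `u' ∈ V' m`, `h ∈ H`, `c ∈ C` with `u' = h u c`.
Induction on `m`: `u = u₀ t`, `u₀' t' = h u₀ c c₀ t c₁ = (h (u₀ c c₀ u₀⁻¹)) (u₀ t) c₁`.
(2) Claim `C m`: for all states and all `u ∈ V m`: `u E(p') u⁻¹ ≤ H`.  `C 0` is (0).  Let `C m` hold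
(so `C j` for `j ≤ m`, as `1 ∈ T`), `u ∈ V m`, `t` a letter or inverse letter of an item `i`; to prove
`u t E(p') t⁻¹ u⁻¹ ≤ H`.
(3) Suppose that `p'` and `i` are not neighbours, say `X₂ = j :: Y ++ i :: Z`.  Move `p'` over `j`
(`IStep.br`, `j' = D j D⁻¹`): the letters of `j` change by conjugation with `D`, the others do not
change.  INS with `K = C = ⟨D⟩` gives `u' = h u D ^ e`, and `u' t = h (u D^e u⁻¹) (u t)`, and
`u D^e u⁻¹ ∈ H` by `C m`.  So the claim for the new state, `u'` and `t` implies the claim for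
`u`, `t`.  The same on the left (`IStep.br'`, `j' = D⁻¹ j D`).  Induction on the distance.
(4) Neighbours.  If `p'` is on the wrong side of `i` for (5), move `p'` over `i`: `i' = D^{±1} i D^{∓1}`,
`t' = D^{±1} t D^{∓1}`, `u' t' = h' (u t) D^{∓1}`, and `D^{±1}` normalises `E(p')`: as (3).
(5) Pass: there is a state with `p'' = t p' t⁻¹` in which only the letters of `i` have changed.
`i = (a, b)`: `t = a⁻¹` and `t = b` if `p'` is on the left of `i` (`St_Pas` (1), (2)), `t = a` and `t = b⁻¹`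
if it is on the right (`St_Pas` (3), (4)).  `i = y` a puncture: `t = y⁻¹` if `p'` is on the left
(`IStep.br'`), `t = y` if it is on the right (`IStep.br`), `y` is unchanged.  The letters `s` of `i` and
their inverses become `c₀ s c₁` with `c₀ ∈ K = ⟨D, t D t⁻¹⟩` and `c₁ ∈ C = {D^e} ∪ {(t D t⁻¹)^e}`, for
instance (1): `b'' = t D t⁻¹ b`, `b''⁻¹ = b⁻¹ (t D t⁻¹)⁻¹`.  INS: `u' = h u c`, where `u K u⁻¹ ≤ H` for
`u ∈ V j`, `j < m`, because `u D u⁻¹ ∈ H` and `(u t) D (u t)⁻¹ ∈ H`, `u t ∈ V (j + 1)`.  `C m` for the new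
state: `u' t E(p') t⁻¹ u'⁻¹ ≤ H`.  If `c = D^e`: `u' = h (u D^e u⁻¹) u`, done.  If `c = (t D t⁻¹)^e`:
`c t E(p') t⁻¹ c⁻¹ = t E(p') t⁻¹`, done. -/
def St_Cnj : Prop := ∀ (Γ : Type) [Group Γ] (k : ℕ) (X : List (It Γ k)) (p : Hd Γ k)
    (H : Subgroup Γ),
    (∀ (X' : List (It Γ k)) (v : Γ), IReach (X ++ [Sum.inl p]) (X' ++ [Sum.inl (cj1 v p)]) →
      SpQ.E [cj1 v p] ≤ H) →
    ∀ v ∈ GI X, SpQ.E [cj1 v p] ≤ H

/-- **SLO**.  The second entry of a handle `(1, b)` can be multiplied by any element of the group.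
PROOF. As `slot_all` (Helper12/ScSlot.lean), with weights; say that `X ~ X'` if the lists differ only
in the weights of their handles (then `GI X = GI X'`).  `bd ((1, b), o) = 1`, so the handle moves over
its neighbours without any change (`IStep.br`, `IStep.br'`), and nothing else changes.  To the left of
a handle `(c, d)`: `WStep.sl` replaces `b` by `c d c⁻¹ b` and changes only weights (not the weight of
`1`); after the rotation `WStep.rot` of `(c, d)`, and back with `WStep.rot'` (elements: back to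
`(c, d)`), it replaces `b` by `c b`; `WStep.sl'` gives the inverses; so `d b` is reached too.  To the
right end of a handle there is the neighbour puncture `y`: `IStep.ab`, `IStep.ab'` replace `b` by
`y⁻¹ b`, `y b`, and `y` is unchanged.  Induction on `u ∈ GI X` (`Subgroup.closure_induction_left`). -/
def St_Slo : Prop := ∀ (Γ : Type) [Group Γ] (k : ℕ) (X : List (It Γ k)) (b : Γ)
    (o : ZMod k × ZMod k) (u : Γ), u ∈ GI X → ∃ (X' : List (It Γ k)) (t : ZMod k),
    IReach (X ++ [Sum.inl ((1, b), o)]) (X' ++ [Sum.inl ((1, u * b), (o.1, t))])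

/-- **GNO**.  If the list generates the group and a subgroup contains all reachable systems of killed
good handles then it contains `N`.
PROOF. Let `G = GI X`.  (1) For `v ∈ G` and `q ∈ B`: `E [cj1 v q] ≤ H`.  Write `B = B₁ ++ q :: B₂`,
induction on the length of `B₁`.  `q` moves to the left of `B₁`, which does not change
(`SpQ.move_front`): it becomes `q' = cj1 c q`, `c ∈ E B₁`.  `St_Cnj` for `X`, `q'`, with `B₁ ++ B₂` to the
right (`IReach.right`); conjugates of good killed handles are good and killed.  So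
`E [cj1 v q'] ≤ H`.  All `E [cj1 v p]`, `p ∈ B₁`, are in `H`, so `v⁻¹ c v ∈ H`, and
`v⁻¹ q v = (v⁻¹ c v) (v⁻¹ q' v) (v⁻¹ c v)⁻¹`.
(2) Let `J` be the subgroup generated by the entries of all `cj1 v q`, `v ∈ G`, `q ∈ B`.  `J ≤ H ⊓ N`, `J` is
normalised by `G` and by `E B ≤ J`, so `J` is normal.  `u ∈ N ⊓ G`: to prove `u ∈ H`.  `B = p :: B₂`.  In
`Γ ⧸ J`: `p` becomes `((1, 1), (-1, 1))`.  `St_Slo` and `St_Lif` (for `X ++ [inl p]`, then `IReach.right`
with `B₂`): `X ++ [p] ++ B₂` reaches `X' ++ [p'] ++ B₂`, `p' = ((a', y), (-1, t))` with `a' ∈ J`,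
`y ∈ u J`.  `SpQ.good_of_neg_one`: `p'' = ((a', y''), (-1, 1))`, `E [p''] = E [p']`, so it is killed, and
`y ∈ E [p''] ≤ H`.  So `u ∈ H`.
(3) `LGC.grp` (Bas.lean) with (1), (2). -/
def St_Gno : Prop := ∀ (Γ : Type) [Group Γ] (k : ℕ) (N : Subgroup Γ) [N.Normal]
    (X : List (It Γ k)) (B : List (Hd Γ k)), B ≠ [] → (∀ h ∈ B, Good h) → (∀ h ∈ B, Kl N h) →
    GI (X ++ hl B) = ⊤ → ∀ H : Subgroup Γ,
    (∀ (X' : List (It Γ k)) (B' : List (Hd Γ k)), IReach (X ++ hl B) (X' ++ hl B') →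
      B'.length = B.length → (∀ h ∈ B', Good h) → (∀ h ∈ B', Kl N h) → SpQ.E B' ≤ H) → N ≤ H

/-- **GEN**.  The same without the hypothesis that the list generates the group.
PROOF. `Δ = GI (X ++ hl B)` as a group, `f = Δ.subtype`; the lists are images of lists of `Δ`
(`List.map` of items with letters in `Δ`); `St_Gno` for `Δ`, `N.subgroupOf Δ`, `H.subgroupOf Δ`;
`St_Map` for `f`. -/
def St_Gen : Prop := ∀ (Γ : Type) [Group Γ] (k : ℕ) (N : Subgroup Γ) [N.Normal]
    (X : List (It Γ k)) (B : List (Hd Γ k)), B ≠ [] → (∀ h ∈ B, Good h) → (∀ h ∈ B, Kl N h) →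
    ∀ H : Subgroup Γ,
    (∀ (X' : List (It Γ k)) (B' : List (Hd Γ k)), IReach (X ++ hl B) (X' ++ hl B') →
      B'.length = B.length → (∀ h ∈ B', Good h) → (∀ h ∈ B', Kl N h) → SpQ.E B' ≤ H) →
    N ⊓ GI (X ++ hl B) ≤ H

/-! ### the vector theorem -/

/-- **ALL**.  If a subgroup contains all spare handles then it contains everything.
PROOF. This is `LGP.wall_mem` (LGP/WAll.lean) with an arbitrary predicate `full` on subgroups in the
place of `cyc R w _ = cyc R w (E B)`: copy WAll.lean and the part `es` of Ess.lean, with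
`st C = if full (En C) then 0 else 1`; the place where `exists_noness` is used becomes a hypothesis. -/
def St_All : Prop := ∀ (Γ : Type) [Group Γ] (k : ℕ) (full : Subgroup Γ → Prop)
    (B : List (Hd Γ k)) (H : Subgroup Γ), (∀ h ∈ B, Good h) →
    (∀ B' : List (Hd Γ k), WReach B B' → (∀ h ∈ B', Good h) →
      ∃ (s : List (Hd Γ k)) (p : Hd Γ k) (t : List (Hd Γ k)), B' = s ++ p :: t ∧
        full (SpQ.E (s ++ t))) →
    (∀ (B' : List (Hd Γ k)) (p : Hd Γ k), WReach B (B' ++ [p]) → (∀ h ∈ B' ++ [p], Good h) →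
      full (SpQ.E B') → SpQ.E [p] ≤ H) →
    SpQ.E B ≤ H

/-- **NON**.  A long list of killed handles contains one which is not essential.
PROOF. As `LGP.exists_noness` (LGP/Ess.lean) with `c C = cyc R w ((GI (X ++ hl C)).subgroupOf N)` for
`cyc R w (En C)`: by contradiction there are `C, D` with `B.Perm (C ++ D)`, `C.length = j`,
`j + 1 ≤ finrank (c C)` for all `j ≤ B.length`.  Step: if `c (C ++ [h]) = c C` for all `h ∈ D` then the
group `S = stb R (c C)`, mapped to `Γ`, contains `N ⊓ GI (X ++ hl (C ++ [h]))` for all `h ∈ D` (and so for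
`h ∈ C`, and `N ⊓ GI X`), so by `LGC.grp` (Bas.lean; `cj1 v h` with `v ∈ GI X` has its entries in
`N ⊓ GI (X ++ hl (C ++ [h]))`) it contains `N ⊓ GI (X ++ hl B)`, so `c B ≤ c C` and any `h ∈ D` is not
essential. -/
def St_Non : Prop := ∀ (K U Γ : Type) [Field K] [AddCommGroup U] [Module K U] [Group Γ]
    [FiniteDimensional K U] (k : ℕ) (N : Subgroup Γ) [N.Normal] (R : N →* Module.End K U) (w : U)
    (X : List (It Γ k)) (B : List (Hd Γ k)), w ≠ 0 → (∀ h ∈ B, Kl N h) →
    finrank K (cyc R w ((GI (X ++ hl B)).subgroupOf N)) ≤ B.length →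
    ∃ (s : List (Hd Γ k)) (p : Hd Γ k) (t : List (Hd Γ k)), B = s ++ p :: t ∧
      cyc R w ((GI (X ++ hl (s ++ t))).subgroupOf N) =
        cyc R w ((GI (X ++ hl B)).subgroupOf N)

/-- **VEN**.  The vector theorem for `N`.
PROOF. As `LGP.wvec` (LGP/WVec.lean), `W = cyc R w ⊤`, `D = finrank W`,
`Sp P = span (insert w {R ⟨x, hx⟩ w | x ∈ SpQ.fc P (-1), hx : x ∈ N})`.  Claim for `m < D`: the conclusion
holds, or there are `X', B', P` with `X' ++ hl (B' ++ P)` reachable from `X ++ hl B`, `B'`, `P` good and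
killed, `P.length = m`, `cyc R w ((GI (X' ++ hl B')).subgroupOf N) = W`, `m + 1 ≤ finrank (Sp P)`.
Step `m → m + 1 < D`: `B'.length ≥ D`.  (a) If some `X'', B₁, p` with `X'' ++ hl (B₁ ++ [p])` reachable
from `X' ++ hl B'`, `B₁ ++ [p]` good and killed of the length of `B'`,
`cyc R w ((GI (X'' ++ hl B₁)).subgroupOf N) = W` has `Sp (p :: P) ≠ Sp P`: take `X'', B₁, p :: P`.
(b) Otherwise let `H` be the image of `stb R (Sp P)` in `Γ`.  For all reachable `X'' ++ hl B''` from
`X' ++ hl B'`, `B''` good and killed of the same length: `E B'' ≤ H` by `St_All` with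
`full G = (cyc R w ((GI X'' ⊔ G).subgroupOf N) = W)`: `GI (X'' ++ hl B'') = GI (X' ++ hl B')`
(`IReach.GI_eq`), `St_Non` gives the second hypothesis (`WReach` preserves `E`, so being killed), and the
third one is as in `wvec`: `p = ((x, y), (-1, 1))`, `x` and `y⁻¹` are in `fc [p] (-1)` and stabilise
`Sp P` because `Sp (p :: P) = Sp P` (`SpQ.fc_mul`).  By `St_Gen`, `N ⊓ GI (X' ++ hl B') ≤ H`, so
`W ≤ Sp P`, and `T` vanishes on `Sp P`.
End: `m = D - 1`: `Sp P ≤ W` has dimension `D`. -/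
def St_Ven : Prop := ∀ (K U Γ : Type) [Field K] [AddCommGroup U] [Module K U] [Group Γ]
    [FiniteDimensional K U] (k : ℕ) (N : Subgroup Γ) [N.Normal] (R : N →* Module.End K U) (w : U)
    (X : List (It Γ k)) (B : List (Hd Γ k)), (∀ h ∈ B, Good h) → (∀ h ∈ B, Kl N h) →
    cyc R w ((GI (X ++ hl B)).subgroupOf N) = cyc R w ⊤ →
    2 * finrank K (cyc R w ⊤) ≤ B.length + 2 →
    ∀ T : U →ₗ[K] K, T w = 0 →
    (∀ (X' : List (It Γ k)) (P : List (Hd Γ k)), IReach (X ++ hl B) (X' ++ hl P) →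
      (∀ h ∈ P, Kl N h) → ∀ (x : Γ) (hx : x ∈ N), x ∈ SpQ.fc P (-1) → T (R ⟨x, hx⟩ w) = 0) →
    ∀ x : N, T (R x w) = 0

/-- **VEZ**.  The vector theorem for loops of weight zero.
PROOF. `w = 0` is trivial; let `w ≠ 0`, `D = finrank (cyc R w ⊤) ≥ 1`.  `St_Non`: `B₀ = s ++ p :: t` with
`cyc R w ((GI (X₀ ++ hl (s ++ t))).subgroupOf N) = cyc R w ⊤`.  `p` moves to the left end of the whole
list, conjugated, the others unchanged (`IReach.move_left`): `p'`, killed because `N` is normal.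
`SpQ.exists_zero`: `p'' = ((γ, δ), (0, q))`, `E [p''] = E [p']`.  `s ++ t = h₀ :: G₀` is not empty;
`SpQ.exists_good`: `h₁ :: B`, `B` good, `E (h₁ :: B) = E (s ++ t)`, so all are killed.
Now `inl p'' :: (X ++ hl B)` with `X = X₀ ++ [inl h₁]` is reachable and `B.length + 2 = B₀.length`.
`St_Ven` for `X, B` and `T' = T ∘ R γ`: `T' w = 0` because `γ ∈ fc [p''] 0` and `p''` moves to the right
end unchanged; if `X ++ hl B` reaches `X' ++ hl P` then `inl p'' :: (X ++ hl B)` reaches
`X'' ++ hl (p'' :: P)` (`p''` moves over `X'`, unchanged), and `x ∈ fc P (-1)` gives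
`γ * x ∈ fc (p'' :: P) 0` (`SpQ.fc_mul`, `0 + -1 + 1 = 0`).  So `T (R γ (R x w)) = 0` for all `x ∈ N`. -/
def St_Vez : Prop := ∀ (K U Γ : Type) [Field K] [AddCommGroup U] [Module K U] [Group Γ]
    [FiniteDimensional K U] (k : ℕ) (N : Subgroup Γ) [N.Normal] (R : N →* Module.End K U) (w : U)
    (X₀ : List (It Γ k)) (B₀ : List (Hd Γ k)), (∀ h ∈ B₀, Kl N h) → GI (X₀ ++ hl B₀) = ⊤ →
    2 * finrank K (cyc R w ⊤) ≤ B₀.length →
    ∀ T : U →ₗ[K] K,
    (∀ (X' : List (It Γ k)) (P : List (Hd Γ k)), IReach (X₀ ++ hl B₀) (X' ++ hl P) →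
      (∀ h ∈ P, Kl N h) → ∀ (x : Γ) (hx : x ∈ N), x ∈ SpQ.fc P 0 → T (R ⟨x, hx⟩ w) = 0) →
    ∀ x : N, T (R x w) = 0

/-! ### representations -/

/-- **PRN**.  Two representations of `N` with the same traces on the loops of weight zero.
PROOF. As `LGP.pair_eq` (LGP/WMain.lean): `St_Vez` for `U = Matrix × Matrix`, `R = LGP.prR ρ₁ ρ₂`,
`w = (A, A)`, `T = LGP.dtr r`, `LGP.finrank_cyc_le`.  The lists: `dstd τ = B₀ ++ C₀` with
`B₀.length = h` (the first `h` handles, killed); `istd τ = hl B₀ ++ Y` and `hl B₀` moves to the right end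
unchanged, `Y` conjugated (`IReach.move_block`); `GI (istd τ) = ⊤` (`LGP.closure_dstd`) and
`IReach.GI_eq`. -/
def St_Prn : Prop := ∀ (g n k r h : ℕ) (N : Subgroup (F g n)) [N.Normal], h ≤ g →
    (∀ i : Fin g, (i : ℕ) < h → ga i ∈ N ∧ gb i ∈ N) → ∀ (τ : Fin g → ZMod k × ZMod k)
    (ρ₁ ρ₂ : N →* GL (Fin r) ℂ) (A : Matrix (Fin r) (Fin r) ℂ), 4 * r * A.rank ≤ h →
    (∀ (X : List (It (F g n) k)) (P : List (Hd (F g n) k)), IReach (istd τ) (X ++ hl P) →
      (∀ p ∈ P, Kl N p) → ∀ (x : F g n) (hx : x ∈ N), x ∈ SpQ.fc P 0 →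
      ((ρ₁ ⟨x, hx⟩ : Matrix (Fin r) (Fin r) ℂ) * A).trace =
        ((ρ₂ ⟨x, hx⟩ : Matrix (Fin r) (Fin r) ℂ) * A).trace) →
    ∀ x : N, ((ρ₁ x : Matrix (Fin r) (Fin r) ℂ) * A).trace =
      ((ρ₂ x : Matrix (Fin r) (Fin r) ℂ) * A).trace

/-- **FNN**.  Equalities of traces on a set of elements are implied by finitely many of them.
PROOF. As `LGP.thm_Fin` (LGP/Fin.lean): `G` is a quotient of some `FreeGroup (Fin m)`
(`Group.fg_iff_exists_freeGroup_hom_surjective` or so); take the inverse image of `Λ`. -/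
def St_Fnn : Prop := ∀ (G : Type) [Group G] [Group.FG G] (r : ℕ) (Λ : Set G),
    ∃ s : Finset G, (∀ x ∈ s, x ∈ Λ) ∧ ∀ ρ₁ ρ₂ : G →* GL (Fin r) ℂ,
      (∀ x ∈ s, (ρ₁ x : Matrix (Fin r) (Fin r) ℂ).trace =
        (ρ₂ x : Matrix (Fin r) (Fin r) ℂ).trace) →
      ∀ x ∈ Λ, (ρ₁ x : Matrix (Fin r) (Fin r) ℂ).trace = (ρ₂ x : Matrix (Fin r) (Fin r) ℂ).trace

/-- **EXT**.  Finitely many characters on a subgroup of finite index: finitely many characters.
PROOF. `St_Fnn` for `G`, `Λ = univ`: finite `s`; the characters of `G` are determined by their values on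
`s`.  It suffices that for `x ∈ s` and for each of the finitely many characters `χ` of `N` the traces
of `ρ x`, `ρ ∈ Ξ` with character `χ` on `N`, are finite in number.  `m = N.index > 0`, `x ^ m ∈ N`
(`Subgroup.pow_index_mem`).  The traces of the powers of `ρ (x ^ m)` are values of `χ`, so the
characteristic polynomial of `ρ (x ^ m)` is the same for all these `ρ` (Newton; search the pool for
`charpoly_eq` of traces of powers, e.g. in HZ, SpQ, PRS, GF), the eigenvalues of `ρ x` are among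
the `m`-th roots of its roots, so in a finite set; `Pool.Agent.HZ.finite_traces_of_roots`. -/
def St_Ext : Prop := ∀ (G : Type) [Group G] [Group.FG G] (N : Subgroup G) [N.Normal]
    [N.FiniteIndex] (R : ℕ) (Ξ : Set (G →* GL (Fin R) ℂ)),
    {χ : N → ℂ | ∃ ρ ∈ Ξ, χ = fun y : N => (ρ (y : G) : Matrix (Fin R) (Fin R) ℂ).trace}.Finite →
    {χ : G → ℂ | ∃ ρ ∈ Ξ, χ = fun y => (ρ y : Matrix (Fin R) (Fin R) ℂ).trace}.Finite

/-- the condition on a representation of `N` -/
def Cnd {g n : ℕ} (N : Subgroup (F g n)) (h r : ℕ) (σ : N →* GL (Fin r) ℂ) : Prop :=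
  4 * r ^ 2 ≤ h ∨ (Pool.Agent.HZ.Irr σ.range ∧ ∃ (hx : x0 g n ∈ N) (c : ℂ),
    (σ ⟨x0 g n, hx⟩ : Matrix (Fin r) (Fin r) ℂ) ≠ c • 1 ∧
    4 * r * ((σ ⟨x0 g n, hx⟩ : Matrix (Fin r) (Fin r) ℂ) - c • 1).rank ≤ h)

/-- **BLK**.  Finitely many characters of one block.
PROOF. As `hpiece` in `LGP.wmain_tr` (LGP/WMain.lean).  `N' = N.comap θ`, normal of finite index, f.g.
(`Subgroup.fg_of_index_ne_zero`), `ga i, gb i ∈ N'` for `i < h`, and `φ` maps `N'` into (onto) `N`.
`r = 0`: trivial (all traces are `0`).  `A = 1` and `x_0` is not used, or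
`A = σ x_0 - c` with `x_0 ∈ N'`.  `Λ ⊆ N'`: the elements `y = x`, and `y = x * x_0` if `x_0 ∈ N'`, with
`IReach (istd τ) (X ++ hl P)`, `P` killed, `x ∈ SpQ.fc P 0`.  `St_Fnn` for `N'`, `r`, `Λ`: finite `s`.
`St_Wbi`: the traces `σ (φ y)`, `y ∈ Λ`, are in the given finite set.  If the traces of
`σ ∘ φ₁`, `σ ∘ φ₂` agree on `s` then they agree on `Λ`, so
`tr (σ (φ₁ x) A) = tr (σ (φ₂ x) A)` for the `x` in `St_Prn` (`φ_i x_0 = x_0`), so for all `x ∈ N'`; if
`A ≠ 1` use `LGP.thm_Jac` (`σ ∘ φ_i` has the range of `σ`). -/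
def St_Blk : Prop := ∀ (g n k r h : ℕ) (w : SurfaceGroup g → ZMod k), IsSpinStructure k w →
    ∀ (N : Subgroup (F g n)) [N.Normal] [N.FiniteIndex], ∀ θ ∈ MC g n, θ (x0 g n) = x0 g n →
    h ≤ g → (∀ i : Fin g, (i : ℕ) < h → θ (ga i) ∈ N ∧ θ (gb i) ∈ N) →
    ∀ σ : N →* GL (Fin r) ℂ, Cnd N h r σ →
    {z : ℂ | ∃ y : N, NS (y : F g n) ∧ w (prj g n y) = 0 ∧
      z = (σ y : Matrix (Fin r) (Fin r) ℂ).trace}.Finite →
    ∀ τ : Fin g → ZMod k × ZMod k,
    {χ : ↥(N.comap θ.toMonoidHom) → ℂ | ∃ φ ∈ MC g n,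
      φ (x0 g n) = x0 g n ∧ (∀ y, φ y * (θ y)⁻¹ ∈ N) ∧ wty w φ = τ ∧
      ∃ hφ : ∀ y ∈ N.comap θ.toMonoidHom, φ y ∈ N,
      χ = fun y : ↥(N.comap θ.toMonoidHom) =>
        (σ ⟨φ y, hφ y y.2⟩ : Matrix (Fin r) (Fin r) ℂ).trace}.Finite

/-- **MCI**.  Inverses of mapping classes.
PROOF. `Dsc_inj`, `Dsc_inv` in LGP/Dsc.lean. -/
def St_Mci : Prop := ∀ (g n : ℕ), ∀ φ ∈ MC g n, φ⁻¹ ∈ MC g n

/-- **TOP**.  The theorem for characteristic roots in a finite set.
PROOF. (1) One class: `Φ = {φ ∈ MC | φ x_0 = x_0, ∀ y, φ y * (θ y)⁻¹ ∈ N}`, with `θ x_0 = x_0`; `N' =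
N.comap θ`.  For `τ : Fin g → ZMod k × ZMod k` (finitely many) let `Φ_τ` be the part with `wty w φ = τ`.
The traces of `σ j y`, `y ∈ N` simple with `w = 0`, are finite in number
(`Pool.Agent.HZ.finite_traces_of_roots`: the roots of `(σ j y).charpoly` are roots of `(ρ y).charpoly`), so
`St_Blk` gives finitely many functions `tr (σ j ∘ φ)` on `N'` for all `j`; `tr (ρ (φ y)) =
∑ j, tr (σ j (φ y))` for `y ∈ N'` (from the characteristic polynomials:
`Matrix.trace_eq_sum_roots_charpoly`), so finitely many `tr (ρ ∘ φ)` on `N'`; `St_Ext`.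
(2) `θ` is replaced by `MulAut.conj u * θ` with `u * θ x_0 * u⁻¹ = x_0` (`N` is normal).
(3) All classes: `φ ∈ MC`, after conjugation `φ x_0 = x_0`.  The homomorphisms `q ∘ φ : F → F ⧸ N` are
finite in number; choose a representative `φ₀` for each one that occurs.  If `q ∘ φ = q ∘ φ₀` then
`φ₁ = φ * φ₀⁻¹ * θ` is in the class `Φ` of (1), and `φ = φ₁ * (θ⁻¹ * φ₀)`, so the character of
`ρ ∘ φ` is the image of that of `ρ ∘ φ₁` under a fixed map.  (`St_Mci`, `LGP.MC_mul`,
`LGP.Psh_conj_mem`.) -/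
def St_Top : Prop := ∀ (g n k R m h : ℕ) (w : SurfaceGroup g → ZMod k), 0 < k →
    IsSpinStructure k w → ∀ (N : Subgroup (F g n)) [N.Normal] [N.FiniteIndex], h ≤ g →
    (∃ θ ∈ MC g n, ∀ i : Fin g, (i : ℕ) < h → θ (ga i) ∈ N ∧ θ (gb i) ∈ N) →
    ∀ (ρ : F g n →* GL (Fin R) ℂ) (r : Fin m → ℕ) (σ : ∀ j, N →* GL (Fin (r j)) ℂ),
    (∀ y : N, (ρ (y : F g n) : Matrix (Fin R) (Fin R) ℂ).charpoly =
      ∏ j, (σ j y : Matrix (Fin (r j)) (Fin (r j)) ℂ).charpoly) →
    (∀ j, Cnd N h (r j) (σ j)) →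
    {z : ℂ | ∃ y ∈ N, NS y ∧ w (prj g n y) = 0 ∧
      (ρ y : Matrix (Fin R) (Fin R) ℂ).charpoly.IsRoot z}.Finite →
    {χ : F g n → ℂ | ∃ φ ∈ MC g n,
      χ = fun y => (ρ (φ y) : Matrix (Fin R) (Fin R) ℂ).trace}.Finite

end Pool.Agent.LGC
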