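import Pool.Agent.LGC.Defs

/-!
# Finite covers: the theorem with the bound `4 r K ≤ h + 1`, statements

Helper35, for MP_0707f5_ag (Theorem C of helper21, one handle less).
-/

set_option autoImplicit false

namespace Pool.Agent.LGC

open Matrix Module Helper12.Sc
open SpQ (Hd WStep WReach WExt Good bare bd cj1 IsSpinStructure)
open LGP (F ga gb gx x0 MC NS MR stdL stdM dstd wty prj cyc)

/-- **PRN1**.  `St_Prn` with the bound `h + 1`. -/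
def St_Prn1 : Prop := ∀ (g n k r h : ℕ) (N : Subgroup (F g n)) [N.Normal], h ≤ g →
    (∀ i : Fin g, (i : ℕ) < h → ga i ∈ N ∧ gb i ∈ N) → ∀ (τ : Fin g → ZMod k × ZMod k)
    (ρ₁ ρ₂ : N →* GL (Fin r) ℂ) (A : Matrix (Fin r) (Fin r) ℂ), 4 * r * A.rank ≤ h + 1 →
    (∀ (X : List (It (F g n) k)) (P : List (Hd (F g n) k)), IReach (istd τ) (X ++ hl P) →
      (∀ p ∈ P, Kl N p) → ∀ (x : F g n) (hx : x ∈ N), x ∈ SpQ.fc P 0 →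
      ((ρ₁ ⟨x, hx⟩ : Matrix (Fin r) (Fin r) ℂ) * A).trace =
        ((ρ₂ ⟨x, hx⟩ : Matrix (Fin r) (Fin r) ℂ) * A).trace) →
    ∀ x : N, ((ρ₁ x : Matrix (Fin r) (Fin r) ℂ) * A).trace =
      ((ρ₂ x : Matrix (Fin r) (Fin r) ℂ) * A).trace

/-- the condition on a representation of `N` -/
def Cnd1 {g n : ℕ} (N : Subgroup (F g n)) (h r : ℕ) (σ : N →* GL (Fin r) ℂ) : Prop :=
  4 * r ^ 2 ≤ h + 1 ∨ (Pool.Agent.HZ.Irr σ.range ∧ ∃ (hx : x0 g n ∈ N) (c : ℂ),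
    (σ ⟨x0 g n, hx⟩ : Matrix (Fin r) (Fin r) ℂ) ≠ c • 1 ∧
    4 * r * ((σ ⟨x0 g n, hx⟩ : Matrix (Fin r) (Fin r) ℂ) - c • 1).rank ≤ h + 1)

/-- **BLK1**.  `St_Blk` with the bound `h + 1`. -/
def St_Blk1 : Prop := ∀ (g n k r h : ℕ) (w : SurfaceGroup g → ZMod k), IsSpinStructure k w →
    ∀ (N : Subgroup (F g n)) [N.Normal] [N.FiniteIndex], ∀ θ ∈ MC g n, θ (x0 g n) = x0 g n →
    h ≤ g → (∀ i : Fin g, (i : ℕ) < h → θ (ga i) ∈ N ∧ θ (gb i) ∈ N) →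
    ∀ σ : N →* GL (Fin r) ℂ, Cnd1 N h r σ →
    {z : ℂ | ∃ y : N, NS (y : F g n) ∧ w (prj g n y) = 0 ∧
      z = (σ y : Matrix (Fin r) (Fin r) ℂ).trace}.Finite →
    ∀ τ : Fin g → ZMod k × ZMod k,
    {χ : ↥(N.comap θ.toMonoidHom) → ℂ | ∃ φ ∈ MC g n,
      φ (x0 g n) = x0 g n ∧ (∀ y, φ y * (θ y)⁻¹ ∈ N) ∧ wty w φ = τ ∧
      ∃ hφ : ∀ y ∈ N.comap θ.toMonoidHom, φ y ∈ N,
      χ = fun y : ↥(N.comap θ.toMonoidHom) =>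
        (σ ⟨φ y, hφ y y.2⟩ : Matrix (Fin r) (Fin r) ℂ).trace}.Finite

/-- **TOP1**.  `St_Top` with the bound `h + 1` and the hypothesis on the traces of the blocks. -/
def St_Top1 : Prop := ∀ (g n k R m h : ℕ) (w : SurfaceGroup g → ZMod k), 0 < k →
    IsSpinStructure k w → ∀ (N : Subgroup (F g n)) [N.Normal] [N.FiniteIndex], h ≤ g →
    (∃ θ ∈ MC g n, ∀ i : Fin g, (i : ℕ) < h → θ (ga i) ∈ N ∧ θ (gb i) ∈ N) →
    ∀ (ρ : F g n →* GL (Fin R) ℂ) (r : Fin m → ℕ) (σ : ∀ j, N →* GL (Fin (r j)) ℂ),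
    (∀ y : N, (ρ (y : F g n) : Matrix (Fin R) (Fin R) ℂ).charpoly =
      ∏ j, (σ j y : Matrix (Fin (r j)) (Fin (r j)) ℂ).charpoly) →
    (∀ j, Cnd1 N h (r j) (σ j)) →
    (∀ j, {z : ℂ | ∃ y : N, NS (y : F g n) ∧ w (prj g n y) = 0 ∧
      z = (σ j y : Matrix (Fin (r j)) (Fin (r j)) ℂ).trace}.Finite) →
    {χ : F g n → ℂ | ∃ φ ∈ MC g n,
      χ = fun y => (ρ (φ y) : Matrix (Fin R) (Fin R) ℂ).trace}.Finite

end Pool.Agent.LGC
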