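import Pool.Agent.LGC.Bas
import Pool.Agent.LGC.Cls
import Pool.Agent.LGP.Ess

/-!
# Handles which are not essential relative to a subspace

Helper35, for MP_0707f5_ag (Theorem C with the bound `2 r K < h`).

`cs R S H` is the span of `R x s`, `x ∈ H`, `s ∈ S`.  If a list `B` of killed handles satisfies
`dim (cs R S (X, B)) < dim S + B.length` then some handle of `B` is not needed for `cs R S (X, B)`: the
chain of the modules for the initial parts of `B` starts at `S`.  The proof is that of LGC/Non.lean.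
-/

set_option autoImplicit false

namespace Pool.Agent.LGC

open Module Helper12.Sc
open SpQ (Hd WStep WReach WExt Good bare bd cj1)
open LGP (cyc stb)

section cs
variable {K U G : Type} [Field K] [AddCommGroup U] [Module K U] [Group G]

/-- the span of the images of a subspace under a subgroup -/
def cs (R : G →* Module.End K U) (S : Submodule K U) (H : Subgroup G) : Submodule K U :=
  Submodule.span K {u | ∃ x ∈ H, ∃ s ∈ S, R x s = u}

variable {R : G →* Module.End K U} {S S' : Submodule K U} {H H' : Subgroup G}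

theorem le_cs : S ≤ cs R S H := by
  intro s hs
  refine Submodule.subset_span ⟨1, H.one_mem, s, hs, ?_⟩
  rw [map_one]
  rfl

theorem cs_mono (h : H ≤ H') : cs R S H ≤ cs R S H' := by
  refine Submodule.span_mono ?_
  rintro u ⟨x, hx, s, hs, rfl⟩
  exact ⟨x, h hx, s, hs, rfl⟩

theorem cs_mono' (h : S ≤ S') : cs R S H ≤ cs R S' H := by
  refine Submodule.span_mono ?_
  rintro u ⟨x, hx, s, hs, rfl⟩
  exact ⟨x, hx, s, h hs, rfl⟩

theorem cyc_le_cs {w : U} (hw : w ∈ S) : cyc R w H ≤ cs R S H := by
  unfold LGP.cyc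
  rw [Submodule.span_le]
  rintro _ ⟨x, hx, rfl⟩
  exact Submodule.subset_span ⟨x, hx, w, hw, rfl⟩

variable [FiniteDimensional K U]

theorem cs_le {M : Submodule K U} (hS : S ≤ M) (h : H ≤ stb R M) : cs R S H ≤ M := by
  unfold cs
  rw [Submodule.span_le]
  rintro u ⟨x, hx, s, hs, rfl⟩
  exact h hx s (hS hs)

theorem le_stb_cs : H ≤ stb R (cs R S H) := by
  intro x hx s hs
  unfold cs at hs
  refine Submodule.span_induction (p := fun s _ => R x s ∈ cs R S H) ?_ ?_ ?_ ?_ hs
  · rintro _ ⟨y, hy, s, hs, rfl⟩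
    rw [← Module.End.mul_apply, ← map_mul]
    exact Submodule.subset_span ⟨x * y, H.mul_mem hx hy, s, hs, rfl⟩
  · rw [map_zero]
    exact Submodule.zero_mem _
  · intro a b _ _ ha hb
    rw [map_add]
    exact Submodule.add_mem _ ha hb
  · intro c a _ ha
    rw [map_smul]
    exact Submodule.smul_mem _ c ha

end cs

section non
variable {K U Γ : Type} [Field K] [AddCommGroup U] [Module K U] [Group Γ]
  [FiniteDimensional K U] {k : ℕ}

omit [FiniteDimensional K U] in
private theorem c_hl_mono {N : Subgroup Γ} (R : N →* Module.End K U) (S : Submodule K U)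
    (X : List (It Γ k)) {C D : List (Hd Γ k)} (h : ∀ i ∈ C, i ∈ D) :
    cs R S ((GI (X ++ hl C)).subgroupOf N) ≤ cs R S ((GI (X ++ hl D)).subgroupOf N) := by
  refine cs_mono (Subgroup.comap_mono (GI_mono ?_))
  intro i hi
  rcases List.mem_append.1 hi with hi | hi
  · exact List.mem_append_left _ hi
  · obtain ⟨p, hp, rfl⟩ := mem_hl.1 hi
    exact List.mem_append_right _ (mem_hl.2 ⟨p, h p hp, rfl⟩)

/-- the stabiliser of `M` as a subgroup of `Γ` -/
def sg {N : Subgroup Γ} (R : N →* Module.End K U) (M : Submodule K U) : Subgroup Γ :=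
  (stb R M).map N.subtype

theorem le_sg {N : Subgroup Γ} (R : N →* Module.End K U) (H : Subgroup Γ) (M : Submodule K U)
    (h : H.subgroupOf N ≤ stb R M) : N ⊓ H ≤ sg R M := by
  intro z hz
  obtain ⟨hzN, hzH⟩ := Subgroup.mem_inf.1 hz
  have h1 : (⟨z, hzN⟩ : N) ∈ H.subgroupOf N := Subgroup.mem_subgroupOf.2 hzH
  exact ⟨⟨z, hzN⟩, h h1, rfl⟩

theorem subgroupOf_le_stb {N : Subgroup Γ} (R : N →* Module.End K U) (H : Subgroup Γ)
    (M : Submodule K U) (h : N ⊓ H ≤ sg R M) : H.subgroupOf N ≤ stb R M := by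
  intro z hz
  have h1 : (z : Γ) ∈ N ⊓ H := Subgroup.mem_inf.2 ⟨z.2, Subgroup.mem_subgroupOf.1 hz⟩
  obtain ⟨y, hy, hyz⟩ := h h1
  have h2 : y = z := Subtype.ext hyz
  rw [← h2]
  exact hy

/-- the step: if no handle of `D` enlarges then everything is in the stabiliser -/
private theorem all_le (N : Subgroup Γ) [N.Normal] (R : N →* Module.End K U) (S : Submodule K U)
    (X : List (It Γ k)) (B C D : List (Hd Γ k)) (hB : ∀ h ∈ B, Kl N h) (hperm : B.Perm (C ++ D))
    (hst : ∀ h ∈ D, cs R S ((GI (X ++ hl (C ++ [h]))).subgroupOf N) =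
      cs R S ((GI (X ++ hl C)).subgroupOf N)) :
    cs R S ((GI (X ++ hl B)).subgroupOf N) ≤ cs R S ((GI (X ++ hl C)).subgroupOf N) := by
  set M := cs R S ((GI (X ++ hl C)).subgroupOf N) with hM
  have hC : N ⊓ GI (X ++ hl C) ≤ sg R M := le_sg R _ M le_stb_cs
  have hX : N ⊓ GI X ≤ sg R M :=
    le_trans (inf_le_inf le_rfl (GI_mono fun i hi => List.mem_append_left _ hi)) hC
  have hq : ∀ q ∈ B, ∃ Y : List (Hd Γ k), q ∈ Y ∧ N ⊓ GI (X ++ hl Y) ≤ sg R M := by
    intro q hq
    rcases List.mem_append.1 (hperm.mem_iff.1 hq) with h | h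
    · exact ⟨C, h, hC⟩
    · refine ⟨C ++ [q], by simp, le_sg R _ M ?_⟩
      rw [← hst q h]
      exact le_stb_cs
  have hall : N ⊓ GI (X ++ hl B) ≤ sg R M := by
    apply grp X B hB _ hX
    intro v hv q hqB
    obtain ⟨Y, hqY, hY⟩ := hq q hqB
    have hk := (hB q hqB).cj1 v
    have hvY : v ∈ GI (X ++ hl Y) := GI_mono (fun i hi => List.mem_append_left _ hi) hv
    have hqm : (Sum.inl q : It Γ k) ∈ X ++ hl Y :=
      List.mem_append_right _ (mem_hl.2 ⟨q, hqY, rfl⟩)
    have h1 : q.1.1 ∈ GI (X ++ hl Y) := mem_GI hqm (Or.inl rfl)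
    have h2 : q.1.2 ∈ GI (X ++ hl Y) := mem_GI hqm (Or.inr rfl)
    rw [SpQ.E_singleton_le]
    refine ⟨hY (Subgroup.mem_inf.2 ⟨hk.1, ?_⟩), hY (Subgroup.mem_inf.2 ⟨hk.2, ?_⟩)⟩
    · exact Subgroup.mul_mem _ (Subgroup.mul_mem _ (Subgroup.inv_mem _ hvY) h1) hvY
    · exact Subgroup.mul_mem _ (Subgroup.mul_mem _ (Subgroup.inv_mem _ hvY) h2) hvY
  exact cs_le le_cs (subgroupOf_le_stb R _ _ hall)

/-- a long list of killed handles contains a handle which is not essential -/
theorem non2 (N : Subgroup Γ) [N.Normal] (R : N →* Module.End K U) (S : Submodule K U)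
    (X : List (It Γ k)) (B : List (Hd Γ k)) (hB : ∀ h ∈ B, Kl N h)
    (hlen : finrank K (cs R S ((GI (X ++ hl B)).subgroupOf N)) + 1 ≤ finrank K S + B.length) :
    ∃ (s : List (Hd Γ k)) (p : Hd Γ k) (t : List (Hd Γ k)), B = s ++ p :: t ∧
      cs R S ((GI (X ++ hl (s ++ t))).subgroupOf N) =
        cs R S ((GI (X ++ hl B)).subgroupOf N) := by
  by_contra hcon
  push Not at hcon
  have key : ∀ j ≤ B.length, ∃ C D : List (Hd Γ k), B.Perm (C ++ D) ∧ C.length = j ∧
      finrank K S + j ≤ finrank K (cs R S ((GI (X ++ hl C)).subgroupOf N)) := by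
    intro j
    induction j with
    | zero =>
      intro _
      refine ⟨[], B, List.Perm.refl _, rfl, ?_⟩
      exact Submodule.finrank_mono le_cs
    | succ j ih =>
      intro hk
      obtain ⟨C, D, hperm, hC, hdim⟩ := ih (by omega)
      have hD : D ≠ [] := by
        rintro rfl
        have := hperm.length_eq
        rw [List.append_nil] at this
        omega
      by_cases hst : ∀ h ∈ D, cs R S ((GI (X ++ hl (C ++ [h]))).subgroupOf N) =
          cs R S ((GI (X ++ hl C)).subgroupOf N)
      · exfalso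
        have h2 := all_le N R S X B C D hB hperm hst
        obtain ⟨h, hh⟩ := List.exists_mem_of_ne_nil D hD
        have hhB : h ∈ B := hperm.mem_iff.2 (List.mem_append_right _ hh)
        obtain ⟨s, t, rfl⟩ := List.append_of_mem hhB
        obtain ⟨D₁, D₂, rfl⟩ := List.append_of_mem hh
        have h3 : (s ++ t).Perm (C ++ D₁ ++ D₂) := by
          have e1 : (h :: (s ++ t)).Perm (s ++ h :: t) := List.perm_middle.symm
          have e2 : (h :: (C ++ D₁ ++ D₂)).Perm (C ++ (D₁ ++ h :: D₂)) := by
            rw [← List.append_assoc]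
            exact List.perm_middle.symm
          exact ((e1.trans hperm).trans e2.symm).cons_inv
        refine hcon s h t rfl (le_antisymm (c_hl_mono R S X ?_) (h2.trans (c_hl_mono R S X ?_)))
        · intro p hp
          rcases List.mem_append.1 hp with hp | hp
          · exact List.mem_append_left _ hp
          · exact List.mem_append_right _ (List.mem_cons_of_mem _ hp)
        · intro p hp
          refine h3.mem_iff.2 ?_
          rw [List.append_assoc]
          exact List.mem_append_left _ hp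
      · push Not at hst
        obtain ⟨h, hh, hns⟩ := hst
        obtain ⟨D₁, D₂, rfl⟩ := List.append_of_mem hh
        refine ⟨C ++ [h], D₁ ++ D₂, ?_, ?_, ?_⟩
        · refine hperm.trans ?_
          have e2 : (C ++ (D₁ ++ h :: D₂)).Perm (C ++ (h :: (D₁ ++ D₂))) :=
            List.Perm.append_left _ List.perm_middle
          simpa using e2
        · rw [List.length_append, List.length_singleton, hC]
        · have h1 : cs R S ((GI (X ++ hl C)).subgroupOf N) ≤
              cs R S ((GI (X ++ hl (C ++ [h]))).subgroupOf N) :=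
            c_hl_mono R S X fun p hp => List.mem_append_left _ hp
          have h3 := Submodule.finrank_lt_finrank_of_lt (lt_of_le_of_ne h1 (Ne.symm hns))
          omega
  obtain ⟨C, D, hperm, hC, hdim⟩ := key B.length le_rfl
  have h1 : cs R S ((GI (X ++ hl C)).subgroupOf N) ≤ cs R S ((GI (X ++ hl B)).subgroupOf N) :=
    c_hl_mono R S X fun p hp => hperm.mem_iff.2 (List.mem_append_left _ hp)
  have h2 := Submodule.finrank_mono h1
  omega

end non

end Pool.Agent.LGC
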