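import Pool.Agent.LGC.Defs
import Pool.Agent.HZ.RedB

/-!
# LGC / Ext: characters of a group and of a normal subgroup of finite index (helper81)

Statement of helper21, `LGC.St_Ext`.
-/

set_option autoImplicit false

namespace Pool.Agent.LGC

open Matrix Module Helper12.Sc

theorem thm_Ext (hFnn : St_Fnn) : St_Ext := by
  intro G _ _ N _ _ R Ξ hfin
  classical
  obtain ⟨s, _, hs⟩ := hFnn G R Set.univ
  set m := N.index with hmdef
  have hm : 0 < m := Nat.pos_of_ne_zero Subgroup.FiniteIndex.index_ne_zero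
  -- the traces at `x`
  have hT : ∀ x : G,
      {t : ℂ | ∃ ρ ∈ Ξ, (ρ x : Matrix (Fin R) (Fin R) ℂ).trace = t}.Finite := by
    intro x
    have hxm : x ^ m ∈ N := Subgroup.pow_index_mem N x
    have hcov : {t : ℂ | ∃ ρ ∈ Ξ, (ρ x : Matrix (Fin R) (Fin R) ℂ).trace = t} ⊆
        ⋃ χ ∈ {χ : N → ℂ | ∃ ρ ∈ Ξ, χ = fun y : N =>
            (ρ (y : G) : Matrix (Fin R) (Fin R) ℂ).trace},
          {t : ℂ | ∃ ρ ∈ Ξ, (χ = fun y : N => (ρ (y : G) : Matrix (Fin R) (Fin R) ℂ).trace) ∧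
            (ρ x : Matrix (Fin R) (Fin R) ℂ).trace = t} := by
      rintro t ⟨ρ, hρ, rfl⟩
      exact Set.mem_biUnion (x := fun y : N => (ρ (y : G) : Matrix (Fin R) (Fin R) ℂ).trace)
        ⟨ρ, hρ, rfl⟩ ⟨ρ, hρ, rfl, rfl⟩
    refine (hfin.biUnion fun χ hχ => ?_).subset hcov
    obtain ⟨ρ₀, hρ₀, rfl⟩ := hχ
    have hne : (ρ₀ (x ^ m) : Matrix (Fin R) (Fin R) ℂ).charpoly ≠ 0 :=
      (Matrix.charpoly_monic _).ne_zero
    have hZ : {c : ℂ | (ρ₀ (x ^ m) : Matrix (Fin R) (Fin R) ℂ).charpoly.IsRoot (c ^ m)}.Finite := by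
      have h1 : {c : ℂ | (ρ₀ (x ^ m) : Matrix (Fin R) (Fin R) ℂ).charpoly.IsRoot (c ^ m)} ⊆
          ⋃ a ∈ (ρ₀ (x ^ m) : Matrix (Fin R) (Fin R) ℂ).charpoly.roots.toFinset,
            ((Polynomial.nthRoots m a).toFinset : Set ℂ) := by
        intro c hc
        refine Set.mem_biUnion (x := c ^ m) ?_ ?_
        · exact Multiset.mem_toFinset.2 ((Polynomial.mem_roots hne).2 hc)
        · exact Multiset.mem_toFinset.2 ((Polynomial.mem_nthRoots hm).2 rfl)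
      exact (Set.Finite.biUnion (Finset.finite_toSet _)
        fun a _ => Finset.finite_toSet _).subset h1
    refine (HZ.finite_traces_of_roots R _ hZ).subset ?_
    rintro t ⟨ρ, hρ, hχ, rfl⟩
    refine ⟨(ρ x : Matrix (Fin R) (Fin R) ℂ), fun c hc => ?_, rfl⟩
    have h1 : (ρ (x ^ m) : Matrix (Fin R) (Fin R) ℂ).charpoly.IsRoot (c ^ m) := by
      rw [map_pow, Units.val_pow_eq_pow_val, ← Matrix.mem_spectrum_iff_isRoot_charpoly,
        spectrum.map_pow_of_pos _ hm]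
      exact ⟨c, Matrix.mem_spectrum_iff_isRoot_charpoly.2 hc, rfl⟩
    refine HZ.root_of_traces _ _ (fun k => ?_) _ h1
    have h2 := congrFun hχ ⟨(x ^ m) ^ k, N.pow_mem hxm k⟩
    simp only [map_pow, Units.val_pow_eq_pow_val] at h2 ⊢
    exact h2.symm
  -- the characters
  refine Set.Finite.of_finite_image
    (f := fun (χ : G → ℂ) (x : (s : Set G)) => χ x) ?_ ?_
  · refine (Set.Finite.pi' fun x : (s : Set G) => hT x).subset ?_
    rintro F ⟨χ, ⟨ρ, hρ, rfl⟩, rfl⟩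
    intro x
    exact ⟨ρ, hρ, rfl⟩
  · rintro χ₁ ⟨ρ₁, hρ₁, rfl⟩ χ₂ ⟨ρ₂, hρ₂, rfl⟩ h
    funext x
    exact hs ρ₁ ρ₂ (fun y hy => congrFun h ⟨y, hy⟩) x (Set.mem_univ x)

end Pool.Agent.LGC
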