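import Pool.Agent.LGC.St
import Pool.Agent.LGP.WMain

/-!
# Theorem C: both forms of the hypothesis

Helper21, for MP_0707f5_ag.
-/

set_option autoImplicit false

namespace Pool.Agent.LGC

open Matrix Module Helper12.Sc
open SpQ (IsSpinStructure)
open LGP (F ga gb gx x0 MC NS prj)

theorem thm_Fin (hT : St_Top) : St_Fin := by
  intro g n k R m h w hk hw N _ _ hh hN ρ r σ hσ hr hρ
  refine hT g n k R m h w hk hw N hh hN ρ r σ hσ hr ?_
  rcases hρ with hρ | hρ
  · obtain ⟨M, hM, hexp⟩ := Pool.Agent.HZ.exists_exponent ρ.range (LGP.range_fg' ρ)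
    have hZ : {z : ℂ | z ^ M = 1}.Finite := by
      classical
      refine ((Polynomial.nthRoots M (1 : ℂ)).toFinset.finite_toSet).subset ?_
      intro z hz
      rw [Finset.mem_coe, Multiset.mem_toFinset, Polynomial.mem_nthRoots hM]
      exact hz
    refine hZ.subset ?_
    rintro z ⟨y, hy, h1, h2, h3⟩
    exact hexp (ρ y) ⟨y, rfl⟩ z h3 (hρ y hy h1 h2 z h3)
  · exact hρ

end Pool.Agent.LGC
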