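import Pool.Agent.LGC.Bas
import Pool.Agent.LGC.Lif

/-!
# Killed good handles of a list which does not generate the group

Helper37, for MP_0707f5_ag (statement of helper21, `LGC.St_Gen`).
-/

set_option autoImplicit false

namespace Pool.Agent.LGC

open SpQ (Hd WStep WReach WExt Good bare bd cj1)

section

variable {Γ Δ : Type} [Group Γ] [Group Δ] {k : ℕ}

private theorem Gen_lt (f : Γ →* Δ) (i : It Γ k) : lt (imap f i) = f '' lt i := by
  rcases i with ⟨⟨a, b⟩, o⟩ | y
  · exact (Set.image_pair f a b).symm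
  · exact (Set.image_singleton).symm

private theorem Gen_map (f : Γ →* Δ) (X : List (It Γ k)) :
    (GI X).map f = GI (X.map (imap f)) := by
  unfold GI
  rw [MonoidHom.map_closure]
  congr 1
  ext z
  constructor
  · rintro ⟨x, ⟨i, hi, hx⟩, rfl⟩
    refine ⟨imap f i, List.mem_map_of_mem hi, ?_⟩
    rw [Gen_lt]
    exact ⟨x, hx, rfl⟩
  · rintro ⟨j, hj, hz⟩
    obtain ⟨i, hi, rfl⟩ := List.mem_map.1 hj
    rw [Gen_lt] at hz
    obtain ⟨x, hx, rfl⟩ := hz
    exact ⟨x, ⟨i, hi, hx⟩, rfl⟩

private theorem Gen_lift (D : Subgroup Γ) : ∀ X : List (It Γ k), GI X ≤ D →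
    ∃ X' : List (It D k), X'.map (imap D.subtype) = X := by
  intro X
  induction X with
  | nil => exact fun _ => ⟨[], rfl⟩
  | cons i X ih =>
    intro h
    obtain ⟨X', hX'⟩ := ih ((GI_mono fun j hj => List.mem_cons_of_mem _ hj).trans h)
    have h2 : ∀ z ∈ lt i, z ∈ D := fun z hz => h (mem_GI List.mem_cons_self hz)
    rcases i with ⟨⟨a, b⟩, o⟩ | y
    · refine ⟨Sum.inl ((⟨a, h2 a (Or.inl rfl)⟩, ⟨b, h2 b (Or.inr rfl)⟩), o) :: X', ?_⟩
      rw [List.map_cons, hX']
      rfl
    · refine ⟨Sum.inr ⟨y, h2 y rfl⟩ :: X', ?_⟩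
      rw [List.map_cons, hX']
      rfl

end

theorem thm_Gen (hG : St_Gno) (hM : St_Map) : St_Gen := by
  intro Γ _ k N _ X B hB hgood hkl H hH
  set D : Subgroup Γ := GI (X ++ hl B) with hD
  obtain ⟨X', hX'⟩ := Gen_lift D X (GI_mono fun i hi => List.mem_append_left _ hi)
  obtain ⟨Y', hY'⟩ := Gen_lift D (hl B) (GI_mono fun i hi => List.mem_append_right _ hi)
  obtain ⟨B', rfl, hB'⟩ := Lif_hl_inv D.subtype B Y' hY'
  have hmap : (X' ++ hl B').map (imap D.subtype) = X ++ hl B := by
    rw [List.map_append, hX', hY']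
  have htop : GI (X' ++ hl B') = ⊤ := by
    apply Subgroup.map_injective D.subtype_injective
    rw [Gen_map, hmap, ← MonoidHom.range_eq_map, Subgroup.range_subtype]
  have hmem : ∀ (C : List (Hd D k)) (h : Hd D k), h ∈ C →
      ((D.subtype h.1.1, D.subtype h.1.2), h.2) ∈ SpQ.mapH D.subtype C :=
    fun C h hh => List.mem_map_of_mem (f := fun h : Hd D k =>
      ((D.subtype h.1.1, D.subtype h.1.2), h.2)) hh
  have key : N.subgroupOf D ≤ H.subgroupOf D := by
    refine hG D k (N.subgroupOf D) X' B' ?_ ?_ ?_ htop (H.subgroupOf D) ?_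
    · rintro rfl
      exact hB hB'.symm
    · intro h hh
      have h1 := hmem B' h hh
      rw [hB'] at h1
      exact hgood _ h1
    · intro h hh
      have h1 := hmem B' h hh
      rw [hB'] at h1
      exact ⟨Subgroup.mem_subgroupOf.2 (hkl _ h1).1, Subgroup.mem_subgroupOf.2 (hkl _ h1).2⟩
    · intro X₁ B₁ hr hlen hg hk
      have h1 := hM D Γ k D.subtype _ _ hr
      rw [hmap, List.map_append, Lif_hl] at h1
      have h2 : SpQ.E (SpQ.mapH D.subtype B₁) ≤ H := by
        refine hH _ _ h1 ?_ ?_ ?_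
        · have h3 : B.length = B'.length := by
            rw [← hB']
            exact List.length_map _
          rw [h3, ← hlen]
          exact List.length_map _
        · intro h hh
          obtain ⟨h', hh', rfl⟩ := List.mem_map.1 hh
          exact hg h' hh'
        · intro h hh
          obtain ⟨h', hh', rfl⟩ := List.mem_map.1 hh
          exact ⟨Subgroup.mem_subgroupOf.1 (hk h' hh').1, Subgroup.mem_subgroupOf.1 (hk h' hh').2⟩
      have h3 : (SpQ.E B₁).map D.subtype ≤ H := by
        rw [← GI_hl, Gen_map, Lif_hl, GI_hl]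
        exact h2
      exact Subgroup.map_le_iff_le_comap.1 h3
  rintro x ⟨hx1, hx2⟩
  exact Subgroup.mem_subgroupOf.1 (key (Subgroup.mem_subgroupOf.2 (show ((⟨x, hx2⟩ : D) : Γ) ∈ N from hx1)))

end Pool.Agent.LGC
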