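import Pool.Agent.LGC.Bas
import Pool.Agent.LGC.Cls
import Pool.Agent.LGP.WVec

/-!
# Growth of the cyclic module of the killed handles

Helper35, for MP_0707f5_ag; the proof follows `LGC.Ven` of helper81.
-/

set_option autoImplicit false

namespace Pool.Agent.LGC

open Module Helper12.Sc
open SpQ (Hd WStep WReach WExt Good bare bd cj1)
open LGP (cyc)

section
variable {K U Γ : Type} [Field K] [AddCommGroup U] [Module K U] [Group Γ] {k : ℕ}

/-- the cyclic module of the group of a list of handles -/
private def Grw_c (N : Subgroup Γ) (R : N →* Module.End K U) (w : U) (P : List (Hd Γ k)) :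
    Submodule K U := cyc R w ((SpQ.E P).subgroupOf N)

variable {N : Subgroup Γ} {R : N →* Module.End K U} {w : U}

private theorem Grw_self (P : List (Hd Γ k)) : w ∈ Grw_c N R w P := LGP.self_mem_cyc _ _ _

private theorem Grw_mono {P P' : List (Hd Γ k)} (h : SpQ.E P ≤ SpQ.E P') :
    Grw_c N R w P ≤ Grw_c N R w P' :=
  LGP.cyc_mono R w (Subgroup.comap_mono h)

private theorem Grw_le (P : List (Hd Γ k)) : Grw_c N R w P ≤ cyc R w ⊤ :=
  LGP.cyc_mono R w le_top

private theorem Grw_main (hA : St_All) (hN : St_Non) (hG : St_Gek) [FiniteDimensional K U]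
    [N.Normal] (X : List (It Γ k)) (B : List (Hd Γ k)) (hgood : ∀ h ∈ B, Good h)
    (hkl : ∀ h ∈ B, Kl N h) (hcyc : cyc R w ((GI (X ++ hl B)).subgroupOf N) = cyc R w ⊤)
    (hlen : 2 * finrank K (cyc R w ⊤) ≤ B.length + 2) :
    ∃ (X' : List (It Γ k)) (B' : List (Hd Γ k)), IReach (X ++ hl B) (X' ++ hl B') ∧
      X'.map (cls N) = X.map (cls N) ∧ B'.length = B.length ∧ (∀ h ∈ B', Good h) ∧
      (∀ h ∈ B', Kl N h) ∧ cyc R w ((SpQ.E B').subgroupOf N) = cyc R w ⊤ := by
  by_cases hw : w = 0
  · refine ⟨X, B, IReach.refl _, rfl, rfl, hgood, hkl, ?_⟩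
    have hz : ∀ H : Subgroup N, cyc R w H = ⊥ := by
      intro H
      rw [eq_bot_iff]
      unfold LGP.cyc
      rw [Submodule.span_le]
      rintro _ ⟨x, _, rfl⟩
      show R x w ∈ (⊥ : Submodule K U)
      rw [hw, map_zero]
      exact Submodule.zero_mem _
    rw [hz, hz]
  have main : ∀ m : ℕ, m < finrank K (cyc R w (⊤ : Subgroup N)) →
      ∃ (X' : List (It Γ k)) (B' P : List (Hd Γ k)), IReach (X ++ hl B) (X' ++ hl (B' ++ P)) ∧
        X'.map (cls N) = X.map (cls N) ∧
        (∀ h ∈ B' ++ P, Good h) ∧ (∀ h ∈ B' ++ P, Kl N h) ∧ B'.length + P.length = B.length ∧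
        (Grw_c N R w P = cyc R w ⊤ ∨ (P.length = m ∧
          cyc R w ((GI (X' ++ hl B')).subgroupOf N) = cyc R w ⊤ ∧
          m + 1 ≤ finrank K (Grw_c N R w P))) := by
    intro m
    induction m with
    | zero =>
      intro _
      refine ⟨X, B, [], by simpa using IReach.refl _, rfl, by simpa using hgood,
        by simpa using hkl, by simp, Or.inr ⟨rfl, hcyc, ?_⟩⟩
      have h1 : Grw_c N R w ([] : List (Hd Γ k)) ≠ ⊥ := by
        intro h
        have := Grw_self (N := N) (R := R) (w := w) ([] : List (Hd Γ k))
        rw [h, Submodule.mem_bot] at this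
        exact hw this
      have h2 := Submodule.one_le_finrank_iff.2 h1
      simpa using h2
    | succ m ih =>
      intro hm
      obtain ⟨X', B', P, hr, hcl, hBg, hBk, hBlen', hdone | ⟨hPlen, hcy, hdim⟩⟩ := ih (by omega)
      · exact ⟨X', B', P, hr, hcl, hBg, hBk, hBlen', Or.inl hdone⟩
      have hBlen : finrank K (cyc R w (⊤ : Subgroup N)) ≤ B'.length := by omega
      have hBne : B' ≠ [] := by
        intro h0'
        rw [h0', List.length_nil] at hBlen
        omega
      by_cases hst : ∃ (X'' : List (It Γ k)) (B₁ : List (Hd Γ k)) (p : Hd Γ k),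
          IReach (X' ++ hl B') (X'' ++ hl (B₁ ++ [p])) ∧ X''.map (cls N) = X'.map (cls N) ∧
          (∀ h ∈ B₁ ++ [p], Good h) ∧
          (∀ h ∈ B₁ ++ [p], Kl N h) ∧ B₁.length + 1 = B'.length ∧
          cyc R w ((GI (X'' ++ hl B₁)).subgroupOf N) = cyc R w ⊤ ∧
          Grw_c N R w ([p] ++ P) ≠ Grw_c N R w P
      · obtain ⟨X'', B₁, p, h1, hc1, hg1, hk1, hl1, h2, h3⟩ := hst
        refine ⟨X'', B₁, [p] ++ P, ?_, hc1.trans hcl, ?_, ?_, ?_, Or.inr ⟨by simp [hPlen], h2, ?_⟩⟩
        · refine hr.trans ?_
          have h4 := h1.right (hl P)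
          have e1 : X' ++ hl B' ++ hl P = X' ++ hl (B' ++ P) := by
            rw [hl_append, List.append_assoc]
          have e2 : X'' ++ hl (B₁ ++ [p]) ++ hl P = X'' ++ hl (B₁ ++ ([p] ++ P)) := by
            rw [hl_append, hl_append, hl_append, List.append_assoc, List.append_assoc]
          rwa [e1, e2] at h4
        · intro h hh
          rw [← List.append_assoc] at hh
          rcases List.mem_append.1 hh with h5 | h5
          · exact hg1 h h5
          · exact hBg h (List.mem_append_right _ h5)
        · intro h hh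
          rw [← List.append_assoc] at hh
          rcases List.mem_append.1 hh with h5 | h5
          · exact hk1 h h5
          · exact hBk h (List.mem_append_right _ h5)
        · simp only [List.length_append, List.length_singleton]
          omega
        · have h4 : Grw_c N R w P ≤ Grw_c N R w ([p] ++ P) := by
            refine Grw_mono ?_
            rw [SpQ.E_append]
            exact le_sup_right
          have h5 := Submodule.finrank_lt_finrank_of_lt (lt_of_le_of_ne h4 (Ne.symm h3))
          omega
      · push Not at hst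
        refine ⟨X', B', P, hr, hcl, hBg, hBk, hBlen', Or.inl ?_⟩
        set S : Subgroup N := LGP.stb R (Grw_c N R w P) with hS
        have hkB' : ∀ h ∈ B', Kl N h := fun h hh => hBk h (List.mem_append_left _ hh)
        have hgB' : ∀ h ∈ B', Good h := fun h hh => hBg h (List.mem_append_left _ hh)
        have key : N ⊓ GI (X' ++ hl B') ≤ S.map N.subtype := by
          refine hG Γ k N X' B' hBne hgB' hkB' _ ?_
          intro X'' B'' hr' hcl' hlen' hg' hk'
          have hEN : SpQ.E B'' ≤ N := Kl_list.1 hk'
          have hGI : GI (X'' ++ hl B'') = GI (X' ++ hl B') := hr'.GI_eq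
          refine hA Γ k (fun G => cyc R w ((GI X'' ⊔ G).subgroupOf N) = cyc R w ⊤) B''
            (S.map N.subtype) hg' ?_ ?_
          · intro B₃ hw3 hg3
            have hE3 : SpQ.E B₃ = SpQ.E B'' := hw3.E_eq
            have hk3 : ∀ h ∈ B₃, Kl N h := Kl_list.2 (by rw [hE3]; exact hEN)
            have hGI3 : GI (X'' ++ hl B₃) = GI (X' ++ hl B') := by
              rw [GI_append_hl, hE3, ← GI_append_hl, hGI]
            have hlen3 : B₃.length = B''.length := hw3.length_eq
            obtain ⟨s, p, t, h1, h2⟩ := hN K U Γ k N R w X'' B₃ hw hk3 (by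
              rw [hGI3, hcy, hlen3, hlen']
              exact hBlen)
            refine ⟨s, p, t, h1, ?_⟩
            show cyc R w ((GI X'' ⊔ SpQ.E (s ++ t)).subgroupOf N) = cyc R w ⊤
            rw [← GI_append_hl, h2, hGI3, hcy]
          · intro B₃ p hw3 hg3 hfull
            have hfull' : cyc R w ((GI X'' ⊔ SpQ.E B₃).subgroupOf N) = cyc R w ⊤ := hfull
            have hE3 : SpQ.E (B₃ ++ [p]) = SpQ.E B'' := hw3.E_eq
            have hk3 : ∀ h ∈ B₃ ++ [p], Kl N h := Kl_list.2 (by rw [hE3]; exact hEN)
            have hlen3 : (B₃ ++ [p]).length = B''.length := hw3.length_eq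
            have h3 := hst X'' B₃ p
              (hr'.trans (by
                have h4 := IReach.of_wreach' hw3 X'' []
                rwa [List.append_nil, List.append_nil] at h4)) hcl' hg3 hk3
              (by
                rw [List.length_append, List.length_singleton] at hlen3
                rw [hlen3, hlen']) (by rw [GI_append_hl]; exact hfull')
            have hkp : Kl N p := hk3 p (by simp)
            -- all elements of the group of `p` stabilise the module
            have hEp : SpQ.E [p] ≤ N := Kl_iff.1 hkp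
            intro x hx
            refine ⟨⟨x, hEp hx⟩, ?_, rfl⟩
            intro s hs
            rw [← h3]
            unfold Grw_c LGP.cyc at hs
            refine Submodule.span_induction
              (p := fun s _ => R ⟨x, hEp hx⟩ s ∈ Grw_c N R w ([p] ++ P)) ?_ ?_ ?_ ?_ hs
            · rintro _ ⟨y, hy, rfl⟩
              show R ⟨x, hEp hx⟩ (R y w) ∈ _
              rw [← Module.End.mul_apply, ← map_mul]
              refine Submodule.subset_span ⟨⟨x, hEp hx⟩ * y, ?_, rfl⟩
              show x * (y : Γ) ∈ SpQ.E ([p] ++ P)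
              rw [SpQ.E_append]
              exact Subgroup.mul_mem _ ((le_sup_left : SpQ.E [p] ≤ _) hx)
                ((le_sup_right : SpQ.E P ≤ _) hy)
            · rw [map_zero]
              exact Submodule.zero_mem _
            · intro a b _ _ ha hb
              rw [map_add]
              exact Submodule.add_mem _ ha hb
            · intro c a _ ha
              rw [map_smul]
              exact Submodule.smul_mem _ c ha
        refine le_antisymm (Grw_le P) ?_
        rw [← hcy]
        refine LGP.cyc_le (Grw_self P) ?_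
        intro x hx
        obtain ⟨y, hy, hyx⟩ := key (Subgroup.mem_inf.2 ⟨x.2, hx⟩)
        have e : y = x := Subtype.ext hyx
        rw [← e]
        exact hy
  have hpos : 0 < finrank K (cyc R w (⊤ : Subgroup N)) := by
    have h1 : cyc R w (⊤ : Subgroup N) ≠ ⊥ := by
      intro h
      have := LGP.self_mem_cyc R w (⊤ : Subgroup N)
      rw [h, Submodule.mem_bot] at this
      exact hw this
    exact Submodule.one_le_finrank_iff.2 h1
  obtain ⟨X', B', P, hr, hcl, hBg, hBk, hBlen, hdone⟩ :=
    main (finrank K (cyc R w (⊤ : Subgroup N)) - 1) (by omega)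
  have h2 : Grw_c N R w P = cyc R w ⊤ := by
    rcases hdone with h | ⟨-, -, hdim⟩
    · exact h
    · exact Submodule.eq_of_le_of_finrank_le (Grw_le P) (by omega)
  refine ⟨X', B' ++ P, hr, hcl, by rw [List.length_append]; exact hBlen, hBg, hBk, ?_⟩
  refine le_antisymm (LGP.cyc_mono R w le_top) ?_
  rw [← h2]
  refine Grw_mono ?_
  rw [SpQ.E_append]
  exact le_sup_right

end

theorem thm_Grw (hA : St_All) (hN : St_Non) (hG : St_Gek) : St_Grw := by
  intro K U Γ _ _ _ _ _ k N _ R w X B hgood hkl hcyc hlen
  exact Grw_main hA hN hG X B hgood hkl hcyc hlen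

end Pool.Agent.LGC
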