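import Pool.Agent.LGC.St
import Pool.Agent.PWH.Base
import Pool.Agent.PWL.Str
import Pool.Agent.PWL.Uni
import Pool.Agent.PWL.Dsb
import Pool.Agent.PWL.Grw
import Pool.Agent.PWL.Eng
import Pool.Agent.PWL.Frt
import Pool.Agent.PWL.Cub
import Pool.Agent.PWL.Hlf
import Pool.Agent.PWL.Ded

/-!
# LGC, module Kil: handles can be killed if the genus is large (helper75)
-/

set_option autoImplicit false

namespace Pool.Agent.LGC

open Matrix Module Helper12.Sc
open LGP (F ga gb gx x0 MC NS prj)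

/-- one handle -/
private theorem Kil_one {G : Type} [Group G] [Finite G] (L : List (G × G))
    (hL : 2000000000 * (Nat.log 2 (Nat.card G) + 1) ^ 2 ≤ L.length) :
    ∃ L' : List (G × G), PWF.LG L ((1, 1) :: L') := by
  have hStr : PWL.St_Str := PWL.thm_Str
  have hUni : PWL.St_Uni := PWL.thm_Uni
  have hDsb : PWL.St_Dsb := PWL.thm_Dsb
  have hGrw : PWL.St_Grw := PWL.thm_Grw
  have hEng : PWL.St_Eng := PWL.thm_Eng
  have hFrt : PWL.St_Frt := PWL.thm_Frt
  have hCub : PWL.St_Cub := PWL.thm_Cub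
  have hHlf : PWL.St_Hlf := PWL.thm_Hlf
  have hDed : PWL.St_Ded := PWL.thm_Ded
  obtain ⟨n, hn⟩ : ∃ n, n = Nat.log 2 (Nat.card G) + 1 := ⟨_, rfl⟩
  have hn1 : 1 ≤ n := by omega
  refine hDed hFrt (1 + 1600000000 * n ^ 2) (fun M hM => ?_) L ?_
  · refine hHlf hStr hUni hDsb hGrw hEng hFrt hCub M ?_
    rw [← hn]
    have e : 400000000 * n * (4 * n) = 1600000000 * n ^ 2 := by ring
    rw [e]
    exact hM
  · rw [← hn] at hL
    have e1 : n ≤ n ^ 2 := by nlinarith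
    have e2 : 1 ≤ n ^ 2 := Nat.one_le_pow _ _ hn1
    omega

/-- `h` handles -/
private theorem Kil_many {G : Type} [Group G] [Finite G] (h : ℕ) : ∀ L : List (G × G),
    h + 2000000000 * (Nat.log 2 (Nat.card G) + 1) ^ 2 ≤ L.length →
    ∃ L' : List (G × G), PWF.LG L (List.replicate h (1, 1) ++ L') := by
  obtain ⟨hrefl, htrans, -, happ, -, -, -⟩ := PWH.bBas
  induction h with
  | zero =>
    intro L _
    exact ⟨L, hrefl L⟩
  | succ h ih =>
    intro L hL
    obtain ⟨L₁, h1⟩ := Kil_one L (by omega)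
    have hlen : L.length = L₁.length + 1 := by
      have := h1.1
      simpa using this
    obtain ⟨L₂, h2⟩ := ih L₁ (by omega)
    refine ⟨L₂, htrans _ _ _ h1 ?_⟩
    have h3 := happ [(1, 1)] L₁ (List.replicate h (1, 1) ++ L₂) [] h2
    simpa [List.replicate_succ] using h3

/-- the generators -/
private def Kil_gen (g n : ℕ) : PW.Gen g n ≃ (Fin g × Bool) ⊕ Fin n where
  toFun
    | .a i => Sum.inl (i, false)
    | .b i => Sum.inl (i, true)
    | .c j => Sum.inr j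
  invFun
    | Sum.inl (i, false) => .a i
    | Sum.inl (i, true) => .b i
    | Sum.inr j => .c j
  left_inv := by
    intro x
    cases x <;> rfl
  right_inv := by
    intro x
    rcases x with ⟨i, _ | _⟩ | j <;> rfl

/-- the isomorphism of the free groups -/
private def Kil_e (g n : ℕ) : PW.F g n ≃* F g n := FreeGroup.freeGroupCongr (Kil_gen g n)

private theorem Kil_ga {g n : ℕ} (i : Fin g) : Kil_e g n (PW.ga i) = ga i := by
  unfold Kil_e PW.ga ga
  rw [FreeGroup.freeGroupCongr_apply, FreeGroup.map.of]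
  rfl

private theorem Kil_gb {g n : ℕ} (i : Fin g) : Kil_e g n (PW.gb i) = gb i := by
  unfold Kil_e PW.gb gb
  rw [FreeGroup.freeGroupCongr_apply, FreeGroup.map.of]
  rfl

private theorem Kil_gc {g n : ℕ} (j : Fin n) : Kil_e g n (PW.gc j) = gx j := by
  unfold Kil_e PW.gc gx
  rw [FreeGroup.freeGroupCongr_apply, FreeGroup.map.of]
  rfl

private theorem Kil_bd (g n : ℕ) : Kil_e g n (PW.bdry g n) = (x0 g n)⁻¹ := by
  unfold PW.bdry x0 Helper12.Sc.comm LGP.stdL LGP.stdM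
  rw [inv_inv, map_mul, map_list_prod, map_list_prod, List.map_ofFn, List.map_ofFn, List.map_ofFn]
  have h1 : (⇑(Kil_e g n) ∘ fun i : Fin g =>
      (PW.ga i * PW.gb i * (PW.ga i)⁻¹ * (PW.gb i)⁻¹ : PW.F g n)) =
      (fun p : F g n × F g n => p.1 * p.2 * p.1⁻¹ * p.2⁻¹) ∘ fun i => (ga i, gb i) := by
    funext i
    simp only [Function.comp_apply, map_mul, map_inv, Kil_ga, Kil_gb]
  have h2 : (⇑(Kil_e g n) ∘ fun j : Fin n => (PW.gc j : PW.F g n)) = fun j => gx j := by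
    funext j
    simp only [Function.comp_apply, Kil_gc]
  rw [h1, h2]

private theorem Kil_conj {G H : Type} [Group G] [Group H] (f : G ≃* H) {x y : G}
    (h : IsConj x y) : IsConj (f x) (f y) := by
  rw [isConj_iff] at h ⊢
  obtain ⟨c, hc⟩ := h
  exact ⟨f c, by rw [← hc, map_mul, map_mul, map_inv]⟩

private theorem Kil_inv {G : Type} [Group G] {x y : G} (h : IsConj x y) : IsConj x⁻¹ y⁻¹ := by
  rw [isConj_iff] at h ⊢
  obtain ⟨c, hc⟩ := h
  exact ⟨c, by rw [← hc]; group⟩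

/-- mapping classes correspond -/
private theorem Kil_MC (g n : ℕ) (φ : MulAut (PW.F g n)) (hφ : φ ∈ PW.MCG g n) :
    ∃ θ ∈ MC g n, ∀ y, θ (Kil_e g n y) = Kil_e g n (φ y) := by
  refine ⟨((Kil_e g n).symm.trans φ).trans (Kil_e g n), ⟨?_, ?_⟩, ?_⟩
  · obtain ⟨h1, -⟩ := hφ
    have h2 := Kil_inv (Kil_conj (Kil_e g n) h1)
    rw [Kil_bd, inv_inv] at h2
    have h3 : (Kil_e g n).symm (x0 g n) = (PW.bdry g n)⁻¹ := by
      rw [MulEquiv.symm_apply_eq, map_inv, Kil_bd, inv_inv]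
    show IsConj (Kil_e g n (φ ((Kil_e g n).symm (x0 g n)))) (x0 g n)
    rw [h3, map_inv, map_inv]
    exact h2
  · intro j
    refine ⟨j, ?_⟩
    obtain ⟨-, h1⟩ := hφ
    have h2 := Kil_conj (Kil_e g n) (h1 j)
    rw [Kil_gc] at h2
    have h3 : (Kil_e g n).symm (gx j) = PW.gc j := by
      rw [MulEquiv.symm_apply_eq, Kil_gc]
    show IsConj (Kil_e g n (φ ((Kil_e g n).symm (gx j)))) (gx j)
    rw [h3]
    exact h2
  · intro y
    show Kil_e g n (φ ((Kil_e g n).symm (Kil_e g n y))) = Kil_e g n (φ y)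
    rw [MulEquiv.symm_apply_apply]

/-- **KIL** -/
theorem thm_Kil : St_Kil := by
  intro g n h N _ _ hN
  obtain ⟨ρ, hρ⟩ : ∃ ρ : PW.F g n →* F g n ⧸ N,
      ρ = (QuotientGroup.mk' N).comp (Kil_e g n).toMonoidHom := ⟨_, rfl⟩
  have hlen : (PWF.lst ρ 0 g).length = g := by simp [PWF.lst]
  obtain ⟨L', hL'⟩ := Kil_many h (PWF.lst ρ 0 g) (by
    rw [hlen, ← Subgroup.index_eq_card]
    exact hN)
  obtain ⟨φ, hφ, h1, -⟩ := PWH.bRea ρ (List.replicate h (1, 1) ++ L') (show 0 + g ≤ g by omega) hL'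
  obtain ⟨θ, hθ, h2⟩ := Kil_MC g n φ hφ
  refine ⟨θ, hθ, fun i hi => ?_⟩
  have h3 : PWX.vls (ρ.comp (MulEquiv.toMonoidHom φ)) (i : ℕ) = (1, 1) := by
    have e3 : (PWF.lst (ρ.comp (MulEquiv.toMonoidHom φ)) 0 g)[(i : ℕ)]? = some (1, 1) := by
      rw [h1, List.getElem?_append_left (by simpa using hi), List.getElem?_replicate, if_pos hi]
    unfold PWF.lst at e3
    rw [List.getElem?_map, List.getElem?_range i.2] at e3
    simpa using e3
  unfold PWX.vls at h3
  rw [dif_pos i.2] at h3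
  have h4 : ρ (φ (PW.ga i)) = 1 := congrArg Prod.fst h3
  have h5 : ρ (φ (PW.gb i)) = 1 := congrArg Prod.snd h3
  rw [hρ] at h4 h5
  have h6 : ∀ y : PW.F g n, (QuotientGroup.mk' N).comp (Kil_e g n).toMonoidHom y = 1 →
      Kil_e g n y ∈ N := fun y hy => (QuotientGroup.eq_one_iff _).1 hy
  refine ⟨?_, ?_⟩
  · rw [← Kil_ga, h2]
    exact h6 _ h4
  · rw [← Kil_gb, h2]
    exact h6 _ h5

end Pool.Agent.LGC
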