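import Pool.Agent.LGP.Wbr

/-!
# Covers of surfaces: moves of decorated handles and punctures

Helper33, for MP_0707f5_ag.  The moves of `LGP.DMv` together with their inverses.
-/

set_option autoImplicit false

namespace Pool.Agent.LGC

open Helper12.Sc Helper12.Sc.SurfaceGroup
open Pool.Agent.LGP hiding DMv DMR
open SpQ (Hd WStep WReach WExt Good bare IsSpinStructure IsOrientationPreserving)

/-- elementary moves of tuples (decorated handles, punctures) -/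
inductive DMv {Γ : Type} [Group Γ] {k : ℕ} :
    List (Hd Γ k) × List Γ → List (Hd Γ k) × List Γ → Prop
  | st (L L' : List (Hd Γ k)) (M : List Γ) : WStep L L' → DMv (L, M) (L', M)
  | ab (L : List (Hd Γ k)) (a b y : Γ) (o : ZMod k × ZMod k) (M : List Γ) :
      DMv (L ++ [((a, b), o)], y :: M)
        (L ++ [((a, y⁻¹ * b), o)], (a * (y⁻¹ * b) * a⁻¹ * (y⁻¹ * b)⁻¹)⁻¹ * (a * y * a⁻¹) *
          (a * (y⁻¹ * b) * a⁻¹ * (y⁻¹ * b)⁻¹) :: M)
  | ab' (L : List (Hd Γ k)) (a b y : Γ) (o : ZMod k × ZMod k) (M : List Γ) :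
      DMv (L ++ [((a, b), o)], y :: M)
        (L ++ [((a, a⁻¹ * ((a * b * a⁻¹ * b⁻¹) * y * (a * b * a⁻¹ * b⁻¹)⁻¹) * a * b), o)],
          a⁻¹ * ((a * b * a⁻¹ * b⁻¹) * y * (a * b * a⁻¹ * b⁻¹)⁻¹) * a :: M)
  | sw (L : List (Hd Γ k)) (P S : List Γ) (y z : Γ) :
      DMv (L, P ++ y :: z :: S) (L, P ++ z :: (z⁻¹ * y * z) :: S)
  | sw' (L : List (Hd Γ k)) (P S : List Γ) (y z : Γ) :
      DMv (L, P ++ y :: z :: S) (L, P ++ (y * z * y⁻¹) :: y :: S)

/-- reachable decorated tuples -/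
def DMR {Γ : Type} [Group Γ] {k : ℕ} (t t' : List (Hd Γ k) × List Γ) : Prop :=
  Relation.ReflTransGen DMv t t'

section symm
variable {Γ : Type} [Group Γ] {k : ℕ}

theorem wstep_symm {L L' : List (Hd Γ k)} (h : WStep L L') : WStep L' L := by
  cases h with
  | tw u v x y p q =>
    have := WStep.tw' u v x (y * x) p (q + p)
    have e1 : y * x * x⁻¹ = y := by group
    have e2 : q + p - p = q := by ring
    rwa [e1, e2] at this
  | tw' u v x y p q =>
    have := WStep.tw u v x (y * x⁻¹) p (q - p)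
    have e1 : y * x⁻¹ * x = y := by group
    have e2 : q - p + p = q := by ring
    rwa [e1, e2] at this
  | rot u v x y p q =>
    have := WStep.rot' u v y⁻¹ (y * x * y⁻¹) (-q) p
    have e1 : y⁻¹ * (y * x * y⁻¹) * y⁻¹⁻¹ = x := by group
    have e2 : y⁻¹⁻¹ = y := by group
    have e3 : - -q = q := by ring
    rwa [e1, e2, e3] at this
  | rot' u v x y p q =>
    have := WStep.rot u v (x * y * x⁻¹) x⁻¹ q (-p)
    have e1 : x⁻¹ * (x * y * x⁻¹) * x⁻¹⁻¹ = y := by group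
    have e2 : x⁻¹⁻¹ = x := by group
    have e3 : - -p = p := by ring
    rwa [e1, e2, e3] at this
  | sl u v a b c d p q p' q' =>
    have := WStep.sl' u v a (b * a⁻¹ * b⁻¹ * c * d * c⁻¹ * b) (b * a⁻¹ * b⁻¹ * c) d p
      (q + q' - p + 1) (p' - p + 1) q'
    have e1 : b * a⁻¹ * b⁻¹ * c * d⁻¹ * (b * a⁻¹ * b⁻¹ * c)⁻¹ *
        (b * a⁻¹ * b⁻¹ * c * d * c⁻¹ * b) * a = b := by group
    have e2 : b * a⁻¹ * b⁻¹ * c * d⁻¹ * (b * a⁻¹ * b⁻¹ * c)⁻¹ *
        (b * a⁻¹ * b⁻¹ * c * d * c⁻¹ * b) * a * (b * a⁻¹ * b⁻¹ * c * d * c⁻¹ * b)⁻¹ *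
        (b * a⁻¹ * b⁻¹ * c) * d = c := by group
    have e3 : q + q' - p + 1 - q' + p - 1 = q := by ring
    have e4 : p' - p + 1 + p - 1 = p' := by ring
    rwa [e2, e1, e3, e4] at this
  | sl' u v a b c d p q p' q' =>
    have := WStep.sl u v a (c * d⁻¹ * c⁻¹ * b * a) (c * d⁻¹ * c⁻¹ * b * a * b⁻¹ * c * d) d p
      (q - q' + p - 1) (p' + p - 1) q'
    have e1 : c * d⁻¹ * c⁻¹ * b * a * a⁻¹ * (c * d⁻¹ * c⁻¹ * b * a)⁻¹ *
        (c * d⁻¹ * c⁻¹ * b * a * b⁻¹ * c * d) * d * (c * d⁻¹ * c⁻¹ * b * a * b⁻¹ * c * d)⁻¹ *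
        (c * d⁻¹ * c⁻¹ * b * a) = b := by group
    have e2 : c * d⁻¹ * c⁻¹ * b * a * a⁻¹ * (c * d⁻¹ * c⁻¹ * b * a)⁻¹ *
        (c * d⁻¹ * c⁻¹ * b * a * b⁻¹ * c * d) = c := by group
    have e3 : q - q' + p - 1 + q' - p + 1 = q := by ring
    have e4 : p' + p - 1 - p + 1 = p' := by ring
    rwa [e1, e2, e3, e4] at this
  | br u v a b c d p q p' q' =>
    have := WStep.br' u v (a * b * a⁻¹ * b⁻¹ * c * (a * b * a⁻¹ * b⁻¹)⁻¹)
      (a * b * a⁻¹ * b⁻¹ * d * (a * b * a⁻¹ * b⁻¹)⁻¹) a b p' q' p q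
    have e1 : (a * b * a⁻¹ * b⁻¹)⁻¹ * (a * b * a⁻¹ * b⁻¹ * c * (a * b * a⁻¹ * b⁻¹)⁻¹) *
        (a * b * a⁻¹ * b⁻¹) = c := by group
    have e2 : (a * b * a⁻¹ * b⁻¹)⁻¹ * (a * b * a⁻¹ * b⁻¹ * d * (a * b * a⁻¹ * b⁻¹)⁻¹) *
        (a * b * a⁻¹ * b⁻¹) = d := by group
    rwa [e1, e2] at this
  | br' u v a b c d p q p' q' =>
    have := WStep.br u v c d ((c * d * c⁻¹ * d⁻¹)⁻¹ * a * (c * d * c⁻¹ * d⁻¹))
      ((c * d * c⁻¹ * d⁻¹)⁻¹ * b * (c * d * c⁻¹ * d⁻¹)) p' q' p q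
    have e1 : c * d * c⁻¹ * d⁻¹ * ((c * d * c⁻¹ * d⁻¹)⁻¹ * a * (c * d * c⁻¹ * d⁻¹)) *
        (c * d * c⁻¹ * d⁻¹)⁻¹ = a := by group
    have e2 : c * d * c⁻¹ * d⁻¹ * ((c * d * c⁻¹ * d⁻¹)⁻¹ * b * (c * d * c⁻¹ * d⁻¹)) *
        (c * d * c⁻¹ * d⁻¹)⁻¹ = b := by group
    rwa [e1, e2] at this

theorem DMv.symm {t t' : List (Hd Γ k) × List Γ} (h : DMv t t') : DMv t' t := by
  cases h with
  | st L L' M h => exact DMv.st _ _ _ (wstep_symm h)
  | ab L a b y o M =>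
    have := DMv.ab' L a (y⁻¹ * b) ((a * (y⁻¹ * b) * a⁻¹ * (y⁻¹ * b)⁻¹)⁻¹ * (a * y * a⁻¹) *
          (a * (y⁻¹ * b) * a⁻¹ * (y⁻¹ * b)⁻¹)) o M
    have e1 : a⁻¹ * ((a * (y⁻¹ * b) * a⁻¹ * (y⁻¹ * b)⁻¹) *
        ((a * (y⁻¹ * b) * a⁻¹ * (y⁻¹ * b)⁻¹)⁻¹ * (a * y * a⁻¹) *
          (a * (y⁻¹ * b) * a⁻¹ * (y⁻¹ * b)⁻¹)) *
        (a * (y⁻¹ * b) * a⁻¹ * (y⁻¹ * b)⁻¹)⁻¹) * a = y := by group
    rw [e1] at this
    have e2 : y * (y⁻¹ * b) = b := by group
    rwa [e2] at this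
  | ab' L a b y o M =>
    have := DMv.ab L a (a⁻¹ * ((a * b * a⁻¹ * b⁻¹) * y * (a * b * a⁻¹ * b⁻¹)⁻¹) * a * b)
      (a⁻¹ * ((a * b * a⁻¹ * b⁻¹) * y * (a * b * a⁻¹ * b⁻¹)⁻¹) * a) o M
    have e1 : (a⁻¹ * ((a * b * a⁻¹ * b⁻¹) * y * (a * b * a⁻¹ * b⁻¹)⁻¹) * a)⁻¹ *
        (a⁻¹ * ((a * b * a⁻¹ * b⁻¹) * y * (a * b * a⁻¹ * b⁻¹)⁻¹) * a * b) = b := by group
    rw [e1] at this
    have e2 : (a * b * a⁻¹ * b⁻¹)⁻¹ *
        (a * (a⁻¹ * ((a * b * a⁻¹ * b⁻¹) * y * (a * b * a⁻¹ * b⁻¹)⁻¹) * a) * a⁻¹) *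
        (a * b * a⁻¹ * b⁻¹) = y := by group
    rwa [e2] at this
  | sw L P S y z =>
    have := DMv.sw' L P S z (z⁻¹ * y * z)
    have e1 : z * (z⁻¹ * y * z) * z⁻¹ = y := by group
    rwa [e1] at this
  | sw' L P S y z =>
    have := DMv.sw L P S (y * z * y⁻¹) y
    have e1 : y⁻¹ * (y * z * y⁻¹) * y = z := by group
    rwa [e1] at this

theorem DMR.refl (t : List (Hd Γ k) × List Γ) : DMR t t := Relation.ReflTransGen.refl

theorem DMR.trans {t t' t'' : List (Hd Γ k) × List Γ} (h : DMR t t') (h' : DMR t' t'') :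
    DMR t t'' := Relation.ReflTransGen.trans h h'

theorem DMR.symm {t t' : List (Hd Γ k) × List Γ} (h : DMR t t') : DMR t' t := by
  induction h with
  | refl => exact Relation.ReflTransGen.refl
  | tail _ hs ih => exact Relation.ReflTransGen.head hs.symm ih

theorem DMR.of_step {t t' : List (Hd Γ k) × List Γ} (h : DMv t t') : DMR t t' :=
  Relation.ReflTransGen.single h

theorem DMR.of_reach {L L' : List (Hd Γ k)} (h : WReach L L') (M : List Γ) :
    DMR (L, M) (L', M) := by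
  induction h with
  | refl => exact Relation.ReflTransGen.refl
  | tail _ hs ih => exact Relation.ReflTransGen.tail ih (DMv.st _ _ M hs)

/-- handles can be added on the left -/
theorem DMv.left {t t' : List (Hd Γ k) × List Γ} (h : DMv t t') (X : List (Hd Γ k)) :
    DMv (X ++ t.1, t.2) (X ++ t'.1, t'.2) := by
  cases h with
  | st L L' M h =>
    refine DMv.st _ _ _ ?_
    simpa using h.context X []
  | ab L a b y o M => simpa using DMv.ab (X ++ L) a b y o M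
  | ab' L a b y o M => simpa using DMv.ab' (X ++ L) a b y o M
  | sw L P S y z => exact DMv.sw _ _ _ _ _
  | sw' L P S y z => exact DMv.sw' _ _ _ _ _

theorem DMR.left {t t' : List (Hd Γ k) × List Γ} (h : DMR t t') (X : List (Hd Γ k)) :
    DMR (X ++ t.1, t.2) (X ++ t'.1, t'.2) := by
  induction h with
  | refl => exact Relation.ReflTransGen.refl
  | tail _ hs ih => exact Relation.ReflTransGen.tail ih (hs.left X)

end symm

/-- a step of decorated tuples gives a step of bare tuples -/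
theorem bare_step {Γ : Type} [Group Γ] {k : ℕ} {t t' : List (Hd Γ k) × List Γ}
    (h : DMv t t') : Mv (bare t.1, t.2) (bare t'.1, t'.2) := by
  cases h with
  | st L L' M h => exact Mv.st _ _ _ (SpQ.step_bare h)
  | ab L a b y o M =>
    have := Mv.ab (bare L) a b y M
    simpa [bare] using this
  | ab' L a b y o M =>
    have := Mv.ab' (bare L) a b y M
    simpa [bare] using this
  | sw L P S y z => exact Mv.sw _ _ _ _ _
  | sw' L P S y z => exact Mv.sw' _ _ _ _ _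

theorem bare_reach {Γ : Type} [Group Γ] {k : ℕ} {t t' : List (Hd Γ k) × List Γ}
    (h : DMR t t') : MR (bare t.1, t.2) (bare t'.1, t'.2) := by
  induction h with
  | refl => exact Relation.ReflTransGen.refl
  | tail _ hs ih => exact ih.tail (bare_step hs)

/-- the image in the closed surface is a decorated list and the punctures die -/
theorem closed_step {g n k : ℕ} {w : SurfaceGroup g → ZMod k} (hw : IsSpinStructure k w)
    (f : F g n →* SurfaceGroup g) {t t' : List (Hd (F g n) k) × List (F g n)} (h : DMv t t')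
    (h1 : ∃ ψ : SurfaceGroup g ≃* SurfaceGroup g, IsOrientationPreserving ψ ∧
      SpQ.mapH f t.1 = SpQ.decor w ψ) (h2 : ∀ y ∈ t.2, f y = 1) :
    (∃ ψ : SurfaceGroup g ≃* SurfaceGroup g, IsOrientationPreserving ψ ∧
      SpQ.mapH f t'.1 = SpQ.decor w ψ) ∧ ∀ y ∈ t'.2, f y = 1 := by
  obtain ⟨ψ, hψ, hL⟩ := h1
  cases h with
  | st L L' M h =>
    have h3 := SpQ.mapH_step f h
    simp only at hL
    rw [hL] at h3
    exact ⟨SpQ.step_decor hw hψ h3, h2⟩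
  | ab L a b y o M =>
    have hy : f y = 1 := h2 y List.mem_cons_self
    refine ⟨⟨ψ, hψ, ?_⟩, ?_⟩
    · rw [← hL]
      unfold SpQ.mapH
      simp [hy]
    · intro z hz
      rcases List.mem_cons.1 hz with rfl | hz
      · simp only [map_mul, map_inv, hy]
        group
      · exact h2 z (List.mem_cons_of_mem _ hz)
  | ab' L a b y o M =>
    have hy : f y = 1 := h2 y List.mem_cons_self
    refine ⟨⟨ψ, hψ, ?_⟩, ?_⟩
    · rw [← hL]
      unfold SpQ.mapH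
      simp [hy]
    · intro z hz
      rcases List.mem_cons.1 hz with rfl | hz
      · simp only [map_mul, map_inv, hy]
        group
      · exact h2 z (List.mem_cons_of_mem _ hz)
  | sw L P S y z =>
    refine ⟨⟨ψ, hψ, hL⟩, ?_⟩
    have hy : f y = 1 := h2 y (by simp)
    have hz : f z = 1 := h2 z (by simp)
    intro x hx
    rcases List.mem_append.1 hx with hx | hx
    · exact h2 x (List.mem_append_left _ hx)
    · rcases List.mem_cons.1 hx with rfl | hx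
      · exact hz
      · rcases List.mem_cons.1 hx with rfl | hx
        · simp [hy, hz]
        · exact h2 x (by simp [hx])
  | sw' L P S y z =>
    refine ⟨⟨ψ, hψ, hL⟩, ?_⟩
    have hy : f y = 1 := h2 y (by simp)
    have hz : f z = 1 := h2 z (by simp)
    intro x hx
    rcases List.mem_append.1 hx with hx | hx
    · exact h2 x (List.mem_append_left _ hx)
    · rcases List.mem_cons.1 hx with rfl | hx
      · simp [hy, hz]
      · rcases List.mem_cons.1 hx with rfl | hx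
        · exact hy
        · exact h2 x (by simp [hx])

theorem closed_reach {g n k : ℕ} {w : SurfaceGroup g → ZMod k} (hw : IsSpinStructure k w)
    (f : F g n →* SurfaceGroup g) {t t' : List (Hd (F g n) k) × List (F g n)} (h : DMR t t')
    (h1 : ∃ ψ : SurfaceGroup g ≃* SurfaceGroup g, IsOrientationPreserving ψ ∧
      SpQ.mapH f t.1 = SpQ.decor w ψ) (h2 : ∀ y ∈ t.2, f y = 1) :
    (∃ ψ : SurfaceGroup g ≃* SurfaceGroup g, IsOrientationPreserving ψ ∧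
      SpQ.mapH f t'.1 = SpQ.decor w ψ) ∧ ∀ y ∈ t'.2, f y = 1 := by
  induction h with
  | refl => exact ⟨h1, h2⟩
  | tail _ hs ih => exact closed_step hw f hs ih.1 ih.2

/-- **WBR** for `LGC.DMR`. -/
def St_Wbr : Prop := ∀ (g n k : ℕ) (w : SurfaceGroup g → ZMod k), IsSpinStructure k w →
    ∀ φ ∈ MC g n, φ (x0 g n) = x0 g n → ∀ (L : List (Hd (F g n) k)) (M : List (F g n)),
    DMR (dstd (wty w φ), stdM g n) (L, M) → ∀ x ∈ SpQ.fc L 0,
    (NS (φ x) ∧ w (prj g n (φ x)) = 0) ∧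
      (NS (φ (x * x0 g n)) ∧ w (prj g n (φ (x * x0 g n))) = 0)

theorem thm_Wbr (hD : St_Dsc) (hA : St_Aut) (hP : St_Psh) : St_Wbr := by
  intro g n k w hw φ hφ hx0 L M hLM x hx
  obtain ⟨y, q, junk, hr⟩ := hx
  -- the reachable tuple
  have hR : DMR (dstd (wty w φ), stdM g n) (junk ++ [((x, y), (0, q))], M) :=
    Relation.ReflTransGen.trans hLM (DMR.of_reach hr M)
  -- the mapping class
  have hB := bare_reach hR
  simp only at hB
  rw [Wbr_bare_dstd] at hB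
  obtain ⟨θ, hθ, hθx, hθL, -⟩ := hA g n _ _ hB
  have hmem : ((x, y) : F g n × F g n) ∈ bare (junk ++ [((x, y), ((0 : ZMod k), q))]) := by
    unfold bare
    simp
  rw [← hθL] at hmem
  obtain ⟨p, hp, hpe⟩ := List.mem_map.1 hmem
  unfold stdL at hp
  obtain ⟨i, rfl⟩ := (List.mem_ofFn' _ _).1 hp
  have hxi : x = θ (ga i) := (congrArg Prod.fst hpe).symm
  have hNS1 : NS (φ x) := by
    rw [hxi]
    exact Psh_NS_map hφ ⟨θ, hθ, i, rfl⟩
  have hNS2 : NS (φ (x * x0 g n)) := by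
    have e : x * x0 g n = θ (ga i * x0 g n) := by rw [map_mul, hθx, ← hxi]
    rw [e]
    exact Psh_NS_map hφ (Psh_NS_map hθ (hP g n i))
  -- the weight
  obtain ⟨ψ, hψ, hψe⟩ := hD g n φ hφ hx0
  have h1 : SpQ.mapH ((prj g n).comp φ.toMonoidHom) (dstd (n := n) (wty w φ)) =
      SpQ.decor w ψ := by
    unfold SpQ.mapH dstd SpQ.decor
    rw [List.map_ofFn]
    congr 1
    funext j
    have ea : prj g n (φ (ga j)) = ψ (a j) := by
      rw [hψe]
      congr 1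
    have eb : prj g n (φ (gb j)) = ψ (b j) := by
      rw [hψe]
      congr 1
    show ((prj g n (φ (ga j)), prj g n (φ (gb j))),
      (w (prj g n (φ (ga j))), w (prj g n (φ (gb j))))) = _
    rw [ea, eb]
  have h2 : ∀ z ∈ stdM g n, ((prj g n).comp φ.toMonoidHom) z = 1 := by
    intro z hz
    unfold stdM at hz
    obtain ⟨j, rfl⟩ := (List.mem_ofFn' _ _).1 hz
    show prj g n (φ (gx j)) = 1
    rw [hψe, map_eq_one_iff ψ ψ.injective]
    unfold prj gx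
    rw [FreeGroup.lift_apply_of]
  obtain ⟨⟨ψ', hψ', he⟩, -⟩ := closed_reach hw _ hR ⟨ψ, hψ, h1⟩ h2
  have he' : SpQ.mapH ((prj g n).comp φ.toMonoidHom) junk ++
      ((prj g n (φ x), prj g n (φ y)), ((0 : ZMod k), q)) :: [] = SpQ.decor w ψ' := by
    rw [← he]
    unfold SpQ.mapH
    simp
  obtain ⟨j, -, hj⟩ := SpQ.decor_get he'
  simp only [Prod.mk.injEq] at hj
  obtain ⟨⟨hj1, -⟩, hj2, -⟩ := hj
  have hW : w (prj g n (φ x)) = 0 := by rw [hj1, ← hj2]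
  refine ⟨⟨hNS1, hW⟩, hNS2, ?_⟩
  rw [map_mul, map_mul, hx0, Wbr_prj_x0, mul_one]
  exact hW

end Pool.Agent.LGC
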