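import Pool.Agent.LGC.Bas
import Pool.Agent.LGP.Ess

/-!
# A long list of killed handles contains one which is not essential

For MP_0707f5_ag (Theorem C).
-/

set_option autoImplicit false

namespace Pool.Agent.LGC

open Module Helper12.Sc
open SpQ (Hd WStep WReach WExt Good bare bd cj1)
open LGP (cyc stb)

section non
variable {K U Γ : Type} [Field K] [AddCommGroup U] [Module K U] [Group Γ]
  [FiniteDimensional K U] {k : ℕ}

omit [FiniteDimensional K U] in
private theorem c_mono {N : Subgroup Γ} (R : N →* Module.End K U) (w : U) {X Y : List (It Γ k)}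
    (h : ∀ i ∈ X, i ∈ Y) :
    cyc R w ((GI X).subgroupOf N) ≤ cyc R w ((GI Y).subgroupOf N) :=
  LGP.cyc_mono R w (Subgroup.comap_mono (GI_mono h))

omit [FiniteDimensional K U] in
private theorem c_hl_mono {N : Subgroup Γ} (R : N →* Module.End K U) (w : U)
    (X : List (It Γ k)) {C D : List (Hd Γ k)} (h : ∀ i ∈ C, i ∈ D) :
    cyc R w ((GI (X ++ hl C)).subgroupOf N) ≤ cyc R w ((GI (X ++ hl D)).subgroupOf N) := by
  apply c_mono
  intro i hi
  rcases List.mem_append.1 hi with hi | hi
  · exact List.mem_append_left _ hi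
  · obtain ⟨p, hp, rfl⟩ := mem_hl.1 hi
    exact List.mem_append_right _ (mem_hl.2 ⟨p, h p hp, rfl⟩)

/-- the stabiliser of `S` as a subgroup of `Γ` -/
private def sg {N : Subgroup Γ} (R : N →* Module.End K U) (S : Submodule K U) : Subgroup Γ :=
  (stb R S).map N.subtype

private theorem le_sg {N : Subgroup Γ} (R : N →* Module.End K U) (w : U) (H : Subgroup Γ)
    (S : Submodule K U) (hS : cyc R w (H.subgroupOf N) = S) : N ⊓ H ≤ sg R S := by
  intro z hz
  obtain ⟨hzN, hzH⟩ := Subgroup.mem_inf.1 hz
  have h1 : (⟨z, hzN⟩ : N) ∈ H.subgroupOf N := Subgroup.mem_subgroupOf.2 hzH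
  have h2 := LGP.le_stb_cyc (R := R) (w := w) _ h1
  rw [hS] at h2
  exact ⟨⟨z, hzN⟩, h2, rfl⟩

private theorem subgroupOf_le {N : Subgroup Γ} (R : N →* Module.End K U) (H : Subgroup Γ)
    (S : Submodule K U) (h : N ⊓ H ≤ sg R S) : H.subgroupOf N ≤ stb R S := by
  intro z hz
  have h1 : (z : Γ) ∈ N ⊓ H := Subgroup.mem_inf.2 ⟨z.2, Subgroup.mem_subgroupOf.1 hz⟩
  obtain ⟨y, hy, hyz⟩ := h h1
  have h2 : y = z := Subtype.ext hyz
  rw [← h2]
  exact hy

/-- the step: if no handle of `D` enlarges then everything is in the stabiliser -/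
private theorem all_le (N : Subgroup Γ) [N.Normal] (R : N →* Module.End K U) (w : U)
    (X : List (It Γ k)) (B C D : List (Hd Γ k)) (hB : ∀ h ∈ B, Kl N h) (hperm : B.Perm (C ++ D))
    (hst : ∀ h ∈ D, cyc R w ((GI (X ++ hl (C ++ [h]))).subgroupOf N) =
      cyc R w ((GI (X ++ hl C)).subgroupOf N)) :
    cyc R w ((GI (X ++ hl B)).subgroupOf N) ≤ cyc R w ((GI (X ++ hl C)).subgroupOf N) := by
  set S := cyc R w ((GI (X ++ hl C)).subgroupOf N) with hS
  have hw : w ∈ S := LGP.self_mem_cyc _ _ _
  have hC : N ⊓ GI (X ++ hl C) ≤ sg R S := le_sg R w _ S hS.symm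
  have hX : N ⊓ GI X ≤ sg R S :=
    le_trans (inf_le_inf le_rfl (GI_mono fun i hi => List.mem_append_left _ hi)) hC
  have hq : ∀ q ∈ B, ∃ Y : List (Hd Γ k), q ∈ Y ∧ N ⊓ GI (X ++ hl Y) ≤ sg R S := by
    intro q hq
    rcases List.mem_append.1 (hperm.mem_iff.1 hq) with h | h
    · exact ⟨C, h, hC⟩
    · exact ⟨C ++ [q], by simp, le_sg R w _ S (hst q h)⟩
  have hall : N ⊓ GI (X ++ hl B) ≤ sg R S := by
    apply grp X B hB _ hX
    intro v hv q hqB
    obtain ⟨Y, hqY, hY⟩ := hq q hqB
    have hk := (hB q hqB).cj1 v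
    have hvY : v ∈ GI (X ++ hl Y) := GI_mono (fun i hi => List.mem_append_left _ hi) hv
    have hqm : (Sum.inl q : It Γ k) ∈ X ++ hl Y :=
      List.mem_append_right _ (mem_hl.2 ⟨q, hqY, rfl⟩)
    have h1 : q.1.1 ∈ GI (X ++ hl Y) := mem_GI hqm (Or.inl rfl)
    have h2 : q.1.2 ∈ GI (X ++ hl Y) := mem_GI hqm (Or.inr rfl)
    rw [SpQ.E_singleton_le]
    refine ⟨hY (Subgroup.mem_inf.2 ⟨hk.1, ?_⟩), hY (Subgroup.mem_inf.2 ⟨hk.2, ?_⟩)⟩
    · exact Subgroup.mul_mem _ (Subgroup.mul_mem _ (Subgroup.inv_mem _ hvY) h1) hvY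
    · exact Subgroup.mul_mem _ (Subgroup.mul_mem _ (Subgroup.inv_mem _ hvY) h2) hvY
  exact LGP.cyc_le hw (subgroupOf_le R _ _ hall)

end non

/-- a long list of killed handles contains a handle which is not essential -/
theorem thm_Non : St_Non := by
  intro K U Γ _ _ _ _ _ k N _ R w X B hw hB hlen
  by_contra hcon
  push Not at hcon
  have key : ∀ j ≤ B.length, ∃ C D : List (Hd Γ k), B.Perm (C ++ D) ∧ C.length = j ∧
      j + 1 ≤ finrank K (cyc R w ((GI (X ++ hl C)).subgroupOf N)) := by
    intro j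
    induction j with
    | zero =>
      intro _
      refine ⟨[], B, List.Perm.refl _, rfl, ?_⟩
      have h1 : cyc R w ((GI (X ++ hl ([] : List (Hd Γ k)))).subgroupOf N) ≠ ⊥ := by
        intro h
        have := LGP.self_mem_cyc R w ((GI (X ++ hl ([] : List (Hd Γ k)))).subgroupOf N)
        rw [h, Submodule.mem_bot] at this
        exact hw this
      have h2 := Submodule.one_le_finrank_iff.2 h1
      simpa using h2
    | succ j ih =>
      intro hk
      obtain ⟨C, D, hperm, hC, hdim⟩ := ih (by omega)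
      have hD : D ≠ [] := by
        rintro rfl
        have := hperm.length_eq
        rw [List.append_nil] at this
        omega
      by_cases hst : ∀ h ∈ D, cyc R w ((GI (X ++ hl (C ++ [h]))).subgroupOf N) =
          cyc R w ((GI (X ++ hl C)).subgroupOf N)
      · exfalso
        have h2 := all_le N R w X B C D hB hperm hst
        obtain ⟨h, hh⟩ := List.exists_mem_of_ne_nil D hD
        have hhB : h ∈ B := hperm.mem_iff.2 (List.mem_append_right _ hh)
        obtain ⟨s, t, rfl⟩ := List.append_of_mem hhB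
        obtain ⟨D₁, D₂, rfl⟩ := List.append_of_mem hh
        have h3 : (s ++ t).Perm (C ++ D₁ ++ D₂) := by
          have e1 : (h :: (s ++ t)).Perm (s ++ h :: t) := List.perm_middle.symm
          have e2 : (h :: (C ++ D₁ ++ D₂)).Perm (C ++ (D₁ ++ h :: D₂)) := by
            rw [← List.append_assoc]
            exact List.perm_middle.symm
          exact ((e1.trans hperm).trans e2.symm).cons_inv
        refine hcon s h t rfl (le_antisymm (c_hl_mono R w X ?_)
          (h2.trans (c_hl_mono R w X ?_)))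
        · intro p hp
          rcases List.mem_append.1 hp with hp | hp
          · exact List.mem_append_left _ hp
          · exact List.mem_append_right _ (List.mem_cons_of_mem _ hp)
        · intro p hp
          exact h3.mem_iff.2 (List.mem_append_left _ (List.mem_append_left _ hp))
      · push Not at hst
        obtain ⟨h, hh, hns⟩ := hst
        obtain ⟨D₁, D₂, rfl⟩ := List.append_of_mem hh
        refine ⟨C ++ [h], D₁ ++ D₂, ?_, ?_, ?_⟩
        · refine hperm.trans ?_
          have e2 : (C ++ (D₁ ++ h :: D₂)).Perm (C ++ (h :: (D₁ ++ D₂))) :=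
            List.Perm.append_left _ List.perm_middle
          simpa using e2
        · rw [List.length_append, List.length_singleton, hC]
        · have h1 := c_hl_mono R w X (C := C) (D := C ++ [h])
            (fun p hp => List.mem_append_left _ hp)
          have h3 := Submodule.finrank_lt_finrank_of_lt (lt_of_le_of_ne h1 (Ne.symm hns))
          omega
  obtain ⟨C, D, hperm, hC, hdim⟩ := key B.length le_rfl
  have hD : D = [] := by
    have := hperm.length_eq
    rw [List.length_append, hC] at this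
    exact List.eq_nil_of_length_eq_zero (by omega)
  subst hD
  rw [List.append_nil] at hperm
  have h1 : cyc R w ((GI (X ++ hl C)).subgroupOf N) ≤ cyc R w ((GI (X ++ hl B)).subgroupOf N) :=
    c_hl_mono R w X fun p hp => hperm.mem_iff.2 hp
  have h2 := Submodule.finrank_mono h1
  omega

end Pool.Agent.LGC
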