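import Pool.Agent.LGC.Bas
import Pool.Agent.LGP.WMain

/-!
# Two representations of `N` with the same traces (PRN)

Helper77, for MP_0707f5_ag (Theorem C).
-/

set_option autoImplicit false

namespace Pool.Agent.LGC

open Matrix Module Helper12.Sc
open SpQ (Hd WStep WReach WExt Good bare bd cj1 IsSpinStructure)
open LGP (F ga gb gx x0 MC NS MR stdL stdM dstd wty prj cyc)

private theorem Prn_GI {g n k : ℕ} (τ : Fin g → ZMod k × ZMod k) :
    GI (istd (n := n) τ) = ⊤ := by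
  rw [eq_top_iff, ← LGP.closure_dstd (n := n) τ]
  unfold istd
  rw [GI_append, GI_hl]
  refine sup_le_sup_left ?_ _
  rw [Subgroup.closure_le]
  intro y hy
  exact mem_GI (i := Sum.inr y) (List.mem_map.2 ⟨y, hy, rfl⟩) rfl

theorem thm_Prn (hV : St_Vez) : St_Prn := by
  intro g n k r h N _ hh hkill τ ρ₁ ρ₂ A hA hT x
  have hlen : (dstd (n := n) τ).length = g := by simp [dstd]
  obtain ⟨B₀, hB₀⟩ : ∃ B, B = (dstd (n := n) τ).take h := ⟨_, rfl⟩
  obtain ⟨C₀, hC₀⟩ : ∃ C, C = (dstd (n := n) τ).drop h := ⟨_, rfl⟩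
  have hBC : dstd (n := n) τ = B₀ ++ C₀ := by
    rw [hB₀, hC₀, List.take_append_drop]
  have hBlen : B₀.length = h := by
    rw [hB₀, List.length_take, hlen]
    omega
  have hBK : ∀ p ∈ B₀, Kl N p := by
    intro p hp
    rw [hB₀, List.mem_take_iff_getElem] at hp
    obtain ⟨j, hj, rfl⟩ := hp
    have hj' : j < g := by omega
    have h1 := hkill ⟨j, hj'⟩ (by simp only; omega)
    unfold Kl dstd
    simpa using h1
  have hist : istd (n := n) τ = hl B₀ ++ (hl C₀ ++ (stdM g n).map Sum.inr) := by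
    unfold istd
    rw [hBC, hl_append, List.append_assoc]
  obtain ⟨u, -, hu⟩ := IReach.move_block (hl B₀) (hl C₀ ++ (stdM g n).map Sum.inr)
  rw [← hist] at hu
  have hGI : GI (List.map (icj u) (hl C₀ ++ (stdM g n).map Sum.inr) ++ hl B₀) = ⊤ := by
    rw [hu.GI_eq]
    exact Prn_GI τ
  have hfin : 2 * finrank ℂ (cyc (LGP.prR ρ₁ ρ₂) (A, A) ⊤) ≤ B₀.length := by
    have h1 := LGP.finrank_cyc_le ρ₁ ρ₂ A ⊤
    have h2 : 4 * (r * A.rank) ≤ h := by rwa [← mul_assoc]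
    rw [hBlen]
    omega
  have key := hV ℂ (Matrix (Fin r) (Fin r) ℂ × Matrix (Fin r) (Fin r) ℂ) (F g n) k N
    (LGP.prR ρ₁ ρ₂) (A, A) _ B₀ hBK hGI hfin (LGP.dtr r) (by
      intro X' P hr hP x hx hxP
      rw [LGP.prR_apply, LGP.dtr_apply, hT X' P (hu.trans hr) hP x hx hxP, sub_self]) x
  rw [LGP.prR_apply, LGP.dtr_apply] at key
  exact sub_eq_zero.1 key

end Pool.Agent.LGC

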