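import Pool.Agent.LGC.Defs
import Pool.Agent.LGP.WMain
import Pool.Agent.HZ.RedB

/-!
# LGC / Qut: finitely many traces of the pieces on the curves, from roots of unity

Helper21, for MP_0707f5_ag (Theorem C).
-/

set_option autoImplicit false

namespace Pool.Agent.LGC

open Matrix Module Helper12.Sc
open LGP (F ga gb gx x0 MC NS prj)

/-- if the eigenvalues of `ρ y` are roots of unity for the `y` of a subset of `N` then the traces of
the pieces of `ρ` on this subset are finite in number -/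
theorem finite_pieces {g n R m : ℕ} (C : Set (F g n)) (N : Subgroup (F g n))
    (ρ : F g n →* GL (Fin R) ℂ) (r : Fin m → ℕ) (σ : ∀ j, N →* GL (Fin (r j)) ℂ)
    (hch : ∀ y : N, (ρ (y : F g n) : Matrix (Fin R) (Fin R) ℂ).charpoly =
      ∏ j, (σ j y : Matrix (Fin (r j)) (Fin (r j)) ℂ).charpoly)
    (hρ : ∀ y ∈ C, Pool.Agent.HZ.Quasi (ρ y)) (j : Fin m) :
    {z : ℂ | ∃ y : N, (y : F g n) ∈ C ∧
      z = (σ j y : Matrix (Fin (r j)) (Fin (r j)) ℂ).trace}.Finite := by
  obtain ⟨M, hM, hexp⟩ := Pool.Agent.HZ.exists_exponent ρ.range (LGP.range_fg' ρ)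
  have hZ : {z : ℂ | z ^ M = 1}.Finite := by
    classical
    refine ((Polynomial.nthRoots M (1 : ℂ)).toFinset.finite_toSet).subset ?_
    intro z hz
    rw [Finset.mem_coe, Multiset.mem_toFinset, Polynomial.mem_nthRoots hM]
    exact hz
  refine (Pool.Agent.HZ.finite_traces_of_roots (r j) _ hZ).subset ?_
  rintro _ ⟨y, h1, rfl⟩
  refine ⟨_, fun c hc => ?_, rfl⟩
  have hc' : (ρ (y : F g n) : Matrix (Fin R) (Fin R) ℂ).charpoly.IsRoot c := by
    rw [hch y]
    unfold Polynomial.IsRoot at hc ⊢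
    rw [Polynomial.eval_prod]
    exact Finset.prod_eq_zero (Finset.mem_univ j) hc
  exact hexp (ρ y) ⟨y, rfl⟩ c hc' (hρ y h1 c hc')

end Pool.Agent.LGC
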