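import Pool.Agent.LGC.Defs
import Pool.Agent.HZ.Root
import Pool.Agent.HZ.RedB

/-!
# Theorem C: the final form

Helper21, for MP_0707f5_ag.
-/

set_option autoImplicit false

namespace Pool.Agent.LGC

open Matrix Module Helper12.Sc
open SpQ (IsSpinStructure)
open LGP (F ga gb gx x0 MC NS prj)

/-- **FIN**.  The theorem, with both forms of the hypothesis.
PROOF. In the first case `Pool.Agent.HZ.exists_exponent ρ.range` (`LGP.range_fg'` in LGP/WMain.lean)
gives `M > 0` such that all roots of unity which are eigenvalues of elements of `ρ.range` are `M`-th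
roots of unity, so the set of the second case is contained in the finite set of the `M`-th roots of
unity (as `LGP.finite_tr`).  Then `St_Top`. -/
def St_Fin : Prop := ∀ (g n k R m h : ℕ) (w : SurfaceGroup g → ZMod k), 0 < k →
    IsSpinStructure k w → ∀ (N : Subgroup (F g n)) [N.Normal] [N.FiniteIndex], h ≤ g →
    (∃ θ ∈ MC g n, ∀ i : Fin g, (i : ℕ) < h → θ (ga i) ∈ N ∧ θ (gb i) ∈ N) →
    ∀ (ρ : F g n →* GL (Fin R) ℂ) (r : Fin m → ℕ) (σ : ∀ j, N →* GL (Fin (r j)) ℂ),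
    (∀ y : N, (ρ (y : F g n) : Matrix (Fin R) (Fin R) ℂ).charpoly =
      ∏ j, (σ j y : Matrix (Fin (r j)) (Fin (r j)) ℂ).charpoly) →
    (∀ j, Cnd N h (r j) (σ j)) →
    ((∀ y ∈ N, NS y → w (prj g n y) = 0 → Pool.Agent.HZ.Quasi (ρ y)) ∨
      {z : ℂ | ∃ y ∈ N, NS y ∧ w (prj g n y) = 0 ∧
        (ρ y : Matrix (Fin R) (Fin R) ℂ).charpoly.IsRoot z}.Finite) →
    {χ : F g n → ℂ | ∃ φ ∈ MC g n,
      χ = fun y => (ρ (φ y) : Matrix (Fin R) (Fin R) ℂ).trace}.Finite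

/-- **KIL**.  Handles can be killed if the genus is large compared with the square of the logarithm of
the index.
PROOF. `Q = F g n ⧸ N`, `Nat.card Q = N.index`, `ℓ = Nat.log 2 |Q| + 1`, `K = 2000000000 ℓ ^ 2`.
(1) For all lists `L` of pairs in `Q` with `K ≤ L.length` there is `L'` with `LG L ((1, 1) :: L')`: this is
in the proof of `PWL.thm_Any` (PWL/Any.lean: `hD (1 + 1600000000 n ^ 2)`, with `hH`, `hD` from
`PWL.thm_Hlf PWL.thm_Str PWL.thm_Uni PWL.thm_Dsb PWL.thm_Grw PWL.thm_Eng PWL.thm_Frt PWL.thm_Cub` and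
`PWL.thm_Ded PWL.thm_Frt`).
(2) For all `h` and `L` with `h + K ≤ L.length` there is `L'` with
`LG L (List.replicate h (1, 1) ++ L')`: induction on `h` with (1) and the calculus `PWH.bBas` (transitive;
app with `p = [(1, 1)]`, `q = []`; `LG` preserves the length).
(3) `PW.F g n` is the free group on `PW.Gen g n`; the bijection `Gen.a i ↦ inl (i, false)`,
`Gen.b i ↦ inl (i, true)`, `Gen.c j ↦ inr j` gives `e : PW.F g n ≃* F g n` (`FreeGroup.freeGroupCongr`) with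
`e (PW.bdry g n) = (x0 g n)⁻¹`, `e (PW.ga i) = ga i`, `e (PW.gb i) = gb i`, `e (PW.gc j) = gx j`.  For
`φ ∈ PW.MCG g n` the automorphism `θ = e φ e⁻¹` is in `MC g n`.
(4) `ρ = (QuotientGroup.mk' N).comp e`, `L = lst ρ 0 g`, `PWH.bRea` with `m = 0`, `k = g`: `φ ∈ MCG g n`
with `lst (ρ.comp φ) 0 g = List.replicate h (1, 1) ++ L'`, so `vls (ρ.comp φ) i = (1, 1)` for `i < h`, that is
`ρ (φ (PW.ga i)) = 1`, `ρ (φ (PW.gb i)) = 1`, and `θ (ga i) ∈ N`, `θ (gb i) ∈ N`. -/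
def St_Kil : Prop := ∀ (g n h : ℕ) (N : Subgroup (F g n)) [N.Normal] [N.FiniteIndex],
    h + 2000000000 * (Nat.log 2 N.index + 1) ^ 2 ≤ g →
    ∃ θ ∈ MC g n, ∀ i : Fin g, (i : ℕ) < h → θ (ga i) ∈ N ∧ θ (gb i) ∈ N

end Pool.Agent.LGC
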