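import Pool.Agent.LGC.Bas
import Pool.Agent.LGP.Aut
import Pool.Agent.LGP.Psh
import Pool.Agent.HZ.RedB

/-!
# LGC / Tod: the assembly for representations whose eigenvalues are words in those of small ones

Helper21, for MP_0707f5_ag (Theorem D); after LGC/Top.lean of helper95.
-/

set_option autoImplicit false

namespace Pool.Agent.LGC

open Matrix Module Helper12.Sc
open SpQ (Hd WStep WReach WExt Good bare bd cj1 IsSpinStructure)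
open LGP (F ga gb gx x0 MC NS MR stdL stdM dstd wty prj cyc)

/-- the products of at most `d` elements of `Z` and inverses of elements of `Z` -/
def Pd (d : ℕ) (Z : Set ℂ) : Set ℂ :=
  {z | ∃ l : List ℂ, l.length ≤ d ∧ (∀ u ∈ l, u ∈ Z ∨ u⁻¹ ∈ Z) ∧ z = l.prod}

/-- the `e`-th roots, `0 < e ≤ d`, of the products of at most `d` elements of `Z` and inverses of
elements of `Z` -/
def Wd (d : ℕ) (Z : Set ℂ) : Set ℂ := {z | ∃ e, 0 < e ∧ e ≤ d ∧ z ^ e ∈ Pd d Z}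

theorem Pd_mono (d : ℕ) {Z Z' : Set ℂ} (h : Z ⊆ Z') : Pd d Z ⊆ Pd d Z' := by
  rintro z ⟨l, hl, h1, rfl⟩
  exact ⟨l, hl, fun u hu => (h1 u hu).imp (@h _) (@h _), rfl⟩

theorem Wd_mono (d : ℕ) {Z Z' : Set ℂ} (h : Z ⊆ Z') : Wd d Z ⊆ Wd d Z' := by
  rintro z ⟨e, he, hed, h1⟩
  exact ⟨e, he, hed, Pd_mono d h h1⟩

theorem Pd_finite (d : ℕ) {Z : Set ℂ} (hZ : Z.Finite) : (Pd d Z).Finite := by
  have hY : (Z ∪ (fun u => u⁻¹) '' Z).Finite := hZ.union (hZ.image _)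
  induction d with
  | zero =>
    refine (Set.finite_singleton (1 : ℂ)).subset ?_
    rintro z ⟨l, hl, -, rfl⟩
    have : l = [] := List.eq_nil_of_length_eq_zero (by omega)
    subst this
    rfl
  | succ d ih =>
    refine ((Set.Finite.image2 (fun a b => a * b) hY ih).insert 1).subset ?_
    rintro z ⟨l, hl, h1, rfl⟩
    cases l with
    | nil => exact Or.inl rfl
    | cons u l =>
      refine Or.inr ⟨u, ?_, l.prod, ⟨l, by simpa using hl, fun v hv => h1 v (by simp [hv]), rfl⟩,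
        by simp⟩
      rcases h1 u (by simp) with h2 | h2
      · exact Or.inl h2
      · exact Or.inr ⟨u⁻¹, h2, inv_inv u⟩

theorem Wd_finite (d : ℕ) {Z : Set ℂ} (hZ : Z.Finite) : (Wd d Z).Finite := by
  have h1 : (⋃ e ∈ Set.Icc 1 d, ⋃ a ∈ Pd d Z, {z : ℂ | z ^ e = a}).Finite := by
    refine (Set.finite_Icc 1 d).biUnion fun e he => (Pd_finite d hZ).biUnion fun a _ => ?_
    refine ((Polynomial.nthRoots e a).toFinset.finite_toSet).subset ?_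
    intro z hz
    rw [Finset.mem_coe, Multiset.mem_toFinset, Polynomial.mem_nthRoots he.1]
    exact hz
  refine h1.subset ?_
  rintro z ⟨e, he, hed, h2⟩
  exact Set.mem_biUnion (Set.mem_Icc.2 ⟨he, hed⟩) (Set.mem_biUnion h2 rfl)

/-- products of roots of unity are roots of unity -/
theorem Wd_root (d : ℕ) {Z : Set ℂ} (hZ : ∀ z ∈ Z, ∃ n > 0, z ^ n = 1) :
    ∀ z ∈ Wd d Z, ∃ n > 0, z ^ n = 1 := by
  have hP : ∀ l : List ℂ, (∀ u ∈ l, u ∈ Z ∨ u⁻¹ ∈ Z) → ∃ n > 0, l.prod ^ n = 1 := by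
    intro l h1
    induction l with
    | nil => exact ⟨1, Nat.one_pos, by simp⟩
    | cons u l ih =>
      obtain ⟨a, ha, h2⟩ := ih fun v hv => h1 v (by simp [hv])
      obtain ⟨b, hb, h3⟩ : ∃ b > 0, u ^ b = 1 := by
        rcases h1 u (by simp) with h | h
        · exact hZ u h
        · obtain ⟨b, hb, h3⟩ := hZ _ h
          refine ⟨b, hb, ?_⟩
          rw [inv_pow, inv_eq_one] at h3
          exact h3
      refine ⟨a * b, Nat.mul_pos ha hb, ?_⟩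
      rw [List.prod_cons, mul_pow, pow_mul l.prod, h2, one_pow, mul_one, mul_comm a b, pow_mul, h3,
        one_pow]
  rintro z ⟨e, he, -, l, -, h1, h2⟩
  obtain ⟨n, hn, h3⟩ := hP l h1
  exact ⟨e * n, Nat.mul_pos he hn, by rw [pow_mul, h2, h3]⟩

/-- conjugation does not change the trace -/
private theorem Tod_conj {g n R : ℕ} (ρ : F g n →* GL (Fin R) ℂ) (u : F g n)
    (φ : MulAut (F g n)) (y : F g n) :
    (ρ ((MulAut.conj u * φ) y) : Matrix (Fin R) (Fin R) ℂ).trace =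
      (ρ (φ y) : Matrix (Fin R) (Fin R) ℂ).trace := by
  rw [MulAut.mul_apply, MulAut.conj_apply, map_mul, map_mul, map_inv, Units.val_mul,
    Units.val_mul, Matrix.trace_mul_comm, ← mul_assoc, ← Units.val_mul, inv_mul_cancel,
    Units.val_one, one_mul]

/-- one class -/
private theorem Tod_one (hE : St_Ext) (hF : St_Fnn) (g n k R m d : ℕ)
    (w : SurfaceGroup g → ZMod k) (hk : 0 < k)
    (N : Subgroup (F g n)) [N.Normal] [N.FiniteIndex]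
    (θ : MulAut (F g n))
    (ρ : F g n →* GL (Fin R) ℂ) (r : Fin m → ℕ) (σ : ∀ j, N →* GL (Fin (r j)) ℂ)
    (hch : ∀ (y : N) (z : ℂ), (ρ (y : F g n) : Matrix (Fin R) (Fin R) ℂ).charpoly.IsRoot z →
      z ∈ Wd d {u | ∃ j, (σ j y : Matrix (Fin (r j)) (Fin (r j)) ℂ).charpoly.IsRoot u})
    (hS : ∀ (j : Fin m) (τ : Fin g → ZMod k × ZMod k),
      {χ : ↥(N.comap θ.toMonoidHom) → ℂ | ∃ φ ∈ MC g n,
        φ (x0 g n) = x0 g n ∧ (∀ y, φ y * (θ y)⁻¹ ∈ N) ∧ wty w φ = τ ∧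
        ∃ hφ : ∀ y ∈ N.comap θ.toMonoidHom, φ y ∈ N,
        χ = fun y : ↥(N.comap θ.toMonoidHom) =>
          (σ j ⟨φ y, hφ y y.2⟩ : Matrix (Fin (r j)) (Fin (r j)) ℂ).trace}.Finite) :
    {χ : F g n → ℂ | ∃ φ ∈ MC g n, φ (x0 g n) = x0 g n ∧ (∀ y, φ y * (θ y)⁻¹ ∈ N) ∧
      χ = fun y => (ρ (φ y) : Matrix (Fin R) (Fin R) ℂ).trace}.Finite := by
  classical
  have : NeZero k := ⟨hk.ne'⟩
  have : Group.FG (F g n) := by
    rw [Group.fg_iff]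
    exact ⟨_, FreeGroup.closure_range_of _, Set.finite_range _⟩
  have hindex : (N.comap θ.toMonoidHom).FiniteIndex := ⟨by
    rw [Subgroup.index_comap_of_surjective N (f := θ.toMonoidHom) θ.surjective]
    exact Subgroup.FiniteIndex.index_ne_zero⟩
  have : Group.FG ↥(N.comap θ.toMonoidHom) := inferInstance
  -- the representations
  let Ξ : Set (F g n →* GL (Fin R) ℂ) := {ρ' | ∃ φ ∈ MC g n, φ (x0 g n) = x0 g n ∧
    (∀ y, φ y * (θ y)⁻¹ ∈ N) ∧ ρ' = ρ.comp φ.toMonoidHom}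
  have hφN' : ∀ φ : MulAut (F g n), (∀ y, φ y * (θ y)⁻¹ ∈ N) →
      ∀ y ∈ N.comap θ.toMonoidHom, φ y ∈ N := by
    intro φ hφN y hy
    have e := N.mul_mem (hφN y) hy
    have e2 : φ y * (θ y)⁻¹ * θ.toMonoidHom y = φ y := inv_mul_cancel_right (φ y) (θ y)
    rwa [e2] at e
  -- the characters of the pieces
  let S : (Fin g → ZMod k × ZMod k) → ∀ j : Fin m, Set (↥(N.comap θ.toMonoidHom) → ℂ) :=
    fun τ j => {χ | ∃ φ ∈ MC g n,
      φ (x0 g n) = x0 g n ∧ (∀ y, φ y * (θ y)⁻¹ ∈ N) ∧ wty w φ = τ ∧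
      ∃ hφ : ∀ y ∈ N.comap θ.toMonoidHom, φ y ∈ N,
      χ = fun y : ↥(N.comap θ.toMonoidHom) =>
        (σ j ⟨φ y, hφ y y.2⟩ : Matrix (Fin (r j)) (Fin (r j)) ℂ).trace}
  -- the traces at one element
  have hT : ∀ y : ↥(N.comap θ.toMonoidHom), {t : ℂ | ∃ φ ∈ MC g n, φ (x0 g n) = x0 g n ∧
      (∀ y, φ y * (θ y)⁻¹ ∈ N) ∧ (ρ (φ y) : Matrix (Fin R) (Fin R) ℂ).trace = t}.Finite := by
    intro y
    -- the set of the data
    have hU : (⋃ τ, Set.univ.pi fun j => S τ j).Finite :=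
      Set.finite_iUnion fun τ => Set.Finite.pi fun j => hS j τ
    have hcov : {t : ℂ | ∃ φ ∈ MC g n, φ (x0 g n) = x0 g n ∧
        (∀ y, φ y * (θ y)⁻¹ ∈ N) ∧ (ρ (φ y) : Matrix (Fin R) (Fin R) ℂ).trace = t} ⊆
        ⋃ f ∈ (⋃ τ, Set.univ.pi fun j => S τ j), {t : ℂ | ∃ φ ∈ MC g n,
          φ (x0 g n) = x0 g n ∧ (∀ y, φ y * (θ y)⁻¹ ∈ N) ∧
          (∃ hφ : ∀ y ∈ N.comap θ.toMonoidHom, φ y ∈ N, ∀ j,
            f j = fun y : ↥(N.comap θ.toMonoidHom) =>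
              (σ j ⟨φ y, hφ y y.2⟩ : Matrix (Fin (r j)) (Fin (r j)) ℂ).trace) ∧
          (ρ (φ y) : Matrix (Fin R) (Fin R) ℂ).trace = t} := by
      rintro t ⟨φ, hφ, hφ0, hφN, rfl⟩
      refine Set.mem_biUnion (x := fun j => fun y : ↥(N.comap θ.toMonoidHom) =>
        (σ j ⟨φ y, hφN' φ hφN y y.2⟩ : Matrix (Fin (r j)) (Fin (r j)) ℂ).trace) ?_
        ⟨φ, hφ, hφ0, hφN, ⟨hφN' φ hφN, fun j => rfl⟩, rfl⟩
      exact Set.mem_iUnion.2 ⟨wty w φ, fun j _ => ⟨φ, hφ, hφ0, hφN, rfl, hφN' φ hφN, rfl⟩⟩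
    refine (hU.biUnion fun f _ => ?_).subset hcov
    by_cases hex : ∃ (φ₀ : MulAut (F g n)) (hφ₀ : ∀ y ∈ N.comap θ.toMonoidHom, φ₀ y ∈ N),
        ∀ j, f j = fun y : ↥(N.comap θ.toMonoidHom) =>
          (σ j ⟨φ₀ y, hφ₀ y y.2⟩ : Matrix (Fin (r j)) (Fin (r j)) ℂ).trace
    · obtain ⟨φ₀, hφ₀, hf₀⟩ := hex
      have hZ : {u : ℂ | ∃ j, (σ j ⟨φ₀ y, hφ₀ y y.2⟩ :
          Matrix (Fin (r j)) (Fin (r j)) ℂ).charpoly.IsRoot u}.Finite := by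
        have h1 : {u : ℂ | ∃ j, (σ j ⟨φ₀ y, hφ₀ y y.2⟩ :
            Matrix (Fin (r j)) (Fin (r j)) ℂ).charpoly.IsRoot u} ⊆
            ⋃ j, ((σ j ⟨φ₀ y, hφ₀ y y.2⟩ :
              Matrix (Fin (r j)) (Fin (r j)) ℂ).charpoly.roots.toFinset : Set ℂ) := by
          rintro u ⟨j, hu⟩
          exact Set.mem_iUnion.2 ⟨j, Multiset.mem_toFinset.2
            ((Polynomial.mem_roots (Matrix.charpoly_monic _).ne_zero).2 hu)⟩
        exact (Set.finite_iUnion fun j => Finset.finite_toSet _).subset h1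
      refine (Pool.Agent.HZ.finite_traces_of_roots R _ (Wd_finite d hZ)).subset ?_
      rintro t ⟨φ, hφ, hφ0, hφN, ⟨hφ', hf⟩, rfl⟩
      refine ⟨_, fun c hc => ?_, rfl⟩
      have h1 := hch ⟨φ y, hφ' y y.2⟩ c hc
      refine Wd_mono d ?_ h1
      rintro u ⟨j, hu⟩
      refine ⟨j, Pool.Agent.HZ.root_of_traces _ _ (fun e => ?_) u hu⟩
      have h2 := congrFun ((hf j).symm.trans (hf₀ j)) (y ^ e)
      have e1 : ∀ (ψ : MulAut (F g n)) (hψ : ∀ y ∈ N.comap θ.toMonoidHom, ψ y ∈ N),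
          (σ j ⟨ψ ((y ^ e : ↥(N.comap θ.toMonoidHom)) : F g n), hψ _ (y ^ e).2⟩ :
            Matrix (Fin (r j)) (Fin (r j)) ℂ) =
          (σ j ⟨ψ (y : F g n), hψ y y.2⟩ : Matrix (Fin (r j)) (Fin (r j)) ℂ) ^ e := by
        intro ψ hψ
        have e2 : (⟨ψ ((y ^ e : ↥(N.comap θ.toMonoidHom)) : F g n), hψ _ (y ^ e).2⟩ : N) =
            (⟨ψ (y : F g n), hψ y y.2⟩ : N) ^ e := by
          apply Subtype.ext
          show ψ ((y ^ e : ↥(N.comap θ.toMonoidHom)) : F g n) =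
            (((⟨ψ (y : F g n), hψ y y.2⟩ : N) ^ e : N) : F g n)
          rw [SubgroupClass.coe_pow, SubgroupClass.coe_pow, map_pow]
        rw [e2, map_pow, Units.val_pow_eq_pow_val]
      simp only [e1] at h2
      exact h2
    · refine Set.finite_empty.subset ?_
      rintro t ⟨φ, hφ, hφ0, hφN, ⟨hφ', hf⟩, rfl⟩
      exact absurd ⟨φ, hφ', hf⟩ hex
  -- the characters on the subgroup
  have h1 : {χ : ↥(N.comap θ.toMonoidHom) → ℂ | ∃ ρ' ∈ Ξ,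
      χ = fun y : ↥(N.comap θ.toMonoidHom) =>
        (ρ' (y : F g n) : Matrix (Fin R) (Fin R) ℂ).trace}.Finite := by
    obtain ⟨s, -, hs⟩ := hF ↥(N.comap θ.toMonoidHom) R Set.univ
    refine Set.Finite.of_finite_image
      (f := fun (χ : ↥(N.comap θ.toMonoidHom) → ℂ) (x : (s : Set ↥(N.comap θ.toMonoidHom))) =>
        χ x) ?_ ?_
    · refine (Set.Finite.pi' fun x : (s : Set ↥(N.comap θ.toMonoidHom)) => hT x).subset ?_
      rintro _ ⟨_, ⟨_, ⟨φ, hφ, hφ0, hφN, rfl⟩, rfl⟩, rfl⟩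
      intro x
      exact ⟨φ, hφ, hφ0, hφN, rfl⟩
    · rintro _ ⟨ρ₁, hρ₁, rfl⟩ _ ⟨ρ₂, hρ₂, rfl⟩ h
      funext x
      exact hs (ρ₁.comp (N.comap θ.toMonoidHom).subtype) (ρ₂.comp (N.comap θ.toMonoidHom).subtype)
        (fun y hy => congrFun h ⟨y, hy⟩) x (Set.mem_univ x)
  refine (hE (F g n) (N.comap θ.toMonoidHom) R Ξ h1).subset ?_
  rintro _ ⟨φ, hφ, hφ0, hφN, rfl⟩
  exact ⟨ρ.comp φ.toMonoidHom, ⟨φ, hφ, hφ0, hφN, rfl⟩, rfl⟩

/-- the assembly -/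
theorem tod (hE : St_Ext) (hF : St_Fnn) (hM : St_Mci) (g n k R m h d : ℕ)
    (w : SurfaceGroup g → ZMod k) (hk : 0 < k)
    (N : Subgroup (F g n)) [N.Normal] [N.FiniteIndex]
    (hex : ∃ θ ∈ MC g n, ∀ i : Fin g, (i : ℕ) < h → θ (ga i) ∈ N ∧ θ (gb i) ∈ N)
    (ρ : F g n →* GL (Fin R) ℂ) (r : Fin m → ℕ) (σ : ∀ j, N →* GL (Fin (r j)) ℂ)
    (hch : ∀ (y : N) (z : ℂ), (ρ (y : F g n) : Matrix (Fin R) (Fin R) ℂ).charpoly.IsRoot z →
      z ∈ Wd d {u | ∃ j, (σ j y : Matrix (Fin (r j)) (Fin (r j)) ℂ).charpoly.IsRoot u})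
    (hS : ∀ θ ∈ MC g n, θ (x0 g n) = x0 g n →
      (∀ i : Fin g, (i : ℕ) < h → θ (ga i) ∈ N ∧ θ (gb i) ∈ N) →
      ∀ (j : Fin m) (τ : Fin g → ZMod k × ZMod k),
      {χ : ↥(N.comap θ.toMonoidHom) → ℂ | ∃ φ ∈ MC g n,
        φ (x0 g n) = x0 g n ∧ (∀ y, φ y * (θ y)⁻¹ ∈ N) ∧ wty w φ = τ ∧
        ∃ hφ : ∀ y ∈ N.comap θ.toMonoidHom, φ y ∈ N,
        χ = fun y : ↥(N.comap θ.toMonoidHom) =>
          (σ j ⟨φ y, hφ y y.2⟩ : Matrix (Fin (r j)) (Fin (r j)) ℂ).trace}.Finite) :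
    {χ : F g n → ℂ | ∃ φ ∈ MC g n,
      χ = fun y => (ρ (φ y) : Matrix (Fin R) (Fin R) ℂ).trace}.Finite := by
  classical
  obtain ⟨θ₀, hθ₀, hθ₀N⟩ := hex
  obtain ⟨u, hu⟩ := isConj_iff.1 hθ₀.1
  -- the class of the identity
  set θ : MulAut (F g n) := MulAut.conj u * θ₀ with hθdef
  have hθ : θ ∈ MC g n := LGP.MC_mul (LGP.Psh_conj_mem u) hθ₀
  have hθ0 : θ (x0 g n) = x0 g n := by
    rw [hθdef, MulAut.mul_apply, MulAut.conj_apply]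
    exact hu
  have hθN : ∀ i : Fin g, (i : ℕ) < h → θ (ga i) ∈ N ∧ θ (gb i) ∈ N := by
    intro i hi
    rw [hθdef, MulAut.mul_apply, MulAut.mul_apply, MulAut.conj_apply, MulAut.conj_apply]
    exact ⟨Subgroup.Normal.conj_mem inferInstance _ (hθ₀N i hi).1 u,
      Subgroup.Normal.conj_mem inferInstance _ (hθ₀N i hi).2 u⟩
  have h1 := Tod_one hE hF g n k R m d w hk N θ ρ r σ hch (hS θ hθ hθ0 hθN)
  -- the homomorphisms to the quotient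
  have hhom : Finite (F g n →* F g n ⧸ N) :=
    Finite.of_equiv _ (FreeGroup.lift (α := Fin g × Bool ⊕ Fin n) (β := F g n ⧸ N))
  have h2 : ∀ κ : F g n →* F g n ⧸ N, {χ : F g n → ℂ | ∃ φ ∈ MC g n, φ (x0 g n) = x0 g n ∧
      (QuotientGroup.mk' N).comp φ.toMonoidHom = κ ∧
      χ = fun y => (ρ (φ y) : Matrix (Fin R) (Fin R) ℂ).trace}.Finite := by
    intro κ
    by_cases hex : ∃ φ₀ ∈ MC g n, φ₀ (x0 g n) = x0 g n ∧
        (QuotientGroup.mk' N).comp φ₀.toMonoidHom = κ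
    · obtain ⟨φ₀, hφ₀, hφ₀0, hφ₀κ⟩ := hex
      refine (h1.image fun χ : F g n → ℂ => fun y => χ ((θ⁻¹ * φ₀) y)).subset ?_
      rintro _ ⟨φ, hφ, hφ0, hφκ, rfl⟩
      refine ⟨fun y => (ρ ((φ * φ₀⁻¹ * θ) y) : Matrix (Fin R) (Fin R) ℂ).trace,
        ⟨φ * φ₀⁻¹ * θ, LGP.MC_mul (LGP.MC_mul hφ (hM g n φ₀ hφ₀)) hθ, ?_, ?_, rfl⟩, ?_⟩
      · have e : φ₀⁻¹ (x0 g n) = x0 g n := by
          have e1 : φ₀⁻¹ (φ₀ (x0 g n)) = x0 g n := by
            rw [← MulAut.mul_apply, inv_mul_cancel, MulAut.one_apply]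
          rwa [hφ₀0] at e1
        rw [MulAut.mul_apply, MulAut.mul_apply, hθ0, e, hφ0]
      · intro y
        have e1 : φ₀ (φ₀⁻¹ (θ y)) = θ y := by
          rw [← MulAut.mul_apply, mul_inv_cancel, MulAut.one_apply]
        have e2 := DFunLike.congr_fun (hφκ.trans hφ₀κ.symm) (φ₀⁻¹ (θ y))
        have e3 : (QuotientGroup.mk' N) (φ (φ₀⁻¹ (θ y))) =
            (QuotientGroup.mk' N) (φ₀ (φ₀⁻¹ (θ y))) := e2
        rw [e1] at e3
        rw [MulAut.mul_apply, MulAut.mul_apply]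
        have e4 : (QuotientGroup.mk' N) (φ (φ₀⁻¹ (θ y)) * (θ y)⁻¹) = 1 := by
          rw [map_mul, e3, map_inv, mul_inv_cancel]
        have e5 : φ (φ₀⁻¹ (θ y)) * (θ y)⁻¹ ∈ (QuotientGroup.mk' N).ker :=
          MonoidHom.mem_ker.2 e4
        rwa [QuotientGroup.ker_mk'] at e5
      · funext y
        have e : (φ * φ₀⁻¹ * θ) ((θ⁻¹ * φ₀) y) = φ y := by
          rw [← MulAut.mul_apply]
          have e1 : φ * φ₀⁻¹ * θ * (θ⁻¹ * φ₀) = φ := by group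
          rw [e1]
        show (ρ ((φ * φ₀⁻¹ * θ) ((θ⁻¹ * φ₀) y)) : Matrix (Fin R) (Fin R) ℂ).trace = _
        rw [e]
    · refine Set.finite_empty.subset ?_
      rintro _ ⟨φ, hφ, hφ0, hφκ, -⟩
      exact absurd ⟨φ, hφ, hφ0, hφκ⟩ hex
  refine (Set.finite_iUnion h2).subset ?_
  rintro _ ⟨φ, hφ, rfl⟩
  obtain ⟨v, hv⟩ := isConj_iff.1 hφ.1
  refine Set.mem_iUnion.2 ⟨(QuotientGroup.mk' N).comp (MulAut.conj v * φ).toMonoidHom,
    MulAut.conj v * φ, LGP.MC_mul (LGP.Psh_conj_mem v) hφ, ?_, rfl, ?_⟩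
  · rw [MulAut.mul_apply, MulAut.conj_apply]
    exact hv
  · funext y
    exact (Tod_conj ρ v φ y).symm

end Pool.Agent.LGC
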