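import Pool.Agent.LGC.Bas
import Pool.Agent.LGP.Aut
import Pool.Agent.LGP.Psh
import Pool.Agent.HZ.RedB

/-!
# LGC / Top: the theorem for characteristic roots in a finite set (helper95)

Statement of helper21, `LGC.St_Top`.
-/

set_option autoImplicit false

namespace Pool.Agent.LGC

open Matrix Module Helper12.Sc
open SpQ (Hd WStep WReach WExt Good bare bd cj1 IsSpinStructure)
open LGP (F ga gb gx x0 MC NS MR stdL stdM dstd wty prj cyc)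

/-- the trace from a factorisation of the characteristic polynomial -/
private theorem Top_trace {R m : ℕ} (A : Matrix (Fin R) (Fin R) ℂ) (r : Fin m → ℕ)
    (B : ∀ j, Matrix (Fin (r j)) (Fin (r j)) ℂ) (h : A.charpoly = ∏ j, (B j).charpoly) :
    A.trace = ∑ j, (B j).trace := by
  rw [Matrix.trace_eq_neg_charpoly_nextCoeff, h,
    Polynomial.Monic.nextCoeff_prod _ _ (fun j _ => Matrix.charpoly_monic (B j)),
    ← Finset.sum_neg_distrib]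
  exact Finset.sum_congr rfl fun j _ => (Matrix.trace_eq_neg_charpoly_nextCoeff (B j)).symm

/-- conjugation does not change the trace -/
private theorem Top_conj {g n R : ℕ} (ρ : F g n →* GL (Fin R) ℂ) (u : F g n)
    (φ : MulAut (F g n)) (y : F g n) :
    (ρ ((MulAut.conj u * φ) y) : Matrix (Fin R) (Fin R) ℂ).trace =
      (ρ (φ y) : Matrix (Fin R) (Fin R) ℂ).trace := by
  rw [MulAut.mul_apply, MulAut.conj_apply, map_mul, map_mul, map_inv, Units.val_mul,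
    Units.val_mul, Matrix.trace_mul_comm, ← mul_assoc, ← Units.val_mul, inv_mul_cancel,
    Units.val_one, one_mul]

/-- the traces of the pieces on the simple loops -/
private theorem Top_fin {g n k R m : ℕ} (w : SurfaceGroup g → ZMod k) (N : Subgroup (F g n))
    (ρ : F g n →* GL (Fin R) ℂ) (r : Fin m → ℕ) (σ : ∀ j, N →* GL (Fin (r j)) ℂ)
    (hch : ∀ y : N, (ρ (y : F g n) : Matrix (Fin R) (Fin R) ℂ).charpoly =
      ∏ j, (σ j y : Matrix (Fin (r j)) (Fin (r j)) ℂ).charpoly)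
    (hfin : {z : ℂ | ∃ y ∈ N, NS y ∧ w (prj g n y) = 0 ∧
      (ρ y : Matrix (Fin R) (Fin R) ℂ).charpoly.IsRoot z}.Finite) (j : Fin m) :
    {z : ℂ | ∃ y : N, NS (y : F g n) ∧ w (prj g n y) = 0 ∧
      z = (σ j y : Matrix (Fin (r j)) (Fin (r j)) ℂ).trace}.Finite := by
  refine (Pool.Agent.HZ.finite_traces_of_roots (r j) _ hfin).subset ?_
  rintro _ ⟨y, h1, h2, rfl⟩
  refine ⟨_, fun c hc => ⟨y, y.2, h1, h2, ?_⟩, rfl⟩
  rw [hch y]
  unfold Polynomial.IsRoot at hc ⊢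
  rw [Polynomial.eval_prod]
  exact Finset.prod_eq_zero (Finset.mem_univ j) hc

/-- one class -/
private theorem Top_one (hB : St_Blk) (hE : St_Ext) (g n k R m h : ℕ)
    (w : SurfaceGroup g → ZMod k) (hk : 0 < k) (hw : IsSpinStructure k w)
    (N : Subgroup (F g n)) [N.Normal] [N.FiniteIndex] (hh : h ≤ g)
    (θ : MulAut (F g n)) (hθ : θ ∈ MC g n) (hθ0 : θ (x0 g n) = x0 g n)
    (hθN : ∀ i : Fin g, (i : ℕ) < h → θ (ga i) ∈ N ∧ θ (gb i) ∈ N)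
    (ρ : F g n →* GL (Fin R) ℂ) (r : Fin m → ℕ) (σ : ∀ j, N →* GL (Fin (r j)) ℂ)
    (hch : ∀ y : N, (ρ (y : F g n) : Matrix (Fin R) (Fin R) ℂ).charpoly =
      ∏ j, (σ j y : Matrix (Fin (r j)) (Fin (r j)) ℂ).charpoly)
    (hC : ∀ j, Cnd N h (r j) (σ j))
    (hfin : {z : ℂ | ∃ y ∈ N, NS y ∧ w (prj g n y) = 0 ∧
      (ρ y : Matrix (Fin R) (Fin R) ℂ).charpoly.IsRoot z}.Finite) :
    {χ : F g n → ℂ | ∃ φ ∈ MC g n, φ (x0 g n) = x0 g n ∧ (∀ y, φ y * (θ y)⁻¹ ∈ N) ∧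
      χ = fun y => (ρ (φ y) : Matrix (Fin R) (Fin R) ℂ).trace}.Finite := by
  classical
  have : NeZero k := ⟨hk.ne'⟩
  -- the representations
  let Ξ : Set (F g n →* GL (Fin R) ℂ) := {ρ' | ∃ φ ∈ MC g n, φ (x0 g n) = x0 g n ∧
    (∀ y, φ y * (θ y)⁻¹ ∈ N) ∧ ρ' = ρ.comp φ.toMonoidHom}
  -- the characters of the pieces
  let S : (Fin g → ZMod k × ZMod k) → ∀ j : Fin m, Set (↥(N.comap θ.toMonoidHom) → ℂ) :=
    fun τ j => {χ | ∃ φ ∈ MC g n,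
      φ (x0 g n) = x0 g n ∧ (∀ y, φ y * (θ y)⁻¹ ∈ N) ∧ wty w φ = τ ∧
      ∃ hφ : ∀ y ∈ N.comap θ.toMonoidHom, φ y ∈ N,
      χ = fun y : ↥(N.comap θ.toMonoidHom) =>
        (σ j ⟨φ y, hφ y y.2⟩ : Matrix (Fin (r j)) (Fin (r j)) ℂ).trace}
  have hS : ∀ τ j, (S τ j).Finite := fun τ j =>
    hB g n k (r j) h w hw N θ hθ hθ0 hh hθN (σ j) (hC j) (Top_fin w N ρ r σ hch hfin j) τ
  have h1 : {χ : ↥(N.comap θ.toMonoidHom) → ℂ | ∃ ρ' ∈ Ξ,
      χ = fun y : ↥(N.comap θ.toMonoidHom) =>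
        (ρ' (y : F g n) : Matrix (Fin R) (Fin R) ℂ).trace}.Finite := by
    have hU : (⋃ τ, (fun f : ∀ _ : Fin m, (↥(N.comap θ.toMonoidHom) → ℂ) =>
        fun y => ∑ j, f j y) '' (Set.univ.pi fun j => S τ j)).Finite :=
      Set.finite_iUnion fun τ => (Set.Finite.pi fun j => hS τ j).image _
    refine hU.subset ?_
    rintro _ ⟨_, ⟨φ, hφ, hφ0, hφN, rfl⟩, rfl⟩
    have hφ' : ∀ y ∈ N.comap θ.toMonoidHom, φ y ∈ N := by
      intro y hy
      have e := N.mul_mem (hφN y) hy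
      have e2 : φ y * (θ y)⁻¹ * θ.toMonoidHom y = φ y := inv_mul_cancel_right (φ y) (θ y)
      rwa [e2] at e
    refine Set.mem_iUnion.2 ⟨wty w φ, fun j y =>
      (σ j ⟨φ y, hφ' y y.2⟩ : Matrix (Fin (r j)) (Fin (r j)) ℂ).trace, ?_, ?_⟩
    · intro j _
      exact ⟨φ, hφ, hφ0, hφN, rfl, hφ', rfl⟩
    · funext y
      exact (Top_trace _ r _ (hch ⟨φ y, hφ' y y.2⟩)).symm
  have hindex : (N.comap θ.toMonoidHom).FiniteIndex := ⟨by
    rw [Subgroup.index_comap_of_surjective N (f := θ.toMonoidHom) θ.surjective]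
    exact Subgroup.FiniteIndex.index_ne_zero⟩
  refine (hE (F g n) (N.comap θ.toMonoidHom) R Ξ h1).subset ?_
  rintro _ ⟨φ, hφ, hφ0, hφN, rfl⟩
  exact ⟨ρ.comp φ.toMonoidHom, ⟨φ, hφ, hφ0, hφN, rfl⟩, rfl⟩

/-- **TOP**. -/
theorem thm_Top (hB : St_Blk) (hE : St_Ext) (hM : St_Mci) : St_Top := by
  intro g n k R m h w hk hw N _ _ hh hθex ρ r σ hch hC hfin
  classical
  obtain ⟨θ₀, hθ₀, hθ₀N⟩ := hθex
  obtain ⟨u, hu⟩ := isConj_iff.1 hθ₀.1
  -- the class of the identity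
  set θ : MulAut (F g n) := MulAut.conj u * θ₀ with hθdef
  have hθ : θ ∈ MC g n := LGP.MC_mul (LGP.Psh_conj_mem u) hθ₀
  have hθ0 : θ (x0 g n) = x0 g n := by
    rw [hθdef, MulAut.mul_apply, MulAut.conj_apply]
    exact hu
  have hθN : ∀ i : Fin g, (i : ℕ) < h → θ (ga i) ∈ N ∧ θ (gb i) ∈ N := by
    intro i hi
    rw [hθdef, MulAut.mul_apply, MulAut.mul_apply, MulAut.conj_apply, MulAut.conj_apply]
    exact ⟨Subgroup.Normal.conj_mem inferInstance _ (hθ₀N i hi).1 u,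
      Subgroup.Normal.conj_mem inferInstance _ (hθ₀N i hi).2 u⟩
  have h1 := Top_one hB hE g n k R m h w hk hw N hh θ hθ hθ0 hθN ρ r σ hch hC hfin
  -- the homomorphisms to the quotient
  have hhom : Finite (F g n →* F g n ⧸ N) :=
    Finite.of_equiv _ (FreeGroup.lift (α := Fin g × Bool ⊕ Fin n) (β := F g n ⧸ N))
  have h2 : ∀ κ : F g n →* F g n ⧸ N, {χ : F g n → ℂ | ∃ φ ∈ MC g n, φ (x0 g n) = x0 g n ∧
      (QuotientGroup.mk' N).comp φ.toMonoidHom = κ ∧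
      χ = fun y => (ρ (φ y) : Matrix (Fin R) (Fin R) ℂ).trace}.Finite := by
    intro κ
    by_cases hex : ∃ φ₀ ∈ MC g n, φ₀ (x0 g n) = x0 g n ∧
        (QuotientGroup.mk' N).comp φ₀.toMonoidHom = κ
    · obtain ⟨φ₀, hφ₀, hφ₀0, hφ₀κ⟩ := hex
      refine (h1.image fun χ : F g n → ℂ => fun y => χ ((θ⁻¹ * φ₀) y)).subset ?_
      rintro _ ⟨φ, hφ, hφ0, hφκ, rfl⟩
      refine ⟨fun y => (ρ ((φ * φ₀⁻¹ * θ) y) : Matrix (Fin R) (Fin R) ℂ).trace,
        ⟨φ * φ₀⁻¹ * θ, LGP.MC_mul (LGP.MC_mul hφ (hM g n φ₀ hφ₀)) hθ, ?_, ?_, rfl⟩, ?_⟩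
      · have e : φ₀⁻¹ (x0 g n) = x0 g n := by
          have e1 : φ₀⁻¹ (φ₀ (x0 g n)) = x0 g n := by
            rw [← MulAut.mul_apply, inv_mul_cancel, MulAut.one_apply]
          rwa [hφ₀0] at e1
        rw [MulAut.mul_apply, MulAut.mul_apply, hθ0, e, hφ0]
      · intro y
        have e1 : φ₀ (φ₀⁻¹ (θ y)) = θ y := by
          rw [← MulAut.mul_apply, mul_inv_cancel, MulAut.one_apply]
        have e2 := DFunLike.congr_fun (hφκ.trans hφ₀κ.symm) (φ₀⁻¹ (θ y))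
        have e3 : (QuotientGroup.mk' N) (φ (φ₀⁻¹ (θ y))) =
            (QuotientGroup.mk' N) (φ₀ (φ₀⁻¹ (θ y))) := e2
        rw [e1] at e3
        rw [MulAut.mul_apply, MulAut.mul_apply]
        have e4 : (QuotientGroup.mk' N) (φ (φ₀⁻¹ (θ y)) * (θ y)⁻¹) = 1 := by
          rw [map_mul, e3, map_inv, mul_inv_cancel]
        have e5 : φ (φ₀⁻¹ (θ y)) * (θ y)⁻¹ ∈ (QuotientGroup.mk' N).ker :=
          MonoidHom.mem_ker.2 e4
        rwa [QuotientGroup.ker_mk'] at e5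
      · funext y
        have e : (φ * φ₀⁻¹ * θ) ((θ⁻¹ * φ₀) y) = φ y := by
          rw [← MulAut.mul_apply]
          have e1 : φ * φ₀⁻¹ * θ * (θ⁻¹ * φ₀) = φ := by group
          rw [e1]
        show (ρ ((φ * φ₀⁻¹ * θ) ((θ⁻¹ * φ₀) y)) : Matrix (Fin R) (Fin R) ℂ).trace = _
        rw [e]
    · refine Set.finite_empty.subset ?_
      rintro _ ⟨φ, hφ, hφ0, hφκ, -⟩
      exact absurd ⟨φ, hφ, hφ0, hφκ⟩ hex
  refine (Set.finite_iUnion h2).subset ?_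
  rintro _ ⟨φ, hφ, rfl⟩
  obtain ⟨v, hv⟩ := isConj_iff.1 hφ.1
  refine Set.mem_iUnion.2 ⟨(QuotientGroup.mk' N).comp (MulAut.conj v * φ).toMonoidHom,
    MulAut.conj v * φ, LGP.MC_mul (LGP.Psh_conj_mem v) hφ, ?_, rfl, ?_⟩
  · rw [MulAut.mul_apply, MulAut.conj_apply]
    exact hv
  · funext y
    exact (Top_conj ρ v φ y).symm

end Pool.Agent.LGC
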