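import Pool.Agent.LGC.Bas
import Pool.Agent.LGP.WVec

/-!
# LGC / Ven: the vector theorem for `N` (helper81)

Statement of helper21, `LGC.St_Ven`; the proof is as `LGP.wvec`.
-/

set_option autoImplicit false

namespace Pool.Agent.LGC

open Module Helper12.Sc
open SpQ (Hd WStep WReach WExt Good bare bd cj1)
open LGP (cyc)

section
variable {K U Γ : Type} [Field K] [AddCommGroup U] [Module K U] [Group Γ] {k : ℕ}

/-- the span of `w` and of the images of `w` under the first components of weight `-1` in `N` -/
private def Ven_Sp (N : Subgroup Γ) (R : N →* Module.End K U) (w : U) (P : List (Hd Γ k)) :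
    Submodule K U :=
  Submodule.span K (insert w {u | ∃ (x : Γ) (hx : x ∈ N), x ∈ SpQ.fc P (-1) ∧ R ⟨x, hx⟩ w = u})

variable {N : Subgroup Γ} {R : N →* Module.End K U} {w : U}

private theorem Ven_self (P : List (Hd Γ k)) : w ∈ Ven_Sp N R w P :=
  Submodule.subset_span (Set.mem_insert _ _)

private theorem Ven_mono {P P' : List (Hd Γ k)} (h : WExt P' P) :
    Ven_Sp N R w P ≤ Ven_Sp N R w P' := by
  refine Submodule.span_mono (Set.insert_subset_insert ?_)
  rintro u ⟨x, hx, hxf, rfl⟩
  exact ⟨x, hx, SpQ.fc_mono h (-1) hxf, rfl⟩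

private theorem Ven_le (P : List (Hd Γ k)) : Ven_Sp N R w P ≤ cyc R w ⊤ := by
  unfold Ven_Sp
  rw [Submodule.span_le]
  rintro u (rfl | ⟨x, hx, _, rfl⟩)
  · exact LGP.self_mem_cyc _ _ _
  · exact Submodule.subset_span ⟨⟨x, hx⟩, Subgroup.mem_top _, rfl⟩

private theorem Ven_main (hA : St_All) (hN : St_Non) (hG : St_Gen) [FiniteDimensional K U] [N.Normal]
    (X : List (It Γ k)) (B : List (Hd Γ k)) (hgood : ∀ h ∈ B, Good h) (hkl : ∀ h ∈ B, Kl N h)
    (hcyc : cyc R w ((GI (X ++ hl B)).subgroupOf N) = cyc R w ⊤)
    (hlen : 2 * finrank K (cyc R w ⊤) ≤ B.length + 2) (T : U →ₗ[K] K) (h0 : T w = 0)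
    (hT : ∀ (X' : List (It Γ k)) (P : List (Hd Γ k)), IReach (X ++ hl B) (X' ++ hl P) →
      (∀ h ∈ P, Kl N h) → ∀ (x : Γ) (hx : x ∈ N), x ∈ SpQ.fc P (-1) → T (R ⟨x, hx⟩ w) = 0) :
    ∀ x : N, T (R x w) = 0 := by
  by_cases hw : w = 0
  · intro x
    rw [hw, map_zero, map_zero]
  -- the functional vanishes on the spans
  have hSp : ∀ (X' : List (It Γ k)) (P : List (Hd Γ k)), IReach (X ++ hl B) (X' ++ hl P) →
      (∀ h ∈ P, Kl N h) → ∀ u ∈ Ven_Sp N R w P, T u = 0 := by
    intro X' P hr hP u hu
    unfold Ven_Sp at hu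
    refine Submodule.span_induction (p := fun u _ => T u = 0) ?_ ?_ ?_ ?_ hu
    · rintro u (rfl | ⟨x, hx, hxf, rfl⟩)
      · exact h0
      · exact hT X' P hr hP x hx hxf
    · exact map_zero T
    · intro a b _ _ ha hb
      rw [map_add, ha, hb, add_zero]
    · intro c a _ ha
      rw [map_smul, ha, smul_zero]
  have main : ∀ m : ℕ, m < finrank K (cyc R w (⊤ : Subgroup N)) →
      (∀ x : N, T (R x w) = 0) ∨
      ∃ (X' : List (It Γ k)) (B' P : List (Hd Γ k)), IReach (X ++ hl B) (X' ++ hl (B' ++ P)) ∧
        (∀ h ∈ B', Good h) ∧ (∀ h ∈ B' ++ P, Kl N h) ∧ P.length = m ∧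
        B'.length + m = B.length ∧
        cyc R w ((GI (X' ++ hl B')).subgroupOf N) = cyc R w ⊤ ∧
        m + 1 ≤ finrank K (Ven_Sp N R w P) := by
    intro m
    induction m with
    | zero =>
      intro _
      right
      refine ⟨X, B, [], by simpa using IReach.refl _, hgood, by simpa using hkl, rfl, by simp,
        hcyc, ?_⟩
      have h1 : Ven_Sp N R w ([] : List (Hd Γ k)) ≠ ⊥ := by
        intro h
        have := Ven_self (N := N) (R := R) (w := w) ([] : List (Hd Γ k))
        rw [h, Submodule.mem_bot] at this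
        exact hw this
      have h2 := Submodule.one_le_finrank_iff.2 h1
      simpa using h2
    | succ m ih =>
      intro hm
      rcases ih (by omega) with hdone | ⟨X', B', P, hr, hBg, hBk, hPlen, hBlen', hcy, hdim⟩
      · exact Or.inl hdone
      have hBlen : finrank K (cyc R w (⊤ : Subgroup N)) ≤ B'.length := by omega
      have hBne : B' ≠ [] := by
        intro h0'
        rw [h0', List.length_nil] at hBlen
        omega
      by_cases hst : ∃ (X'' : List (It Γ k)) (B₁ : List (Hd Γ k)) (p : Hd Γ k),
          IReach (X' ++ hl B') (X'' ++ hl (B₁ ++ [p])) ∧ (∀ h ∈ B₁ ++ [p], Good h) ∧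
          (∀ h ∈ B₁ ++ [p], Kl N h) ∧ B₁.length + 1 = B'.length ∧
          cyc R w ((GI (X'' ++ hl B₁)).subgroupOf N) = cyc R w ⊤ ∧
          Ven_Sp N R w ([p] ++ P) ≠ Ven_Sp N R w P
      · obtain ⟨X'', B₁, p, h1, hg1, hk1, hl1, h2, h3⟩ := hst
        right
        refine ⟨X'', B₁, [p] ++ P, ?_, fun h hh => hg1 h (by simp [hh]), ?_, by simp [hPlen],
          by omega, h2, ?_⟩
        · refine hr.trans ?_
          have h4 := h1.right (hl P)
          have e1 : X' ++ hl B' ++ hl P = X' ++ hl (B' ++ P) := by
            rw [hl_append, List.append_assoc]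
          have e2 : X'' ++ hl (B₁ ++ [p]) ++ hl P = X'' ++ hl (B₁ ++ ([p] ++ P)) := by
            rw [hl_append, hl_append, hl_append, List.append_assoc, List.append_assoc]
          rwa [e1, e2] at h4
        · intro h hh
          rw [← List.append_assoc] at hh
          rcases List.mem_append.1 hh with h5 | h5
          · exact hk1 h h5
          · exact hBk h (List.mem_append_right _ h5)
        · have h4 : Ven_Sp N R w P ≤ Ven_Sp N R w ([p] ++ P) := Ven_mono (WExt.drop_left [p] P)
          have h5 := Submodule.finrank_lt_finrank_of_lt (lt_of_le_of_ne h4 (Ne.symm h3))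
          omega
      · left
        push Not at hst
        set S : Subgroup N := LGP.stb R (Ven_Sp N R w P) with hS
        have hkB' : ∀ h ∈ B', Kl N h := fun h hh => hBk h (List.mem_append_left _ hh)
        have key : N ⊓ GI (X' ++ hl B') ≤ S.map N.subtype := by
          refine hG Γ k N X' B' hBne hBg hkB' _ ?_
          intro X'' B'' hr' hlen' hg' hk'
          have hEN : SpQ.E B'' ≤ N := Kl_list.1 hk'
          have hGI : GI (X'' ++ hl B'') = GI (X' ++ hl B') := hr'.GI_eq
          refine hA Γ k (fun G => cyc R w ((GI X'' ⊔ G).subgroupOf N) = cyc R w ⊤) B''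
            (S.map N.subtype) hg' ?_ ?_
          · intro B₃ hw3 hg3
            have hE3 : SpQ.E B₃ = SpQ.E B'' := hw3.E_eq
            have hk3 : ∀ h ∈ B₃, Kl N h := Kl_list.2 (by rw [hE3]; exact hEN)
            have hGI3 : GI (X'' ++ hl B₃) = GI (X' ++ hl B') := by
              rw [GI_append_hl, hE3, ← GI_append_hl, hGI]
            have hlen3 : B₃.length = B''.length := hw3.length_eq
            obtain ⟨s, p, t, h1, h2⟩ := hN K U Γ k N R w X'' B₃ hw hk3 (by
              rw [hGI3, hcy, hlen3, hlen']
              exact hBlen)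
            refine ⟨s, p, t, h1, ?_⟩
            show cyc R w ((GI X'' ⊔ SpQ.E (s ++ t)).subgroupOf N) = cyc R w ⊤
            rw [← GI_append_hl, h2, hGI3, hcy]
          · intro B₃ p hw3 hg3 hfull
            have hfull' : cyc R w ((GI X'' ⊔ SpQ.E B₃).subgroupOf N) = cyc R w ⊤ := hfull
            have hE3 : SpQ.E (B₃ ++ [p]) = SpQ.E B'' := hw3.E_eq
            have hk3 : ∀ h ∈ B₃ ++ [p], Kl N h := Kl_list.2 (by rw [hE3]; exact hEN)
            have hlen3 : (B₃ ++ [p]).length = B''.length := hw3.length_eq
            have h3 := hst X'' B₃ p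
              (hr'.trans (by
                have h4 := IReach.of_wreach' hw3 X'' []
                rwa [List.append_nil, List.append_nil] at h4)) hg3 hk3
              (by
                rw [List.length_append, List.length_singleton] at hlen3
                rw [hlen3, hlen']) (by rw [GI_append_hl]; exact hfull')
            have hkp : Kl N p := hk3 p (by simp)
            have hstab : ∀ (z : Γ) (hz : z ∈ N), z ∈ SpQ.fc [p] (-1) → (⟨z, hz⟩ : N) ∈ S := by
              intro z hz hzf s hs
              rw [← h3]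
              unfold Ven_Sp at hs
              refine Submodule.span_induction
                (p := fun s _ => R ⟨z, hz⟩ s ∈ Ven_Sp N R w ([p] ++ P)) ?_ ?_ ?_ ?_ hs
              · rintro u (rfl | ⟨x, hx, hxf, rfl⟩)
                · exact Submodule.subset_span (Or.inr ⟨z, hz,
                    SpQ.fc_mono (WExt.drop_right [p] P) _ hzf, rfl⟩)
                · show R ⟨z, hz⟩ (R ⟨x, hx⟩ w) ∈ _
                  rw [← Module.End.mul_apply, ← map_mul]
                  have h4 := SpQ.fc_mul hzf hxf
                  have e : (-1 : ZMod k) + -1 + 1 = -1 := by ring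
                  rw [e] at h4
                  exact Submodule.subset_span (Or.inr ⟨z * x, N.mul_mem hz hx, h4, rfl⟩)
              · rw [map_zero]
                exact Submodule.zero_mem _
              · intro a b _ _ ha hb
                rw [map_add]
                exact Submodule.add_mem _ ha hb
              · intro c a _ ha
                rw [map_smul]
                exact Submodule.smul_mem _ c ha
            have hgp : Good p := hg3 p (by simp)
            obtain ⟨⟨x, y⟩, o⟩ := p
            obtain rfl : o = (-1, 1) := hgp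
            rw [SpQ.E_singleton_le]
            have hxN : x ∈ N := hkp.1
            have hyN : y ∈ N := hkp.2
            refine ⟨⟨⟨x, hxN⟩, hstab x hxN ⟨y, 1, WExt.refl _⟩, rfl⟩, ?_⟩
            have h4 : (⟨y⁻¹, N.inv_mem hyN⟩ : N) ∈ S :=
              hstab _ _ ⟨_, _, WExt.rot x y (-1) 1⟩
            exact ⟨⟨y, hyN⟩, inv_mem_iff.1 h4, rfl⟩
        have hc : cyc R w (⊤ : Subgroup N) ≤ Ven_Sp N R w P := by
          rw [← hcy]
          refine LGP.cyc_le (Ven_self P) ?_
          intro x hx
          obtain ⟨y, hy, hyx⟩ := key (Subgroup.mem_inf.2 ⟨x.2, hx⟩)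
          have e : y = x := Subtype.ext hyx
          rw [← e]
          exact hy
        intro x
        refine hSp (X' ++ hl B') P ?_ (fun h hh => hBk h (List.mem_append_right _ hh)) _
          (hc (Submodule.subset_span ⟨x, Subgroup.mem_top _, rfl⟩))
        rw [List.append_assoc, ← hl_append]
        exact hr
  have hpos : 0 < finrank K (cyc R w (⊤ : Subgroup N)) := by
    have h1 : cyc R w (⊤ : Subgroup N) ≠ ⊥ := by
      intro h
      have := LGP.self_mem_cyc R w (⊤ : Subgroup N)
      rw [h, Submodule.mem_bot] at this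
      exact hw this
    exact Submodule.one_le_finrank_iff.2 h1
  rcases main (finrank K (cyc R w (⊤ : Subgroup N)) - 1) (by omega) with
    h | ⟨X', B', P, hr, -, hBk, -, -, -, hdim⟩
  · exact h
  · have h2 : Ven_Sp N R w P = cyc R w ⊤ :=
      Submodule.eq_of_le_of_finrank_le (Ven_le P) (by omega)
    intro x
    refine hSp (X' ++ hl B') P ?_ (fun h hh => hBk h (List.mem_append_right _ hh)) _ ?_
    · rw [List.append_assoc, ← hl_append]
      exact hr
    · rw [h2]
      exact Submodule.subset_span ⟨x, Subgroup.mem_top _, rfl⟩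

end

theorem thm_Ven (hA : St_All) (hN : St_Non) (hG : St_Gen) : St_Ven := by
  intro K U Γ _ _ _ _ _ k N _ R w X B hgood hkl hcyc hlen T h0 hT
  exact Ven_main hA hN hG X B hgood hkl hcyc hlen T h0 hT

end Pool.Agent.LGC
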