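import Pool.Agent.LGC.Bas

/-!
# The vector theorem for loops of weight zero

Helper65, for MP_0707f5_ag (Theorem C, offer 16065 of helper21).
-/

set_option autoImplicit false

namespace Pool.Agent.LGC

open Module Helper12.Sc
open SpQ (Hd WStep WReach WExt Good bare bd cj1)
open LGP (cyc)

/-- an item in front of a list moves to the block at the right end, unchanged -/
private theorem Vez_front {Γ : Type} [Group Γ] {k : ℕ} {Z X' : List (It Γ k)}
    {P : List (Hd Γ k)} {p : Hd Γ k} (h : IReach Z (Sum.inl p :: (X' ++ hl P))) :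
    ∃ X'' : List (It Γ k), IReach Z (X'' ++ hl (p :: P)) := by
  refine ⟨X'.map (icj (ib (Sum.inl p))⁻¹), h.trans ?_⟩
  have h1 := (IReach.move_right (Sum.inl p) X').right (hl P)
  have e1 : Sum.inl p :: X' ++ hl P = Sum.inl p :: (X' ++ hl P) := rfl
  have e2 : X'.map (icj (ib (Sum.inl p))⁻¹) ++ [Sum.inl p] ++ hl P =
      X'.map (icj (ib (Sum.inl p))⁻¹) ++ hl (p :: P) := by
    rw [hl_cons, List.append_assoc]
    rfl
  rwa [e1, e2] at h1

theorem thm_Vez (hN : St_Non) (hV : St_Ven) : St_Vez := by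
  intro K U Γ _ _ _ _ _ k N _ R w X₀ B₀ hB htop hlen T hT
  by_cases hw : w = 0
  · intro x
    rw [hw, map_zero, map_zero]
  -- the dimension is positive
  have hpos : 1 ≤ finrank K (cyc R w ⊤) := by
    have h1 : cyc R w ⊤ ≠ ⊥ := by
      intro h
      have := LGP.self_mem_cyc R w (⊤ : Subgroup N)
      rw [h, Submodule.mem_bot] at this
      exact hw this
    exact Submodule.one_le_finrank_iff.2 h1
  have htop' : cyc R w ((GI (X₀ ++ hl B₀)).subgroupOf N) = cyc R w ⊤ := by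
    rw [htop, Subgroup.top_subgroupOf]
  -- a handle which is not essential
  obtain ⟨s, p, t, rfl, hst⟩ := hN K U Γ k N R w X₀ B₀ hw hB (by rw [htop']; omega)
  rw [htop'] at hst
  -- it moves to the left end
  obtain ⟨u, -, hu⟩ := IReach.move_left (X₀ ++ hl s) (Sum.inl p)
  have hu' := hu.right (hl t)
  have e1 : X₀ ++ hl s ++ [Sum.inl p] ++ hl t = X₀ ++ hl (s ++ p :: t) := by
    rw [hl_append, hl_cons]
    simp
  have e2 : icj u (Sum.inl p) :: (X₀ ++ hl s) ++ hl t =
      Sum.inl (cj1 u p) :: (X₀ ++ hl (s ++ t)) := by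
    rw [hl_append, ← List.append_assoc]
    rfl
  rw [e1, e2] at hu'
  have hp' : Kl N (cj1 u p) := (hB p (by simp)).cj1 u
  obtain ⟨p'', hp'', hz⟩ := SpQ.exists_zero (cj1 u p)
  have hkp : Kl N p'' := by
    rw [Kl_iff, hp''.E_eq, ← Kl_iff]
    exact hp'
  -- good handles
  have hlen1 : (s ++ t).length + 1 = (s ++ p :: t).length := by
    simp only [List.length_append, List.length_cons]
    omega
  obtain ⟨h₀, G₀, hG₀⟩ : ∃ h₀ G₀, s ++ t = h₀ :: G₀ := by
    cases hst' : s ++ t with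
    | nil =>
      rw [hst', List.length_nil] at hlen1
      omega
    | cons a b => exact ⟨a, b, rfl⟩
  obtain ⟨h₁, B, hr, hg⟩ := SpQ.exists_good h₀ G₀
  rw [← hG₀] at hr
  have hE : SpQ.E (h₁ :: B) = SpQ.E (s ++ t) := hr.E_eq
  have hkB : ∀ h ∈ h₁ :: B, Kl N h := by
    rw [Kl_list, hE, ← Kl_list]
    intro h hh
    refine hB h ?_
    rcases List.mem_append.1 hh with hh | hh
    · exact List.mem_append_left _ hh
    · exact List.mem_append_right _ (List.mem_cons_of_mem _ hh)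
  have hlen2 : B.length + 2 = (s ++ p :: t).length := by
    have h1 := hr.length_eq
    rw [List.length_cons] at h1
    omega
  -- the reachable list
  have e3 : (X₀ ++ [Sum.inl h₁]) ++ hl B = X₀ ++ hl (h₁ :: B) := by
    rw [hl_cons, List.append_assoc]
    rfl
  have hreach : IReach (X₀ ++ hl (s ++ p :: t))
      (Sum.inl p'' :: ((X₀ ++ [Sum.inl h₁]) ++ hl B)) := by
    rw [e3]
    refine hu'.trans ?_
    have h1 := (IReach.of_wreach hp'').right (X₀ ++ hl (s ++ t))
    have h2 := ((IReach.of_wreach hr).left X₀).cons (Sum.inl p'')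
    exact IReach.trans h1 h2
  have hGI : GI ((X₀ ++ [Sum.inl h₁]) ++ hl B) = GI (X₀ ++ hl (s ++ t)) := by
    rw [e3, GI_append_hl, GI_append_hl, hE]
  obtain ⟨⟨γ, δ⟩, ⟨z, q⟩⟩ := p''
  dsimp only at hz
  subst hz
  have hγN : γ ∈ N := hkp.1
  have hγ : γ ∈ SpQ.fc [((γ, δ), ((0 : ZMod k), q))] 0 := ⟨δ, q, WExt.refl _⟩
  have hmul : ∀ x : N, T (R ⟨γ, hγN⟩ (R x w)) = T (R (⟨γ, hγN⟩ * x) w) := by
    intro x
    rw [map_mul, Module.End.mul_apply]
  have key := hV K U Γ k N R w (X₀ ++ [Sum.inl h₁]) B hg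
    (fun h hh => hkB h (List.mem_cons_of_mem _ hh)) (by rw [hGI, hst]) (by omega)
    (T.comp (R ⟨γ, hγN⟩)) ?_ ?_
  · intro x
    have h1 := key (⟨γ, hγN⟩⁻¹ * x)
    rw [LinearMap.comp_apply, hmul, mul_inv_cancel_left] at h1
    exact h1
  · rw [LinearMap.comp_apply]
    have e4 : Sum.inl ((γ, δ), ((0 : ZMod k), q)) :: (((X₀ ++ [Sum.inl h₁]) ++ hl B) ++ hl []) =
        Sum.inl ((γ, δ), ((0 : ZMod k), q)) :: ((X₀ ++ [Sum.inl h₁]) ++ hl B) := by
      rw [hl_nil, List.append_nil]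
    rw [← e4] at hreach
    obtain ⟨X'', hX''⟩ := Vez_front hreach
    refine hT X'' _ hX'' ?_ γ hγN hγ
    intro h hh
    rw [List.mem_singleton] at hh
    subst hh
    exact hkp
  · intro X' P hXP hP x hx hxP
    rw [LinearMap.comp_apply, hmul]
    obtain ⟨X'', hX''⟩ := Vez_front (hreach.trans (hXP.cons _))
    have h1 := SpQ.fc_mul hγ hxP
    have e5 : (0 : ZMod k) + -1 + 1 = 0 := by ring
    rw [e5] at h1
    refine hT X'' _ hX'' ?_ (γ * x) (N.mul_mem hγN hx) h1
    intro h hh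
    rcases List.mem_cons.1 hh with rfl | hh
    · exact hkp
    · exact hP h hh

end Pool.Agent.LGC
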